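import Pool.Agent.Lib.MP_9b987c_gt.HC.SpecA

/-!
# Module DOM: domination
-/

namespace Pool.Agent.Lib.MP_9b987c_gt.HC.DOMM

open scoped BigOperators
open Pool.Agent.Lib.MP_9b987c_gt.HC

section Gen

variable {K M N : Type} [CommRing K] [AddCommGroup M] [Module K M] [AddCommGroup N] [Module K N]

lemma gmap_smul {A : ℤ → Submodule K M} {B : ℤ → Submodule K N} {F : M →ₗ[K] N} {s : ℤ} (c : K)
    (h : GMap A B F s) : GMap A B (c • F) s := fun q x hx => (B _).smul_mem c (h q x hx)

lemma gmap_sum {J : Type} {T : Finset J} {A : ℤ → Submodule K M} {B : ℤ → Submodule K N}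
    {F : J → (M →ₗ[K] N)} {s : ℤ} (h : ∀ j ∈ T, GMap A B (F j) s) :
    GMap A B (∑ j ∈ T, F j) s := by
  intro q x hx
  rw [LinearMap.sum_apply]
  exact Submodule.sum_mem _ (fun j hj => h j hj q x hx)

end Gen

section Main

variable {K V W C ι : Type} [CommRing K] {D : Cov K V W C} {deg : ι → ℤ}
  {e : V → (ι → K) →ₗ[K] (ι → K)} {R : V → List V → ((ι → K) →ₗ[K] (ι → K))}

/-- The component `c`. -/
def cmp (c : C) : (C × ι → K) →ₗ[K] (ι → K) := LinearMap.funLeft K K (fun j => (c, j))

lemma cmp_apply (c : C) (z : C × ι → K) (j : ι) : cmp c z j = z (c, j) := rfl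

lemma vW_apply [Fintype C] (w : W) (z : C × ι → K) :
    vW D deg R w z = ∑ c, D.l c w • sU deg R (D.lift c w) (cmp c z) := by
  unfold vW
  rw [LinearMap.sum_apply]
  rfl

lemma etaW_apply [Fintype C] (w : W) (f : Fn K V ι) :
    etaW D deg w f = ∑ c, (D.l c w ^ 2) • hU deg (D.lift c w) f := by
  unfold etaW
  rw [LinearMap.sum_apply]
  rfl

lemma cmp_dP (w : W) (c : C) (z : C × ι → K) :
    cmp c (dP D R w z) = D.tau c w • R (D.lift c w) [] (cmp c z) := rfl

lemma cmp_uW (w : W) (c : C) (f : Fn K V ι) :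
    cmp c (uW D w f) = D.l c w • f (D.lift c w) [] := rfl

lemma ext_cmp {z z' : C × ι → K} (h : ∀ c, cmp c z = cmp c z') : z = z' := by
  funext r
  exact congr_fun (h r.1) r.2

lemma cmp_mem {q : ℤ} {z : C × ι → K} (h : z ∈ gr K (fun r : C × ι => deg r.2) q) (c : C) :
    cmp c z ∈ gr K deg q := fun j hj => h (c, j) hj

lemma mem_of_cmp {q : ℤ} {z : C × ι → K} (h : ∀ c, cmp c z ∈ gr K deg q) :
    z ∈ gr K (fun r : C × ι => deg r.2) q := fun r hr => h r.1 r.2 hr

lemma RR (h : PreRuth deg e R) (v : V) (x : ι → K) : R v [] (R v [] x) = 0 := by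
  have h1 := LinearMap.congr_fun (h.eqn v []) x
  simpa using h1

end Main

theorem main (hCXS : SpecCXS) : SpecDOM := by
  intro K V W C ι _ _ _ D deg lo n e R hD h hlo hhi w
  obtain ⟨c1, c2, c3, c4, c5, c6, c7, c8, c9, c10, c11, c12, c13, c14⟩ := hCXS K V ι deg e R h
  refine
    { lo_le := fun r => hlo r.2
      le_hi := fun r => hhi r.2
      d_d := c1
      dp_dp := ?_
      u_d := ?_
      d_v := ?_
      dom := ?_
      t_t := c5
      t_d := c6
      t_η := ?_
      th_u := ?_
      t_v := ?_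
      g_d := c10
      g_η := ?_
      g_u := ?_
      g_v := ?_
      g_dp := ?_
      bdd := ?_ }
  · apply LinearMap.ext; intro z
    apply ext_cmp; intro c
    rw [LinearMap.comp_apply, cmp_dP, cmp_dP, map_smul, RR h]
    simp only [smul_zero]
    rfl
  · apply LinearMap.ext; intro f
    apply ext_cmp; intro c
    rw [LinearMap.comp_apply, LinearMap.comp_apply, cmp_dP, cmp_uW, cmp_uW, map_smul, smul_smul,
      hD.tau_l]
    have := LinearMap.congr_fun (c3 (D.lift c w)) f
    congr 1
  · apply LinearMap.ext; intro z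
    rw [LinearMap.comp_apply, LinearMap.comp_apply, vW_apply, vW_apply, map_sum]
    refine Finset.sum_congr rfl (fun c _ => ?_)
    rw [map_smul, cmp_dP, map_smul, smul_smul, mul_comm, hD.tau_l]
    congr 1
    exact LinearMap.congr_fun (c2 (D.lift c w)) (cmp c z)
  · apply LinearMap.ext; intro f
    have e1 : (vW D deg R w ∘ₗ uW D w - (LinearMap.id : Fn K V ι →ₗ[K] Fn K V ι)) f =
      vW D deg R w (uW D w f) - f := rfl
    have e2 : (dS deg R ∘ₗ etaW D deg w + etaW D deg w ∘ₗ dS deg R) f =
      dS deg R (etaW D deg w f) + etaW D deg w (dS deg R f) := rfl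
    rw [e1, e2, vW_apply, etaW_apply, etaW_apply, map_sum]
    have e3 : f = ∑ c, (D.l c w ^ 2) • f := by
      rw [← Finset.sum_smul, hD.sum_sq, one_smul]
    have e4 : ∑ c, D.l c w • sU deg R (D.lift c w) (cmp c (uW D w f)) - f =
        ∑ c, (D.l c w ^ 2) • (sU deg R (D.lift c w) (f (D.lift c w) []) - f) := by
      conv_lhs => rw [e3]
      rw [← Finset.sum_sub_distrib]
      refine Finset.sum_congr rfl (fun c _ => ?_)
      rw [smul_sub, ← e3, cmp_uW, map_smul, smul_smul, pow_two]
    rw [e4, ← Finset.sum_add_distrib]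
    refine Finset.sum_congr rfl (fun c _ => ?_)
    rw [map_smul, ← smul_add]
    congr 1
    exact LinearMap.congr_fun (c4 (D.lift c w)) f
  · apply LinearMap.ext; intro f
    rw [LinearMap.neg_apply, LinearMap.comp_apply, LinearMap.comp_apply, etaW_apply, etaW_apply,
      map_sum, ← Finset.sum_neg_distrib]
    refine Finset.sum_congr rfl (fun c _ => ?_)
    rw [map_smul, ← smul_neg]
    congr 1
    exact LinearMap.congr_fun (c7 (D.lift c w)) f
  · apply LinearMap.ext; intro f
    apply ext_cmp; intro c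
    rw [LinearMap.comp_apply, LinearMap.comp_apply, cmp_uW]
    have e1 : cmp c (th K (fun r : C × ι => deg r.2) (uW D w f)) =
      th K deg (cmp c (uW D w f)) := rfl
    rw [e1, cmp_uW, map_smul]
    congr 1
    exact LinearMap.congr_fun (c8 (D.lift c w)) f
  · apply LinearMap.ext; intro z
    rw [LinearMap.comp_apply, LinearMap.comp_apply, vW_apply, vW_apply, map_sum]
    refine Finset.sum_congr rfl (fun c _ => ?_)
    rw [map_smul]
    congr 1
    exact LinearMap.congr_fun (c9 (D.lift c w)) (cmp c z)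
  · unfold etaW
    exact gmap_sum (fun c _ => gmap_smul _ (c11 (D.lift c w)))
  · intro q f hf
    apply mem_of_cmp; intro c
    rw [cmp_uW]
    exact (gr K deg _).smul_mem _ (c13 (D.lift c w) q f hf)
  · intro q z hz
    rw [vW_apply]
    refine Submodule.sum_mem _ (fun c _ => ?_)
    exact (grS K V deg _).smul_mem _ (c12 (D.lift c w) q _ (cmp_mem hz c))
  · intro q z hz
    apply mem_of_cmp; intro c
    rw [cmp_dP]
    refine (gr K deg _).smul_mem _ ?_
    have h1 := h.deg_R (D.lift c w) [] q _ (cmp_mem hz c)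
    have e1 : q + (1 - (([] : List V).length : ℤ)) = q + 1 := by simp
    rw [e1] at h1
    exact h1
  · intro q hq f hf
    funext v l i
    by_contra hne
    have h1 := hf v l i hne
    have h2 := hlo i
    have h3 : (0 : ℤ) ≤ (l.length : ℤ) := Int.natCast_nonneg _
    omega

end Pool.Agent.Lib.MP_9b987c_gt.HC.DOMM

namespace Pool.Agent.Lib.MP_9b987c_gt.HC

theorem specDOM (hCXS : SpecCXS) : SpecDOM := DOMM.main hCXS

end Pool.Agent.Lib.MP_9b987c_gt.HC
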