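import Pool.Agent.Lib.MP_9b987c_gt.HC.Base

section
/-!
# Set level construction: definitions

`V → W` with finitely many lifts (colours `C`), weights `l`, cut-offs `tau`; `R` a representation up
to homotopy on `V`.  We define the finite rank data on `W`.
-/
namespace Pool.Agent.Lib.MP_9b987c_gt.HC

open scoped BigOperators

variable {K : Type*} [CommRing K] {V W : Type*} {C : Type*} {ι : Type*}

section Linearity

variable {X : Type*} [AddCommGroup X] [Module K X]
variable {N P : Type*} [AddCommGroup N] [Module K N] [AddCommGroup P] [Module K P]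

lemma sh_add (f g : V → List V → X) (v : V) : sh (f + g) v = sh f v + sh g v := rfl
lemma sh_smul (c : K) (f : V → List V → X) (v : V) : sh (c • f) v = c • sh f v := rfl

lemma fcl_add (f g : V → List V → X) (v : V) (l : List V) :
    fcl (f + g) v l = fcl f v l + fcl g v l := by
  induction l generalizing f g v with
  | nil => simp
  | cons u l ih => rw [fcl_cons, fcl_cons, fcl_cons, sh_add, ih]; simp; abel

lemma fcl_smul (c : K) (f : V → List V → X) (v : V) (l : List V) :
    fcl (c • f) v l = c • fcl f v l := by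
  induction l generalizing f v with
  | nil => simp
  | cons u l ih => rw [fcl_cons, fcl_cons, sh_smul, ih]; simp [smul_sub]

lemma ac_add_right (A : V → List V → (N →ₗ[K] P)) (f g : V → List V → N) (v : V) (l : List V) :
    ac A (f + g) v l = ac A f v l + ac A g v l := by
  induction l generalizing A v with
  | nil => simp
  | cons u l ih => rw [ac_cons, ac_cons, ac_cons, ih]; simp; abel

lemma ac_smul_right (A : V → List V → (N →ₗ[K] P)) (c : K) (f : V → List V → N) (v : V)
    (l : List V) : ac A (c • f) v l = c • ac A f v l := by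
  induction l generalizing A v with
  | nil => simp
  | cons u l ih => rw [ac_cons, ac_cons, ih]; simp

end Linearity

/-- Functions on nonempty lists with values in `ι → K`: the big complex `S`. -/
abbrev Fn (K : Type*) (V : Type*) (ι : Type*) := V → List V → ι → K

section Complex

/-- The twisted differential `d f = cv R f + θ fcl f` on `S`. -/
def dS (deg : ι → ℤ) (R : V → List V → ((ι → K) →ₗ[K] (ι → K))) : Fn K V ι →ₗ[K] Fn K V ι where
  toFun f := fun v l => ac R f v l + th K deg (fcl f v l)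
  map_add' f g := by
    funext v l
    simp only [ac_add_right, fcl_add, map_add, Pi.add_apply]
    abel
  map_smul' c f := by
    funext v l
    simp only [ac_smul_right, fcl_smul, map_smul, Pi.smul_apply, smul_add, RingHom.id_apply]

/-- Evaluation at the one point list `u`. -/
def evU (u : V) : Fn K V ι →ₗ[K] (ι → K) where
  toFun f := f u []
  map_add' _ _ := rfl
  map_smul' _ _ := rfl

/-- `(s_u z)(v_0..v_k) = R (v_0..v_k, u) (θ z)`. -/
def sU (deg : ι → ℤ) (R : V → List V → ((ι → K) →ₗ[K] (ι → K))) (u : V) :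
    (ι → K) →ₗ[K] Fn K V ι where
  toFun z := fun v l => R v (l ++ [u]) (th K deg z)
  map_add' x y := by funext v l; simp
  map_smul' c x := by funext v l; simp

/-- `(H_u f)(v_0..v_k) = (-1)^k θ f (v_0..v_k, u)`. -/
def hU (deg : ι → ℤ) (u : V) : Fn K V ι →ₗ[K] Fn K V ι where
  toFun f := fun v l => ((-1 : ℤ) ^ l.length) • th K deg (f v (l ++ [u]))
  map_add' f g := by funext v l; simp
  map_smul' c f := by
    funext v l
    simp only [Pi.smul_apply, map_smul, RingHom.id_apply]
    exact smul_comm _ _ _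

/-- The sign operator on `S`: `(θ f)(v_0..v_k) = (-1)^k θ f (v_0..v_k)`. -/
def thS (deg : ι → ℤ) : Fn K V ι →ₗ[K] Fn K V ι where
  toFun f := fun v l => ((-1 : ℤ) ^ l.length) • th K deg (f v l)
  map_add' f g := by funext v l; simp
  map_smul' c f := by
    funext v l
    simp only [Pi.smul_apply, map_smul, RingHom.id_apply]
    exact smul_comm _ _ _

/-- Elements of `S` of degree `q`: `f (v_0..v_k)` has degree `q - k`. -/
def grS (K : Type*) [CommRing K] (V : Type*) (deg : ι → ℤ) (q : ℤ) : Submodule K (Fn K V ι) where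
  carrier := {f | ∀ v l, f v l ∈ gr K deg (q - l.length)}
  add_mem' ha hb v l := (gr K deg _).add_mem (ha v l) (hb v l)
  zero_mem' v l := (gr K deg _).zero_mem
  smul_mem' c f hf v l := (gr K deg _).smul_mem c (hf v l)

end Complex

/-- Covering data: a map `p : V → W`, finitely many lifts with weights and cut-offs. -/
structure Cov (K : Type*) (V W C : Type*) where
  p : V → W
  lift : C → W → V
  l : C → W → K
  tau : C → W → K

/-- The conditions on covering data. -/
structure Cov.Ok [Fintype C] (D : Cov K V W C) : Prop where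
  p_lift : ∀ c w, D.p (D.lift c w) = w
  sum_sq : ∀ w, ∑ c, D.l c w ^ 2 = 1
  tau_l : ∀ c w, D.tau c w * D.l c w = D.l c w

section Domination

variable [Fintype C]

/-- The differential of `P_w = ⊕_c E_{lift c w}`: `tau_c R (lift c w)`. -/
def dP (D : Cov K V W C) (R : V → List V → ((ι → K) →ₗ[K] (ι → K))) (w : W) :
    (C × ι → K) →ₗ[K] (C × ι → K) where
  toFun z := fun r => D.tau r.1 w * R (D.lift r.1 w) [] (fun j => z (r.1, j)) r.2
  map_add' x y := by
    funext r
    have : (fun j => (x + y) (r.1, j)) = (fun j => x (r.1, j)) + (fun j => y (r.1, j)) := rfl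
    rw [this, map_add]; simp [mul_add]
  map_smul' c x := by
    funext r
    have : (fun j => (c • x) (r.1, j)) = c • (fun j => x (r.1, j)) := rfl
    rw [this, map_smul]; simp [mul_left_comm]

/-- `u_w f = (l_c(w) f(lift_c w))_c`. -/
def uW (D : Cov K V W C) (w : W) : Fn K V ι →ₗ[K] (C × ι → K) where
  toFun f := fun r => D.l r.1 w * f (D.lift r.1 w) [] r.2
  map_add' x y := by funext r; simp [mul_add]
  map_smul' c x := by funext r; simp [mul_left_comm]

/-- `v_w z = Σ_c l_c(w) s_{lift_c w} z_c`. -/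
def vW (D : Cov K V W C) (deg : ι → ℤ) (R : V → List V → ((ι → K) →ₗ[K] (ι → K))) (w : W) :
    (C × ι → K) →ₗ[K] Fn K V ι :=
  ∑ c, D.l c w • (sU deg R (D.lift c w) ∘ₗ LinearMap.funLeft K K (fun j => (c, j)))

/-- `η_w = Σ_c l_c(w)^2 H_{lift_c w}`. -/
def etaW (D : Cov K V W C) (deg : ι → ℤ) (w : W) : Fn K V ι →ₗ[K] Fn K V ι :=
  ∑ c, (D.l c w ^ 2) • hU deg (D.lift c w)

end Domination

section Telescope

variable {S : Type*} [AddCommGroup S] [Module K S] {ρ : Type*}

/-- `p_j = u η^(j-1) v`. -/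
def pj (u : S →ₗ[K] (ρ → K)) (v : (ρ → K) →ₗ[K] S) (η : S →ₗ[K] S) (j : ℕ) :
    (ρ → K) →ₗ[K] (ρ → K) := u ∘ₗ ((η ^ (j - 1) : Module.End K S) : S →ₗ[K] S) ∘ₗ v

/-- The slot `m` of an element of `Fin (n+3) × ρ → K`. -/
def slot (K : Type*) [CommRing K] (n : ℕ) (ρ : Type*) (m : Fin (n + 3)) :
    (Fin (n + 3) × ρ → K) →ₗ[K] (ρ → K) := LinearMap.funLeft K K (fun r => (m, r))

/-- The operator with blocks `B m' m` (from slot `m` to slot `m'`). -/
def blk (n : ℕ) (B : ℕ → ℕ → ((ρ → K) →ₗ[K] (ρ → K))) :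
    (Fin (n + 3) × ρ → K) →ₗ[K] (Fin (n + 3) × ρ → K) :=
  LinearMap.pi (fun i => ∑ m : Fin (n + 3), LinearMap.proj i.2 ∘ₗ B i.1 m ∘ₗ slot K n ρ m)

/-- Insertion in slot `0`. -/
def ins0 (n : ℕ) : (ρ → K) →ₗ[K] (Fin (n + 3) × ρ → K) :=
  LinearMap.pi (fun i => if i.1 = 0 then LinearMap.proj i.2 else 0)

/-- The degree function on the telescope: slot `m` is shifted by `m`. -/
def dgT (n : ℕ) (dg : ρ → ℤ) : Fin (n + 3) × ρ → ℤ := fun i => dg i.2 - (i.1 : ℕ)

/-- Coordinate projection on the indices with `Q`. -/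
def prj {κ : Type*} (Q : κ → Prop) [DecidablePred Q] : (κ → K) →ₗ[K] (κ → K) :=
  LinearMap.pi (fun i => if Q i then LinearMap.proj i else 0)

/-- The differential of the telescope. -/
def telD (n : ℕ) (dp : (ρ → K) →ₗ[K] (ρ → K)) (u : S →ₗ[K] (ρ → K)) (v : (ρ → K) →ₗ[K] S)
    (η : S →ₗ[K] S) : (Fin (n + 3) × ρ → K) →ₗ[K] (Fin (n + 3) × ρ → K) :=
  blk n (fun m' m =>
    if m = m' then ((-1 : ℤ) ^ m') • dp
    else if m' < m then ((-1 : ℤ) ^ m') • pj u v η (m - m') -
      (if m = m' + 1 ∧ Even m' then LinearMap.id else 0)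
    else 0)

/-- The operator `π` of the telescope (an idempotent in degree `lo`). -/
def telPi (n : ℕ) (dp : (ρ → K) →ₗ[K] (ρ → K)) (u : S →ₗ[K] (ρ → K)) (v : (ρ → K) →ₗ[K] S)
    (η : S →ₗ[K] S) : (Fin (n + 3) × ρ → K) →ₗ[K] (Fin (n + 3) × ρ → K) :=
  blk n (fun m' m =>
    if m + 1 = m' then ((-1 : ℤ) ^ m') • dp
    else if m' ≤ m then ((-1 : ℤ) ^ m') • pj u v η (m - m' + 1) +
      (if m = m' ∧ Odd m' then LinearMap.id else 0)
    else 0)

/-- The shift of slots. -/
def telK (K : Type*) [CommRing K] (n : ℕ) (ρ : Type*) :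
    (Fin (n + 3) × ρ → K) →ₗ[K] (Fin (n + 3) × ρ → K) :=
  blk n (fun m' m => if m' = m + 1 then LinearMap.id else 0)

/-- The idempotent of the telescope: `1` in degrees `> lo`, `π` in degree `lo`, `0` below. -/
def telE (n : ℕ) (dg : ρ → ℤ) (lo : ℤ) (dp : (ρ → K) →ₗ[K] (ρ → K)) (u : S →ₗ[K] (ρ → K))
    (v : (ρ → K) →ₗ[K] S) (η : S →ₗ[K] S) :
    (Fin (n + 3) × ρ → K) →ₗ[K] (Fin (n + 3) × ρ → K) :=
  prj (fun i => lo < dgT n dg i) + telPi n dp u v η ∘ₗ prj (fun i => dgT n dg i = lo)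

/-- `d_E = D e`. -/
def teldE (n : ℕ) (dg : ρ → ℤ) (lo : ℤ) (dp : (ρ → K) →ₗ[K] (ρ → K)) (u : S →ₗ[K] (ρ → K))
    (v : (ρ → K) →ₗ[K] S) (η : S →ₗ[K] S) :
    (Fin (n + 3) × ρ → K) →ₗ[K] (Fin (n + 3) × ρ → K) :=
  telD n dp u v η ∘ₗ telE n dg lo dp u v η

/-- `a z = Σ_m η^m v (e z)_m`. -/
def telA (n : ℕ) (dg : ρ → ℤ) (lo : ℤ) (dp : (ρ → K) →ₗ[K] (ρ → K)) (u : S →ₗ[K] (ρ → K))
    (v : (ρ → K) →ₗ[K] S) (η : S →ₗ[K] S) : (Fin (n + 3) × ρ → K) →ₗ[K] S :=
  (∑ m : Fin (n + 3), ((η ^ (m : ℕ) : Module.End K S) : S →ₗ[K] S) ∘ₗ v ∘ₗ slot K n ρ m) ∘ₗ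
    telE n dg lo dp u v η

/-- `b f = e (u f in slot 0)`. -/
def telB (n : ℕ) (dg : ρ → ℤ) (lo : ℤ) (dp : (ρ → K) →ₗ[K] (ρ → K)) (u : S →ₗ[K] (ρ → K))
    (v : (ρ → K) →ₗ[K] S) (η : S →ₗ[K] S) : S →ₗ[K] (Fin (n + 3) × ρ → K) :=
  telE n dg lo dp u v η ∘ₗ ins0 n ∘ₗ u

/-- `k_E = e k e`. -/
def telKE (n : ℕ) (dg : ρ → ℤ) (lo : ℤ) (dp : (ρ → K) →ₗ[K] (ρ → K)) (u : S →ₗ[K] (ρ → K))
    (v : (ρ → K) →ₗ[K] S) (η : S →ₗ[K] S) :
    (Fin (n + 3) × ρ → K) →ₗ[K] (Fin (n + 3) × ρ → K) :=
  telE n dg lo dp u v η ∘ₗ telK K n ρ ∘ₗ telE n dg lo dp u v η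

end Telescope

section Big

variable {S E : Type*} [AddCommGroup S] [Module K S] [AddCommGroup E] [Module K E]

/-- `d (f, q, q') = (d f, 0, q)` on `S × E × E`. -/
def bigD (d : S →ₗ[K] S) : (S × E × E) →ₗ[K] (S × E × E) :=
  (d ∘ₗ LinearMap.fst K S (E × E)).prod
    ((0 : (S × E × E) →ₗ[K] E).prod (LinearMap.fst K E E ∘ₗ LinearMap.snd K S (E × E)))

/-- `a z = (a z, - k d z, - k z)`. -/
def bigA (a : E →ₗ[K] S) (dE k : E →ₗ[K] E) : E →ₗ[K] (S × E × E) :=
  a.prod ((-(k ∘ₗ dE)).prod (-k))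

/-- `b (f, q, q') = b f + e q + d_E q'`. -/
def bigB (b : S →ₗ[K] E) (e dE : E →ₗ[K] E) : (S × E × E) →ₗ[K] E :=
  b.coprod (e.coprod dE)

/-- `h0 (f, q, q') = (η f + a q', - k b(f,q,q') - q', 0)`. -/
def bigH0 (η : S →ₗ[K] S) (a : E →ₗ[K] S) (b : S →ₗ[K] E) (e dE k : E →ₗ[K] E) :
    (S × E × E) →ₗ[K] (S × E × E) :=
  (η.coprod (a ∘ₗ LinearMap.snd K E E)).prod
    ((-(k ∘ₗ bigB b e dE) - LinearMap.snd K E E ∘ₗ LinearMap.snd K S (E × E)).prod
      (0 : (S × E × E) →ₗ[K] E))

/-- `1 - a b`. -/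
def bigP (a : E →ₗ[K] S) (b : S →ₗ[K] E) (e dE k : E →ₗ[K] E) :
    (S × E × E) →ₗ[K] (S × E × E) :=
  LinearMap.id - bigA a dE k ∘ₗ bigB b e dE

/-- `h1 = (1 - a b) h0 (1 - a b)`. -/
def bigH1 (η : S →ₗ[K] S) (a : E →ₗ[K] S) (b : S →ₗ[K] E) (e dE k : E →ₗ[K] E) :
    (S × E × E) →ₗ[K] (S × E × E) :=
  bigP a b e dE k ∘ₗ bigH0 η a b e dE k ∘ₗ bigP a b e dE k

/-- `h = - h1 d h1`. -/
def bigH (d η : S →ₗ[K] S) (a : E →ₗ[K] S) (b : S →ₗ[K] E) (e dE k : E →ₗ[K] E) :
    (S × E × E) →ₗ[K] (S × E × E) :=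
  -(bigH1 η a b e dE k ∘ₗ bigD d ∘ₗ bigH1 η a b e dE k)

/-- The sign operator `(θ f, θ q, - θ q')`. -/
def bigTh (t : S →ₗ[K] S) (tE : E →ₗ[K] E) : (S × E × E) →ₗ[K] (S × E × E) :=
  t.prodMap (tE.prodMap (-tE))

end Big

section Transfer

variable {M E : Type*} [AddCommGroup M] [Module K M] [AddCommGroup E] [Module K E]

/-- `Y(w_0..w_k) = G_{w_0} ... G_{w_{k-1}} a_{w_k}`. -/
def Yc (a : W → (E →ₗ[K] M)) (G : W → (M →ₗ[K] M)) : W → List W → (E →ₗ[K] M)
  | w, [] => a w
  | w, u :: l => G w ∘ₗ Yc a G u l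

/-- The transferred structure:
`R(w_0) = d_E(w_0)`, `R(w_0..w_k) = b_{w_0} G_{w_1} ... G_{w_{k-1}} a_{w_k} θ`. -/
def trR (dE : W → (E →ₗ[K] E)) (tE : E →ₗ[K] E) (a : W → (E →ₗ[K] M)) (b : W → (M →ₗ[K] E))
    (G : W → (M →ₗ[K] M)) : W → List W → (E →ₗ[K] E)
  | w, [] => dE w
  | w, u :: l => b w ∘ₗ Yc a G u l ∘ₗ tE

end Transfer

section Output

variable [Fintype C]

/-- The index type of the output. -/
abbrev Kap (n : ℕ) (C ι : Type*) := Fin (n + 3) × (C × ι)

/-- The degree function of the output. -/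
def dgO (n : ℕ) (C : Type*) {ι : Type*} (deg : ι → ℤ) : Kap n C ι → ℤ :=
  dgT n (fun r : C × ι => deg r.2)

variable (D : Cov K V W C) (deg : ι → ℤ) (lo : ℤ) (n : ℕ)
  (R : V → List V → ((ι → K) →ₗ[K] (ι → K)))

/-- The output idempotent. -/
def oE (w : W) : (Kap n C ι → K) →ₗ[K] (Kap n C ι → K) :=
  telE n (fun r : C × ι => deg r.2) lo (dP D R w) (uW D w) (vW D deg R w) (etaW D deg w)

/-- The output differential. -/
def oD (w : W) : (Kap n C ι → K) →ₗ[K] (Kap n C ι → K) :=
  teldE n (fun r : C × ι => deg r.2) lo (dP D R w) (uW D w) (vW D deg R w) (etaW D deg w)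

/-- The chain map `E_w → S`. -/
def oA (w : W) : (Kap n C ι → K) →ₗ[K] Fn K V ι :=
  telA n (fun r : C × ι => deg r.2) lo (dP D R w) (uW D w) (vW D deg R w) (etaW D deg w)

/-- The chain map `S → E_w`. -/
def oB (w : W) : Fn K V ι →ₗ[K] (Kap n C ι → K) :=
  telB n (fun r : C × ι => deg r.2) lo (dP D R w) (uW D w) (vW D deg R w) (etaW D deg w)

/-- The homotopy on `E_w`. -/
def oK (w : W) : (Kap n C ι → K) →ₗ[K] (Kap n C ι → K) :=
  telKE n (fun r : C × ι => deg r.2) lo (dP D R w) (uW D w) (vW D deg R w) (etaW D deg w)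

/-- The big space. -/
abbrev BigS (K : Type*) (V : Type*) (n : ℕ) (C ι : Type*) :=
  Fn K V ι × (Kap n C ι → K) × (Kap n C ι → K)

/-- `a : E_w → S × E × E`. -/
def oAA (w : W) : (Kap n C ι → K) →ₗ[K] BigS K V n C ι :=
  bigA (oA D deg lo n R w) (oD D deg lo n R w) (oK D deg lo n R w)

/-- `b : S × E × E → E_w`. -/
def oBB (w : W) : BigS K V n C ι →ₗ[K] (Kap n C ι → K) :=
  bigB (oB D deg lo n R w) (oE D deg lo n R w) (oD D deg lo n R w)

/-- `G_w = θ h_w`. -/
def oG (w : W) : BigS K V n C ι →ₗ[K] BigS K V n C ι :=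
  bigTh (thS deg) (th K (dgO n C deg)) ∘ₗ
    bigH (dS deg R) (etaW D deg w) (oA D deg lo n R w) (oB D deg lo n R w) (oE D deg lo n R w)
      (oD D deg lo n R w) (oK D deg lo n R w)

/-- The output representation up to homotopy on `W`. -/
def oR : W → List W → ((Kap n C ι → K) →ₗ[K] (Kap n C ι → K)) :=
  trR (oD D deg lo n R) (th K (dgO n C deg)) (oAA D deg lo n R) (oBB D deg lo n R)
    (oG D deg lo n R)

/-- Evaluation of the first component of the big space. -/
def EV (K : Type*) [CommRing K] (V : Type*) (n : ℕ) (C ι : Type*) :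
    V → List V → (BigS K V n C ι →ₗ[K] (ι → K)) :=
  fun v l => (LinearMap.proj l ∘ₗ LinearMap.proj v) ∘ₗ LinearMap.fst K (Fn K V ι) _

/-- `Ψ (v_0..v_k) = e(v_0) Σ_j (-1)^(k-j) [G_{p v_j} ... a_{p v_k}] (v_0..v_j)`, a morphism from the
pullback of the output to `R`. -/
def oPsi (e : V → ((ι → K) →ₗ[K] (ι → K))) : V → List V → ((Kap n C ι → K) →ₗ[K] (ι → K)) :=
  fun v l => e v ∘ₗ cv (EV K V n C ι)
    (fun v l => ((-1 : ℤ) ^ l.length) • Yc (oAA D deg lo n R) (oG D deg lo n R) (D.p v)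
      (l.map D.p)) v l

end Output

section Average

variable [Fintype C] {M N : Type*} [AddCommGroup M] [Module K M] [AddCommGroup N] [Module K N]

/-- Averages over the lifts: `Av A (w_0..w_k) = Σ Π l_{c_i}(w_i)^2 A (lift_{c_0} w_0, ..)`. -/
def avL (D : Cov K V W C) : List W → (V → List V → (M →ₗ[K] N)) → W → (M →ₗ[K] N)
  | [], A, w => ∑ c, (D.l c w ^ 2) • A (D.lift c w) []
  | w' :: l, A, w => ∑ c, (D.l c w ^ 2) • avL D l (sh A (D.lift c w)) w'

/-- Averages over the lifts. -/
def av (D : Cov K V W C) (A : V → List V → (M →ₗ[K] N)) : W → List W → (M →ₗ[K] N) :=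
  fun w l => avL D l A w

/-- `Hr A (v_0..v_k) = Σ_j (-1)^j < A (v_0..v_j, lifts of p v_j .. p v_k) >`. -/
def hrL (D : Cov K V W C) : List V → (V → List V → (M →ₗ[K] N)) → V → (M →ₗ[K] N)
  | [], A, v => av D (sh A v) (D.p v) []
  | u :: l, A, v => av D (sh A v) (D.p v) ((u :: l).map D.p) - hrL D l (sh A v) u

/-- The homotopy operator without the sign `θ`. -/
def hr (D : Cov K V W C) (A : V → List V → (M →ₗ[K] N)) : V → List V → (M →ₗ[K] N) :=
  fun v l => hrL D l A v

/-- Pullback of cochains along `p`. -/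
def pb (p : V → W) {X : Type*} (A : W → List W → X) : V → List V → X := fun v l => A (p v) (l.map p)

end Average

end Pool.Agent.Lib.MP_9b987c_gt.HC
end

section
/-!
# Basic lemmas on signs, degrees and products of cochains (all proved)
-/
namespace Pool.Agent.Lib.MP_9b987c_gt.HC

open scoped BigOperators

section Signs

variable {K : Type*} [CommRing K]

lemma sgn_zero : sgn K 0 = 1 := by simp [sgn]
lemma sgn_one : sgn K 1 = -1 := by simp [sgn]
lemma sgn_add (a b : ℤ) : sgn K (a + b) = sgn K a * sgn K b := by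
  simp [sgn, Int.negOnePow_add]
lemma sgn_neg (a : ℤ) : sgn K (-a) = sgn K a := by simp [sgn, Int.negOnePow_neg]
lemma sgn_sub (a b : ℤ) : sgn K (a - b) = sgn K a * sgn K b := by
  rw [sub_eq_add_neg, sgn_add, sgn_neg]
lemma sgn_mul_self (a : ℤ) : sgn K a * sgn K a = 1 := by
  rw [← sgn_add]
  have : Even (a + a) := ⟨a, rfl⟩
  simp [sgn, Int.negOnePow_even _ this]
lemma sgn_natCast (n : ℕ) : sgn K (n : ℤ) = (-1) ^ n := by
  induction n with
  | zero => simp [sgn_zero]
  | succ n ih => rw [Nat.cast_succ, sgn_add, ih, sgn_one, pow_succ]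
lemma sgn_even {a : ℤ} (h : Even a) : sgn K a = 1 := by simp [sgn, Int.negOnePow_even _ h]
lemma sgn_odd {a : ℤ} (h : Odd a) : sgn K a = -1 := by simp [sgn, Int.negOnePow_odd _ h]
/-- the integer scalar `(-1)^n` is the scalar `sgn K n`. -/
lemma negOnePow_smul {M : Type*} [AddCommGroup M] [Module K M] (n : ℕ) (x : M) :
    ((-1 : ℤ) ^ n) • x = sgn K (n : ℤ) • x := by
  rw [sgn_natCast, ← Int.cast_smul_eq_zsmul K]
  simp
lemma map_sgn {K' : Type*} [CommRing K'] (φ : K →+* K') (a : ℤ) : φ (sgn K a) = sgn K' a := by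
  simp [sgn]

variable {ι κ μ : Type*} {deg : ι → ℤ} {deg' : κ → ℤ} {deg'' : μ → ℤ}

@[simp] lemma th_th (z : ι → K) : th K deg (th K deg z) = z := by
  funext i; simp [← mul_assoc, sgn_mul_self]
lemma th_comp_th : th K deg ∘ₗ th K deg = LinearMap.id := by
  apply LinearMap.ext; intro z; simp
lemma th_of_mem {q : ℤ} {z : ι → K} (h : z ∈ gr K deg q) : th K deg z = sgn K q • z := by
  funext i
  by_cases hz : z i = 0
  · simp [hz]
  · simp [h i hz]
lemma th_mem {q : ℤ} {z : ι → K} (h : z ∈ gr K deg q) : th K deg z ∈ gr K deg q := by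
  rw [th_of_mem h]; exact (gr K deg q).smul_mem _ h
lemma single_mem [DecidableEq ι] (i : ι) (c : K) : Pi.single i c ∈ gr K deg (deg i) := by
  intro j hj
  by_cases h : j = i
  · rw [h]
  · exact absurd (by simp [h]) hj
lemma eq_zero_of_mem_ne {q q' : ℤ} (hq : q ≠ q') {z : ι → K} (h : z ∈ gr K deg q)
    (h' : z ∈ gr K deg q') : z = 0 := by
  funext i
  by_contra hi
  exact hq ((h i hi).symm.trans (h' i hi))

/-- Two linear maps on `ι → K` (finite `ι`) agree if they agree on homogeneous vectors. -/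
lemma ext_hom [Finite ι] {M : Type*} [AddCommGroup M] [Module K M]
    (deg : ι → ℤ) {F F' : (ι → K) →ₗ[K] M} (h : ∀ q, ∀ z ∈ gr K deg q, F z = F' z) : F = F' := by
  classical
  apply LinearMap.pi_ext
  intro i x
  exact h (deg i) _ (single_mem i x)

lemma Deg.comp {F : (ι → K) →ₗ[K] (κ → K)} {F' : (κ → K) →ₗ[K] (μ → K)} {s s' : ℤ}
    (h' : Deg deg' deg'' F' s') (h : Deg deg deg' F s) : Deg deg deg'' (F' ∘ₗ F) (s + s') := by
  intro q z hz
  have := h' _ _ (h q z hz)
  rwa [add_assoc] at this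
lemma Deg.add {F F' : (ι → K) →ₗ[K] (κ → K)} {s : ℤ} (h : Deg deg deg' F s)
    (h' : Deg deg deg' F' s) : Deg deg deg' (F + F') s :=
  fun q z hz => (gr K deg' _).add_mem (h q z hz) (h' q z hz)
lemma Deg.sub {F F' : (ι → K) →ₗ[K] (κ → K)} {s : ℤ} (h : Deg deg deg' F s)
    (h' : Deg deg deg' F' s) : Deg deg deg' (F - F') s :=
  fun q z hz => (gr K deg' _).sub_mem (h q z hz) (h' q z hz)
lemma Deg.neg {F : (ι → K) →ₗ[K] (κ → K)} {s : ℤ} (h : Deg deg deg' F s) :
    Deg deg deg' (-F) s := fun q z hz => (gr K deg' _).neg_mem (h q z hz)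
lemma Deg.smul {F : (ι → K) →ₗ[K] (κ → K)} {s : ℤ} (c : K) (h : Deg deg deg' F s) :
    Deg deg deg' (c • F) s := fun q z hz => (gr K deg' _).smul_mem c (h q z hz)
lemma Deg.zero {s : ℤ} : Deg deg deg' (0 : (ι → K) →ₗ[K] (κ → K)) s :=
  fun _ _ _ => (gr K deg' _).zero_mem
lemma Deg.sum {J : Type*} {T : Finset J} {F : J → (ι → K) →ₗ[K] (κ → K)} {s : ℤ}
    (h : ∀ j ∈ T, Deg deg deg' (F j) s) : Deg deg deg' (∑ j ∈ T, F j) s := by
  intro q z hz
  rw [LinearMap.sum_apply]
  exact Submodule.sum_mem _ (fun j hj => h j hj q z hz)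
lemma deg_id : Deg deg deg (LinearMap.id : (ι → K) →ₗ[K] (ι → K)) 0 := by
  intro q z hz; simpa using hz
lemma deg_th : Deg deg deg (th K deg) 0 := by
  intro q z hz; simpa using th_mem hz
lemma Deg.congr {F : (ι → K) →ₗ[K] (κ → K)} {s s' : ℤ} (h : Deg deg deg' F s) (e : s = s') :
    Deg deg deg' F s' := e ▸ h

/-- A map of degree `s` satisfies `θ F = (-1)^s F θ`. -/
lemma th_comp_of_deg [Finite ι] {F : (ι → K) →ₗ[K] (κ → K)} {s : ℤ} (h : Deg deg deg' F s) :
    th K deg' ∘ₗ F = sgn K s • (F ∘ₗ th K deg) := by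
  apply ext_hom deg
  intro q z hz
  simp only [LinearMap.comp_apply, LinearMap.smul_apply]
  rw [th_of_mem (h q z hz), th_of_mem hz, map_smul, smul_smul, sgn_add, mul_comm]

lemma deg_iff [Fintype ι] [DecidableEq ι] {F : (ι → K) →ₗ[K] (κ → K)} {s : ℤ} :
    Deg deg deg' F s ↔ ∀ i j, F (Pi.single j 1) i ≠ 0 → deg' i = deg j + s := by
  constructor
  · intro h i j hij
    exact h (deg j) _ (single_mem j 1) i hij
  · intro h q z hz i hi
    have hF : F z = ∑ j, z j • F (Pi.single j 1) := by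
      conv_lhs => rw [← LinearMap.sum_single_apply (fun _ => K) z] <;> skip
      rw [map_sum]
      refine Finset.sum_congr rfl (fun j _ => ?_)
      rw [← map_smul]
      congr 1
      rw [← Pi.single_smul]
      simp
    rw [hF, Finset.sum_apply] at hi
    obtain ⟨j, -, hj⟩ := Finset.exists_ne_zero_of_sum_ne_zero hi
    have hzj : z j ≠ 0 := by intro h0; simp [h0] at hj
    have hFj : F (Pi.single j 1) i ≠ 0 := by intro h0; simp [h0] at hj
    rw [h i j hFj, hz j hzj]

end Signs

section Products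

variable {K : Type*} [CommRing K] {V : Type*}
variable {M N P Q : Type*} [AddCommGroup M] [Module K M] [AddCommGroup N] [Module K N]
  [AddCommGroup P] [Module K P] [AddCommGroup Q] [Module K Q]

lemma cv_add_left (A A' : V → List V → (N →ₗ[K] P)) (B : V → List V → (M →ₗ[K] N)) (v : V)
    (l : List V) : cv (A + A') B v l = cv A B v l + cv A' B v l := by
  induction l generalizing A A' v with
  | nil => simp [LinearMap.add_comp]
  | cons u l ih => rw [cv_cons, cv_cons, cv_cons, sh_add, ih]; simp [LinearMap.add_comp]; abel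
lemma cv_add_right (A : V → List V → (N →ₗ[K] P)) (B B' : V → List V → (M →ₗ[K] N)) (v : V)
    (l : List V) : cv A (B + B') v l = cv A B v l + cv A B' v l := by
  induction l generalizing A v with
  | nil => simp [LinearMap.comp_add]
  | cons u l ih => rw [cv_cons, cv_cons, cv_cons, ih]; simp [LinearMap.comp_add]; abel
lemma cv_smul_left (c : K) (A : V → List V → (N →ₗ[K] P)) (B : V → List V → (M →ₗ[K] N)) (v : V)
    (l : List V) : cv (c • A) B v l = c • cv A B v l := by
  induction l generalizing A v with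
  | nil => simp [LinearMap.smul_comp]
  | cons u l ih => rw [cv_cons, cv_cons, sh_smul, ih]; simp [LinearMap.smul_comp]
lemma cv_smul_right (c : K) (A : V → List V → (N →ₗ[K] P)) (B : V → List V → (M →ₗ[K] N)) (v : V)
    (l : List V) : cv A (c • B) v l = c • cv A B v l := by
  induction l generalizing A v with
  | nil => simp [LinearMap.comp_smul]
  | cons u l ih => rw [cv_cons, cv_cons, ih]; simp [LinearMap.comp_smul]
lemma cv_neg_left (A : V → List V → (N →ₗ[K] P)) (B : V → List V → (M →ₗ[K] N)) (v : V)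
    (l : List V) : cv (-A) B v l = - cv A B v l := by
  have := cv_smul_left (-1 : K) A B v l
  simpa using this
lemma cv_neg_right (A : V → List V → (N →ₗ[K] P)) (B : V → List V → (M →ₗ[K] N)) (v : V)
    (l : List V) : cv A (-B) v l = - cv A B v l := by
  have := cv_smul_right (-1 : K) A B v l
  simpa using this
lemma cv_sub_left (A A' : V → List V → (N →ₗ[K] P)) (B : V → List V → (M →ₗ[K] N)) (v : V)
    (l : List V) : cv (A - A') B v l = cv A B v l - cv A' B v l := by
  rw [sub_eq_add_neg, cv_add_left, cv_neg_left, sub_eq_add_neg]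
lemma cv_sub_right (A : V → List V → (N →ₗ[K] P)) (B B' : V → List V → (M →ₗ[K] N)) (v : V)
    (l : List V) : cv A (B - B') v l = cv A B v l - cv A B' v l := by
  rw [sub_eq_add_neg, cv_add_right, cv_neg_right, sub_eq_add_neg]
lemma cv_zero_left (B : V → List V → (M →ₗ[K] N)) (v : V) (l : List V) :
    cv (0 : V → List V → (N →ₗ[K] P)) B v l = 0 := by
  have := cv_smul_left (0 : K) (0 : V → List V → (N →ₗ[K] P)) B v l
  simpa using this
lemma cv_zero_right (A : V → List V → (N →ₗ[K] P)) (v : V) (l : List V) :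
    cv A (0 : V → List V → (M →ₗ[K] N)) v l = 0 := by
  have := cv_smul_right (0 : K) A (0 : V → List V → (M →ₗ[K] N)) v l
  simpa using this
/-- Composition with a constant map on the left. -/
lemma cv_comp_left (F : P →ₗ[K] Q) (A : V → List V → (N →ₗ[K] P)) (B : V → List V → (M →ₗ[K] N))
    (v : V) (l : List V) : cv (fun v l => F ∘ₗ A v l) B v l = F ∘ₗ cv A B v l := by
  induction l generalizing A v with
  | nil => simp [LinearMap.comp_assoc]
  | cons u l ih =>
    rw [cv_cons, cv_cons, LinearMap.comp_add, LinearMap.comp_assoc]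
    congr 1
    exact ih (sh A v) u
/-- Composition with a constant map on the right. -/
lemma cv_comp_right (F : Q →ₗ[K] M) (A : V → List V → (N →ₗ[K] P)) (B : V → List V → (M →ₗ[K] N))
    (v : V) (l : List V) : cv A (fun v l => B v l ∘ₗ F) v l = cv A B v l ∘ₗ F := by
  induction l generalizing A v with
  | nil => simp [LinearMap.comp_assoc]
  | cons u l ih =>
    rw [cv_cons, cv_cons, LinearMap.add_comp, LinearMap.comp_assoc, ih]
/-- Composition in the middle with a constant map. -/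
lemma cv_comp_mid (F : N →ₗ[K] P) (A : V → List V → (P →ₗ[K] Q)) (B : V → List V → (M →ₗ[K] N))
    (v : V) (l : List V) :
    cv (fun v l => A v l ∘ₗ F) B v l = cv A (fun v l => F ∘ₗ B v l) v l := by
  induction l generalizing A v with
  | nil => simp [LinearMap.comp_assoc]
  | cons u l ih =>
    rw [cv_cons, cv_cons, LinearMap.comp_assoc]
    congr 1
    exact ih (sh A v) u
/-- A family depending on the first point can be factored out on the left. -/
lemma cv_first (e : V → (P →ₗ[K] Q)) (A : V → List V → (N →ₗ[K] P)) (B : V → List V → (M →ₗ[K] N))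
    (v : V) (l : List V) : cv (fun v l => e v ∘ₗ A v l) B v l = e v ∘ₗ cv A B v l := by
  cases l with
  | nil => simp [LinearMap.comp_assoc]
  | cons u l =>
    rw [cv_cons, cv_cons, LinearMap.comp_add, LinearMap.comp_assoc]
    congr 1
    exact cv_comp_left (e v) (sh A v) B u l
/-- A family depending on the last point can be factored out on the right. -/
lemma cv_last (e : V → (Q →ₗ[K] M)) (A : V → List V → (N →ₗ[K] P)) (B : V → List V → (M →ₗ[K] N))
    (v : V) (l : List V) :
    cv A (fun v l => B v l ∘ₗ e (lst v l)) v l = cv A B v l ∘ₗ e (lst v l) := by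
  induction l generalizing A v with
  | nil => simp [LinearMap.comp_assoc]
  | cons u l ih =>
    rw [cv_cons, cv_cons, LinearMap.add_comp, LinearMap.comp_assoc, ih]
    simp
/-- A family depending on the splitting point can be moved between the factors. -/
lemma cv_mid (e : V → (N →ₗ[K] P)) (A : V → List V → (P →ₗ[K] Q)) (B : V → List V → (M →ₗ[K] N))
    (v : V) (l : List V) :
    cv (fun v l => A v l ∘ₗ e (lst v l)) B v l = cv A (fun v l => e v ∘ₗ B v l) v l := by
  induction l generalizing A v with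
  | nil => simp [LinearMap.comp_assoc]
  | cons u l ih =>
    rw [cv_cons, cv_cons]
    simp only [lst_nil, LinearMap.comp_assoc]
    congr 1
    exact ih (sh A v) u

variable {X Y : Type*} [AddCommGroup X] [AddCommGroup Y]
lemma fc_add (f g : V → List V → X) (v : V) (l : List V) :
    fc (f + g) v l = fc f v l + fc g v l := by
  induction l generalizing f g v with
  | nil => simp
  | cons u l ih =>
    cases l with
    | nil => simp
    | cons w l =>
      rw [fc_cons, fc_cons, fc_cons, sh_add, ih]; simp; abel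
/-- `fc` commutes with additive maps. -/
lemma fc_map (F : X →+ Y) (f : V → List V → X) (v : V) (l : List V) :
    fc (fun v l => F (f v l)) v l = F (fc f v l) := by
  induction l generalizing f v with
  | nil => simp
  | cons u l ih =>
    cases l with
    | nil => simp
    | cons w l =>
      rw [fc_cons, fc_cons, map_sub, map_neg]
      congr 1
      exact ih (sh f v) u
lemma fcl_map (F : X →+ Y) (f : V → List V → X) (v : V) (l : List V) :
    fcl (fun v l => F (f v l)) v l = F (fcl f v l) := by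
  induction l generalizing f v with
  | nil => simp
  | cons u l ih =>
    rw [fcl_cons, fcl_cons, map_sub, map_neg]
    congr 1
    exact ih (sh f v) u
lemma fc_comp_left (F : N →ₗ[K] P) (A : V → List V → (M →ₗ[K] N)) (v : V) (l : List V) :
    fc (fun v l => F ∘ₗ A v l) v l = F ∘ₗ fc A v l := by
  have := fc_map (X := M →ₗ[K] N) (Y := M →ₗ[K] P)
    ⟨⟨fun G => F ∘ₗ G, by simp⟩, fun a b => by simp [LinearMap.comp_add]⟩ A v l
  exact this
lemma fc_comp_right (F : P →ₗ[K] M) (A : V → List V → (M →ₗ[K] N)) (v : V) (l : List V) :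
    fc (fun v l => A v l ∘ₗ F) v l = fc A v l ∘ₗ F := by
  have := fc_map (X := M →ₗ[K] N) (Y := P →ₗ[K] N)
    ⟨⟨fun G => G ∘ₗ F, by simp⟩, fun a b => by simp [LinearMap.add_comp]⟩ A v l
  exact this
/-- `fc` and a family depending on the first point. -/
lemma fc_first (e : V → (N →ₗ[K] P)) (A : V → List V → (M →ₗ[K] N)) (v : V) (l : List V) :
    fc (fun v l => e v ∘ₗ A v l) v l = e v ∘ₗ fc A v l := by
  cases l with
  | nil => simp
  | cons u l =>
    cases l with
    | nil => simp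
    | cons w l =>
      rw [fc_cons, fc_cons, LinearMap.comp_sub, LinearMap.comp_neg]
      congr 1
      exact fc_comp_left (e v) (sh A v) u (w :: l)
/-- `fc` and a family depending on the last point. -/
lemma fc_last (e : V → (P →ₗ[K] M)) (A : V → List V → (M →ₗ[K] N)) (v : V) (l : List V) :
    fc (fun v l => A v l ∘ₗ e (lst v l)) v l = fc A v l ∘ₗ e (lst v l) := by
  induction l generalizing A v with
  | nil => simp
  | cons u l ih =>
    cases l with
    | nil => simp
    | cons w l =>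
      rw [fc_cons, fc_cons, LinearMap.sub_comp, LinearMap.neg_comp]
      have := ih (sh A v) u
      simp only [lst_cons] at this ⊢
      rw [← this]
      rfl

end Products

section Pullback

variable {V W X : Type*} [AddCommGroup X]

lemma sh_pb (p : V → W) (A : W → List W → X) (v : V) : sh (pb p A) v = pb p (sh A (p v)) := rfl
lemma fc_pb (p : V → W) (A : W → List W → X) (v : V) (l : List V) :
    fc (pb p A) v l = pb p (fc A) v l := by
  induction l generalizing A v with
  | nil => simp [pb]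
  | cons u l ih =>
    cases l with
    | nil => simp [pb]
    | cons w l =>
      rw [fc_cons, sh_pb, ih]
      simp [pb]
lemma lst_map (p : V → W) (v : V) (l : List V) : lst (p v) (l.map p) = p (lst v l) := by
  induction l generalizing v with
  | nil => rfl
  | cons u l ih => simpa using ih u

variable {K : Type*} [CommRing K]
variable {M N P : Type*} [AddCommGroup M] [Module K M] [AddCommGroup N] [Module K N]
  [AddCommGroup P] [Module K P]

lemma cv_pb (p : V → W) (A : W → List W → (N →ₗ[K] P)) (B : W → List W → (M →ₗ[K] N)) (v : V)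
    (l : List V) : cv (pb p A) (pb p B) v l = pb p (cv A B) v l := by
  induction l generalizing A v with
  | nil => simp [pb]
  | cons u l ih =>
    rw [cv_cons, sh_pb, ih]
    simp [pb]

end Pullback

end Pool.Agent.Lib.MP_9b987c_gt.HC
end
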