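import Pool.Agent.Lib.MP_9b987c_gt.HC.Frames

/-!
# Groupoid level Specs

Notation: `starG`, `unitG`, `tw`, `wf`, `upF`, `push`, `jF`, `cvF`: see `Gpd.lean`, `Frames.lean`.
A chain `x ← x_1 ← .. ← x_k` of `G` is `x, [g_1, .., g_k]` with `G.Chain x [g_1..g_k]`.
-/

namespace Pool.Agent.Lib.MP_9b987c_gt.HC

open scoped Manifold ContDiff BigOperators

/-! ### Set level additions -/

/-- **DLB** (differential of products, 200 lines; uses LEI).  `DD` is the differential with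
`RE, RF, RG` satisfying `θ fc R + cv R R = 0` and `R_k` of degree `1 - k` (`PreRuth`); `A` of total
degree `t` (from `F` to `G`), `B` of total degree `t'` (from `E` to `F`).
(1) `DD (t + t') (cv A B) = cv (DD t A) B + (-1)^t cv A (DD t' B)`:
`fc (cv A B) = cv (fc A) B + cv (eps A) (fc B)` and `θ (eps A)_k = (-1)^k (-1)^(t-k) A_k θ = (-1)^t A_k θ`;
the middle terms `- (-1)^t cv (cv A RF) B + (-1)^t cv A (cv RF B)` cancel.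
(2) `DD (t + 1) (DD t A) = 0`.  (3) `DD 0 (unt e) = 0` (source and target the same `R`).
(4) the unit laws `cv (unt e') A = A = cv A (unt e)` if `e' A = A = A e`.
(5) `IsCo` of products, sums, differences, scalar multiples, units, and
`DD t A` is `IsCo (t + 1)`. -/
def SpecDLB : Prop :=
  ∀ (K V : Type) [CommRing K] (ι κ μ : Type) [Finite ι] [Finite κ] [Finite μ]
    (dE : ι → ℤ) (dF : κ → ℤ) (dG : μ → ℤ)
    (eE : V → (ι → K) →ₗ[K] (ι → K)) (eF : V → (κ → K) →ₗ[K] (κ → K))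
    (eG : V → (μ → K) →ₗ[K] (μ → K))
    (RE : V → List V → ((ι → K) →ₗ[K] (ι → K))) (RF : V → List V → ((κ → K) →ₗ[K] (κ → K)))
    (RG : V → List V → ((μ → K) →ₗ[K] (μ → K))),
    PreRuth dE eE RE → PreRuth dF eF RF → PreRuth dG eG RG →
    (∀ (t t' : ℤ) (A : V → List V → ((κ → K) →ₗ[K] (μ → K)))
      (B : V → List V → ((ι → K) →ₗ[K] (κ → K))),
      IsCo dF dG t eF eG A → IsCo dE dF t' eE eF B →
      IsCo dE dG (t + t') eE eG (cv A B) ∧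
      ∀ v l, DD dG (t + t') RE RG (cv A B) v l =
        cv (DD dG t RF RG A) B v l + sgn K t • cv A (DD dF t' RE RF B) v l) ∧
    (∀ (t : ℤ) (A : V → List V → ((ι → K) →ₗ[K] (κ → K))), IsCo dE dF t eE eF A →
      IsCo dE dF (t + 1) eE eF (DD dF t RE RF A) ∧
      (∀ v l, DD dF (t + 1) RE RF (DD dF t RE RF A) v l = 0) ∧
      (∀ v l, cv (unt eF) A v l = A v l) ∧ (∀ v l, cv A (unt eE) v l = A v l)) ∧
    IsCo dE dE 0 eE eE (unt eE) ∧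
    (∀ v l, DD dE 0 RE RE (unt eE) v l = 0) ∧
    (∀ (t : ℤ) (A B : V → List V → ((ι → K) →ₗ[K] (κ → K))) (c : K), IsCo dE dF t eE eF A →
      IsCo dE dF t eE eF B → IsCo dE dF t eE eF (A + B) ∧ IsCo dE dF t eE eF (A - B) ∧
      IsCo dE dF t eE eF (c • A) ∧
      (∀ v l, DD dF t RE RF (A + B) v l = DD dF t RE RF A v l + DD dF t RE RF B v l) ∧
      (∀ v l, DD dF t RE RF (c • A) v l = c • DD dF t RE RF A v l))

/-- **TWS** (twisted sums and shifts, 200 lines).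
(1) If `R₁`, `R₂` are (pre-)representations up to homotopy and `X` from `ι₁` to `ι₂` has total degree
`1` and `θ₂ fc X + cv R₂ X + cv X R₁ = 0`, then `[[R₁, 0], [X, R₂]]` is one on `ι₁ ⊕ ι₂`.
(2) unital if moreover `R₁`, `R₂` are unital, `X v [v] = 0` and `X` vanishes on lists with repetitions
of length `≥ 2`.
(3) `(deg + s, e, - R)` is one if `s` is odd (`θ` changes sign), unital if `R` is unital. -/
def SpecTWS : Prop :=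
  ∀ (K V : Type) [CommRing K] (ι₁ ι₂ : Type) [Finite ι₁] [Finite ι₂] (d₁ : ι₁ → ℤ) (d₂ : ι₂ → ℤ)
    (e₁ : V → (ι₁ → K) →ₗ[K] (ι₁ → K)) (e₂ : V → (ι₂ → K) →ₗ[K] (ι₂ → K))
    (R₁ : V → List V → ((ι₁ → K) →ₗ[K] (ι₁ → K))) (R₂ : V → List V → ((ι₂ → K) →ₗ[K] (ι₂ → K))),
    (∀ X : V → List V → ((ι₁ → K) →ₗ[K] (ι₂ → K)),
      PreRuth d₁ e₁ R₁ → PreRuth d₂ e₂ R₂ → IsCo d₁ d₂ 1 e₁ e₂ X →
      (∀ v l, DD d₂ 1 R₁ R₂ X v l = 0) →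
      PreRuth (Sum.elim d₁ d₂) (fun v => mat2 (e₁ v) 0 0 (e₂ v))
        (fun v l => mat2 (R₁ v l) 0 (X v l) (R₂ v l)) ∧
      (SRuth d₁ e₁ R₁ → SRuth d₂ e₂ R₂ → (∀ v, X v [v] = 0) →
        (∀ v l, 2 ≤ l.length → HasRep v l → X v l = 0) →
        SRuth (Sum.elim d₁ d₂) (fun v => mat2 (e₁ v) 0 0 (e₂ v))
          (fun v l => mat2 (R₁ v l) 0 (X v l) (R₂ v l)))) ∧
    (∀ s : ℤ, Odd s → (PreRuth d₁ e₁ R₁ → PreRuth (fun i => d₁ i + s) e₁ (-R₁)) ∧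
      (SRuth d₁ e₁ R₁ → SRuth (fun i => d₁ i + s) e₁ (-R₁)))

/-- **QAC** (linear algebra, 100 lines).  (1) The cone `[[-d, 0], [F, d']]` of a quasi-isomorphism
`F` is acyclic.  (2) A homotopy equivalence is a quasi-isomorphism. -/
def SpecQAC : Prop :=
  ∀ (ι κ : Type) (e d : (ι → ℝ) →ₗ[ℝ] (ι → ℝ)) (e' d' : (κ → ℝ) →ₗ[ℝ] (κ → ℝ))
    (F : (ι → ℝ) →ₗ[ℝ] (κ → ℝ)),
    e ∘ₗ e = e → d ∘ₗ d = 0 → e ∘ₗ d = d → d ∘ₗ e = d →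
    e' ∘ₗ e' = e' → d' ∘ₗ d' = 0 → e' ∘ₗ d' = d' → d' ∘ₗ e' = d' →
    F ∘ₗ d = d' ∘ₗ F → e' ∘ₗ F = F → F ∘ₗ e = F →
    (QisAt e d e' d' F → ∀ z, mat2 e 0 0 e' z = z → mat2 (-d) 0 F d' z = 0 →
      ∃ y, z = mat2 (-d) 0 F d' y) ∧
    (HoEq e d e' d' F → QisAt e d e' d' F)

/-! ### Frames -/

/-- **FRM** (frames, 200 lines).  (1)-(3) chains; (4) `hom (starG A B) = cv (hom A) (hom B)` (convert
`Finset.range` sums over `take`/`drop` to the recursion with `Finset.sum_range_succ'`);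
(5) inner faces: `face j` of `arr v l` is `arr` of the list with the entry `j` removed (`c_mul`);
(6) signed products; (7) every chain is the chain of a list in the frame `wf G x` based at `wf0`
(`δ_{i+1} = g_{i+1}⁻¹ δ_i`); (8) maps of frames; (9) `unitG`, `pullG`;
(10) units: if `u = v` then `c u v` is a unit; conversely in `wf G x`. -/
def SpecFRM : Prop :=
  ∀ (G : LieGpd),
    (∀ (V : Type) (F : Frame G V) v l, G.Chain (F.b v) (F.arr v l) ∧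
      G.fin (F.b v) (F.arr v l) = F.b (lst v l) ∧ (F.arr v l).length = l.length) ∧
    (∀ (V : Type) (F : Frame G V) (ι κ μ : Type)
      (A : G.Ob → List G.Ar → (κ → ℝ) →ₗ[ℝ] (μ → ℝ)) (B : G.Ob → List G.Ar → (ι → ℝ) →ₗ[ℝ] (κ → ℝ))
      v l, F.hom (starG G A B) v l = cv (F.hom A) (F.hom B) v l) ∧
    (∀ (V : Type) (F : Frame G V) (ι κ μ : Type)
      (A : G.Ob → List G.Ar → (κ → ℝ) →ₗ[ℝ] (μ → ℝ)) (B : G.Ob → List G.Ar → (ι → ℝ) →ₗ[ℝ] (κ → ℝ))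
      v l, ∑ j ∈ Finset.range (l.length + 1), ((-1 : ℝ) ^ j) • (A (F.b v) ((F.arr v l).take j) ∘ₗ
        B (G.fin (F.b v) ((F.arr v l).take j)) ((F.arr v l).drop j)) =
        cv (eps (F.hom A)) (F.hom B) v l) ∧
    (∀ (V : Type) (F : Frame G V) (ι κ : Type) (A : G.Ob → List G.Ar → (ι → ℝ) →ₗ[ℝ] (κ → ℝ)) v l,
      ∑ j ∈ Finset.range (l.length - 1), ((-1 : ℝ) ^ (j + 1)) • A (F.b v) (G.face j (F.arr v l)) =
        fc (F.hom A) v l) ∧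
    (∀ x l, G.Chain x l → ∃ l', (wf G x).arr (wf0 G x) l' = l ∧ (wf G x).b (wf0 G x) = x) ∧
    (∀ (V V' : Type) (F : Frame G V) (F' : Frame G V') (α : V → V'), Frame.Map F F' α →
      (∀ v l, F'.arr (α v) (l.map α) = F.arr v l) ∧
      (∀ (X : Type) (A : G.Ob → List G.Ar → X) v l, F'.hom A (α v) (l.map α) = F.hom A v l)) ∧
    (∀ (V : Type) (F : Frame G V) (ι : Type) (e : G.Ob → (ι → ℝ) →ₗ[ℝ] (ι → ℝ)) v l,
      F.hom (unitG G e) v l = unt (fun v => e (F.b v)) v l) ∧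
    (∀ (V : Type) (F : Frame G V) v l, HasRep v l → ∃ y, G.one y ∈ F.arr v l) ∧
    (∀ (x : G.Ob) v l, (∃ y, G.one y ∈ (wf G x).arr v l) → HasRep v l) ∧
    (∀ (G' : LieGpd) (φ : Hypercover G' G) (V : Type) (F : Frame G' V) (ι κ : Type)
      (A : G.Ob → List G.Ar → (ι → ℝ) →ₗ[ℝ] (κ → ℝ)) v l,
      F.hom (pullG φ A) v l = (F.push φ).hom A v l) ∧
    (∀ (G' : LieGpd) (φ : Hypercover G' G) (W : Type) (F : Frame G W) (ι κ : Type)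
      (A : G.Ob → List G.Ar → (ι → ℝ) →ₗ[ℝ] (κ → ℝ)) q l,
      (upF φ F).hom (pullG φ A) q l = F.hom A q.1.2 (l.map (fun q => q.1.2)))

/-- **DSC** (descent of natural families, 150 lines).  Define `A x l` for a chain as the value of the
family on the frame `wf G x` at `wf0` and the list `δ_{i+1} = g_{i+1}⁻¹ δ_i`, and `0` on other lists.
For a frame `F` and `v : V`, the map `u ↦ F.c u v` is a map of frames from `F` to `wf G (F.b v)`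
mapping `v` to `wf0`; naturality gives `F.hom A v l = Φ V F v l`. -/
def SpecDSC : Prop :=
  ∀ (G : LieGpd) (X : Type) [Zero X] (Φ : ∀ V : Type, Frame G V → V → List V → X),
    (∀ (V V' : Type) (F : Frame G V) (F' : Frame G V') (α : V → V'), Frame.Map F F' α →
      ∀ v l, Φ V' F' (α v) (l.map α) = Φ V F v l) →
    ∃ A : G.Ob → List G.Ar → X, (∀ x l, ¬ G.Chain x l → A x l = 0) ∧
      ∀ (V : Type) (F : Frame G V) v l, F.hom A v l = Φ V F v l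

/-- **SMP** (smoothness and vanishing off chains, 250 lines).  Along a plot the entries of `starG A B`
are finite sums of products of entries of `A` and `B` on sub-plots
(`(F ∘ F') (single j 1) i = Σ_k F' (single j 1) k * F (single k 1) i`). -/
def SpecSMP : Prop :=
  ∀ (G : LieGpd) (ι κ μ : Type) [Fintype ι] [DecidableEq ι] [Fintype κ] [DecidableEq κ]
    [Fintype μ] [DecidableEq μ],
    (∀ (A : G.Ob → List G.Ar → (κ → ℝ) →ₗ[ℝ] (μ → ℝ)) (B : G.Ob → List G.Ar → (ι → ℝ) →ₗ[ℝ] (κ → ℝ)),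
      (G.Smooth A → G.Smooth B → G.Smooth (starG G A B)) ∧
      (G.Smooth A → G.Smooth B → G.Smooth (fun x l => A x l ∘ₗ B x l)) ∧
      ((∀ x l, ¬ G.Chain x l → A x l = 0) → (∀ x l, ¬ G.Chain x l → B x l = 0) →
        ∀ x l, ¬ G.Chain x l → starG G A B x l = 0)) ∧
    (∀ (A B : G.Ob → List G.Ar → (ι → ℝ) →ₗ[ℝ] (κ → ℝ)) (c : ℕ → ℝ), G.Smooth A → G.Smooth B →
      G.Smooth (A + B) ∧ G.Smooth (A - B) ∧ G.Smooth (-A) ∧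
      G.Smooth (fun x l => c l.length • A x l)) ∧
    (∀ (e : G.Ob → (ι → ℝ) →ₗ[ℝ] (κ → ℝ)), SmoothE G e →
      G.Smooth (fun x _ => e x) ∧ G.Smooth (fun x l => e (G.fin x l))) ∧
    (∀ (e : G.Ob → (ι → ℝ) →ₗ[ℝ] (ι → ℝ)), SmoothE G e → G.Smooth (unitG G e)) ∧
    (∀ (A : G.Ob → List G.Ar → (ι → ℝ) →ₗ[ℝ] (κ → ℝ)) (deg : ι → ℤ), G.Smooth A →
      G.Smooth (tw deg A)) ∧
    (∀ (F : (κ → ℝ) →ₗ[ℝ] (μ → ℝ)) (F' : (ι → ℝ) →ₗ[ℝ] (κ → ℝ)), G.Smooth (fun _ _ => F) ∧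
      G.Smooth (fun _ _ => F')) ∧
    (∀ (G' : LieGpd) (φ : Hypercover G' G) (A : G.Ob → List G.Ar → (ι → ℝ) →ₗ[ℝ] (κ → ℝ)),
      G.Smooth A → G'.Smooth (pullG φ A)) ∧
    (∀ (G' : LieGpd) (φ : Hypercover G' G) (e : G.Ob → (ι → ℝ) →ₗ[ℝ] (κ → ℝ)),
      SmoothE G e → SmoothE G' (fun x => e (φ.ob x)))

/-- **HAT** (the two conventions, 300 lines; uses FRM, SMP).  With `c_k = (-1)^(k(k-1)/2)` and
`c_j c_(k-j) = c_k (-1)^(j + k j)`, `θ^j F = (-1)^(j s) F θ^j` for `F` of degree `s`: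
`R̂_j R̂_(k-j) = c_k (-1)^j R_j R_(k-j) θ^k`, `θ R̂_(k-1)(face) = - c_k R_(k-1)(face) θ^k`;
`R̂'_j F̂_(k-j) = c_k R'_j F_(k-j) θ^k`, `F̂_j R̂_(k-j) = c_k (-1)^j F_j R_(k-j) θ^k`,
`θ F̂_(k-1)(face) = c_k F_(k-1)(face) θ^k`.  So the equations of `IsRuth`, `IsHom` on the chain
`arr v l` are the equations of `SRuth`, `DD = 0` at `(v, l)`; conversely every chain is an `arr` in a
frame `wf G x` (FRM).  Units: `R̂ v [v] = R_1(1) θ = e θ`. -/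
def SpecHAT : Prop :=
  ∀ (G : LieGpd) (ι κ μ : Type) [Fintype ι] [DecidableEq ι] [Fintype κ] [DecidableEq κ]
    [Fintype μ] [DecidableEq μ] (deg : ι → ℤ) (deg' : κ → ℤ)
    (e : G.Ob → (ι → ℝ) →ₗ[ℝ] (ι → ℝ)) (R : G.Ob → List G.Ar → (ι → ℝ) →ₗ[ℝ] (ι → ℝ))
    (e' : G.Ob → (κ → ℝ) →ₗ[ℝ] (κ → ℝ)) (R' : G.Ob → List G.Ar → (κ → ℝ) →ₗ[ℝ] (κ → ℝ)),
    (IsRuth G deg e R ↔ HRuth G deg e (tw deg R)) ∧
    (∀ F : G.Ob → List G.Ar → (ι → ℝ) →ₗ[ℝ] (κ → ℝ), IsRuth G deg e R → IsRuth G deg' e' R' →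
      (IsHom G deg e R deg' e' R' F ↔
        HCo G deg deg' 0 e e' (tw deg F) ∧ HCl G deg' (tw deg R) (tw deg' R') (tw deg F))) ∧
    (∀ F : G.Ob → List G.Ar → (ι → ℝ) →ₗ[ℝ] (κ → ℝ), tw deg (tw deg F) = F) ∧
    (∀ (A : G.Ob → List G.Ar → (κ → ℝ) →ₗ[ℝ] (μ → ℝ)) (B : G.Ob → List G.Ar → (ι → ℝ) →ₗ[ℝ] (κ → ℝ)),
      (∀ x l, Deg deg deg' (B x l) (-l.length)) →
      tw deg (starG G A B) = starG G (tw deg' A) (tw deg B)) ∧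
    (tw deg (unitG G e) = unitG G e) ∧
    (∀ (F : G.Ob → List G.Ar → (ι → ℝ) →ₗ[ℝ] (κ → ℝ)) x, tw deg F x [] = F x []) ∧
    (∀ (G' : LieGpd) (φ : Hypercover G' G) (F : G.Ob → List G.Ar → (ι → ℝ) →ₗ[ℝ] (κ → ℝ)),
      tw deg (pullG φ F) = pullG φ (tw deg F))

/-- **PUL** (pullbacks, 150 lines; uses FRM, SMP).  All by `F.hom (pullG φ A) = (F.push φ).hom A`;
the equalities of families use that both sides vanish off chains. -/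
def SpecPUL : Prop :=
  ∀ (G' G : LieGpd) (φ : Hypercover G' G) (ι κ μ : Type) [Fintype ι] [DecidableEq ι] [Fintype κ]
    [DecidableEq κ] [Fintype μ] [DecidableEq μ] (deg : ι → ℤ) (deg' : κ → ℤ)
    (e : G.Ob → (ι → ℝ) →ₗ[ℝ] (ι → ℝ)) (R : G.Ob → List G.Ar → (ι → ℝ) →ₗ[ℝ] (ι → ℝ))
    (e' : G.Ob → (κ → ℝ) →ₗ[ℝ] (κ → ℝ)) (R' : G.Ob → List G.Ar → (κ → ℝ) →ₗ[ℝ] (κ → ℝ)),
    (HRuth G deg e R → HRuth G' deg (fun x => e (φ.ob x)) (pullG φ R)) ∧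
    (∀ (t : ℤ) (A : G.Ob → List G.Ar → (ι → ℝ) →ₗ[ℝ] (κ → ℝ)), HCo G deg deg' t e e' A →
      HCo G' deg deg' t (fun x => e (φ.ob x)) (fun x => e' (φ.ob x)) (pullG φ A)) ∧
    (∀ (A : G.Ob → List G.Ar → (ι → ℝ) →ₗ[ℝ] (κ → ℝ)), HCl G deg' R R' A →
      HCl G' deg' (pullG φ R) (pullG φ R') (pullG φ A)) ∧
    (∀ (A B : G.Ob → List G.Ar → (ι → ℝ) →ₗ[ℝ] (κ → ℝ)), Htp G deg e R deg' e' R' A B →
      Htp G' deg (fun x => e (φ.ob x)) (pullG φ R) deg' (fun x => e' (φ.ob x)) (pullG φ R')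
        (pullG φ A) (pullG φ B)) ∧
    (∀ (A : G.Ob → List G.Ar → (κ → ℝ) →ₗ[ℝ] (μ → ℝ)) (B : G.Ob → List G.Ar → (ι → ℝ) →ₗ[ℝ] (κ → ℝ)),
      (∀ x l, ¬ G.Chain x l → A x l = 0) → (∀ x l, ¬ G.Chain x l → B x l = 0) →
      pullG φ (starG G A B) = starG G' (pullG φ A) (pullG φ B)) ∧
    (pullG φ (unitG G e) = unitG G' (fun x => e (φ.ob x))) ∧
    (∀ (A : G.Ob → List G.Ar → (ι → ℝ) →ₗ[ℝ] (κ → ℝ)) x, pullG φ A x [] = A (φ.ob x) [])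

/-- **CNG** (the homotopy category, hat form, 250 lines; uses FRM, SMP, DLB).
Identities between families which vanish off chains may be checked on frames (FRM).
`D (H F) = (D H) F` for closed `F` of total degree `0`, `D (F H) = F (D H)`. -/
def SpecCNG : Prop :=
  ∀ (G : LieGpd) (ι κ μ : Type) [Fintype ι] [DecidableEq ι] [Fintype κ] [DecidableEq κ]
    [Fintype μ] [DecidableEq μ] (dE : ι → ℤ) (dF : κ → ℤ) (dG : μ → ℤ)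
    (eE : G.Ob → (ι → ℝ) →ₗ[ℝ] (ι → ℝ)) (RE : G.Ob → List G.Ar → (ι → ℝ) →ₗ[ℝ] (ι → ℝ))
    (eF : G.Ob → (κ → ℝ) →ₗ[ℝ] (κ → ℝ)) (RF : G.Ob → List G.Ar → (κ → ℝ) →ₗ[ℝ] (κ → ℝ))
    (eG : G.Ob → (μ → ℝ) →ₗ[ℝ] (μ → ℝ)) (RG : G.Ob → List G.Ar → (μ → ℝ) →ₗ[ℝ] (μ → ℝ)),
    HRuth G dE eE RE → HRuth G dF eF RF → HRuth G dG eG RG →
    (∀ (t t' : ℤ) (A : G.Ob → List G.Ar → (κ → ℝ) →ₗ[ℝ] (μ → ℝ))
      (B : G.Ob → List G.Ar → (ι → ℝ) →ₗ[ℝ] (κ → ℝ)), HCo G dF dG t eF eG A →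
      HCo G dE dF t' eE eF B → HCo G dE dG (t + t') eE eG (starG G A B)) ∧
    (∀ (A : G.Ob → List G.Ar → (κ → ℝ) →ₗ[ℝ] (μ → ℝ)) (B : G.Ob → List G.Ar → (ι → ℝ) →ₗ[ℝ] (κ → ℝ)),
      HCo G dF dG 0 eF eG A → HCo G dE dF 0 eE eF B → HCl G dG RF RG A → HCl G dF RE RF B →
      HCl G dG RE RG (starG G A B)) ∧
    (HCo G dE dE 0 eE eE (unitG G eE) ∧ HCl G dE RE RE (unitG G eE)) ∧
    (∀ A : G.Ob → List G.Ar → (ι → ℝ) →ₗ[ℝ] (κ → ℝ), HCo G dE dF 0 eE eF A →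
      starG G (unitG G eF) A = A ∧ starG G A (unitG G eE) = A) ∧
    (∀ (ν : Type) (A : G.Ob → List G.Ar → (μ → ℝ) →ₗ[ℝ] (ν → ℝ))
      (B : G.Ob → List G.Ar → (κ → ℝ) →ₗ[ℝ] (μ → ℝ)) (C : G.Ob → List G.Ar → (ι → ℝ) →ₗ[ℝ] (κ → ℝ)),
      starG G (starG G A B) C = starG G A (starG G B C)) ∧
    (∀ A : G.Ob → List G.Ar → (ι → ℝ) →ₗ[ℝ] (κ → ℝ), Htp G dE eE RE dF eF RF A A) ∧
    (∀ A B : G.Ob → List G.Ar → (ι → ℝ) →ₗ[ℝ] (κ → ℝ), Htp G dE eE RE dF eF RF A B →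
      Htp G dE eE RE dF eF RF B A) ∧
    (∀ A B C : G.Ob → List G.Ar → (ι → ℝ) →ₗ[ℝ] (κ → ℝ), Htp G dE eE RE dF eF RF A B →
      Htp G dE eE RE dF eF RF B C → Htp G dE eE RE dF eF RF A C) ∧
    (∀ (A A' : G.Ob → List G.Ar → (κ → ℝ) →ₗ[ℝ] (μ → ℝ))
      (B : G.Ob → List G.Ar → (ι → ℝ) →ₗ[ℝ] (κ → ℝ)), HCo G dE dF 0 eE eF B → HCl G dF RE RF B →
      Htp G dF eF RF dG eG RG A A' →
      Htp G dE eE RE dG eG RG (starG G A B) (starG G A' B)) ∧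
    (∀ (A : G.Ob → List G.Ar → (κ → ℝ) →ₗ[ℝ] (μ → ℝ))
      (B B' : G.Ob → List G.Ar → (ι → ℝ) →ₗ[ℝ] (κ → ℝ)), HCo G dF dG 0 eF eG A → HCl G dG RF RG A →
      Htp G dE eE RE dF eF RF B B' →
      Htp G dE eE RE dG eG RG (starG G A B) (starG G A B'))

/-! ### Contractions and homotopy equivalences -/

/-- The cochain `ν` on `G`. -/
def nuG (G : LieGpd) {ι : Type} (h : G.Ob → (ι → ℝ) →ₗ[ℝ] (ι → ℝ))
    (R : G.Ob → List G.Ar → (ι → ℝ) →ₗ[ℝ] (ι → ℝ)) : G.Ob → List G.Ar → (ι → ℝ) →ₗ[ℝ] (ι → ℝ)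
  | _, [] => 0
  | x, g :: l => h x ∘ₗ R x (g :: l) + R x (g :: l) ∘ₗ h (G.fin x (g :: l))

/-- Powers. -/
def powG (G : LieGpd) {ι : Type} (u A : G.Ob → List G.Ar → (ι → ℝ) →ₗ[ℝ] (ι → ℝ)) :
    ℕ → G.Ob → List G.Ar → (ι → ℝ) →ₗ[ℝ] (ι → ℝ)
  | 0 => u
  | n + 1 => starG G A (powG G u A n)

/-- The contraction on `G`. -/
def conG (G : LieGpd) {ι : Type} (e h : G.Ob → (ι → ℝ) →ₗ[ℝ] (ι → ℝ))
    (R : G.Ob → List G.Ar → (ι → ℝ) →ₗ[ℝ] (ι → ℝ)) : G.Ob → List G.Ar → (ι → ℝ) →ₗ[ℝ] (ι → ℝ) :=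
  fun x l => h x ∘ₗ ∑ n ∈ Finset.range (l.length + 1),
    ((-1 : ℤ) ^ n) • powG G (unitG G e) (nuG G h R) n x l

/-- **CNS** (120 lines; uses FRM, SMP).  `conG` is smooth, vanishes off chains and restricts to `conC`
on frames. -/
def SpecCNS : Prop :=
  ∀ (G : LieGpd) (ι : Type) [Fintype ι] [DecidableEq ι] (e h : G.Ob → (ι → ℝ) →ₗ[ℝ] (ι → ℝ))
    (R : G.Ob → List G.Ar → (ι → ℝ) →ₗ[ℝ] (ι → ℝ)),
    SmoothE G e → SmoothE G h → G.Smooth R → (∀ x l, ¬ G.Chain x l → R x l = 0) →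
    G.Smooth (conG G e h R) ∧ (∀ x l, ¬ G.Chain x l → conG G e h R x l = 0) ∧
    ∀ (V : Type) (F : Frame G V) v l, F.hom (conG G e h R) v l =
      conC (fun v => e (F.b v)) (fun v => h (F.b v)) (F.hom R) v l

/-- **ACY** (smooth contraction of an acyclic complex of vector bundles, 300 lines; only the manifold
`G.Ob`: Hausdorff, second countable).  The set of contractions `t(x) = {h | e h = h = h e, degree -1,
d h + h d = e}` is convex.  Local smooth selections: at `x₀` choose `h₀ ∈ t(x₀)` (linear algebra over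
`ℝ`: a complement of the kernel; replace `h₀` by its part of degree `-1`); put `h' x = e(x) h₀ e(x)` and
`u x = d h' + h' d` (commutes with `d`, `u x₀ = e x₀`), `u + 1 - e` is invertible near `x₀` and
`h = h' (u + 1 - e)⁻¹` is a contraction: `d h + h d = u (u + 1 - e)⁻¹ = e`.  Then use
`exists_contMDiffOn_forall_mem_convex_of_local` or a smooth partition of unity. -/
def SpecACY : Prop :=
  ∀ (G : LieGpd) (ι : Type) [Fintype ι] [DecidableEq ι] (deg : ι → ℤ)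
    (e d : G.Ob → (ι → ℝ) →ₗ[ℝ] (ι → ℝ)),
    SmoothE G e → SmoothE G d → (∀ x, e x ∘ₗ e x = e x) → (∀ x, Deg deg deg (e x) 0) →
    (∀ x, Deg deg deg (d x) 1) → (∀ x, e x ∘ₗ d x = d x) → (∀ x, d x ∘ₗ e x = d x) →
    (∀ x, d x ∘ₗ d x = 0) → (∀ x z, e x z = z → d x z = 0 → ∃ y, z = d x y) →
    ∃ h : G.Ob → (ι → ℝ) →ₗ[ℝ] (ι → ℝ), SmoothE G h ∧ (∀ x, e x ∘ₗ h x = h x) ∧
      (∀ x, h x ∘ₗ e x = h x) ∧ (∀ x, Deg deg deg (h x) (-1)) ∧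
      ∀ x, d x ∘ₗ h x + h x ∘ₗ d x = e x

/-- **QHE** (a quasi-isomorphism is a homotopy equivalence, 300 lines; uses QAC, ACY, CNS, CON, TWS,
SMP, FRM).  Cone on `ι ⊕ κ`, degrees `(dE - 1, dF)`, idempotent `mat2 eE 0 0 eF`, structure
`RC x l = mat2 (-(RE x l)) 0 (F x l) (RF x l)`, a pre-representation on each frame (TWS with `s = -1`,
`X = F`: `IsCo (dE - 1) dF 1`, `DD 1 (-RE) RF F = θ fc F + cv RF F + cv F (-RE) = 0`; note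
`sgn 1 = -1`).  Its fibres are acyclic (QAC), so ACY gives `h` and `H = conG` satisfies
`DD (-1) RC RC H = unt e` on frames (CON).  Write `H = [[α, β], [γ, δ]]`; then
`β` is closed of total degree `0` from `F` to `E`:
block (E,F): `- θ fc β - RE β + β RF = 0`;
block (E,E): `- θ fc α - RE α - α RE + β F = eE`, so `β F - eE = DD (-1) α`;
block (F,F): `θ fc δ + F β + RF δ + δ RF = eF`, so `F β - eF = DD (-1) (-δ)`. -/
def SpecQHE : Prop :=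
  ∀ (G : LieGpd) (ι κ : Type) [Fintype ι] [DecidableEq ι] [Fintype κ] [DecidableEq κ]
    (dE : ι → ℤ) (dF : κ → ℤ)
    (eE : G.Ob → (ι → ℝ) →ₗ[ℝ] (ι → ℝ)) (RE : G.Ob → List G.Ar → (ι → ℝ) →ₗ[ℝ] (ι → ℝ))
    (eF : G.Ob → (κ → ℝ) →ₗ[ℝ] (κ → ℝ)) (RF : G.Ob → List G.Ar → (κ → ℝ) →ₗ[ℝ] (κ → ℝ))
    (F : G.Ob → List G.Ar → (ι → ℝ) →ₗ[ℝ] (κ → ℝ)),
    HRuth G dE eE RE → HRuth G dF eF RF → HCo G dE dF 0 eE eF F → HCl G dF RE RF F →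
    (∀ x, QisAt (eE x) (RE x []) (eF x) (RF x []) (F x [])) →
    ∃ B : G.Ob → List G.Ar → (κ → ℝ) →ₗ[ℝ] (ι → ℝ), HCo G dF dE 0 eF eE B ∧ HCl G dE RF RE B ∧
      Htp G dE eE RE dE eE RE (starG G B F) (unitG G eE) ∧
      Htp G dF eF RF dF eF RF (starG G F B) (unitG G eF)

/-! ### Path objects -/

/-- Degrees of the path object. -/
def pthDeg {ι : Type} (deg : ι → ℤ) : (ι ⊕ ι) ⊕ ι → ℤ :=
  Sum.elim (Sum.elim deg deg) (fun i => deg i + 1)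

/-- Idempotent of the path object. -/
def pthE {G : LieGpd} {ι : Type} (e : G.Ob → (ι → ℝ) →ₗ[ℝ] (ι → ℝ)) :
    G.Ob → ((ι ⊕ ι) ⊕ ι → ℝ) →ₗ[ℝ] ((ι ⊕ ι) ⊕ ι → ℝ) :=
  fun x => mat2 (mat2 (e x) 0 0 (e x)) 0 0 (e x)

/-- Structure of the path object (hat form). -/
def pthR (G : LieGpd) {ι : Type} (e : G.Ob → (ι → ℝ) →ₗ[ℝ] (ι → ℝ))
    (R : G.Ob → List G.Ar → (ι → ℝ) →ₗ[ℝ] (ι → ℝ)) :
    G.Ob → List G.Ar → ((ι ⊕ ι) ⊕ ι → ℝ) →ₗ[ℝ] ((ι ⊕ ι) ⊕ ι → ℝ) :=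
  fun x l => mat2 (mat2 (R x l) 0 0 (R x l)) 0
    (unitG G e x l ∘ₗ pL ℝ ι ι - unitG G e x l ∘ₗ pR ℝ ι ι) (-(R x l))

/-- The diagonal. -/
def pthI (G : LieGpd) {ι : Type} (e : G.Ob → (ι → ℝ) →ₗ[ℝ] (ι → ℝ)) :
    G.Ob → List G.Ar → (ι → ℝ) →ₗ[ℝ] ((ι ⊕ ι) ⊕ ι → ℝ) :=
  fun x l => iL ℝ (ι ⊕ ι) ι ∘ₗ (iL ℝ ι ι ∘ₗ unitG G e x l + iR ℝ ι ι ∘ₗ unitG G e x l)

/-- The first projection of the path object. -/
def pthP0 (G : LieGpd) {ι : Type} (e : G.Ob → (ι → ℝ) →ₗ[ℝ] (ι → ℝ)) :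
    G.Ob → List G.Ar → ((ι ⊕ ι) ⊕ ι → ℝ) →ₗ[ℝ] (ι → ℝ) :=
  fun x l => unitG G e x l ∘ₗ pL ℝ ι ι ∘ₗ pL ℝ (ι ⊕ ι) ι

/-- The second projection of the path object. -/
def pthP1 (G : LieGpd) {ι : Type} (e : G.Ob → (ι → ℝ) →ₗ[ℝ] (ι → ℝ)) :
    G.Ob → List G.Ar → ((ι ⊕ ι) ⊕ ι → ℝ) →ₗ[ℝ] (ι → ℝ) :=
  fun x l => unitG G e x l ∘ₗ pR ℝ ι ι ∘ₗ pL ℝ (ι ⊕ ι) ι

/-- The morphism to the path object given by a homotopy. -/
def pthH {G : LieGpd} {ι κ : Type} (F₁ F₂ H : G.Ob → List G.Ar → (ι → ℝ) →ₗ[ℝ] (κ → ℝ)) :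
    G.Ob → List G.Ar → (ι → ℝ) →ₗ[ℝ] ((κ ⊕ κ) ⊕ κ → ℝ) :=
  fun x l => iL ℝ (κ ⊕ κ) κ ∘ₗ (iL ℝ κ κ ∘ₗ F₁ x l + iR ℝ κ κ ∘ₗ F₂ x l) + iR ℝ (κ ⊕ κ) κ ∘ₗ H x l

/-- **PTH** (path objects, 300 lines; uses FRM, SMP, TWS, QAC).  Third row of the equation for
`(F₁, F₂, H)`: `θ' = - θ`: `- θ fc H + F₁ - F₂ - RF H - H RE = 0`, i.e.
`F₁ - F₂ = DD (-1) H`.  The diagonal is a homotopy equivalence on fibres with inverse the first
projection. -/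
def SpecPTH : Prop :=
  ∀ (G : LieGpd) (ι κ : Type) [Fintype ι] [DecidableEq ι] [Fintype κ] [DecidableEq κ]
    (dE : ι → ℤ) (dF : κ → ℤ)
    (eE : G.Ob → (ι → ℝ) →ₗ[ℝ] (ι → ℝ)) (RE : G.Ob → List G.Ar → (ι → ℝ) →ₗ[ℝ] (ι → ℝ))
    (eF : G.Ob → (κ → ℝ) →ₗ[ℝ] (κ → ℝ)) (RF : G.Ob → List G.Ar → (κ → ℝ) →ₗ[ℝ] (κ → ℝ)),
    HRuth G dE eE RE → HRuth G dF eF RF →
    HRuth G (pthDeg dF) (pthE eF) (pthR G eF RF) ∧
    (HCo G dF (pthDeg dF) 0 eF (pthE eF) (pthI G eF) ∧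
      HCl G (pthDeg dF) RF (pthR G eF RF) (pthI G eF)) ∧
    (∀ x, QisAt (eF x) (RF x []) (pthE eF x) (pthR G eF RF x []) (pthI G eF x [])) ∧
    (HCo G (pthDeg dF) dF 0 (pthE eF) eF (pthP0 G eF) ∧
      HCl G dF (pthR G eF RF) RF (pthP0 G eF)) ∧
    (HCo G (pthDeg dF) dF 0 (pthE eF) eF (pthP1 G eF) ∧
      HCl G dF (pthR G eF RF) RF (pthP1 G eF)) ∧
    starG G (pthP0 G eF) (pthI G eF) = unitG G eF ∧
    starG G (pthP1 G eF) (pthI G eF) = unitG G eF ∧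
    ∀ F₁ F₂ : G.Ob → List G.Ar → (ι → ℝ) →ₗ[ℝ] (κ → ℝ),
      HCo G dE dF 0 eE eF F₁ → HCl G dF RE RF F₁ → HCo G dE dF 0 eE eF F₂ → HCl G dF RE RF F₂ →
      Htp G dE eE RE dF eF RF F₁ F₂ →
      ∃ Φ : G.Ob → List G.Ar → (ι → ℝ) →ₗ[ℝ] ((κ ⊕ κ) ⊕ κ → ℝ),
        HCo G dE (pthDeg dF) 0 eE (pthE eF) Φ ∧ HCl G (pthDeg dF) RE (pthR G eF RF) Φ ∧
        starG G (pthP0 G eF) Φ = F₁ ∧ starG G (pthP1 G eF) Φ = F₂

/-! ### Smooth families -/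

/-- The ring of smooth functions on the open set `U ⊆ ℝ^d`. -/
def Sm {d : ℕ} (U : Set (Eu d)) : Subring (U → ℝ) where
  carrier := {f | ∃ g : Eu d → ℝ, ContDiffOn ℝ ∞ g U ∧ ∀ u : U, f u = g u}
  mul_mem' := by
    rintro f f' ⟨g, hg, h⟩ ⟨g', hg', h'⟩
    exact ⟨fun u => g u * g' u, hg.mul hg', fun u => by simp [h, h']⟩
  one_mem' := ⟨fun _ => 1, contDiffOn_const, fun _ => rfl⟩
  add_mem' := by
    rintro f f' ⟨g, hg, h⟩ ⟨g', hg', h'⟩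
    exact ⟨fun u => g u + g' u, hg.add hg', fun u => by simp [h, h']⟩
  zero_mem' := ⟨fun _ => 0, contDiffOn_const, fun _ => rfl⟩
  neg_mem' := by
    rintro f ⟨g, hg, h⟩
    exact ⟨fun u => - g u, hg.neg, fun u => by simp [h]⟩

/-- Evaluation at a point of `U`. -/
def evS {d : ℕ} (U : Set (Eu d)) (u : U) : Sm U →+* ℝ :=
  (Pi.evalRingHom (fun _ : U => ℝ) u).comp (Sm U).subtype

/-- A smooth family of frames over `U`. -/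
def SmFam {G : LieGpd} {d : ℕ} {U : Set (Eu d)} {V : Type} (F : U → Frame G V) : Prop :=
  (∀ v, ∃ f : Eu d → G.Ob, ContMDiffOn (𝓡 d) (𝓡 G.m) ∞ f U ∧ ∀ u : U, (F u).b v = f u) ∧
  (∀ v w, ∃ f : Eu d → G.Ar, ContMDiffOn (𝓡 d) (𝓡 G.n) ∞ f U ∧ ∀ u : U, (F u).c v w = f u)

/-- **SMR** (linear algebra over `Sm U`, 300 lines; uses FRM).
(1) a family of linear maps with smooth entries lifts to `Sm U`; (2) a smooth family on `G` and a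
smooth family of frames give a cochain over `Sm U`; (3) a representation up to homotopy on `G` gives
one over `Sm U` (all conditions may be checked pointwise: `evS U u`, `u ∈ U`, are jointly injective);
(4) smoothness may be checked locally with lifts. -/
def SpecSMR : Prop :=
  ∀ (G : LieGpd) (ι κ : Type) [Fintype ι] [DecidableEq ι] [Fintype κ] [DecidableEq κ],
    (∀ (d : ℕ) (U : Set (Eu d)) (F : U → ((ι → ℝ) →ₗ[ℝ] (κ → ℝ))),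
      (∀ i j, ∃ g : Eu d → ℝ, ContDiffOn ℝ ∞ g U ∧ ∀ u, F u (Pi.single j 1) i = g u) →
      ∃ F' : (ι → Sm U) →ₗ[Sm U] (κ → Sm U), ∀ u, LNat (evS U u) F' (F u)) ∧
    (∀ (d : ℕ) (U : Set (Eu d)) (V : Type) (F : U → Frame G V)
      (A : G.Ob → List G.Ar → (ι → ℝ) →ₗ[ℝ] (κ → ℝ)), IsOpen U → SmFam F → G.Smooth A →
      ∃ A' : V → List V → ((ι → Sm U) →ₗ[Sm U] (κ → Sm U)),
        ∀ u v l, LNat (evS U u) (A' v l) ((F u).hom A v l)) ∧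
    (∀ (d : ℕ) (U : Set (Eu d)) (V : Type) (F : U → Frame G V) (deg : ι → ℤ)
      (e : G.Ob → (ι → ℝ) →ₗ[ℝ] (ι → ℝ)) (R : G.Ob → List G.Ar → (ι → ℝ) →ₗ[ℝ] (ι → ℝ)),
      IsOpen U → SmFam F → HRuth G deg e R →
      ∃ (e' : V → (ι → Sm U) →ₗ[Sm U] (ι → Sm U))
        (R' : V → List V → ((ι → Sm U) →ₗ[Sm U] (ι → Sm U))), SRuth deg e' R' ∧
        (∀ u v, LNat (evS U u) (e' v) (e ((F u).b v))) ∧
        ∀ u v l, LNat (evS U u) (R' v l) ((F u).hom R v l)) ∧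
    (∀ (A : G.Ob → List G.Ar → (ι → ℝ) →ₗ[ℝ] (κ → ℝ)),
      (∀ (d k : ℕ) (U : Set (Eu d)) (x : Eu d → G.Ob) (g : Fin k → Eu d → G.Ar), IsOpen U →
        ContMDiffOn (𝓡 d) (𝓡 G.m) ∞ x U → (∀ a, ContMDiffOn (𝓡 d) (𝓡 G.n) ∞ (g a) U) →
        (∀ u ∈ U, G.Chain (x u) (List.ofFn (fun a => g a u))) → ∀ u₀ ∈ U,
        ∃ U' : Set (Eu d), IsOpen U' ∧ u₀ ∈ U' ∧ U' ⊆ U ∧
          ∃ F' : (ι → Sm U') →ₗ[Sm U'] (κ → Sm U'), ∀ u : U',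
            LNat (evS U' u) F' (A (x u) (List.ofFn (fun a => g a u)))) →
      G.Smooth A) ∧
    (∀ (e : G.Ob → (ι → ℝ) →ₗ[ℝ] (κ → ℝ)), G.Smooth (fun x _ => e x) → SmoothE G e)

/-- **PLF** (frames of plots, 200 lines; uses FRM).  Put `δ_0 = 1_x`, `δ_(i+1) = g_(i+1)⁻¹ δ_i` (arrows
starting at `x`), smooth in `u`, and pull back the frame `wf G (x u)` along `i ↦ δ_i u`. -/
def SpecPLF : Prop :=
  ∀ (G : LieGpd) (d k : ℕ) (U : Set (Eu d)) (x : Eu d → G.Ob) (g : Fin k → Eu d → G.Ar), IsOpen U →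
    ContMDiffOn (𝓡 d) (𝓡 G.m) ∞ x U → (∀ a, ContMDiffOn (𝓡 d) (𝓡 G.n) ∞ (g a) U) →
    (∀ u ∈ U, G.Chain (x u) (List.ofFn (fun a => g a u))) →
    ∃ F : U → Frame G (Fin (k + 1)), SmFam F ∧
      ∀ u : U, (F u).b 0 = x u ∧
        (F u).arr 0 ((List.finRange k).map Fin.succ) = List.ofFn (fun a => g a (u : Eu d))

/-- **SMC** (smooth covering data, 300 lines; uses nothing).  `W` finite, `F` a smooth family of frames
of `G` on `W`, `I` finite, `n j` smooth maps to `G'.Ob` over the objects `(F u).b (q j)`.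
Near `u₀`: call `(c, w)` good if `(F u₀).b w ∈ tsupport (T.tau c)`; then `(F u).b w ∈ T.U c` near `u₀`,
otherwise `T.tau c`, hence `T.l c` (`l = tau l`), vanish at `(F u).b w` near `u₀`.  For every `w` there
is a good colour `g w` (`Σ l^2 = 1`).  Put `V = (Fin N × W) ⊕ I`, `p (inl (c, w)) = w`,
`p (inr j) = q j`, `lift c w = inl (c, w)`, `α u (inl (c, w)) = (σ_(c') ((F u).b w), w)` with `c' = c` if
`(c, w)` is good and `c' = g w` otherwise, `α u (inr j) = (n j u, q j)`; `E u` is the pullback of the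
frame `upF φ (F u)` along `α u`: smooth by `Hypercover.cart_smooth`. -/
def SpecSMC : Prop :=
  ∀ (G' G : LieGpd) (φ : Hypercover G' G) (T : TopData φ) (d : ℕ) (U : Set (Eu d)) (W I : Type)
    [Finite W] [Finite I] (F : U → Frame G W) (q : I → W) (n : I → Eu d → G'.Ob)
    (hn : ∀ (u : U) j, φ.ob (n j u) = (F u).b (q j)),
    IsOpen U → SmFam F → (∀ j, ContMDiffOn (𝓡 d) (𝓡 G'.m) ∞ (n j) U) → ∀ u₀ : U,
    ∃ (U' : Set (Eu d)) (hU : U' ⊆ U), IsOpen U' ∧ (u₀ : Eu d) ∈ U' ∧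
      ∃ (V : Type) (D : Cov (Sm U') V W (Fin T.N)) (α : ∀ u : U', V → VV φ (F ⟨u, hU u.2⟩))
        (E : U' → Frame G' V) (jj : I → V), D.Ok ∧ SmFam E ∧
        (∀ u : U', Cov.Map (evS U' u) (α u) id D (cvF T (F ⟨u, hU u.2⟩))) ∧
        (∀ u : U', Frame.Map (E u) (upF φ (F ⟨u, hU u.2⟩)) (α u)) ∧
        (∀ (u : U') j, α u (jj j) = ⟨(n j u, q j), hn ⟨u, hU u.2⟩ j⟩)

/-! ### Descent along hypercovers -/

/-- **HRE** (the output on `G`, 300 lines; uses FRM, DSC, SMR, PLF, SMC, NAT, OUT).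
The families `Φ W F w l = oR (cvF T F) deg lo n ((upF φ F).hom R) w l` and (on empty lists) `oE` are
natural (NAT with `φ = id`, `α` the induced map of pairs, `β` the map of frames), so they come from
`eE`, `RE` (DSC).  `SRuth` on frames is OUT for `cvF T F` (it is `Ok`).  Smoothness: for a plot use PLF
to get a smooth family of frames, SMC (`I = Empty`), SMR (3) for the family `E` of frames of `G'`,
and NAT along `evS U' u`, `α u`, `id`. -/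
def SpecHRE : Prop :=
  ∀ (G' G : LieGpd) (φ : Hypercover G' G) (T : TopData φ) (ι : Type) [Fintype ι] [DecidableEq ι]
    (deg : ι → ℤ) (lo : ℤ) (n : ℕ) (e : G'.Ob → (ι → ℝ) →ₗ[ℝ] (ι → ℝ))
    (R : G'.Ob → List G'.Ar → (ι → ℝ) →ₗ[ℝ] (ι → ℝ)),
    HRuth G' deg e R → (∀ i, lo ≤ deg i) → (∀ i, deg i ≤ lo + n) →
    ∃ (eE : G.Ob → (Kap n (Fin T.N) ι → ℝ) →ₗ[ℝ] (Kap n (Fin T.N) ι → ℝ))
      (RE : G.Ob → List G.Ar → (Kap n (Fin T.N) ι → ℝ) →ₗ[ℝ] (Kap n (Fin T.N) ι → ℝ)),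
      HRuth G (dgO n (Fin T.N) deg) eE RE ∧
      ∀ (W : Type) (F : Frame G W),
        (∀ w, eE (F.b w) = oE (cvF T F) deg lo n ((upF φ F).hom R) w) ∧
        ∀ w l, F.hom RE w l = oR (cvF T F) deg lo n ((upF φ F).hom R) w l

/-- **HPS** (the morphism on `G'`, 250 lines; uses FRM, DSC, SMR, PLF, SMC, NAT).  The same for
`oPsi`, evaluated on the points `jF φ F v` of the induced frame of `F.push φ`; in SMC take
`I = W = Fin (k+1)`, `q = id`, `n j u = (F u).b j`. -/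
def SpecHPS : Prop :=
  ∀ (G' G : LieGpd) (φ : Hypercover G' G) (T : TopData φ) (ι : Type) [Fintype ι] [DecidableEq ι]
    (deg : ι → ℤ) (lo : ℤ) (n : ℕ) (e : G'.Ob → (ι → ℝ) →ₗ[ℝ] (ι → ℝ))
    (R : G'.Ob → List G'.Ar → (ι → ℝ) →ₗ[ℝ] (ι → ℝ)),
    HRuth G' deg e R →
    ∃ Ps : G'.Ob → List G'.Ar → (Kap n (Fin T.N) ι → ℝ) →ₗ[ℝ] (ι → ℝ),
      G'.Smooth Ps ∧ (∀ x l, ¬ G'.Chain x l → Ps x l = 0) ∧
      ∀ (V : Type) (F : Frame G' V) v l, F.hom Ps v l =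
        oPsi (cvF T (F.push φ)) deg lo n ((upF φ (F.push φ)).hom R)
          (fun q => e ((upF φ (F.push φ)).b q)) (jF φ F v) (l.map (jF φ F))

/-- **HES** (essential surjectivity, hat form, 200 lines; uses HRE, HPS, OUT, FRM, QAC).  `IsCo` and
`DD = 0` for `Ps` on a frame `F` of `G'` are the statements of OUT at `jF φ F v` (`jF_map`, FRM (8)),
and the fibrewise quasi-isomorphism is `HoEq` (OUT) and QAC. -/
def SpecHES : Prop :=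
  ∀ (G' G : LieGpd) (φ : Hypercover G' G), Nonempty (TopData φ) →
    ∀ (ι : Type) [Fintype ι] [DecidableEq ι]
    (deg : ι → ℤ) (e : G'.Ob → (ι → ℝ) →ₗ[ℝ] (ι → ℝ))
    (R : G'.Ob → List G'.Ar → (ι → ℝ) →ₗ[ℝ] (ι → ℝ)), HRuth G' deg e R →
    ∃ (κ : Type) (_ : Fintype κ) (_ : DecidableEq κ) (dE : κ → ℤ)
      (eE : G.Ob → (κ → ℝ) →ₗ[ℝ] (κ → ℝ)) (RE : G.Ob → List G.Ar → (κ → ℝ) →ₗ[ℝ] (κ → ℝ))
      (Ps : G'.Ob → List G'.Ar → (κ → ℝ) →ₗ[ℝ] (ι → ℝ)),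
      HRuth G dE eE RE ∧ HCo G' dE deg 0 (fun x => eE (φ.ob x)) e Ps ∧
      HCl G' deg (pullG φ RE) R Ps ∧
      ∀ x, QisAt (eE (φ.ob x)) (RE (φ.ob x) []) (e x) (R x []) (Ps x [])

/-- **HAV** (averages of cochains, 250 lines; uses FRM, DSC, SMR, PLF, SMC, NTA, AVG).  As HRE, HPS,
with `av` (on `G`) and `hr` (on `G'`). -/
def SpecHAV : Prop :=
  ∀ (G' G : LieGpd) (φ : Hypercover G' G) (T : TopData φ) (ι κ : Type) [Fintype ι] [DecidableEq ι]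
    [Fintype κ] [DecidableEq κ] (A : G'.Ob → List G'.Ar → (ι → ℝ) →ₗ[ℝ] (κ → ℝ)),
    G'.Smooth A → (∀ x l, ¬ G'.Chain x l → A x l = 0) →
    (∃ B : G.Ob → List G.Ar → (ι → ℝ) →ₗ[ℝ] (κ → ℝ), G.Smooth B ∧
      (∀ x l, ¬ G.Chain x l → B x l = 0) ∧
      ∀ (W : Type) (F : Frame G W) w l, F.hom B w l = av (cvF T F) ((upF φ F).hom A) w l) ∧
    (∃ B : G'.Ob → List G'.Ar → (ι → ℝ) →ₗ[ℝ] (κ → ℝ), G'.Smooth B ∧
      (∀ x l, ¬ G'.Chain x l → B x l = 0) ∧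
      ∀ (V : Type) (F : Frame G' V) v l, F.hom B v l =
        hr (cvF T (F.push φ)) ((upF φ (F.push φ)).hom A) (jF φ F v) (l.map (jF φ F)))

/-- **HFF** (full and faithful, hat form, 250 lines; uses HAV, AVG, HRA, FRM, SMP).
Full: `F = av F'`; on frames `DD (av F') = av (DD F') = 0` (AVG) and HRA gives
`pull F - F' = DD (-1) H` with `H = θ hr F'`.  Faithful: if `pull F₁ - pull F₂ = DD (-1) H` then
`F₁ - F₂ = av (pull F₁ - pull F₂) = av (DD H) = DD (av H)`. -/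
def SpecHFF : Prop :=
  ∀ (G' G : LieGpd) (φ : Hypercover G' G), Nonempty (TopData φ) →
    ∀ (ι κ : Type) [Fintype ι] [DecidableEq ι] [Fintype κ] [DecidableEq κ]
    (dE : ι → ℤ) (dF : κ → ℤ)
    (eE : G.Ob → (ι → ℝ) →ₗ[ℝ] (ι → ℝ)) (RE : G.Ob → List G.Ar → (ι → ℝ) →ₗ[ℝ] (ι → ℝ))
    (eF : G.Ob → (κ → ℝ) →ₗ[ℝ] (κ → ℝ)) (RF : G.Ob → List G.Ar → (κ → ℝ) →ₗ[ℝ] (κ → ℝ)),
    HRuth G dE eE RE → HRuth G dF eF RF →
    (∀ F' : G'.Ob → List G'.Ar → (ι → ℝ) →ₗ[ℝ] (κ → ℝ),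
      HCo G' dE dF 0 (fun x => eE (φ.ob x)) (fun x => eF (φ.ob x)) F' →
      HCl G' dF (pullG φ RE) (pullG φ RF) F' →
      ∃ F : G.Ob → List G.Ar → (ι → ℝ) →ₗ[ℝ] (κ → ℝ), HCo G dE dF 0 eE eF F ∧
        HCl G dF RE RF F ∧
        Htp G' dE (fun x => eE (φ.ob x)) (pullG φ RE) dF (fun x => eF (φ.ob x)) (pullG φ RF)
          (pullG φ F) F') ∧
    (∀ F₁ F₂ : G.Ob → List G.Ar → (ι → ℝ) →ₗ[ℝ] (κ → ℝ), HCo G dE dF 0 eE eF F₁ →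
      HCo G dE dF 0 eE eF F₂ →
      Htp G' dE (fun x => eE (φ.ob x)) (pullG φ RE) dF (fun x => eF (φ.ob x)) (pullG φ RF)
        (pullG φ F₁) (pullG φ F₂) →
      Htp G dE eE RE dF eF RF F₁ F₂)

/-- **CTG** (category facts for the public definitions, 200 lines; uses HAT, CNG, PUL).  Transport
along `tw`. -/
def SpecCTG : Prop :=
  ∀ (G : LieGpd) (ι κ μ : Type) [Fintype ι] [DecidableEq ι] [Fintype κ] [DecidableEq κ]
    [Fintype μ] [DecidableEq μ] (dE : ι → ℤ) (dF : κ → ℤ) (dG : μ → ℤ)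
    (eE : G.Ob → (ι → ℝ) →ₗ[ℝ] (ι → ℝ)) (RE : G.Ob → List G.Ar → (ι → ℝ) →ₗ[ℝ] (ι → ℝ))
    (eF : G.Ob → (κ → ℝ) →ₗ[ℝ] (κ → ℝ)) (RF : G.Ob → List G.Ar → (κ → ℝ) →ₗ[ℝ] (κ → ℝ))
    (eG : G.Ob → (μ → ℝ) →ₗ[ℝ] (μ → ℝ)) (RG : G.Ob → List G.Ar → (μ → ℝ) →ₗ[ℝ] (μ → ℝ)),
    IsRuth G dE eE RE → IsRuth G dF eF RF → IsRuth G dG eG RG →
    IsHom G dE eE RE dE eE RE (unitG G eE) ∧
    (∀ (A : G.Ob → List G.Ar → (κ → ℝ) →ₗ[ℝ] (μ → ℝ)) (B : G.Ob → List G.Ar → (ι → ℝ) →ₗ[ℝ] (κ → ℝ)),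
      IsHom G dF eF RF dG eG RG A → IsHom G dE eE RE dF eF RF B →
      IsHom G dE eE RE dG eG RG (starG G A B)) ∧
    (∀ B : G.Ob → List G.Ar → (ι → ℝ) →ₗ[ℝ] (κ → ℝ), IsHom G dE eE RE dF eF RF B →
      starG G (unitG G eF) B = B ∧ starG G B (unitG G eE) = B) ∧
    (∀ (G' : LieGpd) (φ : Hypercover G' G),
      IsRuth G' dE (fun x => eE (φ.ob x)) (pullG φ RE) ∧
      ∀ B : G.Ob → List G.Ar → (ι → ℝ) →ₗ[ℝ] (κ → ℝ), IsHom G dE eE RE dF eF RF B →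
        IsHom G' dE (fun x => eE (φ.ob x)) (pullG φ RE) dF (fun x => eF (φ.ob x)) (pullG φ RF)
          (pullG φ B))

end Pool.Agent.Lib.MP_9b987c_gt.HC
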