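import Pool.Agent.Lib.MP_9b987c_gt.HC.SpecA
import Pool.Agent.Lib.MP_9b987c_gt.HC.SpecG

section
/-!
# Module LEI: Leibniz rules for products of cochains
-/
namespace Pool.Agent.Lib.MP_9b987c_gt.HC

namespace LEIM

section Add

variable {V X : Type*} [AddCommGroup X]

/-- The cochain `(u_0..u_k) ↦ f (v, u_1..u_k)` for `k ≥ 1`, and `0` for `k = 0`. -/
def tl (f : V → List V → X) (v : V) : V → List V → X
  | _, [] => 0
  | _, w :: l => f v (w :: l)

lemma fcl_neg (f : V → List V → X) (v : V) (l : List V) : fcl (-f) v l = - fcl f v l := by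
  exact fcl_map (X := X) (Y := X) (-AddMonoidHom.id X) f v l

lemma fcl_sub (f g : V → List V → X) (v : V) (l : List V) :
    fcl (f - g) v l = fcl f v l - fcl g v l := by
  rw [sub_eq_add_neg, fcl_add, fcl_neg, sub_eq_add_neg]

lemma fc_neg (f : V → List V → X) (v : V) (l : List V) : fc (-f) v l = - fc f v l := by
  exact fc_map (X := X) (Y := X) (-AddMonoidHom.id X) f v l

lemma fc_sub (f g : V → List V → X) (v : V) (l : List V) :
    fc (f - g) v l = fc f v l - fc g v l := by
  rw [sub_eq_add_neg, fc_add, fc_neg, sub_eq_add_neg]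

lemma sh_fcl (f : V → List V → X) (v : V) :
    sh (fcl f) v = -(fun _ l => f v l) - fcl (sh f v) := rfl

lemma sh_fc (f : V → List V → X) (v : V) : sh (fc f) v = -(tl f v) - fc (sh f v) := by
  funext u l
  cases l with
  | nil => simp [tl]
  | cons w l => rfl

lemma sh_eps (f : V → List V → X) (v : V) : sh (eps f) v = - eps (sh f v) := by
  funext u l
  simp [eps_apply, pow_succ]

lemma fcl_const (f : V → List V → X) (v u : V) (l : List V) :
    fcl (fun _ l => f v l) u l = fcl f v l := by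
  cases l with
  | nil => rfl
  | cons w l => rfl

lemma fc_tl (f : V → List V → X) (v u w : V) (l : List V) :
    fc (tl f v) u (w :: l) = fc f v (w :: l) := by
  cases l with
  | nil => rfl
  | cons x l => rfl

lemma fcl_fcl (f : V → List V → X) (v : V) (l : List V) : fcl (fcl f) v l = 0 := by
  induction l generalizing f v with
  | nil => rfl
  | cons u l ih =>
    rw [fcl_cons, sh_fcl, fcl_sub, fcl_neg, fcl_const, ih]
    simp

lemma fc_fc (f : V → List V → X) (v : V) (l : List V) : fc (fc f) v l = 0 := by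
  induction l generalizing f v with
  | nil => rfl
  | cons u l ih =>
    cases l with
    | nil => rfl
    | cons w l =>
      rw [fc_cons, sh_fc, fc_sub, fc_neg, fc_tl, ih]
      simp

lemma fcl_append (f : V → List V → X) (v : V) (l : List V) (u : V) :
    fcl f v (l ++ [u]) = fcl (fun v l => f v (l ++ [u])) v l +
      ((-1 : ℤ) ^ (l.length + 1)) • f v l := by
  induction l generalizing f v with
  | nil => simp
  | cons w l ih =>
    rw [List.cons_append, fcl_cons, ih, fcl_cons, List.length_cons]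
    have h : sh (fun v l => f v (l ++ [u])) v = fun w l => sh f v w (l ++ [u]) := rfl
    rw [h, pow_succ _ (l.length + 1)]
    simp only [sh_apply, mul_neg, mul_one, neg_smul]
    abel

lemma fc_append (f : V → List V → X) (v : V) (l : List V) (u : V) :
    fc f v (l ++ [u]) = fcl (fun v l => f v (l ++ [u])) v l := by
  induction l generalizing f v with
  | nil => rfl
  | cons w l ih =>
    cases l with
    | nil => simp
    | cons x l =>
      have h := ih (sh f v) w
      rw [List.cons_append] at h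
      rw [List.cons_append, List.cons_append, fc_cons, h, fcl_cons]
      rfl

end Add

section Lin

variable {K V M N P Q : Type*} [CommRing K] [AddCommGroup M] [Module K M] [AddCommGroup N]
  [Module K N] [AddCommGroup P] [Module K P] [AddCommGroup Q] [Module K Q]

lemma ac_add_left (A A' : V → List V → (N →ₗ[K] P)) (f : V → List V → N) (v : V) (l : List V) :
    ac (A + A') f v l = ac A f v l + ac A' f v l := by
  induction l generalizing A A' v with
  | nil => simp
  | cons u l ih => rw [ac_cons, ac_cons, ac_cons, sh_add, ih]; simp; abel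

lemma ac_comp_left (F : P →ₗ[K] Q) (A : V → List V → (N →ₗ[K] P)) (f : V → List V → N) (v : V)
    (l : List V) : ac (fun v l => F ∘ₗ A v l) f v l = F (ac A f v l) := by
  induction l generalizing A v with
  | nil => simp
  | cons u l ih =>
    rw [ac_cons, ac_cons, map_add]
    congr 1
    exact ih (sh A v) u

lemma ac_neg_left (A : V → List V → (N →ₗ[K] P)) (f : V → List V → N) (v : V) (l : List V) :
    ac (-A) f v l = - ac A f v l := by
  induction l generalizing A v with
  | nil => simp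
  | cons u l ih =>
    have h : sh (-A) v = -sh A v := rfl
    rw [ac_cons, ac_cons, h, ih]
    simp
    abel

lemma ac_sub_left (A A' : V → List V → (N →ₗ[K] P)) (f : V → List V → N) (v : V) (l : List V) :
    ac (A - A') f v l = ac A f v l - ac A' f v l := by
  rw [sub_eq_add_neg, ac_add_left, ac_neg_left, sub_eq_add_neg]

lemma sh_cv (A : V → List V → (N →ₗ[K] P)) (B : V → List V → (M →ₗ[K] N)) (v : V) :
    sh (cv A B) v = (fun u l => A v [] ∘ₗ sh B v u l) + cv (sh A v) B := rfl

lemma sh_ac (A : V → List V → (N →ₗ[K] P)) (f : V → List V → N) (v : V) :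
    sh (ac A f) v = (fun u l => A v [] (sh f v u l)) + ac (sh A v) f := rfl

lemma ac_cv (A : V → List V → (N →ₗ[K] P)) (B : V → List V → (M →ₗ[K] N)) (f : V → List V → M)
    (v : V) (l : List V) : ac (cv A B) f v l = ac A (ac B f) v l := by
  induction l generalizing A v with
  | nil => simp
  | cons u l ih =>
    rw [ac_cons, sh_cv, ac_add_left, ac_comp_left, ih, ac_cons, ac_cons, map_add]
    simp only [cv_nil, LinearMap.comp_apply]
    abel

lemma cv_assoc (A : V → List V → (P →ₗ[K] Q)) (B : V → List V → (N →ₗ[K] P))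
    (C : V → List V → (M →ₗ[K] N)) (v : V) (l : List V) :
    cv (cv A B) C v l = cv A (cv B C) v l := by
  induction l generalizing A v with
  | nil => simp [LinearMap.comp_assoc]
  | cons u l ih =>
    rw [cv_cons, sh_cv, cv_add_left, cv_comp_left, ih, cv_cons, cv_cons, LinearMap.comp_add]
    simp only [cv_nil, LinearMap.comp_assoc]
    abel

lemma ac_tl (A : V → List V → (N →ₗ[K] P)) (f : V → List V → N) (v u : V) (l : List V) :
    ac (tl A v) f u l = ac A f v l - A v [] (f v l) := by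
  cases l with
  | nil => simp [tl]
  | cons w l =>
    have h : sh (tl A v) u = sh A v := rfl
    rw [ac_cons, ac_cons, h]
    simp [tl]

lemma cv_tl (A : V → List V → (N →ₗ[K] P)) (B : V → List V → (M →ₗ[K] N)) (v u : V)
    (l : List V) : cv (tl A v) B u l = cv A B v l - A v [] ∘ₗ B v l := by
  cases l with
  | nil => simp [tl]
  | cons w l =>
    have h : sh (tl A v) u = sh A v := rfl
    rw [cv_cons, cv_cons, h]
    simp [tl]

lemma fcl_ac (A : V → List V → (N →ₗ[K] P)) (f : V → List V → N) (v : V) (l : List V) :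
    fcl (ac A f) v l = ac (fc A) f v l + ac (eps A) (fcl f) v l := by
  induction l generalizing A f v with
  | nil => simp
  | cons u l ih =>
    have h1 : fcl (fun u l => A v [] (sh f v u l)) u l = A v [] (fcl (sh f v) u l) :=
      fcl_map (A v []).toAddMonoidHom (sh f v) u l
    rw [fcl_cons, sh_ac, fcl_add, h1, ih, ac_cons, ac_cons, sh_fc, sh_eps, ac_sub_left,
      ac_neg_left, ac_neg_left, ac_tl]
    simp only [fc_nil, LinearMap.zero_apply, fcl_cons, eps_apply, List.length_nil, pow_zero,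
      one_smul, map_sub, map_neg]
    abel

lemma fc_cv (A : V → List V → (N →ₗ[K] P)) (B : V → List V → (M →ₗ[K] N)) (v : V) (l : List V) :
    fc (cv A B) v l = cv (fc A) B v l + cv (eps A) (fc B) v l := by
  induction l generalizing A B v with
  | nil => simp
  | cons u l ih =>
    cases l with
    | nil => simp
    | cons w l =>
      have h1 : fc (fun u l => A v [] ∘ₗ sh B v u l) u (w :: l) =
          A v [] ∘ₗ fc (sh B v) u (w :: l) := fc_comp_left (A v []) (sh B v) u (w :: l)
      rw [fc_cons, sh_cv, fc_add, h1, ih, cv_cons (fc A), cv_cons (eps A), sh_fc, sh_eps,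
        cv_sub_left, cv_neg_left, cv_neg_left, cv_tl]
      simp only [fc_nil, LinearMap.zero_comp, fc_cons, eps_apply, List.length_nil, pow_zero,
        one_smul, LinearMap.comp_sub, LinearMap.comp_neg]
      abel

lemma ac_append (A : V → List V → (N →ₗ[K] P)) (f : V → List V → N) (v : V) (l : List V) (u : V) :
    ac A f v (l ++ [u]) = ac A (fun v l => f v (l ++ [u])) v l + A v (l ++ [u]) (f u []) := by
  induction l generalizing A v with
  | nil => simp
  | cons w l ih =>
    rw [List.cons_append, ac_cons, ih, ac_cons]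
    simp only [sh_apply]
    rw [List.cons_append]
    abel

lemma cv_append (A : V → List V → (N →ₗ[K] P)) (B : V → List V → (M →ₗ[K] N)) (v : V)
    (l : List V) (u : V) :
    cv A B v (l ++ [u]) = cv A (fun v l => B v (l ++ [u])) v l + A v (l ++ [u]) ∘ₗ B u [] := by
  induction l generalizing A v with
  | nil => simp
  | cons w l ih =>
    rw [List.cons_append, cv_cons, ih, cv_cons]
    simp only [sh_apply]
    rw [List.cons_append]
    abel

lemma cv_apply (A : V → List V → (N →ₗ[K] P)) (B : V → List V → (M →ₗ[K] N)) (v : V)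
    (l : List V) (z : M) : cv A B v l z = ac A (fun v l => B v l z) v l := by
  induction l generalizing A v with
  | nil => simp
  | cons u l ih =>
    rw [cv_cons, ac_cons, LinearMap.add_apply, ih]
    rfl

end Lin

end LEIM

/-- Leibniz rules. -/
theorem specLEI : SpecLEI := by
  intro K V M N P Q _ _ _ _ _ _ _ _ _
  exact ⟨LEIM.ac_cv, LEIM.cv_assoc, LEIM.fcl_ac, LEIM.fc_cv, LEIM.fcl_fcl, LEIM.fc_fc,
    LEIM.fcl_append, LEIM.fc_append, LEIM.ac_append, LEIM.cv_append, LEIM.cv_apply⟩

end Pool.Agent.Lib.MP_9b987c_gt.HC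
end

section
/-!
# Module AVG: averages over the lifts
-/
namespace Pool.Agent.Lib.MP_9b987c_gt.HC

open scoped BigOperators

namespace AVGM

section Sums

variable {K V M N P : Type*} [CommRing K] [AddCommGroup M] [Module K M] [AddCommGroup N]
  [Module K N] [AddCommGroup P] [Module K P] {C : Type*}

lemma lsum_comp (T : Finset C) (F : C → (N →ₗ[K] P)) (G : M →ₗ[K] N) :
    (∑ c ∈ T, F c) ∘ₗ G = ∑ c ∈ T, F c ∘ₗ G := by
  ext x
  simp

lemma lcomp_sum (T : Finset C) (F : C → (M →ₗ[K] N)) (G : N →ₗ[K] P) :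
    G ∘ₗ (∑ c ∈ T, F c) = ∑ c ∈ T, G ∘ₗ F c := by
  ext x
  simp

lemma fc_sum (T : Finset C) (a : C → K) (F : C → V → List V → (M →ₗ[K] N)) (v : V) (l : List V) :
    fc (fun v l => ∑ c ∈ T, a c • F c v l) v l = ∑ c ∈ T, a c • fc (F c) v l := by
  induction l generalizing F v with
  | nil => simp
  | cons u l ih =>
    cases l with
    | nil => simp
    | cons w l =>
      have h : sh (fun v l => ∑ c ∈ T, a c • F c v l) v =
          fun u l => ∑ c ∈ T, a c • (sh (F c) v) u l := rfl
      rw [fc_cons, h, ih (fun c => sh (F c) v), ← Finset.sum_neg_distrib,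
        ← Finset.sum_sub_distrib]
      refine Finset.sum_congr rfl (fun c _ => ?_)
      rw [fc_cons, smul_sub, smul_neg]

lemma cv_sum_left (T : Finset C) (a : C → K) (F : C → V → List V → (N →ₗ[K] P))
    (B : V → List V → (M →ₗ[K] N)) (v : V) (l : List V) :
    cv (fun v l => ∑ c ∈ T, a c • F c v l) B v l = ∑ c ∈ T, a c • cv (F c) B v l := by
  induction l generalizing F v with
  | nil => simp [lsum_comp, LinearMap.smul_comp]
  | cons u l ih =>
    have h : sh (fun v l => ∑ c ∈ T, a c • F c v l) v =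
        fun u l => ∑ c ∈ T, a c • (sh (F c) v) u l := rfl
    rw [cv_cons, h, ih (fun c => sh (F c) v), lsum_comp, ← Finset.sum_add_distrib]
    refine Finset.sum_congr rfl (fun c _ => ?_)
    rw [cv_cons, smul_add, LinearMap.smul_comp]

end Sums

section Av

variable {K V W C : Type*} [CommRing K] [Fintype C] (D : Cov K V W C)
variable {M N P : Type*} [AddCommGroup M] [Module K M] [AddCommGroup N]
  [Module K N] [AddCommGroup P] [Module K P]

lemma av_nil (A : V → List V → (M →ₗ[K] N)) (w : W) :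
    av D A w [] = ∑ c, (D.l c w ^ 2) • A (D.lift c w) [] := rfl

lemma av_cons (A : V → List V → (M →ₗ[K] N)) (w w1 : W) (l : List W) :
    av D A w (w1 :: l) = ∑ c, (D.l c w ^ 2) • av D (sh A (D.lift c w)) w1 l := rfl

lemma av_add (A B : V → List V → (M →ₗ[K] N)) (w : W) (l : List W) :
    av D (A + B) w l = av D A w l + av D B w l := by
  induction l generalizing A B w with
  | nil => simp [av_nil, Finset.sum_add_distrib]
  | cons w1 l ih =>
    rw [av_cons, av_cons, av_cons, ← Finset.sum_add_distrib]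
    refine Finset.sum_congr rfl (fun c _ => ?_)
    rw [sh_add, ih, smul_add]

lemma av_neg (A : V → List V → (M →ₗ[K] N)) (w : W) (l : List W) :
    av D (-A) w l = - av D A w l := by
  induction l generalizing A w with
  | nil => simp [av_nil]
  | cons w1 l ih =>
    rw [av_cons, av_cons, ← Finset.sum_neg_distrib]
    refine Finset.sum_congr rfl (fun c _ => ?_)
    have h : sh (-A) (D.lift c w) = - sh A (D.lift c w) := rfl
    rw [h, ih, smul_neg]

lemma av_sub (A B : V → List V → (M →ₗ[K] N)) (w : W) (l : List W) :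
    av D (A - B) w l = av D A w l - av D B w l := by
  rw [sub_eq_add_neg, av_add, av_neg, sub_eq_add_neg]

lemma av_comp_left (F : N →ₗ[K] P) (A : V → List V → (M →ₗ[K] N)) (w : W) (l : List W) :
    av D (fun v l => F ∘ₗ A v l) w l = F ∘ₗ av D A w l := by
  induction l generalizing A w with
  | nil => simp [av_nil, lcomp_sum, LinearMap.comp_smul]
  | cons w1 l ih =>
    rw [av_cons, av_cons, lcomp_sum]
    refine Finset.sum_congr rfl (fun c _ => ?_)
    rw [LinearMap.comp_smul]
    congr 1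
    exact ih (sh A (D.lift c w)) w1

variable {D}

lemma sum_smul_const (hD : D.Ok) (w : W) (X : M →ₗ[K] N) : ∑ c, (D.l c w ^ 2) • X = X := by
  rw [← Finset.sum_smul, hD.sum_sq, one_smul]

lemma av_pb (hD : D.Ok) (B : W → List W → (M →ₗ[K] N)) (w : W) (l : List W) :
    av D (pb D.p B) w l = B w l := by
  induction l generalizing B w with
  | nil =>
    rw [av_nil]
    have h : ∀ c, (D.l c w ^ 2) • pb D.p B (D.lift c w) [] = (D.l c w ^ 2) • B w [] := by
      intro c
      simp [pb, hD.p_lift]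
    rw [Finset.sum_congr rfl (fun c _ => h c), sum_smul_const hD]
  | cons w1 l ih =>
    rw [av_cons]
    have h : ∀ c, (D.l c w ^ 2) • av D (sh (pb D.p B) (D.lift c w)) w1 l =
        (D.l c w ^ 2) • B w (w1 :: l) := by
      intro c
      rw [sh_pb, hD.p_lift, ih]
      rfl
    rw [Finset.sum_congr rfl (fun c _ => h c), sum_smul_const hD]

lemma av_fc (hD : D.Ok) (A : V → List V → (M →ₗ[K] N)) (w : W) (l : List W) :
    av D (fc A) w l = fc (av D A) w l := by
  induction l generalizing A w with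
  | nil => simp [av_nil]
  | cons w1 l ih =>
    cases l with
    | nil => simp [av_cons, av_nil]
    | cons w2 l =>
      have h : sh (av D A) w = fun w1 l => ∑ c, (D.l c w ^ 2) • av D (sh A (D.lift c w)) w1 l :=
        rfl
      rw [fc_cons, h, fc_sum Finset.univ (fun c => D.l c w ^ 2)
        (fun c => av D (sh A (D.lift c w))), av_cons, av_cons, ← Finset.sum_neg_distrib,
        ← Finset.sum_sub_distrib]
      refine Finset.sum_congr rfl (fun c _ => ?_)
      rw [LEIM.sh_fc, av_sub, av_neg, ih]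
      have h2 : av D (LEIM.tl A (D.lift c w)) w1 (w2 :: l) = av D (sh A (D.lift c w)) w2 l := by
        rw [av_cons]
        exact sum_smul_const hD w1 (av D (sh A (D.lift c w)) w2 l)
      rw [h2, smul_sub, smul_neg]

lemma av_cv_pb_left (hD : D.Ok) (B : W → List W → (N →ₗ[K] P)) (A : V → List V → (M →ₗ[K] N))
    (w : W) (l : List W) : av D (cv (pb D.p B) A) w l = cv B (av D A) w l := by
  induction l generalizing B w with
  | nil =>
    rw [av_nil, cv_nil, av_nil, lcomp_sum]
    refine Finset.sum_congr rfl (fun c _ => ?_)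
    simp [pb, hD.p_lift, LinearMap.comp_smul]
  | cons w1 l ih =>
    have h : ∀ c, (D.l c w ^ 2) • av D (sh (cv (pb D.p B) A) (D.lift c w)) w1 l =
        (D.l c w ^ 2) • (B w [] ∘ₗ av D (sh A (D.lift c w)) w1 l) +
        (D.l c w ^ 2) • cv (sh B w) (av D A) w1 l := by
      intro c
      rw [LEIM.sh_cv, av_add, av_comp_left, sh_pb, ih, smul_add, hD.p_lift]
      simp [pb, hD.p_lift]
    rw [av_cons, Finset.sum_congr rfl (fun c _ => h c), Finset.sum_add_distrib,
      sum_smul_const hD, cv_cons, av_cons, lcomp_sum]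
    simp only [LinearMap.comp_smul]

lemma av_cv_pb_right (hD : D.Ok) (A : V → List V → (N →ₗ[K] P)) (B : W → List W → (M →ₗ[K] N))
    (w : W) (l : List W) : av D (cv A (pb D.p B)) w l = cv (av D A) B w l := by
  induction l generalizing A w with
  | nil =>
    rw [av_nil, cv_nil, av_nil, lsum_comp]
    refine Finset.sum_congr rfl (fun c _ => ?_)
    simp [pb, hD.p_lift, LinearMap.smul_comp]
  | cons w1 l ih =>
    have h : ∀ c, (D.l c w ^ 2) • av D (sh (cv A (pb D.p B)) (D.lift c w)) w1 l =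
        (D.l c w ^ 2) • (A (D.lift c w) [] ∘ₗ B w (w1 :: l)) +
        (D.l c w ^ 2) • cv (av D (sh A (D.lift c w))) B w1 l := by
      intro c
      rw [LEIM.sh_cv, av_add, av_comp_left, ih, smul_add, sh_pb, hD.p_lift, av_pb hD]
      rfl
    have h2 : sh (av D A) w = fun w1 l => ∑ c, (D.l c w ^ 2) • av D (sh A (D.lift c w)) w1 l :=
      rfl
    rw [av_cons, Finset.sum_congr rfl (fun c _ => h c), Finset.sum_add_distrib, cv_cons, h2,
      cv_sum_left Finset.univ (fun c => D.l c w ^ 2) (fun c => av D (sh A (D.lift c w))), av_nil,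
      lsum_comp]
    simp only [LinearMap.smul_comp]

lemma av_last (hD : D.Ok) (e : W → (M →ₗ[K] M)) (A : V → List V → (M →ₗ[K] N))
    (hA : ∀ v l, A v l ∘ₗ e (D.p (lst v l)) = A v l) (w : W) (l : List W) :
    av D A w l ∘ₗ e (lst w l) = av D A w l := by
  induction l generalizing A w with
  | nil =>
    rw [av_nil, lsum_comp]
    refine Finset.sum_congr rfl (fun c _ => ?_)
    have := hA (D.lift c w) []
    rw [lst_nil, hD.p_lift] at this
    rw [LinearMap.smul_comp, lst_nil, this]
  | cons w1 l ih =>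
    rw [av_cons, lsum_comp]
    refine Finset.sum_congr rfl (fun c _ => ?_)
    rw [LinearMap.smul_comp, lst_cons]
    congr 1
    exact ih (sh A (D.lift c w)) (fun v l => hA (D.lift c w) (v :: l)) w1

lemma av_deg {ι κ : Type*} {deg : ι → ℤ} {deg' : κ → ℤ} (A : V → List V → ((ι → K) →ₗ[K] (κ → K)))
    (t : ℤ) (hA : ∀ v l, Deg deg deg' (A v l) (t - l.length)) (w : W) (l : List W) :
    Deg deg deg' (av D A w l) (t - l.length) := by
  induction l generalizing A w t with
  | nil =>
    rw [av_nil]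
    exact Deg.sum (fun c _ => Deg.smul _ (hA _ _))
  | cons w1 l ih =>
    rw [av_cons]
    refine Deg.sum (fun c _ => Deg.smul _ ?_)
    have h := ih (sh A (D.lift c w)) (t - 1) (fun v l => (hA (D.lift c w) (v :: l)).congr (by
      push_cast [List.length_cons]; ring)) w1
    exact h.congr (by push_cast [List.length_cons]; ring)

end Av

end AVGM

/-- Averages over the lifts. -/
theorem specAVG : SpecAVG := by
  intro K V W C _ _ D hD
  refine ⟨?_, ?_, ?_, ?_, ?_, ?_⟩
  · intro M N _ _ _ _ A w l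
    exact AVGM.av_fc hD A w l
  · intro M N P _ _ _ _ _ _ B A w l
    exact AVGM.av_cv_pb_left hD B A w l
  · intro M N P _ _ _ _ _ _ A B w l
    exact AVGM.av_cv_pb_right hD A B w l
  · intro M N _ _ _ _ B w l
    exact AVGM.av_pb hD B w l
  · intro ι κ deg deg' t eE eF A hA
    refine ⟨?_, ?_, ?_⟩
    · exact AVGM.av_deg A t hA.deg_A
    · intro w l
      cases l with
      | nil =>
        rw [AVGM.av_nil, AVGM.lcomp_sum]
        refine Finset.sum_congr rfl (fun c _ => ?_)
        have := hA.left (D.lift c w) []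
        rw [hD.p_lift] at this
        rw [LinearMap.comp_smul, this]
      | cons w1 l =>
        rw [AVGM.av_cons, AVGM.lcomp_sum]
        refine Finset.sum_congr rfl (fun c _ => ?_)
        rw [LinearMap.comp_smul, ← AVGM.av_comp_left]
        congr 2
        funext u l
        have := hA.left (D.lift c w) (u :: l)
        rw [hD.p_lift] at this
        exact this
    · exact AVGM.av_last hD eE A hA.right
  · intro M N P _ _ _ _ _ _ F A w l
    exact AVGM.av_comp_left D F A w l

end Pool.Agent.Lib.MP_9b987c_gt.HC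
end

section
/-!
# BGA: the big space, first part
-/
namespace Pool.Agent.Lib.MP_9b987c_gt.HC

namespace BGAM

variable {K S κ : Type} [CommRing K] [AddCommGroup S] [Module K S]

section Apply

variable {E : Type} [AddCommGroup E] [Module K E]

lemma bigD_apply (d : S →ₗ[K] S) (f : S) (q q' : E) : bigD d (f, q, q') = (d f, 0, q) := rfl

lemma bigA_apply (a : E →ₗ[K] S) (dE k : E →ₗ[K] E) (z : E) :
    bigA a dE k z = (a z, -(k (dE z)), -(k z)) := rfl

lemma bigB_apply (b : S →ₗ[K] E) (e dE : E →ₗ[K] E) (f : S) (q q' : E) :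
    bigB b e dE (f, q, q') = b f + (e q + dE q') := rfl

lemma bigH0_apply (η : S →ₗ[K] S) (a : E →ₗ[K] S) (b : S →ₗ[K] E) (e dE k : E →ₗ[K] E)
    (f : S) (q q' : E) :
    bigH0 η a b e dE k (f, q, q') = (η f + a q', -(k (b f + (e q + dE q'))) - q', 0) := rfl

lemma bigTh_apply (t : S →ₗ[K] S) (tE : E →ₗ[K] E) (f : S) (q q' : E) :
    bigTh t tE (f, q, q') = (t f, tE q, -(tE q')) := rfl

end Apply

/-- Elementwise form of a commutation relation. -/
lemma neg_comm {M : Type} [AddCommGroup M] [Module K M] {F G : M →ₗ[K] M}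
    (h : F ∘ₗ G = -(G ∘ₗ F)) (x : M) : F (G x) = -(G (F x)) := by
  have := LinearMap.congr_fun h x
  simpa using this

end BGAM

open BGAM in
/-- The module BGA. -/
theorem specBGA : SpecBGA := by
  intro K S κ _ _ _ _ dg G d t η e dE k a b h ht
  have d_d : ∀ x, d (d x) = 0 := fun x => LinearMap.congr_fun h.d_d x
  have t_t : ∀ x, t (t x) = x := fun x => LinearMap.congr_fun h.t_t x
  have t_d : ∀ x, t (d x) = -(d (t x)) := neg_comm h.t_d
  have t_η : ∀ x, t (η x) = -(η (t x)) := neg_comm h.t_η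
  have e_e : ∀ x, e (e x) = e x := fun x => LinearMap.congr_fun h.e_e x
  have e_dE : ∀ x, e (dE x) = dE x := fun x => LinearMap.congr_fun h.e_dE x
  have dE_e : ∀ x, dE (e x) = dE x := fun x => LinearMap.congr_fun h.dE_e x
  have dE_dE : ∀ x, dE (dE x) = 0 := fun x => LinearMap.congr_fun h.dE_dE x
  have e_k : ∀ x, e (k x) = k x := fun x => LinearMap.congr_fun h.e_k x
  have k_e : ∀ x, k (e x) = k x := fun x => LinearMap.congr_fun h.k_e x
  have a_e : ∀ x, a (e x) = a x := fun x => LinearMap.congr_fun h.a_e x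
  have d_a : ∀ x, d (a x) = a (dE x) := fun x => LinearMap.congr_fun h.d_a x
  have t_a : ∀ x, t (a x) = a (th K dg x) := fun x => LinearMap.congr_fun h.t_a x
  have e_b : ∀ x, e (b x) = b x := fun x => LinearMap.congr_fun h.e_b x
  have b_d : ∀ x, b (d x) = dE (b x) := fun x => LinearMap.congr_fun h.b_d x
  have th_b : ∀ x, th K dg (b x) = b (t x) := fun x => LinearMap.congr_fun h.th_b x
  have ab : ∀ x, a (b x) - x = d (η x) + η (d x) := fun x => by
    have := LinearMap.congr_fun h.ab x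
    simpa using this
  have ba : ∀ x, b (a x) = e x + dE (k x) + k (dE x) := fun x => by
    have := LinearMap.congr_fun h.ba x
    simpa using this
  have th_e : ∀ x, th K dg (e x) = e (th K dg x) := fun x => by
    have := LinearMap.congr_fun (th_comp_of_deg (deg := dg) (deg' := dg) h.g_e) x
    simpa [sgn_zero] using this
  have th_dE : ∀ x, th K dg (dE x) = -(dE (th K dg x)) := fun x => by
    have := LinearMap.congr_fun (th_comp_of_deg (deg := dg) (deg' := dg) h.g_dE) x
    simpa [sgn_one] using this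
  have th_k : ∀ x, th K dg (k x) = -(k (th K dg x)) := fun x => by
    have := LinearMap.congr_fun (th_comp_of_deg (deg := dg) (deg' := dg) h.g_k) x
    simpa [sgn_one, sgn_neg] using this
  refine ⟨?_, ?_, ?_, ?_, ?_, ?_, ?_, ?_, ?_, ?_, ?_, ?_, ?_, ?_, ?_, ?_, ?_⟩
  · apply LinearMap.ext; intro z
    rw [LinearMap.comp_apply, bigA_apply, bigB_apply, ba, map_neg, map_neg, e_k]
    abel
  · apply LinearMap.ext; intro z
    rw [LinearMap.comp_apply, LinearMap.comp_apply, bigA_apply, bigA_apply, bigD_apply, d_a, dE_dE,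
      map_zero, neg_zero]
  · apply LinearMap.ext; rintro ⟨f, q, q'⟩
    rw [LinearMap.comp_apply, LinearMap.comp_apply, bigD_apply, bigB_apply, bigB_apply, map_add,
      map_add, b_d, dE_e, dE_dE, map_zero]
    abel
  · apply LinearMap.ext; rintro ⟨f, q, q'⟩
    rw [LinearMap.sub_apply, LinearMap.add_apply, LinearMap.comp_apply, LinearMap.comp_apply,
      LinearMap.comp_apply, bigD_apply, bigB_apply, bigA_apply, bigH0_apply, bigH0_apply, bigD_apply,
      LinearMap.id_apply]
    refine Prod.ext ?_ (Prod.ext ?_ ?_)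
    · simp only [Prod.fst_sub, Prod.fst_add, map_add, a_e, d_a]
      have := ab f
      rw [sub_eq_iff_eq_add] at this
      rw [this]
      abel
    · simp only [Prod.fst_sub, Prod.fst_add, Prod.snd_sub, Prod.snd_add, map_add, b_d, dE_e, dE_dE,
        map_zero, k_e]
      abel
    · simp only [Prod.snd_sub, Prod.snd_add, map_add, k_e]
      abel
  · apply LinearMap.ext; intro z
    rw [LinearMap.comp_apply, bigA_apply, bigA_apply, a_e, dE_e, k_e]
  · apply LinearMap.ext; rintro ⟨f, q, q'⟩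
    rw [LinearMap.comp_apply, bigB_apply, map_add, map_add, e_b, e_e, e_dE]
  · apply LinearMap.ext; rintro ⟨f, q, q'⟩
    rw [LinearMap.comp_apply, bigD_apply, bigD_apply, d_d]
    rfl
  · apply LinearMap.ext; rintro ⟨f, q, q'⟩
    rw [LinearMap.comp_apply, bigTh_apply, bigTh_apply, t_t, th_th, map_neg, th_th, neg_neg]
    rfl
  · apply LinearMap.ext; rintro ⟨f, q, q'⟩
    rw [LinearMap.comp_apply, LinearMap.neg_apply, LinearMap.comp_apply, bigTh_apply, bigD_apply,
      bigD_apply, bigTh_apply, t_d, map_zero]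
    refine Prod.ext ?_ (Prod.ext ?_ ?_) <;> simp
  · apply LinearMap.ext; intro z
    rw [LinearMap.comp_apply, LinearMap.comp_apply, bigA_apply, bigA_apply, bigTh_apply, t_a,
      map_neg, map_neg, th_k, th_k, th_dE, map_neg]
    simp
  · apply LinearMap.ext; rintro ⟨f, q, q'⟩
    rw [LinearMap.comp_apply, LinearMap.comp_apply, bigB_apply, bigTh_apply, bigB_apply, map_add,
      map_add, th_b, th_e, th_dE, map_neg]
  · apply LinearMap.ext; rintro ⟨f, q, q'⟩
    rw [LinearMap.comp_apply, LinearMap.neg_apply, LinearMap.comp_apply, bigTh_apply, bigH0_apply,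
      bigH0_apply, bigTh_apply]
    refine Prod.ext ?_ (Prod.ext ?_ ?_)
    · simp only [Prod.fst_neg, map_add, map_neg, t_η, t_a]
      abel
    · simp only [Prod.snd_neg, Prod.fst_neg, map_add, map_neg, map_sub, th_k, th_b, th_e, th_dE]
      abel
    · simp
  · intro q x hx
    obtain ⟨f, q₁, q₂⟩ := x
    obtain ⟨h1, h2, h3⟩ := hx
    refine ⟨h.g_d q f h1, (gr K dg _).zero_mem, ?_⟩
    rw [bigD_apply]
    have : q + 1 - 1 = q := by ring
    rw [this]
    exact h2
  · intro q x hx
    obtain ⟨f, q₁, q₂⟩ := x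
    obtain ⟨h1, h2, h3⟩ := hx
    refine ⟨ht q f h1, ?_, ?_⟩
    · rw [add_zero]; exact th_mem h2
    · rw [add_zero]; exact (gr K dg _).neg_mem (th_mem h3)
  · intro q z hz
    have hk : k z ∈ gr K dg (q - 1) := h.g_k q z hz
    have hkd : k (dE z) ∈ gr K dg q := by
      have := h.g_k (q + 1) (dE z) (h.g_dE q z hz)
      have e1 : q + 1 + -1 = q := by ring
      rwa [e1] at this
    refine ⟨h.g_a q z hz, ?_, ?_⟩
    · rw [add_zero]; exact (gr K dg _).neg_mem hkd
    · rw [add_zero]; exact (gr K dg _).neg_mem hk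
  · intro q x hx
    obtain ⟨f, q₁, q₂⟩ := x
    obtain ⟨h1, h2, h3⟩ := hx
    rw [bigB_apply]
    refine (gr K dg _).add_mem (h.g_b q f h1) ((gr K dg _).add_mem (h.g_e q q₁ h2) ?_)
    have := h.g_dE (q - 1) q₂ h3
    have e1 : q - 1 + 1 = q + 0 := by ring
    rwa [e1] at this
  · intro q x hx
    obtain ⟨f, q₁, q₂⟩ := x
    obtain ⟨h1, h2, h3⟩ := hx
    have hB : b f + (e q₁ + dE q₂) ∈ gr K dg q := by
      refine (gr K dg _).add_mem ?_ ((gr K dg _).add_mem ?_ ?_)
      · have := h.g_b q f h1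
        rwa [add_zero] at this
      · have := h.g_e q q₁ h2
        rwa [add_zero] at this
      · have := h.g_dE (q - 1) q₂ h3
        have e1 : q - 1 + 1 = q := by ring
        rwa [e1] at this
    have ha : a q₂ ∈ G (q - 1) := by
      have := h.g_a (q - 1) q₂ h3
      rwa [add_zero] at this
    rw [bigH0_apply]
    refine ⟨(G _).add_mem (h.g_η q f h1) ha, ?_, (gr K dg _).zero_mem⟩
    exact (gr K dg _).sub_mem ((gr K dg _).neg_mem (h.g_k q _ hB)) h3

end Pool.Agent.Lib.MP_9b987c_gt.HC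
end

section
/-!
# BIG: the big space, conclusion (uses BGA)
-/
namespace Pool.Agent.Lib.MP_9b987c_gt.HC

namespace BIGM

/-- The algebra of the homotopy: `h1 = P h0 P`. -/
lemma core {R : Type} [Ring R] {D h0 P : R} (hDD : D * D = 0) (hPP : P * P = P)
    (hDP : D * P = P * D) (hh : D * h0 + h0 * D = -P) :
    D * (-(P * h0 * P * D * (P * h0 * P))) + (-(P * h0 * P * D * (P * h0 * P))) * D = -P ∧
      (P * h0 * P * D * (P * h0 * P)) * (P * h0 * P * D * (P * h0 * P)) = 0 := by
  obtain ⟨h1, hh1⟩ : ∃ h1, h1 = P * h0 * P := ⟨_, rfl⟩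
  have hP1 : P * h1 = h1 := by rw [hh1, ← mul_assoc, ← mul_assoc, hPP]
  have h1P : h1 * P = h1 := by rw [hh1, mul_assoc, hPP]
  have hs : D * h1 + h1 * D = -P := by
    have e1 : D * h1 = P * (D * h0) * P := by
      rw [hh1, mul_assoc P h0 P, ← mul_assoc D P, hDP]
      simp only [mul_assoc]
    have e2 : h1 * D = P * (h0 * D) * P := by
      rw [hh1, mul_assoc, ← hDP]
      simp only [mul_assoc]
    rw [e1, e2, ← add_mul, ← mul_add, hh, mul_neg, neg_mul, hPP, hPP]
  have hDh : D * h1 = -P - h1 * D := by rw [← hs]; abel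
  have a1 : (D * h1) * (D * h1) = -(D * h1) := by
    have : (-P - h1 * D) * (D * h1) = -(D * h1) := by
      rw [sub_mul, neg_mul, ← mul_assoc P, ← hDP, mul_assoc D, hP1, mul_assoc h1 D,
        ← mul_assoc D D, hDD, zero_mul, mul_zero, sub_zero]
    calc (D * h1) * (D * h1) = (-P - h1 * D) * (D * h1) := by rw [← hDh]
      _ = _ := this
  have a2 : (h1 * D) * (h1 * D) = -(h1 * D) := by
    have : h1 * (-P - h1 * D) * D = -(h1 * D) := by
      rw [mul_sub, sub_mul, mul_neg, h1P, neg_mul, mul_assoc h1 (h1 * D), mul_assoc h1 D D, hDD,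
        mul_zero, mul_zero, sub_zero]
    calc (h1 * D) * (h1 * D) = h1 * (D * h1) * D := by simp only [mul_assoc]
      _ = h1 * (-P - h1 * D) * D := by rw [hDh]
      _ = _ := this
  rw [← hh1]
  constructor
  · have e1 : D * (-(h1 * D * h1)) = -((D * h1) * (D * h1)) := by
      rw [mul_neg]; simp only [mul_assoc]
    have e2 : (-(h1 * D * h1)) * D = -((h1 * D) * (h1 * D)) := by
      rw [neg_mul]; simp only [mul_assoc]
    rw [e1, e2, a1, a2, neg_neg, neg_neg, hs]
  · have e3 : D * h1 * (h1 * D) = 0 := by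
      rw [hDh, sub_mul, neg_mul, ← mul_assoc P h1 D, hP1, a2, sub_neg_eq_add]
      abel
    calc (h1 * D * h1) * (h1 * D * h1) = h1 * (D * h1 * (h1 * D)) * h1 := by
          simp only [mul_assoc]
      _ = 0 := by rw [e3, mul_zero, zero_mul]

end BIGM

open BIGM in
/-- The module BIG. -/
theorem specBIG (hBGA : SpecBGA) : SpecBIG := by
  intro K S κ _ _ _ _ dg G d t η e dE k a b h ht
  obtain ⟨hBA, hDA, hBD, hAB, hAe, heB, hDD, hTT, hTD, hTA, hTB, hTh, gD, gT, gA, gB, gh⟩ :=
    hBGA K S κ dg G d t η e dE k a b h ht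
  obtain ⟨A, hA⟩ : ∃ A, A = bigA a dE k := ⟨_, rfl⟩
  obtain ⟨B, hB⟩ : ∃ B, B = bigB b e dE := ⟨_, rfl⟩
  obtain ⟨h0, hh0⟩ : ∃ h0, h0 = bigH0 η a b e dE k := ⟨_, rfl⟩
  obtain ⟨D, hD⟩ : ∃ D : (S × (κ → K) × (κ → K)) →ₗ[K] (S × (κ → K) × (κ → K)), D = bigD d :=
    ⟨_, rfl⟩
  obtain ⟨T, hT⟩ : ∃ T : (S × (κ → K) × (κ → K)) →ₗ[K] (S × (κ → K) × (κ → K)),
    T = bigTh t (th K dg) := ⟨_, rfl⟩
  obtain ⟨P, hP⟩ : ∃ P, P = bigP a b e dE k := ⟨_, rfl⟩
  have hP' : P = LinearMap.id - A ∘ₗ B := by rw [hP, hA, hB]; rfl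
  have hH : bigH d η a b e dE k = -((P ∘ₗ h0 ∘ₗ P) ∘ₗ D ∘ₗ (P ∘ₗ h0 ∘ₗ P)) := by
    rw [hP, hD, hh0]; rfl
  rw [← hA, ← hB] at hBA
  rw [← hA, ← hD] at hDA
  rw [← hB, ← hD] at hBD
  rw [← hA, ← hB, ← hD, ← hh0] at hAB
  rw [← hA] at hAe
  rw [← hB] at heB
  rw [← hD] at hDD
  rw [← hT] at hTT
  rw [← hT, ← hD] at hTD
  rw [← hT, ← hA] at hTA
  rw [← hT, ← hB] at hTB
  rw [← hT, ← hh0] at hTh
  rw [← hD] at gD
  rw [← hT] at gT
  rw [← hA] at gA
  rw [← hB] at gB
  rw [← hh0] at gh
  -- identities of `P`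
  have hPP : P ∘ₗ P = P := by
    have s1 : ∀ z, B (A z) = e z := fun z => LinearMap.congr_fun hBA z
    have s2 : ∀ z, A (e z) = A z := fun z => LinearMap.congr_fun hAe z
    rw [hP']
    apply LinearMap.ext; intro z
    simp only [LinearMap.comp_apply, LinearMap.sub_apply, LinearMap.id_apply, map_sub, s1, s2]
    abel
  have hDP : D ∘ₗ P = P ∘ₗ D := by
    rw [hP', LinearMap.comp_sub, LinearMap.sub_comp, LinearMap.comp_id, LinearMap.id_comp,
      ← LinearMap.comp_assoc, hDA, LinearMap.comp_assoc, ← hBD, LinearMap.comp_assoc]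
  have hPA : P ∘ₗ A = 0 := by
    rw [hP', LinearMap.sub_comp, LinearMap.id_comp, LinearMap.comp_assoc, hBA, hAe, sub_self]
  have hBP : B ∘ₗ P = 0 := by
    rw [hP', LinearMap.comp_sub, LinearMap.comp_id, ← LinearMap.comp_assoc, hBA, heB, sub_self]
  have hTP : T ∘ₗ P = P ∘ₗ T := by
    rw [hP', LinearMap.comp_sub, LinearMap.sub_comp, LinearMap.comp_id, LinearMap.id_comp,
      ← LinearMap.comp_assoc, hTA, LinearMap.comp_assoc, hTB, LinearMap.comp_assoc]
  have hh : D ∘ₗ h0 + h0 ∘ₗ D = -P := by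
    rw [← hAB, hP']; abel
  obtain ⟨c1, c2⟩ := core (R := Module.End K (S × (κ → K) × (κ → K))) (D := D) (h0 := h0) (P := P)
    hDD hPP hDP hh
  have gP : GMap (bigG dg G) (bigG dg G) P 0 := by
    intro q x hx
    rw [hP', LinearMap.sub_apply]
    refine (bigG dg G (q + 0)).sub_mem ?_ ?_
    · rw [add_zero]; exact hx
    · have := gA _ _ (gB q x hx)
      rwa [add_zero] at this
  have gP' : ∀ q, ∀ x ∈ bigG dg G q, P x ∈ bigG dg G q := by
    intro q x hx
    have := gP q x hx
    rwa [add_zero] at this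
  have gH1 : ∀ q, ∀ x ∈ bigG dg G q, (P ∘ₗ h0 ∘ₗ P) x ∈ bigG dg G (q + -1) := by
    intro q x hx
    exact gP' _ _ (gh q _ (gP' q x hx))
  refine
    { d_d := by rw [← hD]; exact hDD
      t_t := by rw [← hT]; exact hTT
      t_d := by rw [← hT, ← hD]; exact hTD
      g_d := by rw [← hD]; exact gD
      g_t := by rw [← hT]; exact gT
      e_e := h.e_e
      g_e := h.g_e
      e_dE := h.e_dE
      dE_e := h.dE_e
      dE_dE := h.dE_dE
      g_dE := h.g_dE
      a_e := by rw [← hA]; exact hAe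
      d_a := by rw [← hA, ← hD]; exact hDA
      g_a := by rw [← hA]; exact gA
      t_a := by rw [← hA, ← hT]; exact hTA
      e_b := by rw [← hB]; exact heB
      b_d := by rw [← hB, ← hD]; exact hBD
      g_b := by rw [← hB]; exact gB
      th_b := by rw [← hB, ← hT]; exact hTB
      ab := ?_
      ba := by rw [← hA, ← hB]; exact hBA
      h_a := ?_
      b_h := ?_
      h_h := ?_
      t_h := ?_
      g_h := ?_ }
  · rw [← hA, ← hB, ← hD, hH]
    have e1 : A ∘ₗ B - LinearMap.id = -P := by rw [hP']; abel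
    rw [e1]
    exact c1.symm
  · rw [← hA, hH]
    apply LinearMap.ext; intro z
    have : P (A z) = 0 := LinearMap.congr_fun hPA z
    simp [this]
  · rw [← hB, hH]
    apply LinearMap.ext; intro z
    have : ∀ y, B (P y) = 0 := fun y => LinearMap.congr_fun hBP y
    simp [this]
  · rw [hH]
    have e1 : ∀ F : (S × (κ → K) × (κ → K)) →ₗ[K] (S × (κ → K) × (κ → K)),
        (-F) ∘ₗ (-F) = F ∘ₗ F := by
      intro F; apply LinearMap.ext; intro z; simp
    rw [e1]
    exact c2
  · rw [← hT, hH]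
    have t1 : ∀ x, T (P x) = P (T x) := fun x => LinearMap.congr_fun hTP x
    have t2 : ∀ x, T (h0 x) = -(h0 (T x)) := fun x => by
      have := LinearMap.congr_fun hTh x
      simpa using this
    have t3 : ∀ x, T (D x) = -(D (T x)) := fun x => by
      have := LinearMap.congr_fun hTD x
      simpa using this
    apply LinearMap.ext; intro z
    simp only [LinearMap.comp_apply, LinearMap.neg_apply, map_neg, t1, t2, t3, neg_neg]
  · rw [hH]
    intro q x hx
    rw [LinearMap.neg_apply]
    refine (bigG dg G _).neg_mem ?_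
    have s1 := gH1 q x hx
    have s2 := gD _ _ s1
    have s3 := gH1 _ _ s2
    have e1 : q + -1 + 1 + -1 = q + -1 := by ring
    rw [e1] at s3
    exact s3

end Pool.Agent.Lib.MP_9b987c_gt.HC
end

section
/-!
# Module DLB: the differential `DD` of products of cochains
-/
namespace Pool.Agent.Lib.MP_9b987c_gt.HC

open scoped BigOperators

namespace DLBM

section Main

variable {K V ι κ μ : Type} [CommRing K] {dE : ι → ℤ} {dF : κ → ℤ} {dG : μ → ℤ}

lemma neg_sm (c : K) (X : (ι → K) →ₗ[K] (κ → K)) : (-c) • X = -(c • X) := by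
  apply LinearMap.ext
  intro x
  funext i
  simp

lemma neg_one_sm (X : (ι → K) →ₗ[K] (κ → K)) : (-1 : K) • X = -X := by
  rw [neg_sm]
  congr 1
  apply LinearMap.ext
  intro x
  funext i
  simp

lemma one_sm (X : (ι → K) →ₗ[K] (κ → K)) : (1 : K) • X = X := by
  apply LinearMap.ext
  intro x
  funext i
  simp

lemma DD_eq (t : ℤ) (RE : V → List V → ((ι → K) →ₗ[K] (ι → K)))
    (RF : V → List V → ((κ → K) →ₗ[K] (κ → K))) (A : V → List V → ((ι → K) →ₗ[K] (κ → K))) :
    DD dF t RE RF A = (fun v l => th K dF ∘ₗ fc A v l) + cv RF A - sgn K t • cv A RE := rfl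

/-- `θ A = (-1)^(s - k) A θ` on lists of `k + 1` points. -/
def Sg (dE : ι → ℤ) (dF : κ → ℤ) (s : ℤ) (A : V → List V → ((ι → K) →ₗ[K] (κ → K))) : Prop :=
  ∀ v l, th K dF ∘ₗ A v l = sgn K (s - l.length) • (A v l ∘ₗ th K dE)

lemma sg_of_deg [Finite ι] {s : ℤ} {A : V → List V → ((ι → K) →ₗ[K] (κ → K))}
    (h : ∀ v l, Deg dE dF (A v l) (s - l.length)) : Sg dE dF s A :=
  fun v l => th_comp_of_deg (h v l)

lemma eps_sg {s : ℤ} {A : V → List V → ((ι → K) →ₗ[K] (κ → K))} (hA : Sg dE dF s A) :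
    (fun (v : V) (l : List V) => th K dF ∘ₗ eps A v l) =
      sgn K s • (fun (v : V) (l : List V) => A v l ∘ₗ th K dE) := by
  funext v l
  have h1 : th K dF ∘ₗ eps A v l = sgn K (l.length : ℤ) • (th K dF ∘ₗ A v l) := by
    rw [eps_apply, negOnePow_smul (K := K), LinearMap.comp_smul]
  rw [h1, hA, smul_smul, ← sgn_add]
  congr 2
  ring

/-- The Leibniz rule for `DD`. -/
lemma leib (RE : V → List V → ((ι → K) →ₗ[K] (ι → K))) (RF : V → List V → ((κ → K) →ₗ[K] (κ → K)))
    (RG : V → List V → ((μ → K) →ₗ[K] (μ → K))) {s : ℤ} (t : ℤ)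
    {A : V → List V → ((κ → K) →ₗ[K] (μ → K))} (hA : Sg dF dG s A)
    (B : V → List V → ((ι → K) →ₗ[K] (κ → K))) (v : V) (l : List V) :
    DD dG (s + t) RE RG (cv A B) v l =
      cv (DD dG s RF RG A) B v l + sgn K s • cv A (DD dF t RE RF B) v l := by
  rw [DD_eq, DD_eq, DD_eq]
  simp only [Pi.add_apply, Pi.sub_apply, Pi.smul_apply]
  rw [cv_sub_left, cv_add_left, cv_smul_left, cv_sub_right, cv_add_right, cv_smul_right,
    LEIM.fc_cv, LinearMap.comp_add, cv_comp_left, LEIM.cv_assoc A RF B, LEIM.cv_assoc A B RE,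
    LEIM.cv_assoc RG A B, ← cv_comp_left (th K dG) (eps A), eps_sg hA, cv_smul_left,
    cv_comp_mid, sgn_add]
  simp only [smul_sub, smul_add, smul_smul]
  abel

lemma DR {R : V → List V → ((ι → K) →ₗ[K] (ι → K))}
    (hRR : ∀ v l, th K dE ∘ₗ fc R v l + cv R R v l = 0) : DD dE 1 R R R = cv R R := by
  funext v l
  unfold DD
  rw [hRR, sgn_one, neg_one_sm, sub_neg_eq_add, zero_add]

lemma fc_smul (c : K) (A : V → List V → ((ι → K) →ₗ[K] (κ → K))) (v : V) (l : List V) :
    fc (c • A) v l = c • fc A v l :=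
  fc_map (DistribSMul.toAddMonoidHom _ c) A v l

lemma DD_add (t : ℤ) (RE : V → List V → ((ι → K) →ₗ[K] (ι → K)))
    (RF : V → List V → ((κ → K) →ₗ[K] (κ → K))) (A B : V → List V → ((ι → K) →ₗ[K] (κ → K)))
    (v : V) (l : List V) :
    DD dF t RE RF (A + B) v l = DD dF t RE RF A v l + DD dF t RE RF B v l := by
  unfold DD
  rw [fc_add, cv_add_right, cv_add_left]
  simp only [LinearMap.comp_add, smul_add]
  abel

lemma DD_smul (t : ℤ) (RE : V → List V → ((ι → K) →ₗ[K] (ι → K)))
    (RF : V → List V → ((κ → K) →ₗ[K] (κ → K))) (c : K)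
    (A : V → List V → ((ι → K) →ₗ[K] (κ → K))) (v : V) (l : List V) :
    DD dF t RE RF (c • A) v l = c • DD dF t RE RF A v l := by
  unfold DD
  rw [fc_smul, cv_smul_right, cv_smul_left]
  simp only [LinearMap.comp_smul, smul_add, smul_sub]
  rw [smul_comm c (sgn K t)]

lemma DD_sub (t : ℤ) (RE : V → List V → ((ι → K) →ₗ[K] (ι → K)))
    (RF : V → List V → ((κ → K) →ₗ[K] (κ → K))) (A B : V → List V → ((ι → K) →ₗ[K] (κ → K)))
    (v : V) (l : List V) :
    DD dF t RE RF (A - B) v l = DD dF t RE RF A v l - DD dF t RE RF B v l := by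
  unfold DD
  rw [LEIM.fc_sub, cv_sub_right, cv_sub_left]
  simp only [LinearMap.comp_sub, smul_sub]
  abel

lemma DD_DD {RE : V → List V → ((ι → K) →ₗ[K] (ι → K))}
    {RF : V → List V → ((κ → K) →ₗ[K] (κ → K))} (hF : Sg dF dF 1 RF)
    (hEE : ∀ v l, th K dE ∘ₗ fc RE v l + cv RE RE v l = 0)
    (hFF : ∀ v l, th K dF ∘ₗ fc RF v l + cv RF RF v l = 0) {t : ℤ}
    {A : V → List V → ((ι → K) →ₗ[K] (κ → K))} (hA : Sg dE dF t A) (v : V) (l : List V) :
    DD dF (t + 1) RE RF (DD dF t RE RF A) v l = 0 := by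
  have e1 : DD dF (t + 1) RE RF (DD dF t RE RF A) v l =
      DD dF (t + 1) RE RF (fun v l => th K dF ∘ₗ fc A v l) v l +
      DD dF (t + 1) RE RF (cv RF A) v l - sgn K t • DD dF (t + 1) RE RF (cv A RE) v l := by
    conv_lhs => rw [DD_eq t RE RF A]
    rw [DD_sub, DD_add, DD_smul]
  have e2 : DD dF (t + 1) RE RF (fun v l => th K dF ∘ₗ fc A v l) v l =
      cv RF (fun v l => th K dF ∘ₗ fc A v l) v l +
        sgn K t • cv (fun v l => th K dF ∘ₗ fc A v l) RE v l := by
    unfold DD
    rw [fc_comp_left, LEIM.fc_fc, sgn_add, sgn_one, LinearMap.comp_zero, LinearMap.comp_zero,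
      mul_neg, mul_one, neg_sm, sub_neg_eq_add, zero_add]
  have e3 : DD dF (t + 1) RE RF (cv RF A) v l =
      cv (cv RF RF) A v l - cv RF (DD dF t RE RF A) v l := by
    rw [add_comm t 1, leib RE RF RF t hF, DR hFF, sgn_one, neg_one_sm, sub_eq_add_neg]
  have e4 : DD dF (t + 1) RE RF (cv A RE) v l =
      cv (DD dF t RE RF A) RE v l + sgn K t • cv A (cv RE RE) v l := by
    rw [leib RE RE RF 1 hA, DR hEE]
  rw [e1, e2, e3, e4, DD_eq t RE RF A, cv_sub_right, cv_add_right, cv_smul_right, cv_sub_left,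
    cv_add_left, cv_smul_left, ← LEIM.cv_assoc RF RF A, ← LEIM.cv_assoc RF A RE,
    ← LEIM.cv_assoc A RE RE]
  simp only [smul_add, smul_sub, smul_smul]
  abel

lemma cv_deg {s t : ℤ} {A : V → List V → ((κ → K) →ₗ[K] (μ → K))}
    {B : V → List V → ((ι → K) →ₗ[K] (κ → K))}
    (hA : ∀ v l, Deg dF dG (A v l) (s - l.length))
    (hB : ∀ v l, Deg dE dF (B v l) (t - l.length)) (v : V) (l : List V) :
    Deg dE dG (cv A B v l) (s + t - l.length) := by
  induction l generalizing A v s with
  | nil => exact (Deg.comp (hA v []) (hB v [])).congr (by simp; ring)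
  | cons u l ih =>
    rw [cv_cons]
    apply Deg.add
    · exact (Deg.comp (hA v []) (hB v (u :: l))).congr (by simp; ring)
    · have h := ih (s := s - 1) (A := sh A v) (fun w l' =>
        (hA v (w :: l')).congr (by push_cast [List.length_cons]; ring)) u
      exact h.congr (by push_cast [List.length_cons]; ring)

lemma fc_deg {s : ℤ} {A : V → List V → ((ι → K) →ₗ[K] (κ → K))}
    (hA : ∀ v l, Deg dE dF (A v l) (s - l.length)) (v : V) (l : List V) :
    Deg dE dF (fc A v l) (s + 1 - l.length) := by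
  induction l generalizing A v s with
  | nil => exact Deg.zero
  | cons u l ih =>
    cases l with
    | nil => exact Deg.zero
    | cons w l =>
      rw [fc_cons]
      apply Deg.sub
      · exact (hA v (w :: l)).neg.congr (by push_cast [List.length_cons]; ring)
      · have h := ih (s := s - 1) (A := sh A v) (fun w l' =>
          (hA v (w :: l')).congr (by push_cast [List.length_cons]; ring)) u
        exact h.congr (by push_cast [List.length_cons]; ring)

lemma fc_unt (e : V → (ι → K) →ₗ[K] (ι → K)) (v : V) (l : List V) : fc (unt e) v l = 0 := by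
  cases l with
  | nil => rfl
  | cons u l =>
    cases l with
    | nil => rfl
    | cons w l =>
      rw [fc_cons]
      have h1 : sh (unt e) v = 0 := rfl
      have h2 : fc (0 : V → List V → ((ι → K) →ₗ[K] (ι → K))) u (w :: l) = 0 :=
        fc_map (0 : ((ι → K) →ₗ[K] (ι → K)) →+ ((ι → K) →ₗ[K] (ι → K))) 0 u (w :: l)
      rw [h1, h2]
      simp [unt]

lemma cv_unt_left (e : V → (κ → K) →ₗ[K] (κ → K)) (A : V → List V → ((ι → K) →ₗ[K] (κ → K)))
    (v : V) (l : List V) : cv (unt e) A v l = e v ∘ₗ A v l := by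
  cases l with
  | nil => rfl
  | cons u l =>
    have h1 : sh (unt e) v = 0 := rfl
    rw [cv_cons, h1, cv_zero_left, add_zero]
    rfl

lemma cv_unt_right (e : V → (ι → K) →ₗ[K] (ι → K)) (A : V → List V → ((ι → K) →ₗ[K] (κ → K)))
    (v : V) (l : List V) : cv A (unt e) v l = A v l ∘ₗ e (lst v l) := by
  induction l generalizing A v with
  | nil => rfl
  | cons u l ih =>
    rw [cv_cons, ih]
    simp [unt]

lemma e_th [Finite ι] {e : (ι → K) →ₗ[K] (ι → K)} (h : Deg dE dE e 0) :
    e ∘ₗ th K dE = th K dE ∘ₗ e := by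
  rw [th_comp_of_deg h, sgn_zero, one_sm]

lemma co_cv {t t' : ℤ} {eE : V → (ι → K) →ₗ[K] (ι → K)} {eF : V → (κ → K) →ₗ[K] (κ → K)}
    {eG : V → (μ → K) →ₗ[K] (μ → K)} {A : V → List V → ((κ → K) →ₗ[K] (μ → K))}
    {B : V → List V → ((ι → K) →ₗ[K] (κ → K))} (hA : IsCo dF dG t eF eG A)
    (hB : IsCo dE dF t' eE eF B) : IsCo dE dG (t + t') eE eG (cv A B) where
  deg_A := cv_deg hA.deg_A hB.deg_A
  left v l := by
    rw [← cv_first]
    congr 1
    funext v l
    exact hA.left v l
  right v l := by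
    rw [← cv_last]
    congr 1
    funext v l
    exact hB.right v l

lemma co_add {t : ℤ} {eE : V → (ι → K) →ₗ[K] (ι → K)} {eF : V → (κ → K) →ₗ[K] (κ → K)}
    {A B : V → List V → ((ι → K) →ₗ[K] (κ → K))} (hA : IsCo dE dF t eE eF A)
    (hB : IsCo dE dF t eE eF B) : IsCo dE dF t eE eF (A + B) where
  deg_A v l := (hA.deg_A v l).add (hB.deg_A v l)
  left v l := by
    simp only [Pi.add_apply, LinearMap.comp_add, hA.left, hB.left]
  right v l := by
    simp only [Pi.add_apply, LinearMap.add_comp, hA.right, hB.right]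

lemma co_sub {t : ℤ} {eE : V → (ι → K) →ₗ[K] (ι → K)} {eF : V → (κ → K) →ₗ[K] (κ → K)}
    {A B : V → List V → ((ι → K) →ₗ[K] (κ → K))} (hA : IsCo dE dF t eE eF A)
    (hB : IsCo dE dF t eE eF B) : IsCo dE dF t eE eF (A - B) where
  deg_A v l := (hA.deg_A v l).sub (hB.deg_A v l)
  left v l := by
    simp only [Pi.sub_apply, LinearMap.comp_sub, hA.left, hB.left]
  right v l := by
    simp only [Pi.sub_apply, LinearMap.sub_comp, hA.right, hB.right]

lemma co_smul {t : ℤ} {eE : V → (ι → K) →ₗ[K] (ι → K)} {eF : V → (κ → K) →ₗ[K] (κ → K)}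
    {A : V → List V → ((ι → K) →ₗ[K] (κ → K))} (c : K) (hA : IsCo dE dF t eE eF A) :
    IsCo dE dF t eE eF (c • A) where
  deg_A v l := (hA.deg_A v l).smul c
  left v l := by
    simp only [Pi.smul_apply, LinearMap.comp_smul, hA.left]
  right v l := by
    simp only [Pi.smul_apply, LinearMap.smul_comp, hA.right]

lemma co_congr {t t' : ℤ} (ht : t = t') {eE : V → (ι → K) →ₗ[K] (ι → K)}
    {eF : V → (κ → K) →ₗ[K] (κ → K)} {A : V → List V → ((ι → K) →ₗ[K] (κ → K))}
    (hA : IsCo dE dF t eE eF A) : IsCo dE dF t' eE eF A := ht ▸ hA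

lemma co_R {eE : V → (ι → K) →ₗ[K] (ι → K)} {R : V → List V → ((ι → K) →ₗ[K] (ι → K))}
    (h : PreRuth dE eE R) : IsCo dE dE 1 eE eE R := ⟨h.deg_R, h.left, h.right⟩

lemma co_thfc [Finite κ] {t : ℤ} {eE : V → (ι → K) →ₗ[K] (ι → K)}
    {eF : V → (κ → K) →ₗ[K] (κ → K)} (heF : ∀ v, Deg dF dF (eF v) 0)
    {A : V → List V → ((ι → K) →ₗ[K] (κ → K))} (hA : IsCo dE dF t eE eF A) :
    IsCo dE dF (t + 1) eE eF (fun v l => th K dF ∘ₗ fc A v l) where
  deg_A v l := (Deg.comp deg_th (fc_deg hA.deg_A v l)).congr (by ring)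
  left v l := by
    rw [← LinearMap.comp_assoc, e_th (heF v), LinearMap.comp_assoc, ← fc_first]
    congr 2
    funext v l
    exact hA.left v l
  right v l := by
    rw [LinearMap.comp_assoc, ← fc_last]
    congr 2
    funext v l
    exact hA.right v l

lemma co_DD [Finite κ] {t : ℤ} {eE : V → (ι → K) →ₗ[K] (ι → K)}
    {eF : V → (κ → K) →ₗ[K] (κ → K)} {RE : V → List V → ((ι → K) →ₗ[K] (ι → K))}
    {RF : V → List V → ((κ → K) →ₗ[K] (κ → K))} (hE : PreRuth dE eE RE) (hF : PreRuth dF eF RF)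
    {A : V → List V → ((ι → K) →ₗ[K] (κ → K))} (hA : IsCo dE dF t eE eF A) :
    IsCo dE dF (t + 1) eE eF (DD dF t RE RF A) := by
  rw [DD_eq]
  exact co_sub (co_add (co_thfc hF.e_deg hA) (co_congr (add_comm 1 t) (co_cv (co_R hF) hA)))
    (co_smul _ (co_cv hA (co_R hE)))

lemma co_unt {eE : V → (ι → K) →ₗ[K] (ι → K)} (he : ∀ v, eE v ∘ₗ eE v = eE v)
    (hd : ∀ v, Deg dE dE (eE v) 0) : IsCo dE dE 0 eE eE (unt eE) where
  deg_A v l := by
    cases l with
    | nil => exact (hd v).congr (by simp)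
    | cons u l => exact Deg.zero
  left v l := by
    cases l with
    | nil => exact he v
    | cons u l => exact LinearMap.comp_zero _
  right v l := by
    cases l with
    | nil => exact he v
    | cons u l => exact LinearMap.zero_comp _

lemma DD_unt {eE : V → (ι → K) →ₗ[K] (ι → K)} {RE : V → List V → ((ι → K) →ₗ[K] (ι → K))}
    (hE : PreRuth dE eE RE) (v : V) (l : List V) : DD dE 0 RE RE (unt eE) v l = 0 := by
  unfold DD
  rw [fc_unt, cv_unt_left, cv_unt_right, hE.left, hE.right, sgn_zero, one_sm,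
    LinearMap.comp_zero, zero_add, sub_self]

end Main

end DLBM

open DLBM in
theorem specDLB : SpecDLB := by
  intro K V _ ι κ μ _ _ _ dE dF dG eE eF eG RE RF RG hE hF hG
  refine ⟨fun t t' A B hA hB => ⟨co_cv hA hB, fun v l => leib RE RF RG t' (sg_of_deg hA.deg_A) B v l⟩,
    fun t A hA => ⟨co_DD hE hF hA, fun v l => DD_DD (sg_of_deg hF.deg_R) hE.eqn hF.eqn
      (sg_of_deg hA.deg_A) v l, fun v l => ?_, fun v l => ?_⟩,
    co_unt hE.e_idem hE.e_deg, fun v l => DD_unt hE v l, fun t A B c hA hB =>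
      ⟨co_add hA hB, co_sub hA hB, co_smul c hA, fun v l => DD_add t RE RF A B v l,
        fun v l => DD_smul t RE RF c A v l⟩⟩
  · rw [cv_unt_left, hA.left]
  · rw [cv_unt_right, hA.right]

end Pool.Agent.Lib.MP_9b987c_gt.HC
end

section
/-!
# Module CNG: the homotopy category of representations up to homotopy, hat form
-/
namespace Pool.Agent.Lib.MP_9b987c_gt.HC

open scoped Manifold ContDiff BigOperators

namespace CNGM

section Star

variable {G : LieGpd} {ι κ μ ν : Type}

/-- Freeze the first object and the first arrow. -/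
def shG (A : G.Ob → List G.Ar → (ι → ℝ) →ₗ[ℝ] (κ → ℝ)) (x : G.Ob) (g : G.Ar) :
    G.Ob → List G.Ar → (ι → ℝ) →ₗ[ℝ] (κ → ℝ) := fun _ l => A x (g :: l)

lemma starG_nil (A : G.Ob → List G.Ar → (κ → ℝ) →ₗ[ℝ] (μ → ℝ))
    (B : G.Ob → List G.Ar → (ι → ℝ) →ₗ[ℝ] (κ → ℝ)) (x : G.Ob) :
    starG G A B x [] = A x [] ∘ₗ B x [] := by
  simp [starG, LieGpd.fin]

lemma starG_cons (A : G.Ob → List G.Ar → (κ → ℝ) →ₗ[ℝ] (μ → ℝ))
    (B : G.Ob → List G.Ar → (ι → ℝ) →ₗ[ℝ] (κ → ℝ)) (x : G.Ob) (g : G.Ar) (l : List G.Ar) :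
    starG G A B x (g :: l) = A x [] ∘ₗ B x (g :: l) + starG G (shG A x g) B (G.src g) l := by
  unfold starG
  rw [List.length_cons, Finset.sum_range_succ', add_comm]
  congr 1

lemma starG_congr_left {A A' : G.Ob → List G.Ar → (κ → ℝ) →ₗ[ℝ] (μ → ℝ)}
    (B : G.Ob → List G.Ar → (ι → ℝ) →ₗ[ℝ] (κ → ℝ)) (x : G.Ob) (l : List G.Ar)
    (h : ∀ l, A x l = A' x l) : starG G A B x l = starG G A' B x l := by
  unfold starG
  exact Finset.sum_congr rfl fun j _ => by rw [h]

lemma starG_add_left (A A' : G.Ob → List G.Ar → (κ → ℝ) →ₗ[ℝ] (μ → ℝ))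
    (B : G.Ob → List G.Ar → (ι → ℝ) →ₗ[ℝ] (κ → ℝ)) (x : G.Ob) (l : List G.Ar) :
    starG G (A + A') B x l = starG G A B x l + starG G A' B x l := by
  unfold starG
  rw [← Finset.sum_add_distrib]
  exact Finset.sum_congr rfl fun j _ => by simp [LinearMap.add_comp]

lemma starG_comp_left (F : (μ → ℝ) →ₗ[ℝ] (ν → ℝ)) (A : G.Ob → List G.Ar → (κ → ℝ) →ₗ[ℝ] (μ → ℝ))
    (B : G.Ob → List G.Ar → (ι → ℝ) →ₗ[ℝ] (κ → ℝ)) (x : G.Ob) (l : List G.Ar) :
    starG G (fun y l => F ∘ₗ A y l) B x l = F ∘ₗ starG G A B x l := by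
  induction l generalizing A x with
  | nil => rw [starG_nil, starG_nil, LinearMap.comp_assoc]
  | cons g l ih =>
    rw [starG_cons, starG_cons, LinearMap.comp_add, LinearMap.comp_assoc]
    congr 1
    exact ih (shG A x g) (G.src g)

lemma starG_assoc (A : G.Ob → List G.Ar → (μ → ℝ) →ₗ[ℝ] (ν → ℝ))
    (B : G.Ob → List G.Ar → (κ → ℝ) →ₗ[ℝ] (μ → ℝ)) (C : G.Ob → List G.Ar → (ι → ℝ) →ₗ[ℝ] (κ → ℝ))
    (x : G.Ob) (l : List G.Ar) :
    starG G (starG G A B) C x l = starG G A (starG G B C) x l := by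
  induction l generalizing A B x with
  | nil => rw [starG_nil, starG_nil, starG_nil, starG_nil, LinearMap.comp_assoc]
  | cons g l ih =>
    rw [starG_cons, starG_cons, starG_nil, starG_cons, ← ih (shG A x g) B (G.src g)]
    have h1 : starG G (shG (starG G A B) x g) C (G.src g) l =
        starG G ((fun y l => A x [] ∘ₗ shG B x g y l) + starG G (shG A x g) B) C (G.src g) l := by
      apply starG_congr_left
      intro l
      exact starG_cons A B x g l
    rw [h1, starG_add_left, starG_comp_left, LinearMap.comp_add, LinearMap.comp_assoc, add_assoc]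

end Star

section Frames

variable {G : LieGpd} {ι κ μ : Type}

lemma ext_frames (hFRM : SpecFRM) {A B : G.Ob → List G.Ar → (ι → ℝ) →ₗ[ℝ] (κ → ℝ)}
    (hA : ∀ x l, ¬ G.Chain x l → A x l = 0) (hB : ∀ x l, ¬ G.Chain x l → B x l = 0)
    (h : ∀ (V : Type) (F : Frame G V) v l, F.hom A v l = F.hom B v l) : A = B := by
  funext x l
  by_cases hc : G.Chain x l
  · obtain ⟨-, -, -, -, f5, -⟩ := hFRM G
    obtain ⟨l', hl', hb⟩ := f5 x l hc
    have := h _ (wf G x) (wf0 G x) l'
    unfold Frame.hom at this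
    rw [hl', hb] at this
    exact this
  · rw [hA x l hc, hB x l hc]

lemma hom_star (hFRM : SpecFRM) {V : Type} (F : Frame G V)
    (A : G.Ob → List G.Ar → (κ → ℝ) →ₗ[ℝ] (μ → ℝ)) (B : G.Ob → List G.Ar → (ι → ℝ) →ₗ[ℝ] (κ → ℝ)) :
    F.hom (starG G A B) = cv (F.hom A) (F.hom B) := by
  funext v l
  exact (hFRM G).2.1 V F ι κ μ A B v l

lemma hom_unit (hFRM : SpecFRM) {V : Type} (F : Frame G V)
    (e : G.Ob → (ι → ℝ) →ₗ[ℝ] (ι → ℝ)) :
    F.hom (unitG G e) = unt (fun v => e (F.b v)) := by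
  funext v l
  obtain ⟨-, -, -, -, -, -, f7, -⟩ := hFRM G
  exact f7 V F ι e v l

lemma unit_zero (e : G.Ob → (ι → ℝ) →ₗ[ℝ] (ι → ℝ)) (x : G.Ob) (l : List G.Ar)
    (h : ¬ G.Chain x l) : unitG G e x l = 0 := by
  cases l with
  | nil => exact absurd trivial h
  | cons g l => rfl

lemma co_neg {V : Type} {dE : ι → ℤ} {dF : κ → ℤ} {t : ℤ} {eE : V → (ι → ℝ) →ₗ[ℝ] (ι → ℝ)}
    {eF : V → (κ → ℝ) →ₗ[ℝ] (κ → ℝ)} {A : V → List V → ((ι → ℝ) →ₗ[ℝ] (κ → ℝ))}
    (hA : IsCo dE dF t eE eF A) : IsCo dE dF t eE eF (-A) where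
  deg_A v l := (hA.deg_A v l).neg
  left v l := by
    simp only [Pi.neg_apply, LinearMap.comp_neg, hA.left]
  right v l := by
    simp only [Pi.neg_apply, LinearMap.neg_comp, hA.right]

lemma DD_neg {V : Type} {dF : κ → ℤ} (t : ℤ) (RE : V → List V → ((ι → ℝ) →ₗ[ℝ] (ι → ℝ)))
    (RF : V → List V → ((κ → ℝ) →ₗ[ℝ] (κ → ℝ))) (A : V → List V → ((ι → ℝ) →ₗ[ℝ] (κ → ℝ)))
    (v : V) (l : List V) : DD dF t RE RF (-A) v l = - DD dF t RE RF A v l := by
  have h : (-A) = (-1 : ℝ) • A := by
    funext v l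
    exact (DLBM.neg_one_sm (A v l)).symm
  rw [h, DLBM.DD_smul, DLBM.neg_one_sm]

lemma DD_zero {V : Type} {dF : κ → ℤ} (t : ℤ) (RE : V → List V → ((ι → ℝ) →ₗ[ℝ] (ι → ℝ)))
    (RF : V → List V → ((κ → ℝ) →ₗ[ℝ] (κ → ℝ))) (v : V) (l : List V) :
    DD dF t RE RF 0 v l = 0 := by
  have h := DLBM.DD_sub (dF := dF) t RE RF 0 0 v l
  rw [sub_self, sub_self] at h
  exact h

end Frames

end CNGM

open CNGM DLBM in
theorem specCNG (hFRM : SpecFRM) (hSMP : SpecSMP) : SpecCNG := by
  intro G ι κ μ _ _ _ _ _ _ dE dF dG eE RE eF RF eG RG hE hF hG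
  have pE : ∀ (V : Type) (F : Frame G V), PreRuth dE (fun v => eE (F.b v)) (F.hom RE) :=
    fun V F => (hE.sr V F).toPreRuth
  have pF : ∀ (V : Type) (F : Frame G V), PreRuth dF (fun v => eF (F.b v)) (F.hom RF) :=
    fun V F => (hF.sr V F).toPreRuth
  have pG : ∀ (V : Type) (F : Frame G V), PreRuth dG (fun v => eG (F.b v)) (F.hom RG) :=
    fun V F => (hG.sr V F).toPreRuth
  have hS := hSMP G ι κ μ
  have hSU := hSMP G ι ι ι
  have hSF := hSMP G κ κ κ
  -- products of cochains
  have c1 : ∀ (t t' : ℤ) (A : G.Ob → List G.Ar → (κ → ℝ) →ₗ[ℝ] (μ → ℝ))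
      (B : G.Ob → List G.Ar → (ι → ℝ) →ₗ[ℝ] (κ → ℝ)), HCo G dF dG t eF eG A →
      HCo G dE dF t' eE eF B → HCo G dE dG (t + t') eE eG (starG G A B) := by
    intro t t' A B hA hB
    refine ⟨(hS.1 A B).2.2 hA.zero hB.zero, (hS.1 A B).1 hA.smooth hB.smooth, fun V F => ?_⟩
    rw [hom_star hFRM]
    exact co_cv (hA.co V F) (hB.co V F)
  have cl0 : ∀ {ι κ : Type} {dF : κ → ℤ} {RE : G.Ob → List G.Ar → (ι → ℝ) →ₗ[ℝ] (ι → ℝ)}
      {RF : G.Ob → List G.Ar → (κ → ℝ) →ₗ[ℝ] (κ → ℝ)} {B : G.Ob → List G.Ar → (ι → ℝ) →ₗ[ℝ] (κ → ℝ)},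
      HCl G dF RE RF B → ∀ (V : Type) (F : Frame G V),
      DD dF 0 (F.hom RE) (F.hom RF) (F.hom B) = 0 := fun h V F => by
    funext v l
    exact h V F v l
  -- differential of products
  have dd : ∀ (V : Type) (F : Frame G V) (t t' : ℤ) (A : G.Ob → List G.Ar → (κ → ℝ) →ₗ[ℝ] (μ → ℝ))
      (B : G.Ob → List G.Ar → (ι → ℝ) →ₗ[ℝ] (κ → ℝ)), HCo G dF dG t eF eG A →
      ∀ v l, DD dG (t + t') (F.hom RE) (F.hom RG) (F.hom (starG G A B)) v l =
        cv (DD dG t (F.hom RF) (F.hom RG) (F.hom A)) (F.hom B) v l +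
          sgn ℝ t • cv (F.hom A) (DD dF t' (F.hom RE) (F.hom RF) (F.hom B)) v l := by
    intro V F t t' A B hA v l
    rw [hom_star hFRM]
    exact leib _ _ _ t' (sg_of_deg (hA.co V F).deg_A) _ v l
  refine ⟨c1, ?_, ⟨⟨unit_zero eE, hSU.2.2.2.1 eE hE.e_smooth, fun V F => ?_⟩, fun V F v l => ?_⟩,
    fun A hA => ⟨?_, ?_⟩, fun ν A B C => ?_, ?_, ?_, ?_, ?_, ?_⟩
  · intro A B hA hB clA clB V F v l
    have h := dd V F 0 0 A B hA v l
    rw [zero_add, cl0 clA V F, cl0 clB V F, cv_zero_left, cv_zero_right, smul_zero, zero_add] at h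
    exact h
  · rw [hom_unit hFRM]
    exact co_unt (pE V F).e_idem (pE V F).e_deg
  · rw [hom_unit hFRM]
    exact DD_unt (pE V F) v l
  · refine ext_frames hFRM ?_ hA.zero (fun V F v l => ?_)
    · exact ((hSMP G ι κ κ).1 (unitG G eF) A).2.2 (unit_zero eF) hA.zero
    · rw [hom_star hFRM, hom_unit hFRM, cv_unt_left]
      exact (hA.co V F).left v l
  · refine ext_frames hFRM ?_ hA.zero (fun V F v l => ?_)
    · exact ((hSMP G ι ι κ).1 A (unitG G eE)).2.2 hA.zero (unit_zero eE)
    · rw [hom_star hFRM, hom_unit hFRM, cv_unt_right]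
      exact (hA.co V F).right v l
  · funext x l
    exact starG_assoc A B C x l
  · intro A
    refine ⟨0, ⟨fun _ _ _ => rfl, ?_, fun V F => ?_⟩, fun V F v l => ?_⟩
    · intro d k U x g _ _ _ _ i j
      exact contDiffOn_const
    · have : F.hom (0 : G.Ob → List G.Ar → (ι → ℝ) →ₗ[ℝ] (κ → ℝ)) = 0 := rfl
      rw [this]
      exact ⟨fun _ _ => Deg.zero, fun _ _ => LinearMap.comp_zero _, fun _ _ => LinearMap.zero_comp _⟩
    · have : F.hom (0 : G.Ob → List G.Ar → (ι → ℝ) →ₗ[ℝ] (κ → ℝ)) = 0 := rfl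
      rw [this, DD_zero, sub_self]
  · rintro A B ⟨H, hH, h⟩
    refine ⟨-H, ⟨fun x l hc => ?_, ((hSMP G ι κ κ).2.1 H H (fun _ => 0) hH.smooth hH.smooth).2.2.1,
      fun V F => ?_⟩, fun V F v l => ?_⟩
    · rw [Pi.neg_apply, Pi.neg_apply, hH.zero x l hc, neg_zero]
    · exact co_neg (hH.co V F)
    · have : F.hom (-H) = - F.hom H := rfl
      rw [this, DD_neg, ← h V F v l, neg_sub]
  · rintro A B C ⟨H, hH, h⟩ ⟨H', hH', h'⟩
    refine ⟨H + H', ⟨fun x l hc => ?_,
      ((hSMP G ι κ κ).2.1 H H' (fun _ => 0) hH.smooth hH'.smooth).1, fun V F => ?_⟩,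
      fun V F v l => ?_⟩
    · rw [Pi.add_apply, Pi.add_apply, hH.zero x l hc, hH'.zero x l hc, add_zero]
    · exact co_add (hH.co V F) (hH'.co V F)
    · have : F.hom (H + H') = F.hom H + F.hom H' := rfl
      rw [this, DD_add, ← h V F v l, ← h' V F v l]
      abel
  · rintro A A' B hB clB ⟨H, hH, h⟩
    have c := c1 (-1) 0 H B hH hB
    rw [add_zero] at c
    refine ⟨starG G H B, c, fun V F v l => ?_⟩
    have h1 := dd V F (-1) 0 H B hH v l
    have h2 : DD dG (-1) (F.hom RF) (F.hom RG) (F.hom H) = F.hom A - F.hom A' := by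
      funext v l
      exact (h V F v l).symm
    rw [add_zero, cl0 clB V F, cv_zero_right, smul_zero, add_zero, h2, cv_sub_left] at h1
    rw [h1, hom_star hFRM, hom_star hFRM]
  · rintro A B B' hA clA ⟨H, hH, h⟩
    have c := c1 0 (-1) A H hA hH
    rw [zero_add] at c
    refine ⟨starG G A H, c, fun V F v l => ?_⟩
    have h1 := dd V F 0 (-1) A H hA v l
    have h2 : DD dF (-1) (F.hom RE) (F.hom RF) (F.hom H) = F.hom B - F.hom B' := by
      funext v l
      exact (h V F v l).symm
    rw [zero_add, cl0 clA V F, cv_zero_left, zero_add, h2, cv_sub_right, sgn_zero, one_sm] at h1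
    rw [h1, hom_star hFRM, hom_star hFRM]

end Pool.Agent.Lib.MP_9b987c_gt.HC
end

section
/-!
# Module CON: contraction of an acyclic representation up to homotopy
-/
namespace Pool.Agent.Lib.MP_9b987c_gt.HC

open scoped BigOperators

namespace CONM

section Congr

variable {K V M N P X : Type*} [CommRing K] [AddCommGroup M] [Module K M] [AddCommGroup N]
  [Module K N] [AddCommGroup P] [Module K P] [AddCommGroup X]

lemma fc_congr {f g : V → List V → X} {n : ℕ} (h : ∀ v l, l.length ≤ n → f v l = g v l) (v : V)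
    (l : List V) (hl : l.length ≤ n + 1) : fc f v l = fc g v l := by
  induction l generalizing f g v n with
  | nil => rfl
  | cons u l ih =>
    cases l with
    | nil => rfl
    | cons w l =>
      rw [fc_cons, fc_cons, h v (w :: l) (by simpa using hl)]
      congr 1
      cases n with
      | zero => simp at hl
      | succ n =>
        exact ih (n := n) (fun v' l' hl' => h v (v' :: l') (by simpa using hl')) u
          (by simpa using hl)

lemma cv_congr {A A' : V → List V → (N →ₗ[K] P)} {B B' : V → List V → (M →ₗ[K] N)} {n : ℕ}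
    (hA : ∀ v l, l.length ≤ n → A v l = A' v l) (hB : ∀ v l, l.length ≤ n → B v l = B' v l)
    (v : V) (l : List V) (hl : l.length ≤ n) : cv A B v l = cv A' B' v l := by
  induction l generalizing A A' v n with
  | nil => rw [cv_nil, cv_nil, hA v [] hl, hB v [] hl]
  | cons u l ih =>
    rw [cv_cons, cv_cons, hA v [] (Nat.zero_le _), hB v (u :: l) hl]
    congr 1
    cases n with
    | zero => simp at hl
    | succ n =>
      exact ih (n := n) (fun v' l' hl' => hA v (v' :: l') (by simpa using hl'))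
        (fun v' l' hl' => hB v' l' (by omega)) u (by simpa using hl)

lemma lsum_comp {C : Type*} (T : Finset C) (F : C → (N →ₗ[K] P)) (G : M →ₗ[K] N) :
    (∑ c ∈ T, F c) ∘ₗ G = ∑ c ∈ T, F c ∘ₗ G := by
  ext x
  simp

lemma lcomp_sum {C : Type*} (T : Finset C) (F : C → (M →ₗ[K] N)) (G : N →ₗ[K] P) :
    G ∘ₗ (∑ c ∈ T, F c) = ∑ c ∈ T, G ∘ₗ F c := by
  ext x
  simp

lemma comp_zs (z : ℤ) (X : N →ₗ[K] P) (Y : M →ₗ[K] N) : X ∘ₗ (z • Y) = z • (X ∘ₗ Y) := by
  apply LinearMap.ext
  intro x
  rw [LinearMap.comp_apply, LinearMap.smul_apply, LinearMap.smul_apply, map_zsmul]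
  rfl

lemma zs_comp (z : ℤ) (X : N →ₗ[K] P) (Y : M →ₗ[K] N) : (z • X) ∘ₗ Y = z • (X ∘ₗ Y) := by
  apply LinearMap.ext
  intro x
  rfl

end Congr

section Main

variable {K V ι : Type} [CommRing K] {deg : ι → ℤ}

lemma neg_sm (c : K) (X : (ι → K) →ₗ[K] (ι → K)) : (-c) • X = -(c • X) := by
  apply LinearMap.ext
  intro x
  funext i
  simp

lemma neg_one_sm (X : (ι → K) →ₗ[K] (ι → K)) : (-1 : K) • X = -X := by
  rw [neg_sm]
  congr 1
  apply LinearMap.ext
  intro x
  funext i
  simp

lemma DD_eq (t : ℤ) (R A : V → List V → ((ι → K) →ₗ[K] (ι → K))) :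
    DD deg t R R A = (fun v l => th K deg ∘ₗ fc A v l) + cv R A - sgn K t • cv A R := rfl

lemma DD_congr {A A' R : V → List V → ((ι → K) →ₗ[K] (ι → K))} {n : ℕ} (t : ℤ)
    (h : ∀ v l, l.length ≤ n → A v l = A' v l) (v : V) (l : List V) (hl : l.length ≤ n) :
    DD deg t R R A v l = DD deg t R R A' v l := by
  unfold DD
  rw [fc_congr h v l (by omega), cv_congr (fun v l _ => rfl) h v l hl,
    cv_congr h (fun v l _ => rfl) v l hl]

/-- `θ A = (-1)^(s - k) A θ` on lists of `k + 1` points. -/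
def Sg (deg : ι → ℤ) (s : ℤ) (A : V → List V → ((ι → K) →ₗ[K] (ι → K))) : Prop :=
  ∀ v l, th K deg ∘ₗ A v l = sgn K (s - l.length) • (A v l ∘ₗ th K deg)

lemma eps_sg {s : ℤ} {A : V → List V → ((ι → K) →ₗ[K] (ι → K))} (hA : Sg deg s A) :
    (fun (v : V) (l : List V) => th K deg ∘ₗ eps A v l) =
      sgn K s • (fun (v : V) (l : List V) => A v l ∘ₗ th K deg) := by
  funext v l
  have h1 : th K deg ∘ₗ eps A v l = sgn K (l.length : ℤ) • (th K deg ∘ₗ A v l) := by
    rw [eps_apply, negOnePow_smul (K := K), LinearMap.comp_smul]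
  rw [h1, hA, smul_smul, ← sgn_add]
  congr 2
  ring

/-- The Leibniz rule for `DD`. -/
lemma leib (R : V → List V → ((ι → K) →ₗ[K] (ι → K))) {s : ℤ} (t : ℤ)
    {A : V → List V → ((ι → K) →ₗ[K] (ι → K))} (hA : Sg deg s A)
    (B : V → List V → ((ι → K) →ₗ[K] (ι → K))) (v : V) (l : List V) :
    DD deg (s + t) R R (cv A B) v l =
      cv (DD deg s R R A) B v l + sgn K s • cv A (DD deg t R R B) v l := by
  rw [DD_eq, DD_eq, DD_eq]
  have h1 : cv (eps A) (fc B) = cv (eps A) (fc B) := rfl
  simp only [Pi.add_apply, Pi.sub_apply, Pi.smul_apply]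
  rw [cv_sub_left, cv_add_left, cv_smul_left, cv_sub_right, cv_add_right, cv_smul_right,
    LEIM.fc_cv, LinearMap.comp_add, cv_comp_left, LEIM.cv_assoc A R B, LEIM.cv_assoc A B R,
    LEIM.cv_assoc R A B, ← cv_comp_left (th K deg) (eps A), eps_sg hA, cv_smul_left,
    cv_comp_mid, sgn_add]
  simp only [smul_sub, smul_add, smul_smul]
  abel

lemma DD_DD (R : V → List V → ((ι → K) →ₗ[K] (ι → K))) (hR : Sg deg 1 R)
    (hRR : ∀ v l, th K deg ∘ₗ fc R v l + cv R R v l = 0) {t : ℤ}
    {A : V → List V → ((ι → K) →ₗ[K] (ι → K))} (hA : Sg deg t A) (v : V) (l : List V) :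
    DD deg (t + 1) R R (DD deg t R R A) v l = 0 := by
  have hDR : DD deg 1 R R R = cv R R := by
    funext v l
    unfold DD
    rw [hRR, sgn_one, neg_one_sm, sub_neg_eq_add, zero_add]
  have e1 : DD deg (t + 1) R R (DD deg t R R A) v l =
      DD deg (t + 1) R R (fun v l => th K deg ∘ₗ fc A v l) v l +
      DD deg (t + 1) R R (cv R A) v l - sgn K t • DD deg (t + 1) R R (cv A R) v l := by
    conv_lhs => rw [DD_eq t R A]
    unfold DD
    have h1 : fc ((fun v l => th K deg ∘ₗ fc A v l) + cv R A - sgn K t • cv A R) v l =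
        fc (fun v l => th K deg ∘ₗ fc A v l) v l + fc (cv R A) v l -
          sgn K t • fc (cv A R) v l := by
      rw [LEIM.fc_sub, fc_add]
      congr 1
      exact fc_map (DistribSMul.toAddMonoidHom _ (sgn K t)) (cv A R) v l
    rw [h1, cv_sub_right, cv_add_right, cv_smul_right, cv_sub_left, cv_add_left, cv_smul_left]
    simp only [LinearMap.comp_add, LinearMap.comp_sub, LinearMap.comp_smul, smul_sub, smul_add]
    rw [smul_comm (sgn K (t + 1)) (sgn K t)]
    abel
  have e2 : DD deg (t + 1) R R (fun v l => th K deg ∘ₗ fc A v l) v l =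
      cv R (fun v l => th K deg ∘ₗ fc A v l) v l +
        sgn K t • cv (fun v l => th K deg ∘ₗ fc A v l) R v l := by
    unfold DD
    rw [fc_comp_left, LEIM.fc_fc, sgn_add, sgn_one, LinearMap.comp_zero, LinearMap.comp_zero,
      mul_neg, mul_one, neg_sm, sub_neg_eq_add, zero_add]
  have e3 : DD deg (t + 1) R R (cv R A) v l = cv (cv R R) A v l - cv R (DD deg t R R A) v l := by
    rw [add_comm t 1, leib R t hR, hDR, sgn_one, neg_one_sm, sub_eq_add_neg]
  have e4 : DD deg (t + 1) R R (cv A R) v l =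
      cv (DD deg t R R A) R v l + sgn K t • cv A (cv R R) v l := by
    rw [leib R 1 hA, hDR]
  rw [e1, e2, e3, e4, DD_eq t R A, cv_sub_right, cv_add_right, cv_smul_right, cv_sub_left,
    cv_add_left, cv_smul_left, ← LEIM.cv_assoc R R A, ← LEIM.cv_assoc R A R,
    ← LEIM.cv_assoc A R R]
  simp only [smul_add, smul_sub, smul_smul]
  abel

lemma cv_deg {s t : ℤ} {A B : V → List V → ((ι → K) →ₗ[K] (ι → K))}
    (hA : ∀ v l, Deg deg deg (A v l) (s - l.length))
    (hB : ∀ v l, Deg deg deg (B v l) (t - l.length)) (v : V) (l : List V) :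
    Deg deg deg (cv A B v l) (s + t - l.length) := by
  induction l generalizing A v s with
  | nil => exact (Deg.comp (hA v []) (hB v [])).congr (by simp; ring)
  | cons u l ih =>
    rw [cv_cons]
    apply Deg.add
    · exact (Deg.comp (hA v []) (hB v (u :: l))).congr (by simp; ring)
    · have h := ih (s := s - 1) (A := sh A v) (fun w l' =>
        (hA v (w :: l')).congr (by push_cast [List.length_cons]; ring)) u
      exact h.congr (by push_cast [List.length_cons]; ring)

lemma fc_unt (e : V → (ι → K) →ₗ[K] (ι → K)) (v : V) (l : List V) : fc (unt e) v l = 0 := by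
  cases l with
  | nil => rfl
  | cons u l =>
    cases l with
    | nil => rfl
    | cons w l =>
      rw [fc_cons]
      have h1 : sh (unt e) v = 0 := rfl
      have h2 : fc (0 : V → List V → ((ι → K) →ₗ[K] (ι → K))) u (w :: l) = 0 :=
        fc_map (0 : ((ι → K) →ₗ[K] (ι → K)) →+ ((ι → K) →ₗ[K] (ι → K))) 0 u (w :: l)
      rw [h1, h2]
      simp [unt]

lemma cv_unt_left (e : V → (ι → K) →ₗ[K] (ι → K)) (A : V → List V → ((ι → K) →ₗ[K] (ι → K)))
    (v : V) (l : List V) : cv (unt e) A v l = e v ∘ₗ A v l := by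
  cases l with
  | nil => rfl
  | cons u l =>
    have h1 : sh (unt e) v = 0 := rfl
    rw [cv_cons, h1, cv_zero_left, add_zero]
    rfl

lemma cv_unt_right (e : V → (ι → K) →ₗ[K] (ι → K)) (A : V → List V → ((ι → K) →ₗ[K] (ι → K)))
    (v : V) (l : List V) : cv A (unt e) v l = A v l ∘ₗ e (lst v l) := by
  induction l generalizing A v with
  | nil => rfl
  | cons u l ih =>
    rw [cv_cons, ih]
    simp [unt]

/-- The cochain `h` on one point lists. -/
def hc (h : V → (ι → K) →ₗ[K] (ι → K)) : V → List V → ((ι → K) →ₗ[K] (ι → K)) := unt h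

lemma DD_hc {e h : V → (ι → K) →ₗ[K] (ι → K)} {R : V → List V → ((ι → K) →ₗ[K] (ι → K))}
    (hh : ∀ v, R v [] ∘ₗ h v + h v ∘ₗ R v [] = e v) :
    DD deg (-1) R R (unt h) = unt e + nuC h R := by
  funext v l
  unfold DD
  rw [fc_unt, cv_unt_left, cv_unt_right, sgn_neg, sgn_one, LinearMap.comp_zero, zero_add,
    neg_one_sm, sub_neg_eq_add]
  cases l with
  | nil =>
    simp only [lst_nil, Pi.add_apply, unt, nuC, add_zero]
    exact hh v
  | cons u l =>
    simp only [Pi.add_apply, unt, nuC, zero_add]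
    exact add_comm _ _

lemma pow_vanish (u ν : V → List V → ((ι → K) →ₗ[K] (ι → K))) (hν : ∀ v, ν v [] = 0) (n : ℕ)
    (v : V) (l : List V) (hl : l.length < n) : cvPow u ν n v l = 0 := by
  have key : ∀ (n : ℕ), (∀ (v : V) (l : List V), l.length < n → cvPow u ν n v l = 0) →
      ∀ (A : V → List V → ((ι → K) →ₗ[K] (ι → K))) (v : V) (l : List V), l.length < n →
      cv A (cvPow u ν n) v l = 0 := by
    intro n hn A v l hl
    induction l generalizing A v with
    | nil => rw [cv_nil, hn v [] hl, LinearMap.comp_zero]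
    | cons w l ih =>
      rw [cv_cons, hn v (w :: l) hl, LinearMap.comp_zero, zero_add]
      exact ih (sh A v) w (by simp at hl; omega)
  induction n generalizing v l with
  | zero => omega
  | succ n ih =>
    change cv ν (cvPow u ν n) v l = 0
    cases l with
    | nil => rw [cv_nil, hν, LinearMap.zero_comp]
    | cons w l =>
      rw [cv_cons, hν, LinearMap.zero_comp, zero_add]
      exact key n (fun v l hl => ih v l hl) (sh ν v) w l (by simp at hl; omega)

lemma cv_sum_right {C : Type*} (T : Finset C) (a : C → ℤ)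
    (A : V → List V → ((ι → K) →ₗ[K] (ι → K)))
    (F : C → V → List V → ((ι → K) →ₗ[K] (ι → K))) (v : V) (l : List V) :
    cv A (fun v l => ∑ c ∈ T, a c • F c v l) v l = ∑ c ∈ T, a c • cv A (F c) v l := by
  have hz : ∀ (z : ℤ) (X Y : (ι → K) →ₗ[K] (ι → K)), X ∘ₗ (z • Y) = z • (X ∘ₗ Y) :=
    comp_zs
  induction l generalizing A v with
  | nil =>
    rw [cv_nil, lcomp_sum]
    exact Finset.sum_congr rfl (fun c _ => hz _ _ _)
  | cons u l ih =>
    rw [cv_cons, ih, lcomp_sum, ← Finset.sum_add_distrib]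
    refine Finset.sum_congr rfl (fun c _ => ?_)
    rw [cv_cons, smul_add, hz]

lemma cv_sum_left {C : Type*} (T : Finset C) (a : C → ℤ)
    (F : C → V → List V → ((ι → K) →ₗ[K] (ι → K)))
    (B : V → List V → ((ι → K) →ₗ[K] (ι → K))) (v : V) (l : List V) :
    cv (fun v l => ∑ c ∈ T, a c • F c v l) B v l = ∑ c ∈ T, a c • cv (F c) B v l := by
  have hz : ∀ (z : ℤ) (X Y : (ι → K) →ₗ[K] (ι → K)), (z • X) ∘ₗ Y = z • (X ∘ₗ Y) :=
    zs_comp
  induction l generalizing F v with
  | nil =>
    rw [cv_nil, lsum_comp]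
    exact Finset.sum_congr rfl (fun c _ => hz _ _ _)
  | cons u l ih =>
    have h : sh (fun v l => ∑ c ∈ T, a c • F c v l) v =
        fun u l => ∑ c ∈ T, a c • (sh (F c) v) u l := rfl
    rw [cv_cons, h, ih (fun c => sh (F c) v), lsum_comp, ← Finset.sum_add_distrib]
    refine Finset.sum_congr rfl (fun c _ => ?_)
    rw [cv_cons, smul_add, hz]

lemma fc_sum {C : Type*} (T : Finset C) (a : C → ℤ)
    (F : C → V → List V → ((ι → K) →ₗ[K] (ι → K))) (v : V) (l : List V) :
    fc (fun v l => ∑ c ∈ T, a c • F c v l) v l = ∑ c ∈ T, a c • fc (F c) v l := by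
  induction l generalizing F v with
  | nil => simp
  | cons u l ih =>
    cases l with
    | nil => simp
    | cons w l =>
      have h : sh (fun v l => ∑ c ∈ T, a c • F c v l) v =
          fun u l => ∑ c ∈ T, a c • (sh (F c) v) u l := rfl
      rw [fc_cons, h, ih (fun c => sh (F c) v), ← Finset.sum_neg_distrib,
        ← Finset.sum_sub_distrib]
      refine Finset.sum_congr rfl (fun c _ => ?_)
      rw [fc_cons, smul_sub, smul_neg]

/-- Truncated geometric series. -/
def XN (e h : V → (ι → K) →ₗ[K] (ι → K)) (R : V → List V → ((ι → K) →ₗ[K] (ι → K))) (N : ℕ) :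
    V → List V → ((ι → K) →ₗ[K] (ι → K)) :=
  fun v l => ∑ n ∈ Finset.range N, ((-1 : ℤ) ^ n) • cvPow (unt e) (nuC h R) n v l

lemma XN_stable (e h : V → (ι → K) →ₗ[K] (ι → K)) (R : V → List V → ((ι → K) →ₗ[K] (ι → K)))
    (N : ℕ) (v : V) (l : List V) (hl : l.length + 1 ≤ N) :
    XN e h R N v l = XN e h R (l.length + 1) v l := by
  unfold XN
  symm
  apply Finset.sum_subset
  · intro n hn
    simp only [Finset.mem_range] at hn ⊢
    omega
  · intro n _ hn
    simp only [Finset.mem_range, not_lt] at hn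
    rw [pow_vanish _ _ (fun v => rfl) n v l (by omega), smul_zero]

end Main

end CONM

open CONM in
/-- The contraction. -/
theorem specCON : SpecCON := by
  intro K V ι _ _ deg e h R hR heh hhe hdeg hh
  have hRsg : Sg deg 1 R := fun v l => th_comp_of_deg (hR.deg_R v l)
  have hνd : ∀ v l, Deg deg deg (nuC h R v l) (0 - l.length) := by
    intro v l
    cases l with
    | nil => exact Deg.zero
    | cons u l =>
      apply Deg.add
      · exact (Deg.comp (hdeg v) (hR.deg_R v (u :: l))).congr (by ring)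
      · exact (Deg.comp (hR.deg_R v (u :: l)) (hdeg _)).congr (by ring)
  have huntd : ∀ v l, Deg deg deg (unt e v l) (0 - l.length) := by
    intro v l
    cases l with
    | nil => exact (hR.e_deg v).congr (by simp)
    | cons u l => exact Deg.zero
  have hpowd : ∀ n v l, Deg deg deg (cvPow (unt e) (nuC h R) n v l) (0 - l.length) := by
    intro n
    induction n with
    | zero => exact huntd
    | succ n ih =>
      intro v l
      exact (cv_deg hνd ih v l).congr (by ring)
  have hνl : ∀ v l, e v ∘ₗ nuC h R v l = nuC h R v l := by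
    intro v l
    cases l with
    | nil => exact LinearMap.comp_zero _
    | cons u l =>
      simp only [nuC, LinearMap.comp_add, ← LinearMap.comp_assoc, heh, hR.left]
  have hpowl : ∀ n v l, e v ∘ₗ cvPow (unt e) (nuC h R) n v l = cvPow (unt e) (nuC h R) n v l := by
    intro n v l
    cases n with
    | zero =>
      cases l with
      | nil => exact hR.e_idem v
      | cons u l => exact LinearMap.comp_zero _
    | succ n =>
      change e v ∘ₗ cv (nuC h R) (cvPow (unt e) (nuC h R) n) v l =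
        cv (nuC h R) (cvPow (unt e) (nuC h R) n) v l
      rw [← cv_first]
      congr 1
      funext v l
      exact hνl v l
  have hpowr : ∀ n v l, cvPow (unt e) (nuC h R) n v l ∘ₗ e (lst v l) =
      cvPow (unt e) (nuC h R) n v l := by
    intro n
    induction n with
    | zero =>
      intro v l
      cases l with
      | nil => exact hR.e_idem v
      | cons u l => exact LinearMap.zero_comp _
    | succ n ih =>
      intro v l
      change cv (nuC h R) (cvPow (unt e) (nuC h R) n) v l ∘ₗ e (lst v l) =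
        cv (nuC h R) (cvPow (unt e) (nuC h R) n) v l
      rw [← cv_last]
      congr 1
      funext v l
      exact ih v l
  have hconX : ∀ v l, conC e h R v l = h v ∘ₗ XN e h R (l.length + 1) v l := fun v l => rfl
  have hz : ∀ (z : ℤ) (X Y : (ι → K) →ₗ[K] (ι → K)), X ∘ₗ (z • Y) = z • (X ∘ₗ Y) :=
    comp_zs
  have hz' : ∀ (z : ℤ) (X Y : (ι → K) →ₗ[K] (ι → K)), (z • X) ∘ₗ Y = z • (X ∘ₗ Y) :=
    zs_comp
  refine ⟨⟨?_, ?_, ?_⟩, ?_⟩
  · intro v l
    rw [hconX]
    have h1 : Deg deg deg (XN e h R (l.length + 1) v l) (0 - l.length) := by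
      apply Deg.sum
      intro n _
      rw [negOnePow_smul (K := K)]
      exact Deg.smul _ (hpowd n v l)
    exact (Deg.comp (hdeg v) h1).congr (by ring)
  · intro v l
    rw [hconX, ← LinearMap.comp_assoc, heh]
  · intro v l
    rw [hconX, LinearMap.comp_assoc]
    congr 1
    unfold XN
    rw [lsum_comp]
    refine Finset.sum_congr rfl (fun n _ => ?_)
    rw [hz', hpowr]
  · -- the main identity
    have hDDhc : DD deg (-1) R R (unt h) = unt e + nuC h R := DD_hc hh
    have hhsg : Sg deg (-1) (unt h) := by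
      intro v l
      cases l with
      | nil =>
        have := th_comp_of_deg (hdeg v)
        simpa [unt] using this
      | cons u l => simp [unt]
    have hYY : ∀ v l, DD deg 0 R R (unt e + nuC h R) v l = 0 := by
      intro v l
      rw [← hDDhc]
      exact DD_DD R hRsg hR.eqn hhsg v l
    have hunt0 : ∀ v l, DD deg 0 R R (unt e) v l = 0 := by
      intro v l
      unfold DD
      rw [fc_unt, cv_unt_left, cv_unt_right, hR.left, hR.right, sgn_zero, one_smul,
        LinearMap.comp_zero, zero_add, sub_self]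
    have hν0 : ∀ v l, DD deg 0 R R (nuC h R) v l = 0 := by
      intro v l
      have h1 := hYY v l
      have h2 : DD deg 0 R R (unt e + nuC h R) v l =
          DD deg 0 R R (unt e) v l + DD deg 0 R R (nuC h R) v l := by
        unfold DD
        rw [fc_add, cv_add_right, cv_add_left, LinearMap.comp_add, smul_add]
        abel
      rw [h2, hunt0, zero_add] at h1
      exact h1
    have hνsg : Sg deg 0 (nuC h R) := fun v l => th_comp_of_deg (hνd v l)
    have hpow0 : ∀ n v l, DD deg 0 R R (cvPow (unt e) (nuC h R) n) v l = 0 := by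
      intro n
      induction n with
      | zero => exact hunt0
      | succ n ih =>
        intro v l
        change DD deg (0 + 0) R R (cv (nuC h R) (cvPow (unt e) (nuC h R) n)) v l = 0
        rw [leib R 0 hνsg]
        have e1 : DD deg 0 R R (nuC h R) = 0 := by
          funext v l
          exact hν0 v l
        have e2 : DD deg 0 R R (cvPow (unt e) (nuC h R) n) = 0 := by
          funext v l
          exact ih v l
        rw [e1, e2, cv_zero_left, cv_zero_right]
        simp
    have hXN0 : ∀ N, DD deg 0 R R (XN e h R N) = 0 := by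
      intro N
      funext v l
      unfold DD XN
      rw [fc_sum, cv_sum_right, cv_sum_left, sgn_zero, one_smul, lcomp_sum,
        ← Finset.sum_add_distrib, ← Finset.sum_sub_distrib]
      apply Finset.sum_eq_zero
      intro n _
      have h1 := hpow0 n v l
      unfold DD at h1
      rw [sgn_zero, one_smul] at h1
      rw [hz, ← smul_add, ← smul_sub, h1, smul_zero]
    intro v l
    have e1 : DD deg (-1) R R (conC e h R) v l =
        DD deg (-1) R R (cv (unt h) (XN e h R (l.length + 1))) v l := by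
      apply DD_congr (n := l.length) (-1) _ v l le_rfl
      intro v' l' hl'
      rw [cv_unt_left, hconX, XN_stable e h R (l.length + 1) v' l' (by omega)]
    have e2 : DD deg (-1) R R (cv (unt h) (XN e h R (l.length + 1))) v l =
        cv (unt e + nuC h R) (XN e h R (l.length + 1)) v l := by
      have h1 := leib R 0 hhsg (XN e h R (l.length + 1)) v l
      rw [hXN0, cv_zero_right, smul_zero, add_zero, hDDhc, add_zero] at h1
      exact h1
    have e3 : cv (unt e) (XN e h R (l.length + 1)) v l =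
        ∑ n ∈ Finset.range (l.length + 1), ((-1 : ℤ) ^ n) • cvPow (unt e) (nuC h R) n v l := by
      rw [cv_unt_left]
      unfold XN
      rw [lcomp_sum]
      refine Finset.sum_congr rfl (fun n _ => ?_)
      rw [hz, hpowl]
    have e4 : cv (nuC h R) (XN e h R (l.length + 1)) v l =
        ∑ n ∈ Finset.range (l.length + 1), ((-1 : ℤ) ^ n) •
          cvPow (unt e) (nuC h R) (n + 1) v l := by
      unfold XN
      rw [cv_sum_right]
      rfl
    rw [e1, e2, cv_add_left, e3, e4, ← Finset.sum_add_distrib]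
    have tele : ∀ N : ℕ, ∑ n ∈ Finset.range N,
        (((-1 : ℤ) ^ n) • cvPow (unt e) (nuC h R) n v l +
          ((-1 : ℤ) ^ n) • cvPow (unt e) (nuC h R) (n + 1) v l) =
        cvPow (unt e) (nuC h R) 0 v l - ((-1 : ℤ) ^ N) • cvPow (unt e) (nuC h R) N v l := by
      intro N
      induction N with
      | zero => simp
      | succ N ih =>
        rw [Finset.sum_range_succ, ih, pow_succ]
        simp only [mul_neg, mul_one, neg_smul]
        abel
    rw [tele, pow_vanish _ _ (fun v => rfl) (l.length + 1) v l (by omega), smul_zero, sub_zero]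
    rfl

end Pool.Agent.Lib.MP_9b987c_gt.HC
end

section
/-!
# DSC: descent of natural families
-/
namespace Pool.Agent.Lib.MP_9b987c_gt.HC

open scoped Manifold ContDiff BigOperators

namespace DSCM

variable {G : LieGpd}

theorem mul_inv_mul {v w : G.Ar} (h : G.src v = G.src w) : G.mul (G.mul v (G.inv w)) w = v := by
  rw [G.mul_assoc _ _ _ (by rw [G.tgt_inv, h]) (G.src_inv w), G.inv_mul, ← h, G.mul_one]

theorem inv_mul_mul {a u : G.Ar} (h : G.src a = G.tgt u) : G.mul (G.inv a) (G.mul a u) = u := by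
  rw [← G.mul_assoc _ _ _ (G.src_inv a) h, G.inv_mul, h, G.one_mul]

theorem arr_inj (x : G.Ob) (v : {g : G.Ar // G.src g = x})
    (l l' : List {g : G.Ar // G.src g = x})
    (h : (wf G x).arr v l = (wf G x).arr v l') : l = l' := by
  induction l generalizing v l' with
  | nil =>
    cases l' with
    | nil => rfl
    | cons u' l' => simp [Frame.arr] at h
  | cons u l ih =>
    cases l' with
    | nil => simp [Frame.arr] at h
    | cons u' l' =>
      have h0 : G.mul v.1 (G.inv u.1) :: (wf G x).arr u l =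
          G.mul v.1 (G.inv u'.1) :: (wf G x).arr u' l' := h
      obtain ⟨h1, h2⟩ := List.cons.inj h0
      have e1 : G.src v.1 = G.src u.1 := by rw [v.2, u.2]
      have e2 : G.src v.1 = G.src u'.1 := by rw [v.2, u'.2]
      have f1 := mul_inv_mul e1
      have f2 := mul_inv_mul e2
      have g1 : G.src (G.mul v.1 (G.inv u.1)) = G.tgt u.1 := by
        rw [G.src_mul _ _ (by rw [G.tgt_inv, e1]), G.src_inv]
      have g2 : G.src (G.mul v.1 (G.inv u'.1)) = G.tgt u'.1 := by
        rw [G.src_mul _ _ (by rw [G.tgt_inv, e2]), G.src_inv]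
      have k1 := inv_mul_mul g1
      have k2 := inv_mul_mul g2
      rw [f1] at k1
      rw [f2] at k2
      have hu : u = u' := by
        apply Subtype.ext
        rw [← k1, ← k2, h1]
      subst hu
      rw [ih u l' h2]

/-- in a frame, the inverse of `c w v` is `c v w` -/
theorem inv_c {V : Type} (F : Frame G V) (v w : V) : G.inv (F.c w v) = F.c v w := by
  have h := inv_mul_mul (a := F.c w v) (u := F.c v w) (by rw [F.src_c, F.tgt_c])
  rw [F.c_mul, F.c_one] at h
  rw [← h]
  have h2 := G.mul_one (G.inv (F.c w v))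
  rw [G.src_inv, F.tgt_c] at h2
  exact h2.symm

/-- the map of frames from a frame to `wf` -/
def toWf {V : Type} (F : Frame G V) (v : V) : V → {g : G.Ar // G.src g = F.b v} :=
  fun u => ⟨F.c u v, F.src_c u v⟩

theorem toWf_map {V : Type} (F : Frame G V) (v : V) : Frame.Map F (wf G (F.b v)) (toWf F v) where
  b u := F.tgt_c u v
  c u w := by
    change G.mul (F.c u v) (G.inv (F.c w v)) = F.c u w
    rw [inv_c, F.c_mul]

theorem toWf_base {V : Type} (F : Frame G V) (v : V) : toWf F v v = wf0 G (F.b v) :=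
  Subtype.ext (F.c_one v)

end DSCM

open DSCM in
theorem specDSC (hFRM : SpecFRM) : SpecDSC := by
  intro G X _ Φ hΦ
  obtain ⟨hch, -, -, -, hex, hmap, -, -, -, -, -⟩ := hFRM G
  classical
  let A : G.Ob → List G.Ar → X := fun x l =>
    if h : G.Chain x l then Φ _ (wf G x) (wf0 G x) (hex x l h).choose else 0
  refine ⟨A, fun x l h => dif_neg h, ?_⟩
  intro V F v l
  have hc := (hch V F v l).1
  change A (F.b v) (F.arr v l) = _
  change (if h : G.Chain (F.b v) (F.arr v l) then
    Φ _ (wf G (F.b v)) (wf0 G (F.b v)) (hex _ _ h).choose else 0) = _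
  rw [dif_pos hc]
  have h1 := (hex _ _ hc).choose_spec.1
  have h2 := (hmap V _ F (wf G (F.b v)) (toWf F v) (toWf_map F v)).1 v l
  rw [toWf_base] at h2
  have h3 : (hex _ _ hc).choose = l.map (toWf F v) := arr_inj _ _ _ _ (h1.trans h2.symm)
  rw [h3, ← toWf_base]
  exact hΦ V _ F (wf G (F.b v)) (toWf F v) (toWf_map F v) v l

end Pool.Agent.Lib.MP_9b987c_gt.HC
end

section
/-!
# FRM: frames
-/
namespace Pool.Agent.Lib.MP_9b987c_gt.HC

open scoped Manifold ContDiff BigOperators

namespace FRMM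

section Sets

variable {K : Type*} [CommRing K] {V : Type*}
variable {M N P : Type*} [AddCommGroup M] [Module K M] [AddCommGroup N] [Module K N]
  [AddCommGroup P] [Module K P]

theorem cv_eq_sum (A : V → List V → (N →ₗ[K] P)) (B : V → List V → (M →ₗ[K] N)) (v : V)
    (l : List V) : cv A B v l =
      ∑ j ∈ Finset.range (l.length + 1), A v (l.take j) ∘ₗ B (lst v (l.take j)) (l.drop j) := by
  induction l generalizing A v with
  | nil => simp
  | cons u l ih =>
    rw [cv_cons, ih, List.length_cons, Finset.sum_range_succ' _ (l.length + 1)]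
    rw [add_comm]
    simp only [List.take_succ_cons, List.drop_succ_cons, lst_cons, sh_apply, List.take_zero,
      List.drop_zero, lst_nil]

variable {X : Type*} [AddCommGroup X]

theorem fc_eq_sum [Module ℝ X] (f : V → List V → X) (v : V) (l : List V) : fc f v l =
    ∑ j ∈ Finset.range (l.length - 1), ((-1 : ℝ) ^ (j + 1)) • f v (l.eraseIdx j) := by
  induction l generalizing f v with
  | nil => simp
  | cons u l ih =>
    cases l with
    | nil => simp
    | cons w l =>
      rw [fc_cons, ih]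
      simp only [List.length_cons, Nat.add_sub_cancel]
      rw [Finset.sum_range_succ' _ l.length]
      simp only [List.eraseIdx_cons_succ, List.eraseIdx_zero, List.tail_cons, zero_add, pow_one,
        neg_smul, one_smul, sh_apply]
      rw [sub_eq_add_neg, add_comm, ← Finset.sum_neg_distrib]
      congr 1
      refine Finset.sum_congr rfl fun j _ => ?_
      rw [pow_succ (-1 : ℝ) (j + 1), mul_neg_one, neg_smul]

end Sets

variable {G : LieGpd}

theorem mul_inv_mul {v w : G.Ar} (h : G.src v = G.src w) : G.mul (G.mul v (G.inv w)) w = v := by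
  rw [G.mul_assoc _ _ _ (by rw [G.tgt_inv, h]) (G.src_inv w), G.inv_mul, ← h, G.mul_one]

theorem inv_mul_mul {a u : G.Ar} (h : G.src a = G.tgt u) : G.mul (G.inv a) (G.mul a u) = u := by
  rw [← G.mul_assoc _ _ _ (G.src_inv a) h, G.inv_mul, h, G.one_mul]

section Fr

variable {V V' : Type} (F : Frame G V)

theorem arr_chain (v : V) (l : List V) : G.Chain (F.b v) (F.arr v l) ∧
    G.fin (F.b v) (F.arr v l) = F.b (lst v l) ∧ (F.arr v l).length = l.length := by
  induction l generalizing v with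
  | nil => exact ⟨trivial, rfl, rfl⟩
  | cons u l ih =>
    obtain ⟨h1, h2, h3⟩ := ih u
    refine ⟨⟨F.tgt_c v u, ?_⟩, ?_, ?_⟩
    · rw [F.src_c]; exact h1
    · change G.fin (G.src (F.c v u)) (F.arr u l) = _
      rw [F.src_c, h2]
      rfl
    · change (F.arr u l).length + 1 = l.length + 1
      rw [h3]

theorem arr_take (v : V) (l : List V) (j : ℕ) : (F.arr v l).take j = F.arr v (l.take j) := by
  induction l generalizing v j with
  | nil => simp [Frame.arr]
  | cons u l ih =>
    cases j with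
    | zero => simp [Frame.arr]
    | succ j => simp [Frame.arr, ih]

theorem arr_drop (v : V) (l : List V) (j : ℕ) :
    (F.arr v l).drop j = F.arr (lst v (l.take j)) (l.drop j) := by
  induction l generalizing v j with
  | nil => simp [Frame.arr]
  | cons u l ih =>
    cases j with
    | zero => simp
    | succ j => simp [Frame.arr, ih]

theorem arr_face (v : V) (l : List V) (j : ℕ) (hj : j < l.length - 1) :
    G.face j (F.arr v l) = F.arr v (l.eraseIdx j) := by
  induction l generalizing v j with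
  | nil => simp at hj
  | cons u l ih =>
    cases l with
    | nil => simp at hj
    | cons w l =>
      cases j with
      | zero =>
        change G.mul (F.c v u) (F.c u w) :: F.arr w l = F.c v w :: F.arr w l
        rw [F.c_mul]
      | succ j =>
        have h := ih u j (by simp at hj ⊢; omega)
        change F.c v u :: G.face j (F.arr u (w :: l)) = _
        rw [h]
        rfl

theorem fin_take (v : V) (l : List V) (j : ℕ) :
    G.fin (F.b v) ((F.arr v l).take j) = F.b (lst v (l.take j)) := by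
  rw [arr_take, (arr_chain F v (l.take j)).2.1]

theorem map_arr {F : Frame G V} {F' : Frame G V'} {α : V → V'} (h : Frame.Map F F' α) (v : V)
    (l : List V) : F'.arr (α v) (l.map α) = F.arr v l := by
  induction l generalizing v with
  | nil => rfl
  | cons u l ih =>
    change F'.c (α v) (α u) :: F'.arr (α u) (l.map α) = F.c v u :: F.arr u l
    rw [h.c, ih]

theorem map_hom {F : Frame G V} {F' : Frame G V'} {α : V → V'} (h : Frame.Map F F' α) {X : Type}
    (A : G.Ob → List G.Ar → X) (v : V) (l : List V) :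
    F'.hom A (α v) (l.map α) = F.hom A v l := by
  change A (F'.b (α v)) (F'.arr (α v) (l.map α)) = A (F.b v) (F.arr v l)
  rw [h.b, map_arr h]

theorem rep_unit (v : V) (l : List V) (h : HasRep v l) : ∃ y, G.one y ∈ F.arr v l := by
  induction l generalizing v with
  | nil => exact h.elim
  | cons u l ih =>
    rcases h with rfl | h
    · exact ⟨F.b v, by rw [← F.c_one]; exact List.mem_cons_self ..⟩
    · obtain ⟨y, hy⟩ := ih u h
      exact ⟨y, List.mem_cons_of_mem _ hy⟩

end Fr

theorem wf_exists (x : G.Ob) (v : {g : G.Ar // G.src g = x}) (l : List G.Ar)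
    (h : G.Chain (G.tgt v.1) l) : ∃ l', (wf G x).arr v l' = l := by
  induction l generalizing v with
  | nil => exact ⟨[], rfl⟩
  | cons g l ih =>
    obtain ⟨h1, h2⟩ := h
    have h3 : G.src (G.inv g) = G.tgt v.1 := by rw [G.src_inv, h1]
    let u : {g : G.Ar // G.src g = x} := ⟨G.mul (G.inv g) v.1, by rw [G.src_mul _ _ h3, v.2]⟩
    have hu : G.tgt u.1 = G.src g := by
      change G.tgt (G.mul (G.inv g) v.1) = _
      rw [G.tgt_mul _ _ h3, G.tgt_inv]
    obtain ⟨l', hl'⟩ := ih u (by rw [hu]; exact h2)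
    refine ⟨u :: l', ?_⟩
    change G.mul v.1 (G.inv u.1) :: (wf G x).arr u l' = g :: l
    rw [hl']
    congr 1
    -- g u = v
    have h4 : G.mul g u.1 = v.1 := by
      change G.mul g (G.mul (G.inv g) v.1) = v.1
      rw [← G.mul_assoc _ _ _ (G.tgt_inv g).symm h3, G.mul_inv, h1, G.one_mul]
    have h5 : G.src g = G.tgt u.1 := hu.symm
    rw [← h4, G.mul_assoc _ _ _ h5 (G.tgt_inv _).symm, G.mul_inv, hu, G.mul_one]

theorem wf_unit (x : G.Ob) (v : {g : G.Ar // G.src g = x}) (l : List {g : G.Ar // G.src g = x})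
    (h : ∃ y, G.one y ∈ (wf G x).arr v l) : HasRep v l := by
  induction l generalizing v with
  | nil =>
    obtain ⟨y, hy⟩ := h
    simp [Frame.arr] at hy
  | cons u l ih =>
    obtain ⟨y, hy⟩ := h
    rcases List.mem_cons.1 hy with hy | hy
    · left
      have h1 : G.one y = G.mul v.1 (G.inv u.1) := hy
      have h2 : G.src v.1 = G.src u.1 := by rw [v.2, u.2]
      have h3 : G.src (G.mul v.1 (G.inv u.1)) = G.tgt u.1 := by
        rw [G.src_mul _ _ (by rw [G.tgt_inv, h2]), G.src_inv]
      have h4 : y = G.tgt u.1 := by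
        rw [← h3, ← h1, G.src_one]
      apply Subtype.ext
      rw [← mul_inv_mul h2, ← h1, h4, G.one_mul]
    · right
      exact ih u ⟨y, hy⟩

end FRMM

open FRMM in
theorem specFRM : SpecFRM := by
  intro G
  refine ⟨fun V F v l => arr_chain F v l, ?_, ?_, ?_, ?_, ?_, ?_, ?_, ?_, ?_, ?_⟩
  · intro V F ι κ μ A B v l
    rw [cv_eq_sum]
    change starG G A B (F.b v) (F.arr v l) = _
    unfold starG
    rw [(arr_chain F v l).2.2]
    refine Finset.sum_congr rfl fun j _ => ?_
    rw [fin_take, arr_take, arr_drop]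
    rfl
  · intro V F ι κ μ A B v l
    rw [cv_eq_sum]
    refine Finset.sum_congr rfl fun j hj => ?_
    have hj' : j ≤ l.length := by
      have := Finset.mem_range.1 hj
      omega
    rw [fin_take, arr_take, arr_drop, eps_apply, List.length_take, min_eq_left hj',
      negOnePow_smul (K := ℝ), sgn_natCast, LinearMap.smul_comp]
    rfl
  · intro V F ι κ A v l
    rw [fc_eq_sum]
    refine Finset.sum_congr rfl fun j hj => ?_
    rw [arr_face F v l j (Finset.mem_range.1 hj)]
    rfl
  · intro x l hl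
    obtain ⟨l', hl'⟩ := wf_exists x (wf0 G x) l (by
      change G.Chain (G.tgt (G.one x)) l
      rw [G.tgt_one]; exact hl)
    exact ⟨l', hl', G.tgt_one x⟩
  · intro V V' F F' α h
    exact ⟨fun v l => map_arr h v l, fun X A v l => map_hom h A v l⟩
  · intro V F ι e v l
    cases l <;> rfl
  · intro V F v l h
    exact rep_unit F v l h
  · intro x v l h
    exact wf_unit x v l h
  · intro G' φ V F ι κ A v l
    change pullG φ A (F.b v) (F.arr v l) = A (φ.ob (F.b v)) ((F.push φ).arr v l)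
    unfold pullG
    rw [if_pos (arr_chain F v l).1]
    congr 1
    induction l generalizing v with
    | nil => rfl
    | cons u l ih =>
      change φ.ar (F.c v u) :: (F.arr u l).map φ.ar = φ.ar (F.c v u) :: (F.push φ).arr u l
      rw [ih]
  · intro G' φ W F ι κ A q l
    change pullG φ A q.1.1 ((upF φ F).arr q l) = A (F.b q.1.2) (F.arr q.1.2 (l.map fun q => q.1.2))
    unfold pullG
    have hch : G'.Chain q.1.1 ((upF φ F).arr q l) := (arr_chain (upF φ F) q l).1
    rw [if_pos hch, q.2]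
    clear hch
    congr 1
    induction l generalizing q with
    | nil => rfl
    | cons r l ih =>
      change φ.ar (upA φ q.1.1 (F.c q.1.2 r.1.2) r.1.1) :: ((upF φ F).arr r l).map φ.ar =
        F.c q.1.2 r.1.2 :: F.arr r.1.2 (l.map fun q => q.1.2)
      rw [ih, (upA_spec φ (by rw [q.2, F.tgt_c]) (by rw [r.2, F.src_c])).2.2]

end Pool.Agent.Lib.MP_9b987c_gt.HC
end

section
/-!
# HAV: averages of cochains on a hypercover
-/
namespace Pool.Agent.Lib.MP_9b987c_gt.HC

open scoped Manifold ContDiff BigOperators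

namespace HAVM

variable {G' G : LieGpd} (φ : Hypercover G' G)

/-- the map of pairs induced by a map of frames -/
def prm {W W' : Type} {F : Frame G W} {F' : Frame G W'} {α : W → W'} (h : Frame.Map F F' α) :
    VV φ F → VV φ F' := fun q => ⟨(q.1.1, α q.1.2), q.2.trans (h.b _).symm⟩

theorem prm_map {W W' : Type} {F : Frame G W} {F' : Frame G W'} {α : W → W'}
    (h : Frame.Map F F' α) : Frame.Map (upF φ F) (upF φ F') (prm φ h) where
  b _ := rfl
  c q r := by
    show upA φ q.1.1 (F'.c (α q.1.2) (α r.1.2)) r.1.1 = upA φ q.1.1 (F.c q.1.2 r.1.2) r.1.1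
    rw [h.c]

theorem cov_map {φ : Hypercover G' G} (T : TopData φ) {W W' : Type} {F : Frame G W}
    {F' : Frame G W'} {α : W → W'} (h : Frame.Map F F' α) :
    Cov.Map (RingHom.id ℝ) (prm φ h) α (cvF T F) (cvF T F') where
  p _ := rfl
  col c w := by
    refine Or.inr ⟨?_, ?_, ?_⟩
    · refine Subtype.ext ?_
      show (T.σ c (F'.b (α w)), α w) = (T.σ c (F.b w), α w)
      rw [h.b]
    · show T.l c (F'.b (α w)) = T.l c (F.b w)
      rw [h.b]
    · show T.tau c (F'.b (α w)) = T.tau c (F.b w)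
      rw [h.b]

theorem lnat_id {ι κ : Type} {F F' : (ι → ℝ) →ₗ[ℝ] (κ → ℝ)} (h : LNat (RingHom.id ℝ) F F') :
    F' = F := by
  refine LinearMap.ext fun z => ?_
  exact h z

theorem conat_id {V V' ι κ : Type} {α : V → V'} {A : V → List V → ((ι → ℝ) →ₗ[ℝ] (κ → ℝ))}
    {A' : V' → List V' → ((ι → ℝ) →ₗ[ℝ] (κ → ℝ))} (h : ∀ v l, A' (α v) (l.map α) = A v l) :
    CoNat (RingHom.id ℝ) α A A' := by
  intro v l z
  rw [h]
  rfl

/-- a map of frames of `G'` gives a map of the pushed frames -/
theorem push_map {V V' : Type} {F : Frame G' V} {F' : Frame G' V'} {α : V → V'}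
    (h : Frame.Map F F' α) : Frame.Map (F.push φ) (F'.push φ) α where
  b v := congrArg φ.ob (h.b v)
  c v u := congrArg φ.ar (h.c v u)

theorem prm_jF {V V' : Type} {F : Frame G' V} {F' : Frame G' V'} {α : V → V'}
    (h : Frame.Map F F' α) (v : V) : prm φ (push_map φ h) (jF φ F v) = jF φ F' (α v) := by
  refine Subtype.ext ?_
  show (F.b v, α v) = (F'.b (α v), α v)
  rw [h.b]

end HAVM

open HAVM in
theorem specHAV (hFRM : SpecFRM) (hDSC : SpecDSC) (hSMR : SpecSMR) (hPLF : SpecPLF)
    (hSMC : SpecSMC) (hNTA : SpecNTA) : SpecHAV := by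
  intro G' G φ T ι κ _ _ _ _ A hA hA0
  obtain ⟨-, -, -, -, -, f6, -, -, -, -, -⟩ := hFRM G'
  have hhom : ∀ (V V' : Type) (F : Frame G' V) (F' : Frame G' V') (α : V → V'),
      Frame.Map F F' α → ∀ (v : V) (l : List V), F'.hom A (α v) (l.map α) = F.hom A v l := by
    intro V V' F F' α h v l
    exact (f6 V V' F F' α h).2 _ A v l
  constructor
  · have hnat : ∀ (W W' : Type) (F : Frame G W) (F' : Frame G W') (α : W → W'),
        Frame.Map F F' α → ∀ (w : W) (l : List W), av (cvF T F') ((upF φ F').hom A) (α w) (l.map α) =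
          av (cvF T F) ((upF φ F).hom A) w l := by
      intro W W' F F' α h w l
      have h1 := (hNTA ℝ ℝ (VV φ F) (VV φ F') W W' (Fin T.N) ι κ (RingHom.id ℝ) (prm φ h) α
        (cvF T F) (cvF T F') ((upF φ F).hom A) ((upF φ F').hom A) (cov_map T h)
        (conat_id fun v l => hhom _ _ _ _ _ (prm_map φ h) v l)).1
      exact lnat_id (h1 w l)
    obtain ⟨B, hB0, hB⟩ := hDSC G ((ι → ℝ) →ₗ[ℝ] (κ → ℝ))
      (fun W F w l => av (cvF T F) ((upF φ F).hom A) w l) hnat
    refine ⟨B, ?_, hB0, hB⟩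
    refine (hSMR G ι κ).2.2.2.1 B ?_
    intro d k U x g hU hx hg hch u₀ hu₀
    obtain ⟨F, hF, hFx⟩ := hPLF G d k U x g hU hx hg hch
    obtain ⟨U', hU', hUo, hu', V, D, α, E, jj, hD, hE, hDm, hEm, -⟩ := hSMC G' G φ T d U
      (Fin (k + 1)) Empty F (fun j => j.elim) (fun j => j.elim) (fun _ j => j.elim) hU hF
      (fun j => j.elim) ⟨u₀, hu₀⟩
    obtain ⟨A', hA'⟩ := (hSMR G' ι κ).2.1 d U' V E A hUo hE hA
    refine ⟨U', hUo, hu', hU', av D A' 0 ((List.finRange k).map Fin.succ), fun u => ?_⟩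
    have h1 := (hNTA (Sm U') ℝ V (VV φ (F ⟨u, hU' u.2⟩)) (Fin (k + 1)) (Fin (k + 1)) (Fin T.N)
      ι κ (evS U' u) (α u) id D (cvF T (F ⟨u, hU' u.2⟩)) A' ((upF φ (F ⟨u, hU' u.2⟩)).hom A)
      (hDm u) (by
        intro v l
        rw [hhom _ _ _ _ _ (hEm u) v l]
        exact hA' u v l)).1 0 ((List.finRange k).map Fin.succ)
    rw [List.map_id, ← hB] at h1
    have h2 : (F ⟨u, hU' u.2⟩).hom B 0 ((List.finRange k).map Fin.succ) =
        B (x u) (List.ofFn fun a => g a u) := by
      show B ((F ⟨u, hU' u.2⟩).b 0) ((F ⟨u, hU' u.2⟩).arr 0 ((List.finRange k).map Fin.succ)) = _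
      rw [(hFx ⟨u, hU' u.2⟩).1, (hFx ⟨u, hU' u.2⟩).2]
    rw [← h2]
    exact h1
  · have hnat : ∀ (V V' : Type) (F : Frame G' V) (F' : Frame G' V') (α : V → V'),
        Frame.Map F F' α → ∀ (v : V) (l : List V),
          hr (cvF T (F'.push φ)) ((upF φ (F'.push φ)).hom A) (jF φ F' (α v))
            ((l.map α).map (jF φ F')) =
          hr (cvF T (F.push φ)) ((upF φ (F.push φ)).hom A) (jF φ F v) (l.map (jF φ F)) := by
      intro V V' F F' α h v l
      have h0 := push_map φ h
      have h1 := (hNTA ℝ ℝ (VV φ (F.push φ)) (VV φ (F'.push φ)) V V' (Fin T.N) ι κ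
        (RingHom.id ℝ) (prm φ h0) α (cvF T (F.push φ)) (cvF T (F'.push φ))
        ((upF φ (F.push φ)).hom A) ((upF φ (F'.push φ)).hom A) (cov_map T h0)
        (conat_id fun v l => hhom _ _ _ _ _ (prm_map φ h0) v l)).2
      have h2 := lnat_id (h1 (jF φ F v) (l.map (jF φ F)))
      rw [prm_jF φ h, List.map_map] at h2
      rw [← h2, List.map_map]
      congr 1
      refine List.map_congr_left fun a _ => ?_
      exact (prm_jF φ h a).symm
    obtain ⟨B, hB0, hB⟩ := hDSC G' ((ι → ℝ) →ₗ[ℝ] (κ → ℝ))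
      (fun V F v l => hr (cvF T (F.push φ)) ((upF φ (F.push φ)).hom A) (jF φ F v)
        (l.map (jF φ F))) hnat
    refine ⟨B, ?_, hB0, hB⟩
    refine (hSMR G' ι κ).2.2.2.1 B ?_
    intro d k U x g hU hx hg hch u₀ hu₀
    obtain ⟨F, hF, hFx⟩ := hPLF G' d k U x g hU hx hg hch
    have hFp : SmFam (fun u => (F u).push φ) := by
      constructor
      · intro v
        obtain ⟨f, hf, hf'⟩ := hF.1 v
        exact ⟨fun u => φ.ob (f u), φ.ob_subm.contMDiff.comp_contMDiffOn hf,
          fun u => congrArg φ.ob (hf' u)⟩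
      · intro v w
        obtain ⟨f, hf, hf'⟩ := hF.2 v w
        exact ⟨fun u => φ.ar (f u), φ.ar_smooth.comp_contMDiffOn hf,
          fun u => congrArg φ.ar (hf' u)⟩
    choose n hn hn' using hF.1
    obtain ⟨U', hU', hUo, hu', V, D, α, E, jj, hD, hE, hDm, hEm, hjj⟩ := hSMC G' G φ T d U
      (Fin (k + 1)) (Fin (k + 1)) (fun u => (F u).push φ) id n
      (fun u j => (congrArg φ.ob (hn' j u)).symm) hU hFp hn ⟨u₀, hu₀⟩
    obtain ⟨A', hA'⟩ := (hSMR G' ι κ).2.1 d U' V E A hUo hE hA
    refine ⟨U', hUo, hu', hU', hr D A' (jj 0) (((List.finRange k).map Fin.succ).map jj),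
      fun u => ?_⟩
    have h1 := (hNTA (Sm U') ℝ V (VV φ ((F ⟨u, hU' u.2⟩).push φ)) (Fin (k + 1)) (Fin (k + 1))
      (Fin T.N) ι κ (evS U' u) (α u) id D (cvF T ((F ⟨u, hU' u.2⟩).push φ)) A'
      ((upF φ ((F ⟨u, hU' u.2⟩).push φ)).hom A)
      (hDm u) (by
        intro v l
        rw [hhom _ _ _ _ _ (hEm u) v l]
        exact hA' u v l)).2 (jj 0) (((List.finRange k).map Fin.succ).map jj)
    have h3 : ∀ j, α u (jj j) = jF φ (F ⟨u, hU' u.2⟩) j := by
      intro j
      rw [hjj u j]
      refine Subtype.ext ?_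
      show (n j u, id j) = ((F ⟨u, hU' u.2⟩).b j, j)
      rw [hn' j ⟨u, hU' u.2⟩]
      rfl
    have h4 : (((List.finRange k).map Fin.succ).map jj).map (α u) =
        ((List.finRange k).map Fin.succ).map (jF φ (F ⟨u, hU' u.2⟩)) := by
      rw [List.map_map]
      refine List.map_congr_left fun a _ => ?_
      exact h3 a
    rw [h3, h4, ← hB] at h1
    have h2 : (F ⟨u, hU' u.2⟩).hom B 0 ((List.finRange k).map Fin.succ) =
        B (x u) (List.ofFn fun a => g a u) := by
      show B ((F ⟨u, hU' u.2⟩).b 0) ((F ⟨u, hU' u.2⟩).arr 0 ((List.finRange k).map Fin.succ)) = _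
      rw [(hFx ⟨u, hU' u.2⟩).1, (hFx ⟨u, hU' u.2⟩).2]
    rw [← h2]
    exact h1

end Pool.Agent.Lib.MP_9b987c_gt.HC
end

section
/-!
# HRE: the output of the construction on `G`
-/
namespace Pool.Agent.Lib.MP_9b987c_gt.HC

open scoped Manifold ContDiff BigOperators

namespace HREM

variable {G' G : LieGpd} (φ : Hypercover G' G)

/-- The map of pairs induced by a map of frames. -/
def prm {W W' : Type} {F : Frame G W} {F' : Frame G W'} {α : W → W'} (h : Frame.Map F F' α) :
    VV φ F → VV φ F' := fun q => ⟨(q.1.1, α q.1.2), q.2.trans (h.b _).symm⟩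

theorem prm_map {W W' : Type} {F : Frame G W} {F' : Frame G W'} {α : W → W'}
    (h : Frame.Map F F' α) : Frame.Map (upF φ F) (upF φ F') (prm φ h) where
  b _ := rfl
  c q r := by
    show upA φ q.1.1 (F'.c (α q.1.2) (α r.1.2)) r.1.1 = upA φ q.1.1 (F.c q.1.2 r.1.2) r.1.1
    rw [h.c]

theorem cov_map {φ : Hypercover G' G} (T : TopData φ) {W W' : Type} {F : Frame G W}
    {F' : Frame G W'} {α : W → W'} (h : Frame.Map F F' α) :
    Cov.Map (RingHom.id ℝ) (prm φ h) α (cvF T F) (cvF T F') where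
  p _ := rfl
  col c w := by
    refine Or.inr ⟨?_, ?_, ?_⟩
    · refine Subtype.ext ?_
      show (T.σ c (F'.b (α w)), α w) = (T.σ c (F.b w), α w)
      rw [h.b]
    · show T.l c (F'.b (α w)) = T.l c (F.b w)
      rw [h.b]
    · show T.tau c (F'.b (α w)) = T.tau c (F.b w)
      rw [h.b]

theorem cvF_ok {φ : Hypercover G' G} (T : TopData φ) {W : Type} (F : Frame G W) :
    (cvF T F).Ok where
  p_lift _ _ := rfl
  sum_sq w := T.sum_sq (F.b w)
  tau_l c w := T.tau_l c (F.b w)

theorem lnat_id {ι κ : Type} {F F' : (ι → ℝ) →ₗ[ℝ] (κ → ℝ)} (h : LNat (RingHom.id ℝ) F F') :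
    F' = F := by
  refine LinearMap.ext fun z => ?_
  exact h z

theorem conat_id {V V' ι κ : Type} {α : V → V'} {A : V → List V → ((ι → ℝ) →ₗ[ℝ] (κ → ℝ))}
    {A' : V' → List V' → ((ι → ℝ) →ₗ[ℝ] (κ → ℝ))} (h : ∀ v l, A' (α v) (l.map α) = A v l) :
    CoNat (RingHom.id ℝ) α A A' := by
  intro v l z
  rw [h]
  rfl

end HREM

open HREM in
theorem specHRE (hFRM : SpecFRM) (hDSC : SpecDSC) (hSMR : SpecSMR) (hPLF : SpecPLF)
    (hSMC : SpecSMC) (hNAT : SpecNAT) (hOUT : SpecOUT) : SpecHRE := by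
  intro G' G φ T ι _ _ deg lo n e R hR hlo hhi
  obtain ⟨-, -, -, -, -, f6, -, -, -, -, -⟩ := hFRM G'
  have hhom : ∀ (V V' : Type) (F : Frame G' V) (F' : Frame G' V') (α : V → V'),
      Frame.Map F F' α → ∀ (v : V) (l : List V), F'.hom R (α v) (l.map α) = F.hom R v l := by
    intro V V' F F' α h v l
    exact (f6 V V' F F' α h).2 _ R v l
  -- naturality along maps of frames of `G`
  have hnat : ∀ (W W' : Type) (F : Frame G W) (F' : Frame G W') (α : W → W'),
      Frame.Map F F' α →
      (∀ w, oE (cvF T F') deg lo n ((upF φ F').hom R) (α w) =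
        oE (cvF T F) deg lo n ((upF φ F).hom R) w) ∧
      (∀ w l, oR (cvF T F') deg lo n ((upF φ F').hom R) (α w) (l.map α) =
        oR (cvF T F) deg lo n ((upF φ F).hom R) w l) := by
    intro W W' F F' α h
    have h1 := hNAT ℝ ℝ (VV φ F) (VV φ F') W W' (Fin T.N) ι (RingHom.id ℝ) (prm φ h) α
      (cvF T F) (cvF T F') deg lo n (fun v => e ((upF φ F).b v)) ((upF φ F).hom R)
      (fun v => e ((upF φ F').b v)) ((upF φ F').hom R) (cov_map T h)
      (conat_id fun v l => hhom _ _ _ _ _ (prm_map φ h) v l) (fun v z => by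
        rw [(prm_map φ h).b v]
        rfl)
    exact ⟨fun w => lnat_id (h1.1 w), fun w l => lnat_id (h1.2.1 w l)⟩
  obtain ⟨A, -, hA⟩ := hDSC G ((Kap n (Fin T.N) ι → ℝ) →ₗ[ℝ] (Kap n (Fin T.N) ι → ℝ))
    (fun W F w _ => oE (cvF T F) deg lo n ((upF φ F).hom R) w)
    (fun V V' F F' α h v l => (hnat V V' F F' α h).1 v)
  obtain ⟨B, hB0, hB⟩ := hDSC G ((Kap n (Fin T.N) ι → ℝ) →ₗ[ℝ] (Kap n (Fin T.N) ι → ℝ))
    (fun W F w l => oR (cvF T F) deg lo n ((upF φ F).hom R) w l)
    (fun V V' F F' α h v l => (hnat V V' F F' α h).2 v l)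
  have hE : ∀ (W : Type) (F : Frame G W) w,
      A (F.b w) [] = oE (cvF T F) deg lo n ((upF φ F).hom R) w := fun W F w => hA W F w []
  -- local lifts along plots
  have hloc : ∀ (d k : ℕ) (U : Set (Eu d)) (x : Eu d → G.Ob) (g : Fin k → Eu d → G.Ar), IsOpen U →
      ContMDiffOn (𝓡 d) (𝓡 G.m) ∞ x U → (∀ a, ContMDiffOn (𝓡 d) (𝓡 G.n) ∞ (g a) U) →
      (∀ u ∈ U, G.Chain (x u) (List.ofFn (fun a => g a u))) → ∀ u₀ ∈ U,
      ∃ U' : Set (Eu d), IsOpen U' ∧ u₀ ∈ U' ∧ U' ⊆ U ∧
        (∃ F' : (Kap n (Fin T.N) ι → Sm U') →ₗ[Sm U'] (Kap n (Fin T.N) ι → Sm U'), ∀ u : U',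
          LNat (evS U' u) F' (A (x u) [])) ∧
        (∃ F' : (Kap n (Fin T.N) ι → Sm U') →ₗ[Sm U'] (Kap n (Fin T.N) ι → Sm U'), ∀ u : U',
          LNat (evS U' u) F' (B (x u) (List.ofFn (fun a => g a u)))) := by
    intro d k U x g hU hx hg hch u₀ hu₀
    obtain ⟨F, hF, hFx⟩ := hPLF G d k U x g hU hx hg hch
    obtain ⟨U', hU', hUo, hu', V, D, α, E, jj, hD, hE', hDm, hEm, -⟩ := hSMC G' G φ T d U
      (Fin (k + 1)) Empty F (fun j => j.elim) (fun j => j.elim) (fun _ j => j.elim) hU hF
      (fun j => j.elim) ⟨u₀, hu₀⟩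
    obtain ⟨e', R', -, he', hR'⟩ := (hSMR G' ι ι).2.2.1 d U' V E deg e R hUo hE' hR
    have h1 := fun u : U' => hNAT (Sm U') ℝ V (VV φ (F ⟨u, hU' u.2⟩)) (Fin (k + 1)) (Fin (k + 1))
      (Fin T.N) ι (evS U' u) (α u) id D (cvF T (F ⟨u, hU' u.2⟩)) deg lo n e' R'
      (fun v => e ((upF φ (F ⟨u, hU' u.2⟩)).b v)) ((upF φ (F ⟨u, hU' u.2⟩)).hom R)
      (hDm u) (by
        intro v l
        rw [hhom _ _ _ _ _ (hEm u) v l]
        exact hR' u v l) (by
        intro v
        rw [(hEm u).b v]
        exact he' u v)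
    refine ⟨U', hUo, hu', hU', ⟨oE D deg lo n R' 0, fun u => ?_⟩,
      ⟨oR D deg lo n R' 0 ((List.finRange k).map Fin.succ), fun u => ?_⟩⟩
    · have h2 := (h1 u).1 0
      rw [id, ← hE] at h2
      rw [(hFx ⟨u, hU' u.2⟩).1] at h2
      exact h2
    · have h2 := (h1 u).2.1 0 ((List.finRange k).map Fin.succ)
      rw [List.map_id, ← hB] at h2
      have h3 : (F ⟨u, hU' u.2⟩).hom B 0 ((List.finRange k).map Fin.succ) =
          B (x u) (List.ofFn fun a => g a u) := by
        show B ((F ⟨u, hU' u.2⟩).b 0) ((F ⟨u, hU' u.2⟩).arr 0 ((List.finRange k).map Fin.succ)) = _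
        rw [(hFx ⟨u, hU' u.2⟩).1, (hFx ⟨u, hU' u.2⟩).2]
      rw [← h3]
      exact h2
  refine ⟨fun x => A x [], B, ⟨?_, hB0, ?_, ?_⟩, fun W F => ⟨hE W F, hB W F⟩⟩
  · refine (hSMR G (Kap n (Fin T.N) ι) (Kap n (Fin T.N) ι)).2.2.2.2 (fun x => A x []) ?_
    refine (hSMR G (Kap n (Fin T.N) ι) (Kap n (Fin T.N) ι)).2.2.2.1 (fun x _ => A x []) ?_
    intro d k U x g hU hx hg hch u₀ hu₀
    obtain ⟨U', h1, h2, h3, h4, -⟩ := hloc d k U x g hU hx hg hch u₀ hu₀
    exact ⟨U', h1, h2, h3, h4⟩
  · refine (hSMR G (Kap n (Fin T.N) ι) (Kap n (Fin T.N) ι)).2.2.2.1 B ?_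
    intro d k U x g hU hx hg hch u₀ hu₀
    obtain ⟨U', h1, h2, h3, -, h4⟩ := hloc d k U x g hU hx hg hch u₀ hu₀
    exact ⟨U', h1, h2, h3, h4⟩
  · intro W F
    have h1 := (hOUT ℝ (VV φ F) W (Fin T.N) ι (cvF T F) deg lo n
      (fun v => e ((upF φ F).b v)) ((upF φ F).hom R) (cvF_ok T F) (hR.sr _ (upF φ F)) hlo hhi).1
    have h2 : (fun v => A (F.b v) []) = oE (cvF T F) deg lo n ((upF φ F).hom R) :=
      funext fun w => hE W F w
    have h3 : F.hom B = oR (cvF T F) deg lo n ((upF φ F).hom R) :=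
      funext fun w => funext fun l => hB W F w l
    rw [h2, h3]
    exact h1

end Pool.Agent.Lib.MP_9b987c_gt.HC
end

section
/-!
# HPS: the morphism on `G'`
-/
namespace Pool.Agent.Lib.MP_9b987c_gt.HC

open scoped Manifold ContDiff BigOperators

open HAVM in
theorem specHPS (hFRM : SpecFRM) (hDSC : SpecDSC) (hSMR : SpecSMR) (hPLF : SpecPLF)
    (hSMC : SpecSMC) (hNAT : SpecNAT) : SpecHPS := by
  intro G' G φ T ι _ _ deg lo n₀ e R hR
  obtain ⟨-, -, -, -, -, f6, -, -, -, -, -⟩ := hFRM G'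
  have hhom : ∀ (V V' : Type) (F : Frame G' V) (F' : Frame G' V') (α : V → V'),
      Frame.Map F F' α → ∀ (v : V) (l : List V), F'.hom R (α v) (l.map α) = F.hom R v l := by
    intro V V' F F' α h v l
    exact (f6 V V' F F' α h).2 _ R v l
  have hnat : ∀ (V V' : Type) (F : Frame G' V) (F' : Frame G' V') (α : V → V'),
      Frame.Map F F' α → ∀ (v : V) (l : List V),
        oPsi (cvF T (F'.push φ)) deg lo n₀ ((upF φ (F'.push φ)).hom R)
          (fun q => e ((upF φ (F'.push φ)).b q)) (jF φ F' (α v)) ((l.map α).map (jF φ F')) =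
        oPsi (cvF T (F.push φ)) deg lo n₀ ((upF φ (F.push φ)).hom R)
          (fun q => e ((upF φ (F.push φ)).b q)) (jF φ F v) (l.map (jF φ F)) := by
    intro V V' F F' α h v l
    have h0 := push_map φ h
    have h1 := (hNAT ℝ ℝ (VV φ (F.push φ)) (VV φ (F'.push φ)) V V' (Fin T.N) ι
      (RingHom.id ℝ) (prm φ h0) α (cvF T (F.push φ)) (cvF T (F'.push φ)) deg lo n₀
      (fun q => e ((upF φ (F.push φ)).b q)) ((upF φ (F.push φ)).hom R)
      (fun q => e ((upF φ (F'.push φ)).b q)) ((upF φ (F'.push φ)).hom R) (cov_map T h0)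
      (conat_id fun v l => hhom _ _ _ _ _ (prm_map φ h0) v l) (fun v z => by
        rw [(prm_map φ h0).b v]
        rfl)).2.2
    have h2 := lnat_id (h1 (jF φ F v) (l.map (jF φ F)))
    rw [prm_jF φ h, List.map_map] at h2
    rw [← h2, List.map_map]
    congr 1
    refine List.map_congr_left fun a _ => ?_
    exact (prm_jF φ h a).symm
  obtain ⟨B, hB0, hB⟩ := hDSC G' ((Kap n₀ (Fin T.N) ι → ℝ) →ₗ[ℝ] (ι → ℝ))
    (fun V F v l => oPsi (cvF T (F.push φ)) deg lo n₀ ((upF φ (F.push φ)).hom R)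
      (fun q => e ((upF φ (F.push φ)).b q)) (jF φ F v) (l.map (jF φ F))) hnat
  refine ⟨B, ?_, hB0, hB⟩
  refine (hSMR G' (Kap n₀ (Fin T.N) ι) ι).2.2.2.1 B ?_
  intro d k U x g hU hx hg hch u₀ hu₀
  obtain ⟨F, hF, hFx⟩ := hPLF G' d k U x g hU hx hg hch
  have hFp : SmFam (fun u => (F u).push φ) := by
    constructor
    · intro v
      obtain ⟨f, hf, hf'⟩ := hF.1 v
      exact ⟨fun u => φ.ob (f u), φ.ob_subm.contMDiff.comp_contMDiffOn hf,
        fun u => congrArg φ.ob (hf' u)⟩
    · intro v w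
      obtain ⟨f, hf, hf'⟩ := hF.2 v w
      exact ⟨fun u => φ.ar (f u), φ.ar_smooth.comp_contMDiffOn hf,
        fun u => congrArg φ.ar (hf' u)⟩
  choose n hn hn' using hF.1
  obtain ⟨U', hU', hUo, hu', V, D, α, E, jj, hD, hE, hDm, hEm, hjj⟩ := hSMC G' G φ T d U
    (Fin (k + 1)) (Fin (k + 1)) (fun u => (F u).push φ) id n
    (fun u j => (congrArg φ.ob (hn' j u)).symm) hU hFp hn ⟨u₀, hu₀⟩
  obtain ⟨e', R', -, he', hR'⟩ := (hSMR G' ι ι).2.2.1 d U' V E deg e R hUo hE hR
  refine ⟨U', hUo, hu', hU', oPsi D deg lo n₀ R' e' (jj 0) (((List.finRange k).map Fin.succ).map jj),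
    fun u => ?_⟩
  have h1 := (hNAT (Sm U') ℝ V (VV φ ((F ⟨u, hU' u.2⟩).push φ)) (Fin (k + 1)) (Fin (k + 1))
    (Fin T.N) ι (evS U' u) (α u) id D (cvF T ((F ⟨u, hU' u.2⟩).push φ)) deg lo n₀ e' R'
    (fun q => e ((upF φ ((F ⟨u, hU' u.2⟩).push φ)).b q))
    ((upF φ ((F ⟨u, hU' u.2⟩).push φ)).hom R)
    (hDm u) (by
      intro v l
      rw [hhom _ _ _ _ _ (hEm u) v l]
      exact hR' u v l) (by
      intro v
      rw [(hEm u).b v]
      exact he' u v)).2.2 (jj 0) (((List.finRange k).map Fin.succ).map jj)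
  have h3 : ∀ j, α u (jj j) = jF φ (F ⟨u, hU' u.2⟩) j := by
    intro j
    rw [hjj u j]
    refine Subtype.ext ?_
    show (n j u, id j) = ((F ⟨u, hU' u.2⟩).b j, j)
    rw [hn' j ⟨u, hU' u.2⟩]
    rfl
  have h4 : (((List.finRange k).map Fin.succ).map jj).map (α u) =
      ((List.finRange k).map Fin.succ).map (jF φ (F ⟨u, hU' u.2⟩)) := by
    rw [List.map_map]
    refine List.map_congr_left fun a _ => ?_
    exact h3 a
  rw [h3, h4, ← hB] at h1
  have h2 : (F ⟨u, hU' u.2⟩).hom B 0 ((List.finRange k).map Fin.succ) =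
      B (x u) (List.ofFn fun a => g a u) := by
    show B ((F ⟨u, hU' u.2⟩).b 0) ((F ⟨u, hU' u.2⟩).arr 0 ((List.finRange k).map Fin.succ)) = _
    rw [(hFx ⟨u, hU' u.2⟩).1, (hFx ⟨u, hU' u.2⟩).2]
  rw [← h2]
  exact h1

end Pool.Agent.Lib.MP_9b987c_gt.HC
end

section
/-!
# HFF: the pullback functor is full and faithful (hat form)
-/
namespace Pool.Agent.Lib.MP_9b987c_gt.HC

open scoped Manifold ContDiff BigOperators

open AVGM

namespace HFFM

section SetLevel

variable {K : Type} [CommRing K] {V V' W C ι κ : Type} [Fintype C]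

theorem isCo_pb {deg : ι → ℤ} {deg' : κ → ℤ} {t : ℤ} {eE : V → (ι → K) →ₗ[K] (ι → K)}
    {eF : V → (κ → K) →ₗ[K] (κ → K)} {A : V → List V → ((ι → K) →ₗ[K] (κ → K))} (α : V' → V)
    (h : IsCo deg deg' t eE eF A) :
    IsCo deg deg' t (fun v => eE (α v)) (fun v => eF (α v)) (pb α A) where
  deg_A v l := by
    have := h.deg_A (α v) (l.map α)
    rw [List.length_map] at this
    exact this
  left v l := h.left _ _
  right v l := by
    have := h.right (α v) (l.map α)
    rw [lst_map] at this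
    exact this

theorem dd_pb {deg' : κ → ℤ} {t : ℤ} (α : V' → V) (RE : V → List V → ((ι → K) →ₗ[K] (ι → K)))
    (RF : V → List V → ((κ → K) →ₗ[K] (κ → K))) (A : V → List V → ((ι → K) →ₗ[K] (κ → K)))
    (v : V') (l : List V') :
    DD deg' t (pb α RE) (pb α RF) (pb α A) v l = DD deg' t RE RF A (α v) (l.map α) := by
  unfold DD
  rw [fc_pb, cv_pb, cv_pb]
  rfl

theorem av_dd {D : Cov K V W C} (hD : D.Ok) {deg' : κ → ℤ} {t : ℤ}
    (RE : W → List W → ((ι → K) →ₗ[K] (ι → K))) (RF : W → List W → ((κ → K) →ₗ[K] (κ → K)))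
    (A : V → List V → ((ι → K) →ₗ[K] (κ → K))) (w : W) (l : List W) :
    av D (DD deg' t (pb D.p RE) (pb D.p RF) A) w l = DD deg' t RE RF (av D A) w l := by
  have h : DD deg' t (pb D.p RE) (pb D.p RF) A =
      ((fun v l => th K deg' ∘ₗ fc A v l) + cv (pb D.p RF) A) -
        (fun v l => (sgn K t • (LinearMap.id : (κ → K) →ₗ[K] (κ → K))) ∘ₗ
          cv A (pb D.p RE) v l) := by
    funext v l
    simp only [DD, Pi.add_apply, Pi.sub_apply, LinearMap.smul_comp, LinearMap.id_comp]
  rw [h, av_sub, av_add, av_comp_left, av_comp_left, av_fc hD, av_cv_pb_left hD,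
    av_cv_pb_right hD]
  simp only [DD, LinearMap.smul_comp, LinearMap.id_comp]

theorem av_zero' (D : Cov K V W C) (w : W) (l : List W) :
    av D (fun _ _ => (0 : (ι → K) →ₗ[K] (κ → K))) w l = 0 := by
  have h := av_comp_left D (0 : (κ → K) →ₗ[K] (κ → K))
    (fun _ _ => (0 : (ι → K) →ₗ[K] (κ → K))) w l
  simpa using h

theorem hr_zero (D : Cov K V W C) (l : List V) : ∀ v : V,
    hr D (fun _ _ => (0 : (ι → K) →ₗ[K] (κ → K))) v l = 0 := by
  induction l with
  | nil =>
    intro v
    show av D (sh (fun _ _ => (0 : (ι → K) →ₗ[K] (κ → K))) v) (D.p v) [] = 0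
    exact av_zero' D _ _
  | cons u l ih =>
    intro v
    show av D (sh (fun _ _ => (0 : (ι → K) →ₗ[K] (κ → K))) v) (D.p v) ((u :: l).map D.p) -
      hr D (fun _ _ => (0 : (ι → K) →ₗ[K] (κ → K))) u l = 0
    rw [ih u, sub_zero]
    exact av_zero' D _ _

end SetLevel

theorem okF {G' G : LieGpd} {φ : Hypercover G' G} (T : TopData φ) {W : Type} (F : Frame G W) :
    (cvF T F).Ok where
  p_lift _ _ := rfl
  sum_sq _ := T.sum_sq _
  tau_l c _ := T.tau_l c _

end HFFM

open HFFM in
theorem specHFF (hFRM : SpecFRM) (hSMP : SpecSMP) (hHAV : SpecHAV) (hHRA : SpecHRA) :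
    SpecHFF := by
  intro G' G φ ⟨T⟩ ι κ _ _ _ _ dE dF eE RE eF RF hE hF
  obtain ⟨-, -, -, -, -, -, -, -, -, f10, f11⟩ := hFRM G
  obtain ⟨-, -, -, -, -, f6, -, -, -, -, -⟩ := hFRM G'
  -- pullbacks along the induced frames
  have ePB : ∀ (W : Type) (F : Frame G W) (μ ν : Type)
      (A : G.Ob → List G.Ar → (μ → ℝ) →ₗ[ℝ] (ν → ℝ)),
      (upF φ F).hom (pullG φ A) = pb (cvF T F).p (F.hom A) := by
    intro W F μ ν A
    funext q l
    exact f11 G' φ W F μ ν A q l
  have hBco : ∀ (t : ℤ) (W : Type) (F : Frame G W) (A : G'.Ob → List G'.Ar → (ι → ℝ) →ₗ[ℝ] (κ → ℝ)),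
      HCo G' dE dF t (fun x => eE (φ.ob x)) (fun x => eF (φ.ob x)) A →
      IsCo dE dF t (fun q => eE (F.b ((cvF T F).p q))) (fun q => eF (F.b ((cvF T F).p q)))
        ((upF φ F).hom A) := by
    intro t W F A hA
    have h := hA.co _ (upF φ F)
    have h1 : (fun q : VV φ F => eE (φ.ob ((upF φ F).b q))) =
        fun q => eE (F.b ((cvF T F).p q)) := by
      funext q
      exact congrArg eE q.2
    have h2 : (fun q : VV φ F => eF (φ.ob ((upF φ F).b q))) =
        fun q => eF (F.b ((cvF T F).p q)) := by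
      funext q
      exact congrArg eF q.2
    rw [← h1, ← h2]
    exact h
  have hAv := specAVG
  constructor
  · intro F' hF' hcl
    obtain ⟨⟨B, hBs, hBz, hB⟩, ⟨H0, hHs, hHz, hH⟩⟩ := hHAV G' G φ T ι κ F' hF'.smooth hF'.zero
    have hBfun : ∀ (W : Type) (F : Frame G W), F.hom B = av (cvF T F) ((upF φ F).hom F') := by
      intro W F
      funext w l
      exact hB W F w l
    have hclF : ∀ (W : Type) (F : Frame G W), DD dF 0 (pb (cvF T F).p (F.hom RE))
        (pb (cvF T F).p (F.hom RF)) ((upF φ F).hom F') = fun _ _ => 0 := by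
      intro W F
      funext q l
      have := hcl _ (upF φ F) q l
      rwa [ePB, ePB] at this
    refine ⟨B, ⟨hBz, hBs, ?_⟩, ?_, ?_⟩
    · intro W F
      rw [hBfun W F]
      exact (hAv ℝ (VV φ F) W (Fin T.N) (cvF T F) (okF T F)).2.2.2.2.1 ι κ dE dF 0
        (fun w => eE (F.b w)) (fun w => eF (F.b w)) _ (hBco 0 W F F' hF')
    · intro W F w l
      rw [hBfun W F, ← av_dd (okF T F), hclF W F]
      exact av_zero' _ _ _
    · refine ⟨fun x l => th ℝ dF ∘ₗ H0 x l, ?_, ?_⟩
      · refine ⟨?_, ?_, ?_⟩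
        · intro x l hx
          show th ℝ dF ∘ₗ H0 x l = 0
          rw [hHz x l hx, LinearMap.comp_zero]
        · obtain ⟨s1, -, -, -, -, s6, -, -⟩ := hSMP G' ι κ κ
          exact (s1 (fun _ _ => th ℝ dF) H0).2.1 (s6 (th ℝ dF) 0).1 hHs
        · intro V F
          have h1 := (hHRA ℝ (VV φ (F.push φ)) V (Fin T.N) ι κ (cvF T (F.push φ)) dE dF 0
            (fun v => eE ((F.push φ).b v)) (fun v => eF ((F.push φ).b v)) ((F.push φ).hom RE)
            ((F.push φ).hom RF) ((upF φ (F.push φ)).hom F') (okF T _) (hE.sr V _) (hF.sr V _)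
            (hBco 0 V (F.push φ) F' hF')).1
          have h2 := isCo_pb (jF φ F) h1
          have h3 : F.hom (fun x l => th ℝ dF ∘ₗ H0 x l) = pb (jF φ F) (fun v l =>
              th ℝ dF ∘ₗ hr (cvF T (F.push φ)) ((upF φ (F.push φ)).hom F') v l) := by
            funext v l
            show th ℝ dF ∘ₗ F.hom H0 v l = _
            rw [hH V F v l]
            rfl
          rw [h3]
          exact h2
      · intro V F v l
        have h1 := (hHRA ℝ (VV φ (F.push φ)) V (Fin T.N) ι κ (cvF T (F.push φ)) dE dF 0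
            (fun v => eE ((F.push φ).b v)) (fun v => eF ((F.push φ).b v)) ((F.push φ).hom RE)
            ((F.push φ).hom RF) ((upF φ (F.push φ)).hom F') (okF T _) (hE.sr V _) (hF.sr V _)
            (hBco 0 V (F.push φ) F' hF')).2 (jF φ F v) (l.map (jF φ F))
        rw [hclF V (F.push φ), hr_zero, LinearMap.comp_zero, add_zero] at h1
        have h3 : F.hom (fun x l => th ℝ dF ∘ₗ H0 x l) = pb (jF φ F) (fun v l =>
              th ℝ dF ∘ₗ hr (cvF T (F.push φ)) ((upF φ (F.push φ)).hom F') v l) := by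
          funext v l
          show th ℝ dF ∘ₗ F.hom H0 v l = _
          rw [hH V F v l]
          rfl
        have h4 : ∀ (μ ν : Type) (A : G.Ob → List G.Ar → (μ → ℝ) →ₗ[ℝ] (ν → ℝ)),
            F.hom (pullG φ A) = pb (jF φ F) (pb (cvF T (F.push φ)).p ((F.push φ).hom A)) := by
          intro μ ν A
          funext v l
          rw [f10 G' φ V F μ ν A v l]
          show (F.push φ).hom A v l = (F.push φ).hom A v ((l.map (jF φ F)).map
            (cvF T (F.push φ)).p)
          rw [List.map_map]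
          congr 1
          have : ((cvF T (F.push φ)).p ∘ (jF φ F)) = id := rfl
          rw [this, List.map_id]
        have h5 : F.hom F' v l = (upF φ (F.push φ)).hom F' (jF φ F v) (l.map (jF φ F)) :=
          ((f6 V _ F (upF φ (F.push φ)) (jF φ F) (jF_map φ F)).2 _ F' v l).symm
        rw [h3, h4 ι ι RE, h4 κ κ RF, dd_pb, h4 ι κ B, h5, hBfun V (F.push φ)]
        have h6 : (0 : ℤ) - 1 = -1 := by norm_num
        rw [h6] at h1
        rw [h1]
        rfl
  · intro F₁ F₂ h1 h2 ⟨H, hH, hHD⟩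
    obtain ⟨⟨B, hBs, hBz, hB⟩, -⟩ := hHAV G' G φ T ι κ H hH.smooth hH.zero
    have hBfun : ∀ (W : Type) (F : Frame G W), F.hom B = av (cvF T F) ((upF φ F).hom H) := by
      intro W F
      funext w l
      exact hB W F w l
    refine ⟨B, ⟨hBz, hBs, ?_⟩, ?_⟩
    · intro W F
      rw [hBfun W F]
      exact (hAv ℝ (VV φ F) W (Fin T.N) (cvF T F) (okF T F)).2.2.2.2.1 ι κ dE dF (-1)
        (fun w => eE (F.b w)) (fun w => eF (F.b w)) _ (hBco (-1) W F H hH)
    · intro W F w l
      rw [hBfun W F, ← av_dd (okF T F)]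
      have h3 : DD dF (-1) (pb (cvF T F).p (F.hom RE)) (pb (cvF T F).p (F.hom RF))
          ((upF φ F).hom H) = pb (cvF T F).p (F.hom F₁) - pb (cvF T F).p (F.hom F₂) := by
        funext q l
        have := hHD _ (upF φ F) q l
        rw [ePB, ePB, ePB, ePB] at this
        rw [← this]
        rfl
      rw [h3, av_sub, av_pb (okF T F), av_pb (okF T F)]

end Pool.Agent.Lib.MP_9b987c_gt.HC
end

section
set_option autoImplicit false

/-!
# Module HRA: the homotopy formula for averages
-/

namespace Pool.Agent.Lib.MP_9b987c_gt.HC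

open scoped BigOperators

namespace HRAM

section basic

variable {K V W C : Type*} [CommRing K] [Fintype C] (D : Cov K V W C)
variable {M N P : Type*} [AddCommGroup M] [Module K M] [AddCommGroup N]
  [Module K N] [AddCommGroup P] [Module K P]

lemma hr_nil (A : V → List V → (M →ₗ[K] N)) (v : V) :
    hr D A v [] = av D (sh A v) (D.p v) [] := rfl

lemma hr_cons (A : V → List V → (M →ₗ[K] N)) (v u : V) (l : List V) :
    hr D A v (u :: l) = av D (sh A v) (D.p v) (D.p u :: l.map D.p) - hr D (sh A v) u l := rfl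

lemma sh_hr (A : V → List V → (M →ₗ[K] N)) (v : V) :
    sh (hr D A) v = pb D.p (sh (av D (sh A v)) (D.p v)) - hr D (sh A v) := rfl

lemma hr_add (A B : V → List V → (M →ₗ[K] N)) (v : V) (l : List V) :
    hr D (A + B) v l = hr D A v l + hr D B v l := by
  induction l generalizing A B v with
  | nil => rw [hr_nil, hr_nil, hr_nil, sh_add, AVGM.av_add]
  | cons u l ih =>
    rw [hr_cons, hr_cons, hr_cons, sh_add, AVGM.av_add, ih]
    abel

lemma hr_neg (A : V → List V → (M →ₗ[K] N)) (v : V) (l : List V) :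
    hr D (-A) v l = - hr D A v l := by
  induction l generalizing A v with
  | nil =>
    rw [hr_nil, hr_nil]
    exact AVGM.av_neg D (sh A v) _ _
  | cons u l ih =>
    have h : sh (-A) v = - sh A v := rfl
    rw [hr_cons, hr_cons, h, AVGM.av_neg, ih]
    abel

lemma hr_sub (A B : V → List V → (M →ₗ[K] N)) (v : V) (l : List V) :
    hr D (A - B) v l = hr D A v l - hr D B v l := by
  rw [sub_eq_add_neg, hr_add, hr_neg, sub_eq_add_neg]

lemma hr_comp_left (F : N →ₗ[K] P) (A : V → List V → (M →ₗ[K] N)) (v : V) (l : List V) :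
    hr D (fun v l => F ∘ₗ A v l) v l = F ∘ₗ hr D A v l := by
  induction l generalizing A v with
  | nil =>
    rw [hr_nil, hr_nil]
    exact AVGM.av_comp_left D F (sh A v) _ _
  | cons u l ih =>
    rw [hr_cons, hr_cons, LinearMap.comp_sub]
    congr 1
    · exact AVGM.av_comp_left D F (sh A v) _ _
    · exact ih (sh A v) u

lemma hr_smul (c : K) (A : V → List V → (M →ₗ[K] N)) (v : V) (l : List V) :
    hr D (c • A) v l = c • hr D A v l := by
  have h := hr_comp_left D (c • (LinearMap.id : N →ₗ[K] N)) A v l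
  have e1 : (fun v l => (c • (LinearMap.id : N →ₗ[K] N)) ∘ₗ A v l) = c • A := by
    funext v l
    rw [LinearMap.smul_comp, LinearMap.id_comp]
    rfl
  rw [e1, LinearMap.smul_comp, LinearMap.id_comp] at h
  exact h

variable {D}

lemma sh_tl (A : V → List V → (M →ₗ[K] N)) (v u : V) : sh (LEIM.tl A v) u = sh A v := rfl

lemma av_tl (hD : D.Ok) (A : V → List V → (M →ₗ[K] N)) (v : V) (w w1 : W) (l : List W) :
    av D (LEIM.tl A v) w (w1 :: l) = av D (sh A v) w1 l := by
  rw [AVGM.av_cons]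
  exact AVGM.sum_smul_const hD w (av D (sh A v) w1 l)

/-- (1) -/
lemma fc_hr (hD : D.Ok) (A : V → List V → (M →ₗ[K] N)) (v : V) (l : List V) :
    fc (hr D A) v l + hr D (fc A) v l = 0 := by
  induction l generalizing A v with
  | nil =>
    rw [fc_nil, hr_nil, LEIM.sh_fc, AVGM.av_sub, AVGM.av_neg, AVGM.av_fc hD, fc_nil, AVGM.av_nil]
    simp [LEIM.tl]
  | cons u l ih =>
    cases l with
    | nil =>
      rw [fc_one, hr_cons, LEIM.sh_fc, AVGM.av_sub, AVGM.av_neg, List.map_nil, av_tl hD,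
        AVGM.av_fc hD, fc_one, hr_sub, hr_neg, hr_nil, sh_tl]
      have h1 := ih (sh A v) u
      rw [fc_nil, zero_add] at h1
      rw [h1]
      abel
    | cons w l =>
      have h0 := ih (sh A v) u
      rw [hr_cons D (fc A), LEIM.sh_fc, AVGM.av_sub, AVGM.av_neg, List.map_cons, av_tl hD,
        AVGM.av_fc hD, hr_sub, hr_neg, hr_cons D (LEIM.tl A v), sh_tl,
        fc_cons, hr_cons D A, sh_hr]
      have h1 : fc (pb D.p (sh (av D (sh A v)) (D.p v)) - hr D (sh A v)) u (w :: l)
          = fc (sh (av D (sh A v)) (D.p v)) (D.p u) (D.p w :: l.map D.p)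
            - fc (hr D (sh A v)) u (w :: l) := by
        rw [LEIM.fc_sub, fc_pb]
        rfl
      rw [h1, fc_cons (av D (sh A v))]
      have h2 : hr D (fc (sh A v)) u (w :: l) = - fc (hr D (sh A v)) u (w :: l) := by
        rw [eq_neg_iff_add_eq_zero, add_comm]
        exact h0
      rw [h2]
      abel

/-- products with vanishing first factors -/
lemma cv_zero_of (T : W → List W → (N →ₗ[K] P)) (B : W → List W → (M →ₗ[K] N)) (w : W)
    (l : List W) (h : ∀ l, T w l = 0) : cv T B w l = 0 := by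
  induction l generalizing T w with
  | nil => rw [cv_nil, h, LinearMap.zero_comp]
  | cons u l ih =>
    rw [cv_cons, h, LinearMap.zero_comp, zero_add]
    exact ih (sh T w) u (fun l => h (u :: l))

/-- the recursion for the left multiplication -/
lemma hr_cv_left_nil (hD : D.Ok) (S : W → List W → (N →ₗ[K] P)) (A : V → List V → (M →ₗ[K] N))
    (v : V) :
    hr D (cv (pb D.p S) A) v [] = S (D.p v) [] ∘ₗ hr D A v [] +
      cv (sh S (D.p v)) (av D A) (D.p v) [] := by
  rw [hr_nil, LEIM.sh_cv, AVGM.av_add, AVGM.av_comp_left, sh_pb, AVGM.av_cv_pb_left hD, hr_nil]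
  rfl

lemma hr_cv_left_cons (hD : D.Ok) (S : W → List W → (N →ₗ[K] P)) (A : V → List V → (M →ₗ[K] N))
    (v u : V) (l : List V) :
    hr D (cv (pb D.p S) A) v (u :: l) = S (D.p v) [] ∘ₗ hr D A v (u :: l) +
      cv (sh S (D.p v)) (av D A) (D.p v) (D.p u :: l.map D.p)
      - hr D (cv (pb D.p (sh S (D.p v))) A) u l := by
  rw [hr_cons, LEIM.sh_cv, AVGM.av_add, AVGM.av_comp_left, sh_pb, AVGM.av_cv_pb_left hD, hr_add,
    hr_comp_left, hr_cons, LinearMap.comp_sub]
  have : pb D.p S v [] = S (D.p v) [] := rfl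
  rw [this]
  abel

lemma sh_eps (f : V → List V → (M →ₗ[K] N)) (v : V) : sh (eps f) v = - eps (sh f v) :=
  LEIM.sh_eps f v

/-- killed repetitions: no difference -/
lemma left_zero (hD : D.Ok) (S : W → List W → (N →ₗ[K] P)) (A : V → List V → (M →ₗ[K] N))
    (hS : ∀ w l, HasRep w l → S w l = 0) (v : V) (l : List V) :
    hr D (cv (pb D.p S) A) v l = cv (eps (pb D.p S)) (hr D A) v l := by
  induction l generalizing S v with
  | nil =>
    rw [hr_cv_left_nil hD, cv_zero_of _ _ _ _ (fun l => hS (D.p v) (D.p v :: l) (Or.inl rfl)), add_zero, cv_nil,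
      eps_apply]
    simp [pb]
  | cons u l ih =>
    rw [hr_cv_left_cons hD, cv_zero_of _ _ _ _ (fun l => hS (D.p v) (D.p v :: l) (Or.inl rfl)), add_zero,
      ih (sh S (D.p v)) (fun w l h => hS (D.p v) (w :: l) (Or.inr h)), cv_cons, sh_eps, cv_neg_left, sh_pb,
      eps_apply]
    simp [pb, sub_eq_add_neg]

/-- (2) first part: only the first two points may agree -/
lemma left_main (hD : D.Ok) (S : W → List W → (N →ₗ[K] P)) (A : V → List V → (M →ₗ[K] N))
    (hS : ∀ w l, 2 ≤ l.length → HasRep w l → S w l = 0) (v : V) (l : List V) :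
    hr D (cv (pb D.p S) A) v l = cv (eps (pb D.p S)) (hr D A) v l +
      S (D.p v) [D.p v] ∘ₗ av D A (D.p v) (l.map D.p) := by
  cases l with
  | nil =>
    rw [hr_cv_left_nil hD, cv_nil, cv_nil, eps_apply]
    simp [pb]
  | cons u l =>
    have h1 : cv (sh S (D.p v)) (av D A) (D.p v) (D.p u :: l.map D.p)
        = S (D.p v) [D.p v] ∘ₗ av D A (D.p v) (D.p u :: l.map D.p) := by
      rw [cv_cons, cv_zero_of, add_zero]
      · rfl
      · intro l
        exact hS _ _ (by simp) (Or.inl rfl)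
    rw [hr_cv_left_cons hD, h1, left_zero hD (sh S (D.p v)) A (fun w l h => by
      cases l with
      | nil => exact absurd h (hasRep_nil w)
      | cons x l => exact hS _ _ (by simp) (Or.inr h)), cv_cons, sh_eps, cv_neg_left, sh_pb,
      eps_apply]
    simp only [List.length_nil, pow_zero, one_smul, List.map_cons]
    have : pb D.p S v [] = S (D.p v) [] := rfl
    rw [this]
    abel

/-- the homotopy of a pulled back cochain which kills repetitions -/
lemma hr_pb_zero (hD : D.Ok) (T : W → List W → (M →ₗ[K] N))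
    (hT : ∀ w l, HasRep w l → T w l = 0) (v : V) (l : List V) : hr D (pb D.p T) v l = 0 := by
  induction l generalizing T v with
  | nil =>
    rw [hr_nil, sh_pb, AVGM.av_pb hD]
    exact hT _ _ (Or.inl rfl)
  | cons u l ih =>
    rw [hr_cons, sh_pb, AVGM.av_pb hD, ih (sh T (D.p v)) (fun w l h => hT (D.p v) (w :: l) (Or.inr h)), sub_zero]
    exact hT _ _ (Or.inl rfl)

/-- (3) first part -/
lemma right_main (hD : D.Ok) (S : W → List W → (M →ₗ[K] M)) (A : V → List V → (M →ₗ[K] N))
    (hS : ∀ w l, 2 ≤ l.length → HasRep w l → S w l = 0) (v : V) (l : List V) :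
    hr D (cv A (pb D.p S)) v l = cv (hr D A) (pb D.p S) v l +
      ((-1 : ℤ) ^ l.length) • (A v l ∘ₗ S (D.p (lst v l)) [D.p (lst v l)]) := by
  induction l generalizing A v with
  | nil =>
    rw [hr_nil, LEIM.sh_cv, AVGM.av_add, AVGM.av_comp_left, sh_pb, AVGM.av_pb hD,
      AVGM.av_cv_pb_right hD, cv_nil, cv_nil, hr_nil]
    simp only [List.length_nil, pow_zero, one_smul, lst_nil]
    rw [add_comm]
    rfl
  | cons u l ih =>
    have h1 : hr D (pb D.p (sh S (D.p v))) u l = 0 := by
      apply hr_pb_zero hD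
      intro w l h
      cases l with
      | nil => exact absurd h (hasRep_nil w)
      | cons x l => exact hS _ _ (by simp) (Or.inr h)
    have h2 : sh S (D.p v) (D.p v) (D.p u :: l.map D.p) = 0 := hS _ _ (by simp) (Or.inl rfl)
    have h3 : cv (hr D A) (pb D.p S) v (u :: l)
        = cv (av D (sh A v)) S (D.p v) (D.p u :: l.map D.p) - cv (hr D (sh A v)) (pb D.p S) u l := by
      rw [cv_cons, sh_hr, cv_sub_left, cv_pb, cv_cons, hr_nil]
      simp only [pb, List.map_cons]
      abel
    rw [hr_cons, LEIM.sh_cv, AVGM.av_add, AVGM.av_comp_left, sh_pb, AVGM.av_pb hD, h2,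
      AVGM.av_cv_pb_right hD, hr_add, hr_comp_left, h1, ih, h3]
    simp only [LinearMap.comp_zero, zero_add, List.length_cons, pow_succ, lst_cons]
    simp only [mul_neg, mul_one, neg_smul, sh_apply]
    abel

/-- degrees -/
lemma hr_deg {ι κ : Type*} {deg : ι → ℤ} {deg' : κ → ℤ} (A : V → List V → ((ι → K) →ₗ[K] (κ → K)))
    (t : ℤ) (hA : ∀ v l, Deg deg deg' (A v l) (t - l.length)) (v : V) (l : List V) :
    Deg deg deg' (hr D A v l) (t - 1 - l.length) := by
  have hs : ∀ v u l, Deg deg deg' (sh A v u l) (t - 1 - (l.length : ℤ)) := by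
    intro v u l
    exact (hA v (u :: l)).congr (by push_cast [List.length_cons]; ring)
  induction l generalizing A v t with
  | nil =>
    rw [hr_nil]
    exact AVGM.av_deg (sh A v) (t - 1) (hs v) _ _
  | cons u l ih =>
    rw [hr_cons]
    refine Deg.sub ?_ ?_
    · have := AVGM.av_deg (D := D) (sh A v) (t - 1) (hs v) (D.p v) (D.p u :: l.map D.p)
      exact this.congr (by simp)
    · have := ih (sh A v) (t - 1) (hs v) u (fun v' u l =>
        (hs v (v') (u :: l)).congr (by push_cast [List.length_cons]; ring))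
      exact this.congr (by push_cast [List.length_cons]; ring)

lemma hr_last (hD : D.Ok) (e : W → (M →ₗ[K] M)) (A : V → List V → (M →ₗ[K] N))
    (hA : ∀ v l, A v l ∘ₗ e (D.p (lst v l)) = A v l) (v : V) (l : List V) :
    hr D A v l ∘ₗ e (D.p (lst v l)) = hr D A v l := by
  induction l generalizing A v with
  | nil =>
    rw [hr_nil]
    exact AVGM.av_last hD e (sh A v) (fun u l => hA v (u :: l)) (D.p v) []
  | cons u l ih =>
    rw [hr_cons, LinearMap.sub_comp, lst_cons, ih (sh A v) (fun w l => hA v (w :: l)) u]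
    have := AVGM.av_last hD e (sh A v) (fun u l => hA v (u :: l)) (D.p v) (D.p u :: l.map D.p)
    rw [lst_cons, lst_map] at this
    rw [this]

end basic

end HRAM

open HRAM in
/-- The homotopy formula. -/
theorem specHRA : SpecHRA := by
  intro K V W C ι κ _ _ _ _ D deg deg' t eE eF RE RF A hD hE hF hA
  have thF : ∀ w, th K deg' ∘ₗ eF w = eF w ∘ₗ th K deg' := by
    intro w
    rw [th_comp_of_deg (hF.e_deg w), sgn_zero, one_smul]
  have hleft : ∀ v l, eF (D.p v) ∘ₗ hr D A v l = hr D A v l := by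
    intro v l
    cases l with
    | nil =>
      rw [hr_nil, ← AVGM.av_comp_left]
      congr 1
      funext u l
      exact hA.left v (u :: l)
    | cons u l =>
      rw [hr_cons, LinearMap.comp_sub, ← AVGM.av_comp_left, ← hr_comp_left]
      have h1 : (fun w l => eF (D.p v) ∘ₗ sh A v w l) = sh A v := by
        funext w l
        exact hA.left v (w :: l)
      rw [h1]
  refine ⟨⟨?_, ?_, ?_⟩, ?_⟩
  · intro v l
    have := Deg.comp (deg_th (K := K) (deg := deg')) (hr_deg (D := D) A t hA.deg_A v l)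
    exact this.congr (by ring)
  · intro v l
    rw [← LinearMap.comp_assoc, ← thF, LinearMap.comp_assoc, hleft]
  · intro v l
    rw [LinearMap.comp_assoc]
    congr 1
    exact hr_last hD eE A hA.right v l
  · intro v l
    -- the three items
    have i1 := fc_hr hD A v l
    have i2 := left_main hD RF A (fun w l h1 h2 => hF.unit_rep w l h1 h2) v l
    have i3 := right_main hD RE A (fun w l h1 h2 => hE.unit_rep w l h1 h2) v l
    rw [hF.unit_one] at i2
    rw [hE.unit_one, ← LinearMap.comp_assoc, hA.right] at i3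
    have avl : eF (D.p v) ∘ₗ av D A (D.p v) (l.map D.p) = av D A (D.p v) (l.map D.p) := by
      cases l with
      | nil =>
        rw [List.map_nil, AVGM.av_nil, AVGM.lcomp_sum]
        refine Finset.sum_congr rfl (fun c _ => ?_)
        have := hA.left (D.lift c (D.p v)) []
        rw [hD.p_lift] at this
        rw [LinearMap.comp_smul, this]
      | cons u l =>
        rw [List.map_cons, AVGM.av_cons, AVGM.lcomp_sum]
        refine Finset.sum_congr rfl (fun c _ => ?_)
        rw [LinearMap.comp_smul, ← AVGM.av_comp_left]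
        congr 2
        funext u l
        have := hA.left (D.lift c (D.p v)) (u :: l)
        rw [hD.p_lift] at this
        exact this
    -- the second item
    have j2 : cv (pb D.p RF) (fun v l => th K deg' ∘ₗ hr D A v l) v l +
        th K deg' ∘ₗ hr D (cv (pb D.p RF) A) v l = pb D.p (av D A) v l := by
      have k1 : th K deg' ∘ₗ cv (eps (pb D.p RF)) (hr D A) v l
          = - cv (pb D.p RF) (fun v l => th K deg' ∘ₗ hr D A v l) v l := by
        rw [← cv_comp_left, ← cv_comp_mid, ← cv_neg_left]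
        congr 1
        funext v l
        have h1 := th_comp_of_deg (hF.deg_R (D.p v) (l.map D.p))
        rw [List.length_map] at h1
        show th K deg' ∘ₗ eps (pb D.p RF) v l = -(pb D.p RF v l ∘ₗ th K deg')
        rw [eps_apply, negOnePow_smul (K := K), LinearMap.comp_smul]
        show sgn K (l.length : ℤ) • (th K deg' ∘ₗ RF (D.p v) (l.map D.p)) = _
        rw [h1, smul_smul, ← sgn_add]
        have : (l.length : ℤ) + (1 - l.length) = 1 := by ring
        rw [this, sgn_one, neg_smul, one_smul]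
        rfl
      rw [i2, LinearMap.comp_add, k1]
      have k2 : th K deg' ∘ₗ (eF (D.p v) ∘ₗ th K deg') ∘ₗ av D A (D.p v) (l.map D.p)
          = pb D.p (av D A) v l := by
        apply LinearMap.ext
        intro z
        have a1 := LinearMap.congr_fun (thF (D.p v)) (th K deg' (av D A (D.p v) (l.map D.p) z))
        have a2 := LinearMap.congr_fun avl z
        simp only [LinearMap.comp_apply] at a1 a2 ⊢
        rw [a1, th_th, a2]
        rfl
      rw [k2]
      abel
    -- the third item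
    have j3 : sgn K t • (th K deg' ∘ₗ (((-1 : ℤ) ^ l.length) • (A v l ∘ₗ th K deg))) = A v l := by
      have h1 := th_comp_of_deg (hA.deg_A v l)
      rw [negOnePow_smul (K := K), LinearMap.comp_smul, ← LinearMap.comp_assoc, h1,
        LinearMap.smul_comp, LinearMap.comp_assoc, th_comp_th, LinearMap.comp_id, smul_smul,
        smul_smul, ← sgn_add, ← sgn_add]
      have : t + ↑l.length + (t - ↑l.length) = t + t := by ring
      rw [this, sgn_add, sgn_mul_self, one_smul]
    -- assembling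
    have e1 : hr D (DD deg' t (pb D.p RE) (pb D.p RF) A) v l
        = th K deg' ∘ₗ hr D (fc A) v l + hr D (cv (pb D.p RF) A) v l
          - sgn K t • hr D (cv A (pb D.p RE)) v l := by
      have h1 : DD deg' t (pb D.p RE) (pb D.p RF) A
          = (fun v l => th K deg' ∘ₗ fc A v l) + cv (pb D.p RF) A - sgn K t • cv A (pb D.p RE) := rfl
      rw [h1, hr_sub, hr_add, hr_comp_left, hr_smul]
    have e2 : DD deg' (t - 1) (pb D.p RE) (pb D.p RF) (fun v l => th K deg' ∘ₗ hr D A v l) v l
        = fc (hr D A) v l + cv (pb D.p RF) (fun v l => th K deg' ∘ₗ hr D A v l) v l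
          + sgn K t • (th K deg' ∘ₗ cv (hr D A) (pb D.p RE) v l) := by
      unfold DD
      have hs : sgn K (t - 1) = - sgn K t := by rw [sgn_sub, sgn_one, mul_neg, mul_one]
      rw [fc_comp_left, cv_comp_left, ← LinearMap.comp_assoc, th_comp_th, LinearMap.id_comp, hs]
      have hn : (-sgn K t) • (th K deg' ∘ₗ cv (hr D A) (pb D.p RE) v l)
          = -(sgn K t • (th K deg' ∘ₗ cv (hr D A) (pb D.p RE) v l)) := by
        apply LinearMap.ext
        intro z
        rw [LinearMap.neg_apply, LinearMap.smul_apply, LinearMap.smul_apply, neg_smul]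
      rw [hn, sub_neg_eq_add]
    rw [e1, e2, i3]
    have e3 : hr D (fc A) v l = - fc (hr D A) v l := by
      rw [eq_neg_iff_add_eq_zero, add_comm]; exact i1
    rw [e3]
    have j2' : th K deg' ∘ₗ hr D (cv (pb D.p RF) A) v l = pb D.p (av D A) v l
        - cv (pb D.p RF) (fun v l => th K deg' ∘ₗ hr D A v l) v l := by
      rw [← j2]; abel
    rw [LinearMap.comp_sub, LinearMap.comp_add, j2', ← LinearMap.comp_assoc, th_comp_th,
      LinearMap.id_comp, LinearMap.comp_smul, LinearMap.comp_add, smul_add, j3]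
    abel

end Pool.Agent.Lib.MP_9b987c_gt.HC
end

section
/-!
# Module PLF: frames of plots
-/
namespace Pool.Agent.Lib.MP_9b987c_gt.HC

open scoped Manifold ContDiff BigOperators

namespace PLFM

variable {G : LieGpd}

/-- The restriction of a frame along a map. -/
def res {V V' : Type} (F : Frame G V') (α : V → V') : Frame G V where
  b v := F.b (α v)
  c v u := F.c (α v) (α u)
  src_c v u := F.src_c _ _
  tgt_c v u := F.tgt_c _ _
  c_one v := F.c_one _
  c_mul v u w := F.c_mul _ _ _

theorem arr_length {V : Type} (F : Frame G V) : ∀ (l : List V) (v : V),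
    (F.arr v l).length = l.length
  | [], _ => rfl
  | u :: l, v => by
    show (F.c v u :: F.arr u l).length = _
    rw [List.length_cons, List.length_cons, arr_length F l u]

theorem arr_get {V : Type} (F : Frame G V) : ∀ (l : List V) (v : V) (i : ℕ) (h : i < l.length)
    (h' : i < (F.arr v l).length) (h'' : i < (v :: l).length),
    (F.arr v l)[i] = F.c (v :: l)[i] l[i]
  | [], _, i, h, _, _ => absurd h (Nat.not_lt_zero i)
  | u :: l, v, 0, _, _, _ => rfl
  | u :: l, v, i + 1, h, h', h'' => by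
    have h1 : i < l.length := Nat.lt_of_succ_lt_succ h
    exact arr_get F l u i h1 (by rw [arr_length]; exact h1) (Nat.lt_succ_of_lt h1)

theorem chain_zero (x : G.Ob) (l : List G.Ar) (hl : G.Chain x l) (h : 0 < l.length) :
    G.tgt l[0] = x := by
  cases l with
  | nil => exact absurd h (Nat.lt_irrefl 0)
  | cons g l => exact hl.1

theorem chain_succ : ∀ (l : List G.Ar) (x : G.Ob) (hl : G.Chain x l) (i : ℕ)
    (h : i + 1 < l.length), G.tgt l[i + 1] = G.src (l[i]'(Nat.lt_of_succ_lt h))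
  | [], _, _, i, h => absurd h (Nat.not_lt_zero _)
  | g :: l, x, hl, 0, h => chain_zero _ l hl.2 (Nat.lt_of_succ_lt_succ h)
  | g :: l, x, hl, i + 1, h => chain_succ l _ hl.2 i (Nat.lt_of_succ_lt_succ h)

section plot

variable {d k : ℕ} (x : Eu d → G.Ob) (g : Fin k → Eu d → G.Ar)

/-- The arrows `δ_i` starting at `x`. -/
def del : ℕ → Eu d → G.Ar
  | 0, u => G.one (x u)
  | i + 1, u => if h : i < k then G.mul (G.inv (g ⟨i, h⟩ u)) (del i u) else del i u

theorem del_zero (u : Eu d) : del x g 0 u = G.one (x u) := rfl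

theorem del_succ (i : ℕ) (h : i < k) (u : Eu d) :
    del x g (i + 1) u = G.mul (G.inv (g ⟨i, h⟩ u)) (del x g i u) := by
  show (if h : i < k then G.mul (G.inv (g ⟨i, h⟩ u)) (del x g i u) else del x g i u) = _
  rw [dif_pos h]

variable {x g}

/-- The targets of the `δ_i`. -/
theorem del_tgt {u : Eu d} (hc : G.Chain (x u) (List.ofFn (fun a => g a u))) :
    ∀ (i : ℕ) (h : i < k), G.tgt (del x g i u) = G.tgt (g ⟨i, h⟩ u) := by
  intro i
  induction i with
  | zero =>
    intro h
    rw [del_zero, G.tgt_one]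
    have := chain_zero (x u) (List.ofFn (fun a => g a u)) hc (by rw [List.length_ofFn]; exact h)
    rw [List.getElem_ofFn] at this
    exact this.symm
  | succ i ih =>
    intro h
    have hi : i < k := Nat.lt_of_succ_lt h
    rw [del_succ x g i hi, G.tgt_mul _ _ (by rw [G.src_inv, ih hi]), G.tgt_inv]
    have := chain_succ (List.ofFn (fun a => g a u)) (x u) hc i (by rw [List.length_ofFn]; exact h)
    rw [List.getElem_ofFn, List.getElem_ofFn] at this
    exact this.symm

theorem del_comp {u : Eu d} (hc : G.Chain (x u) (List.ofFn (fun a => g a u))) (i : ℕ)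
    (h : i < k) : G.src (G.inv (g ⟨i, h⟩ u)) = G.tgt (del x g i u) := by
  rw [G.src_inv, del_tgt hc i h]

theorem del_src {u : Eu d} (hc : G.Chain (x u) (List.ofFn (fun a => g a u))) :
    ∀ i : ℕ, i ≤ k → G.src (del x g i u) = x u := by
  intro i
  induction i with
  | zero =>
    intro _
    rw [del_zero, G.src_one]
  | succ i ih =>
    intro h
    rw [del_succ x g i h, G.src_mul _ _ (del_comp hc i h), ih (Nat.le_of_succ_le h)]

theorem del_smooth {U : Set (Eu d)} (hU : IsOpen U) (hx : ContMDiffOn (𝓡 d) (𝓡 G.m) ∞ x U)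
    (hg : ∀ a, ContMDiffOn (𝓡 d) (𝓡 G.n) ∞ (g a) U)
    (hc : ∀ u ∈ U, G.Chain (x u) (List.ofFn (fun a => g a u))) :
    ∀ i : ℕ, i ≤ k → ContMDiffOn (𝓡 d) (𝓡 G.n) ∞ (del x g i) U := by
  intro i
  induction i with
  | zero =>
    intro _
    exact G.one_smooth.comp_contMDiffOn hx
  | succ i ih =>
    intro h
    have h1 : del x g (i + 1) = fun u => G.mul (G.inv (g ⟨i, h⟩ u)) (del x g i u) := by
      funext u
      exact del_succ x g i h u
    rw [h1]
    exact G.mul_smooth d U _ _ hU (G.inv_smooth.comp_contMDiffOn (hg ⟨i, h⟩))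
      (ih (Nat.le_of_succ_le h)) (fun u hu => del_comp (hc u hu) i h)

/-- The arrows between consecutive points. -/
theorem del_arr {u : Eu d} (hc : G.Chain (x u) (List.ofFn (fun a => g a u))) (i : ℕ)
    (h : i < k) : G.mul (del x g i u) (G.inv (del x g (i + 1) u)) = g ⟨i, h⟩ u := by
  have e1 := del_comp hc i h
  have e2 : G.src (g ⟨i, h⟩ u) = G.tgt (del x g (i + 1) u) := by
    rw [del_succ x g i h, G.tgt_mul _ _ e1, G.tgt_inv]
  have e3 : G.mul (g ⟨i, h⟩ u) (del x g (i + 1) u) = del x g i u := by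
    rw [del_succ x g i h, ← G.mul_assoc _ _ _ (by rw [G.tgt_inv]) e1, G.mul_inv,
      ← del_tgt hc i h, G.one_mul]
  rw [← e3, G.mul_assoc _ _ _ e2 (by rw [G.tgt_inv]), G.mul_inv, ← e2, G.mul_one]

end plot

end PLFM

open PLFM in
theorem specPLF : SpecPLF := by
  intro G d k U x g hU hx hg hc
  have hsrc : ∀ (u : U) (i : Fin (k + 1)), G.src (del x g i u) = x u := fun u i =>
    del_src (hc u u.2) i (Nat.le_of_lt_succ i.2)
  refine ⟨fun u => res (wf G (x u)) (fun i : Fin (k + 1) => ⟨del x g i u, hsrc u i⟩), ⟨?_, ?_⟩, ?_⟩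
  · intro v
    refine ⟨fun u => G.tgt (del x g v u), ?_, fun u => rfl⟩
    exact G.tgt_subm.contMDiff.comp_contMDiffOn (del_smooth hU hx hg hc v (Nat.le_of_lt_succ v.2))
  · intro v w
    refine ⟨fun u => G.mul (del x g v u) (G.inv (del x g w u)), ?_, fun u => rfl⟩
    refine G.mul_smooth d U _ _ hU (del_smooth hU hx hg hc v (Nat.le_of_lt_succ v.2))
      (G.inv_smooth.comp_contMDiffOn (del_smooth hU hx hg hc w (Nat.le_of_lt_succ w.2))) ?_
    intro u hu
    rw [G.tgt_inv, del_src (hc u hu) v (Nat.le_of_lt_succ v.2),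
      del_src (hc u hu) w (Nat.le_of_lt_succ w.2)]
  · intro u
    refine ⟨?_, ?_⟩
    · show G.tgt (G.one (x u)) = x u
      exact G.tgt_one _
    · apply List.ext_getElem
      · rw [arr_length, List.length_map, List.length_finRange, List.length_ofFn]
      · intro i h1 h2
        have hi : i < k := by rw [List.length_ofFn] at h2; exact h2
        rw [arr_get _ _ _ i (by rw [List.length_map, List.length_finRange]; exact hi) h1
          (by rw [List.length_cons, List.length_map, List.length_finRange]; omega)]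
        rw [List.getElem_ofFn]
        have e1 : ((0 : Fin (k + 1)) :: (List.finRange k).map Fin.succ)[i]'(by
            rw [List.length_cons, List.length_map, List.length_finRange]; omega) =
            (⟨i, by omega⟩ : Fin (k + 1)) := by
          have : (0 : Fin (k + 1)) :: (List.finRange k).map Fin.succ = List.finRange (k + 1) :=
            List.finRange_succ.symm
          simp only [this, List.getElem_finRange]
          rfl
        have e2 : ((List.finRange k).map Fin.succ)[i]'(by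
            rw [List.length_map, List.length_finRange]; exact hi) =
            (⟨i + 1, by omega⟩ : Fin (k + 1)) := by
          rw [List.getElem_map, List.getElem_finRange]
          rfl
        rw [e1, e2]
        exact del_arr (hc u u.2) i hi

end Pool.Agent.Lib.MP_9b987c_gt.HC
end
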