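import Pool.Agent.Lib.MP_9b987c_gt.HC.PLF

/-!
# Module QHE: a quasi-isomorphism is a homotopy equivalence
-/

namespace Pool.Agent.Lib.MP_9b987c_gt.HC

open scoped Manifold ContDiff BigOperators

namespace QHEM

section Blocks

variable {K : Type} [CommRing K] {ι κ ι₁ ι₂ κ₁ κ₂ : Type}

lemma pL_iL : pL K ι κ ∘ₗ iL K ι κ = LinearMap.id := by
  apply LinearMap.ext; intro z; funext i; rfl
lemma pR_iL : pR K ι κ ∘ₗ iL K ι κ = 0 := by
  apply LinearMap.ext; intro z; funext i; rfl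
lemma pL_iR : pL K ι κ ∘ₗ iR K ι κ = 0 := by
  apply LinearMap.ext; intro z; funext i; rfl
lemma pR_iR : pR K ι κ ∘ₗ iR K ι κ = LinearMap.id := by
  apply LinearMap.ext; intro z; funext i; rfl

variable (A : (ι₁ → K) →ₗ[K] (κ₁ → K)) (B : (ι₂ → K) →ₗ[K] (κ₁ → K))
    (C : (ι₁ → K) →ₗ[K] (κ₂ → K)) (D : (ι₂ → K) →ₗ[K] (κ₂ → K))

lemma pL_mat2 : pL K κ₁ κ₂ ∘ₗ mat2 A B C D = A ∘ₗ pL K ι₁ ι₂ + B ∘ₗ pR K ι₁ ι₂ := by
  rw [mat2, LinearMap.comp_add, ← LinearMap.comp_assoc, ← LinearMap.comp_assoc, pL_iL, pL_iR,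
    LinearMap.id_comp, LinearMap.zero_comp, add_zero]

lemma pR_mat2 : pR K κ₁ κ₂ ∘ₗ mat2 A B C D = C ∘ₗ pL K ι₁ ι₂ + D ∘ₗ pR K ι₁ ι₂ := by
  rw [mat2, LinearMap.comp_add, ← LinearMap.comp_assoc, ← LinearMap.comp_assoc, pR_iL, pR_iR,
    LinearMap.id_comp, LinearMap.zero_comp, zero_add]

lemma mat2_iL : mat2 A B C D ∘ₗ iL K ι₁ ι₂ = iL K κ₁ κ₂ ∘ₗ A + iR K κ₁ κ₂ ∘ₗ C := by
  rw [mat2, LinearMap.add_comp, LinearMap.comp_assoc, LinearMap.comp_assoc, LinearMap.add_comp,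
    LinearMap.add_comp, LinearMap.comp_assoc, LinearMap.comp_assoc, LinearMap.comp_assoc,
    LinearMap.comp_assoc, pL_iL, pR_iL]
  simp only [LinearMap.comp_id, LinearMap.comp_zero, add_zero]

lemma mat2_iR : mat2 A B C D ∘ₗ iR K ι₁ ι₂ = iL K κ₁ κ₂ ∘ₗ B + iR K κ₁ κ₂ ∘ₗ D := by
  rw [mat2, LinearMap.add_comp, LinearMap.comp_assoc, LinearMap.comp_assoc, LinearMap.add_comp,
    LinearMap.add_comp, LinearMap.comp_assoc, LinearMap.comp_assoc, LinearMap.comp_assoc,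
    LinearMap.comp_assoc, pL_iR, pR_iR]
  simp only [LinearMap.comp_id, LinearMap.comp_zero, zero_add]

/-- Degrees of the cone. -/
abbrev dC (dE : ι → ℤ) (dF : κ → ℤ) : ι ⊕ κ → ℤ := Sum.elim (fun i => dE i + (-1)) dF

variable {dE : ι → ℤ} {dF : κ → ℤ}

lemma th_shift : th K (fun i => dE i + (-1)) = - th K dE := by
  apply LinearMap.ext
  intro z
  funext i
  simp [sgn_add, sgn_neg, sgn_one]

lemma pL_th : pL K ι κ ∘ₗ th K (dC dE dF) = -(th K dE ∘ₗ pL K ι κ) := by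
  apply LinearMap.ext
  intro z
  funext i
  simp [pL, sgn_add, sgn_neg, sgn_one]

lemma pR_th : pR K ι κ ∘ₗ th K (dC dE dF) = th K dF ∘ₗ pR K ι κ := by
  apply LinearMap.ext
  intro z
  funext i
  simp [pR]

lemma iL_deg : Deg dE (dC dE dF) (iL K ι κ) (-1) := by
  intro q z hz i hi
  cases i with
  | inl i => simp only [Sum.elim_inl]; rw [hz i hi]
  | inr i => exact absurd rfl hi

lemma iR_deg : Deg dF (dC dE dF) (iR K ι κ) 0 := by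
  intro q z hz i hi
  cases i with
  | inr i => simp only [Sum.elim_inr, add_zero]; exact hz i hi
  | inl i => exact absurd rfl hi

lemma pL_deg : Deg (dC dE dF) dE (pL K ι κ) 1 := by
  intro q z hz i hi
  have := hz (Sum.inl i) hi
  simp only [Sum.elim_inl] at this
  omega

lemma pR_deg : Deg (dC dE dF) dF (pR K ι κ) 0 := by
  intro q z hz i hi
  have := hz (Sum.inr i) hi
  simp only [Sum.elim_inr] at this
  omega

end Blocks

section Cut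

variable {K V : Type} [CommRing K] {ι κ μ ν : Type}

lemma cut_fc (p : (κ → K) →ₗ[K] (μ → K)) (i : (ν → K) →ₗ[K] (ι → K))
    (H : V → List V → ((ι → K) →ₗ[K] (κ → K))) (v : V) (l : List V) :
    p ∘ₗ fc H v l ∘ₗ i = fc (fun v l => p ∘ₗ H v l ∘ₗ i) v l := by
  rw [fc_comp_left p (fun v l => H v l ∘ₗ i) v l, fc_comp_right]

lemma cut_cv {ξ : Type} (p : (κ → K) →ₗ[K] (μ → K)) (i : (ν → K) →ₗ[K] (ι → K))
    (A : V → List V → ((ξ → K) →ₗ[K] (κ → K))) (B : V → List V → ((ι → K) →ₗ[K] (ξ → K))) (v : V)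
    (l : List V) :
    p ∘ₗ cv A B v l ∘ₗ i = cv (fun v l => p ∘ₗ A v l) (fun v l => B v l ∘ₗ i) v l := by
  rw [cv_comp_left, cv_comp_right]

end Cut

section Main

variable {K V : Type} [CommRing K] {ι κ : Type} {dE : ι → ℤ} {dF : κ → ℤ}
  (RE : V → List V → ((ι → K) →ₗ[K] (ι → K))) (RF : V → List V → ((κ → K) →ₗ[K] (κ → K)))
  (Φ : V → List V → ((ι → K) →ₗ[K] (κ → K)))

/-- The structure of the cone. -/
abbrev RC : V → List V → ((ι ⊕ κ → K) →ₗ[K] (ι ⊕ κ → K)) :=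
  fun v l => mat2 (-(RE v l)) 0 (Φ v l) (RF v l)

/-- The idempotent of the cone. -/
abbrev eC (eE : V → (ι → K) →ₗ[K] (ι → K)) (eF : V → (κ → K) →ₗ[K] (κ → K)) :
    V → (ι ⊕ κ → K) →ₗ[K] (ι ⊕ κ → K) := fun v => mat2 (eE v) 0 0 (eF v)

lemma pL_RC (v : V) (l : List V) : pL K ι κ ∘ₗ RC RE RF Φ v l = (-(RE v l)) ∘ₗ pL K ι κ := by
  rw [pL_mat2, LinearMap.zero_comp, add_zero]
lemma pR_RC (v : V) (l : List V) :
    pR K ι κ ∘ₗ RC RE RF Φ v l = Φ v l ∘ₗ pL K ι κ + RF v l ∘ₗ pR K ι κ := pR_mat2 _ _ _ _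
lemma RC_iL (v : V) (l : List V) :
    RC RE RF Φ v l ∘ₗ iL K ι κ = iL K ι κ ∘ₗ (-(RE v l)) + iR K ι κ ∘ₗ Φ v l := mat2_iL _ _ _ _
lemma RC_iR (v : V) (l : List V) : RC RE RF Φ v l ∘ₗ iR K ι κ = iR K ι κ ∘ₗ RF v l := by
  rw [mat2_iR, LinearMap.comp_zero, zero_add]

variable (H : V → List V → ((ι ⊕ κ → K) →ₗ[K] (ι ⊕ κ → K)))

/-- blocks -/
abbrev bα : V → List V → ((ι → K) →ₗ[K] (ι → K)) := fun v l => pL K ι κ ∘ₗ H v l ∘ₗ iL K ι κ
/-- blocks -/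
abbrev bβ : V → List V → ((κ → K) →ₗ[K] (ι → K)) := fun v l => pL K ι κ ∘ₗ H v l ∘ₗ iR K ι κ
/-- blocks -/
abbrev bδ : V → List V → ((κ → K) →ₗ[K] (κ → K)) := fun v l => pR K ι κ ∘ₗ H v l ∘ₗ iR K ι κ

/-- left multiplication by the cone structure, first row -/
lemma rowL {μ : Type} (i : (μ → K) →ₗ[K] (ι ⊕ κ → K)) (v : V) (l : List V) :
    pL K ι κ ∘ₗ cv (RC RE RF Φ) H v l ∘ₗ i = - cv RE (fun v l => pL K ι κ ∘ₗ H v l ∘ₗ i) v l := by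
  rw [cut_cv]
  have h1 : (fun v l => pL K ι κ ∘ₗ RC RE RF Φ v l) = fun v l => (-RE) v l ∘ₗ pL K ι κ := by
    funext v l
    exact pL_RC RE RF Φ v l
  rw [h1, cv_comp_mid, cv_neg_left]

/-- second row -/
lemma rowR {μ : Type} (i : (μ → K) →ₗ[K] (ι ⊕ κ → K)) (v : V) (l : List V) :
    pR K ι κ ∘ₗ cv (RC RE RF Φ) H v l ∘ₗ i = cv Φ (fun v l => pL K ι κ ∘ₗ H v l ∘ₗ i) v l +
      cv RF (fun v l => pR K ι κ ∘ₗ H v l ∘ₗ i) v l := by
  rw [cut_cv]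
  have h1 : (fun v l => pR K ι κ ∘ₗ RC RE RF Φ v l) =
      (fun v l => Φ v l ∘ₗ pL K ι κ) + fun v l => RF v l ∘ₗ pR K ι κ := by
    funext v l
    exact pR_RC RE RF Φ v l
  rw [h1, cv_add_left, cv_comp_mid, cv_comp_mid]

/-- right multiplication, first column -/
lemma colL {μ : Type} (p : (ι ⊕ κ → K) →ₗ[K] (μ → K)) (v : V) (l : List V) :
    p ∘ₗ cv H (RC RE RF Φ) v l ∘ₗ iL K ι κ = - cv (fun v l => p ∘ₗ H v l ∘ₗ iL K ι κ) RE v l +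
      cv (fun v l => p ∘ₗ H v l ∘ₗ iR K ι κ) Φ v l := by
  rw [cut_cv]
  have h1 : (fun v l => RC RE RF Φ v l ∘ₗ iL K ι κ) =
      (fun v l => iL K ι κ ∘ₗ (-RE) v l) + fun v l => iR K ι κ ∘ₗ Φ v l := by
    funext v l
    exact RC_iL RE RF Φ v l
  rw [h1, cv_add_right, ← cv_comp_mid, ← cv_comp_mid, cv_neg_right]
  rfl

/-- second column -/
lemma colR {μ : Type} (p : (ι ⊕ κ → K) →ₗ[K] (μ → K)) (v : V) (l : List V) :
    p ∘ₗ cv H (RC RE RF Φ) v l ∘ₗ iR K ι κ = cv (fun v l => p ∘ₗ H v l ∘ₗ iR K ι κ) RF v l := by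
  rw [cut_cv]
  have h1 : (fun v l => RC RE RF Φ v l ∘ₗ iR K ι κ) = fun v l => iR K ι κ ∘ₗ RF v l := by
    funext v l
    exact RC_iR RE RF Φ v l
  rw [h1, ← cv_comp_mid]
  rfl

variable {RE RF Φ H}
variable {eE : V → (ι → K) →ₗ[K] (ι → K)} {eF : V → (κ → K) →ₗ[K] (κ → K)}

lemma expand (hH : ∀ v l, DD (dC dE dF) (-1) (RC RE RF Φ) (RC RE RF Φ) H v l = unt (eC eE eF) v l)
    (v : V) (l : List V) :
    th K (dC dE dF) ∘ₗ fc H v l + cv (RC RE RF Φ) H v l + cv H (RC RE RF Φ) v l =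
      unt (eC eE eF) v l := by
  rw [← hH v l]
  unfold DD
  rw [sgn_neg, sgn_one, DLBM.neg_one_sm, sub_neg_eq_add]

lemma blkβ (hH : ∀ v l, DD (dC dE dF) (-1) (RC RE RF Φ) (RC RE RF Φ) H v l = unt (eC eE eF) v l)
    (v : V) (l : List V) : DD dE 0 RF RE (bβ H) v l = 0 := by
  have h := congrArg (fun T => pL K ι κ ∘ₗ T ∘ₗ iR K ι κ) (expand hH v l)
  simp only [LinearMap.add_comp, LinearMap.comp_add] at h
  have h0 : pL K ι κ ∘ₗ unt (eC eE eF) v l ∘ₗ iR K ι κ = 0 := by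
    cases l with
    | nil =>
      change pL K ι κ ∘ₗ mat2 (eE v) 0 0 (eF v) ∘ₗ iR K ι κ = 0
      rw [mat2_iR, LinearMap.comp_zero, zero_add, ← LinearMap.comp_assoc, pL_iR,
        LinearMap.zero_comp]
    | cons u l => simp only [unt, LinearMap.zero_comp, LinearMap.comp_zero]
  rw [h0, rowL, colR, LinearMap.comp_assoc, ← LinearMap.comp_assoc _ _ (pL K ι κ), pL_th,
    LinearMap.neg_comp, LinearMap.comp_assoc, cut_fc] at h
  unfold DD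
  rw [sgn_zero, DLBM.one_sm]
  have h2 := congrArg (fun T => -T) h
  simp only [neg_add, neg_neg, neg_zero] at h2
  rw [sub_eq_add_neg]
  exact h2

lemma blkα (hH : ∀ v l, DD (dC dE dF) (-1) (RC RE RF Φ) (RC RE RF Φ) H v l = unt (eC eE eF) v l)
    (v : V) (l : List V) : cv (bβ H) Φ v l - unt eE v l = DD dE (-1) RE RE (bα H) v l := by
  have h := congrArg (fun T => pL K ι κ ∘ₗ T ∘ₗ iL K ι κ) (expand hH v l)
  simp only [LinearMap.add_comp, LinearMap.comp_add] at h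
  have h0 : pL K ι κ ∘ₗ unt (eC eE eF) v l ∘ₗ iL K ι κ = unt eE v l := by
    cases l with
    | nil =>
      change pL K ι κ ∘ₗ mat2 (eE v) 0 0 (eF v) ∘ₗ iL K ι κ = eE v
      rw [mat2_iL, LinearMap.comp_zero, add_zero, ← LinearMap.comp_assoc, pL_iL,
        LinearMap.id_comp]
    | cons u l => simp only [unt, LinearMap.zero_comp, LinearMap.comp_zero]
  rw [h0, rowL, colL, LinearMap.comp_assoc, ← LinearMap.comp_assoc _ _ (pL K ι κ), pL_th,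
    LinearMap.neg_comp, LinearMap.comp_assoc, cut_fc] at h
  unfold DD
  rw [sgn_neg, sgn_one, DLBM.neg_one_sm, sub_neg_eq_add, ← h]
  abel

lemma blkδ (hH : ∀ v l, DD (dC dE dF) (-1) (RC RE RF Φ) (RC RE RF Φ) H v l = unt (eC eE eF) v l)
    (v : V) (l : List V) :
    cv Φ (bβ H) v l - unt eF v l = - DD dF (-1) RF RF (bδ H) v l := by
  have h := congrArg (fun T => pR K ι κ ∘ₗ T ∘ₗ iR K ι κ) (expand hH v l)
  simp only [LinearMap.add_comp, LinearMap.comp_add] at h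
  have h0 : pR K ι κ ∘ₗ unt (eC eE eF) v l ∘ₗ iR K ι κ = unt eF v l := by
    cases l with
    | nil =>
      change pR K ι κ ∘ₗ mat2 (eE v) 0 0 (eF v) ∘ₗ iR K ι κ = eF v
      rw [mat2_iR, LinearMap.comp_zero, zero_add, ← LinearMap.comp_assoc, pR_iR,
        LinearMap.id_comp]
    | cons u l => simp only [unt, LinearMap.zero_comp, LinearMap.comp_zero]
  rw [h0, rowR, colR, LinearMap.comp_assoc, ← LinearMap.comp_assoc _ _ (pR K ι κ), pR_th,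
    LinearMap.comp_assoc, cut_fc] at h
  unfold DD
  rw [sgn_neg, sgn_one, DLBM.neg_one_sm, sub_neg_eq_add, ← h]
  abel

lemma coα (hH : IsCo (dC dE dF) (dC dE dF) (-1) (eC eE eF) (eC eE eF) H) :
    IsCo dE dE (-1) eE eE (bα H) where
  deg_A v l := (Deg.comp pL_deg (Deg.comp (hH.deg_A v l) iL_deg)).congr (by ring)
  left v l := by
    conv_rhs => rw [bα, ← hH.left v l]
    rw [LinearMap.comp_assoc, ← LinearMap.comp_assoc _ _ (pL K ι κ), pL_mat2, LinearMap.zero_comp,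
      add_zero, LinearMap.comp_assoc]
  right v l := by
    conv_rhs => rw [bα, ← hH.right v l]
    rw [LinearMap.comp_assoc _ _ (H v l), mat2_iL, LinearMap.comp_zero, add_zero]
    rfl

lemma coβ (hH : IsCo (dC dE dF) (dC dE dF) (-1) (eC eE eF) (eC eE eF) H) :
    IsCo dF dE 0 eF eE (bβ H) where
  deg_A v l := (Deg.comp pL_deg (Deg.comp (hH.deg_A v l) iR_deg)).congr (by ring)
  left v l := by
    conv_rhs => rw [bβ, ← hH.left v l]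
    rw [LinearMap.comp_assoc, ← LinearMap.comp_assoc _ _ (pL K ι κ), pL_mat2, LinearMap.zero_comp,
      add_zero, LinearMap.comp_assoc]
  right v l := by
    conv_rhs => rw [bβ, ← hH.right v l]
    rw [LinearMap.comp_assoc _ _ (H v l), mat2_iR, LinearMap.comp_zero, zero_add]
    rfl

lemma coδ (hH : IsCo (dC dE dF) (dC dE dF) (-1) (eC eE eF) (eC eE eF) H) :
    IsCo dF dF (-1) eF eF (bδ H) where
  deg_A v l := (Deg.comp pR_deg (Deg.comp (hH.deg_A v l) iR_deg)).congr (by ring)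
  left v l := by
    conv_rhs => rw [bδ, ← hH.left v l]
    rw [LinearMap.comp_assoc, ← LinearMap.comp_assoc _ _ (pR K ι κ), pR_mat2, LinearMap.zero_comp,
      zero_add, LinearMap.comp_assoc]
  right v l := by
    conv_rhs => rw [bδ, ← hH.right v l]
    rw [LinearMap.comp_assoc _ _ (H v l), mat2_iR, LinearMap.comp_zero, zero_add]
    rfl

end Main

section Smooth

variable {ι κ ι₁ ι₂ κ₁ κ₂ : Type} [DecidableEq ι] [DecidableEq κ] [DecidableEq ι₁] [DecidableEq ι₂]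

lemma pL_inl (j : ι) : pL ℝ ι κ (Pi.single (Sum.inl j) 1) = Pi.single j 1 := by
  funext i; simp [pL, Pi.single_apply]
lemma pR_inl (j : ι) : pR ℝ ι κ (Pi.single (Sum.inl j) 1) = 0 := by
  funext i; simp [pR]
lemma pL_inr (j : κ) : pL ℝ ι κ (Pi.single (Sum.inr j) 1) = 0 := by
  funext i; simp [pL]
lemma pR_inr (j : κ) : pR ℝ ι κ (Pi.single (Sum.inr j) 1) = Pi.single j 1 := by
  funext i; simp [pR, Pi.single_apply]
lemma iL_single (j : ι) : iL ℝ ι κ (Pi.single j 1) = Pi.single (Sum.inl j) 1 := by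
  funext i; cases i <;> simp [iL, Pi.single_apply]
lemma iR_single (j : κ) : iR ℝ ι κ (Pi.single j 1) = Pi.single (Sum.inr j) 1 := by
  funext i; cases i <;> simp [iR, Pi.single_apply]

lemma ent_ll (A : (ι₁ → ℝ) →ₗ[ℝ] (κ₁ → ℝ)) (B : (ι₂ → ℝ) →ₗ[ℝ] (κ₁ → ℝ))
    (C : (ι₁ → ℝ) →ₗ[ℝ] (κ₂ → ℝ)) (D : (ι₂ → ℝ) →ₗ[ℝ] (κ₂ → ℝ)) (j : ι₁) (i : κ₁) :
    mat2 A B C D (Pi.single (Sum.inl j) 1) (Sum.inl i) = A (Pi.single j 1) i := by
  simp only [mat2, LinearMap.add_apply, LinearMap.comp_apply, pL_inl, pR_inl, map_zero, add_zero,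
    Pi.add_apply]
  simp [iL, iR]
lemma ent_lr (A : (ι₁ → ℝ) →ₗ[ℝ] (κ₁ → ℝ)) (B : (ι₂ → ℝ) →ₗ[ℝ] (κ₁ → ℝ))
    (C : (ι₁ → ℝ) →ₗ[ℝ] (κ₂ → ℝ)) (D : (ι₂ → ℝ) →ₗ[ℝ] (κ₂ → ℝ)) (j : ι₁) (i : κ₂) :
    mat2 A B C D (Pi.single (Sum.inl j) 1) (Sum.inr i) = C (Pi.single j 1) i := by
  simp only [mat2, LinearMap.add_apply, LinearMap.comp_apply, pL_inl, pR_inl, map_zero, add_zero,
    Pi.add_apply]
  simp [iL, iR]
lemma ent_rl (A : (ι₁ → ℝ) →ₗ[ℝ] (κ₁ → ℝ)) (B : (ι₂ → ℝ) →ₗ[ℝ] (κ₁ → ℝ))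
    (C : (ι₁ → ℝ) →ₗ[ℝ] (κ₂ → ℝ)) (D : (ι₂ → ℝ) →ₗ[ℝ] (κ₂ → ℝ)) (j : ι₂) (i : κ₁) :
    mat2 A B C D (Pi.single (Sum.inr j) 1) (Sum.inl i) = B (Pi.single j 1) i := by
  simp only [mat2, LinearMap.add_apply, LinearMap.comp_apply, pL_inr, pR_inr, map_zero, zero_add,
    Pi.add_apply]
  simp [iL, iR]
lemma ent_rr (A : (ι₁ → ℝ) →ₗ[ℝ] (κ₁ → ℝ)) (B : (ι₂ → ℝ) →ₗ[ℝ] (κ₁ → ℝ))
    (C : (ι₁ → ℝ) →ₗ[ℝ] (κ₂ → ℝ)) (D : (ι₂ → ℝ) →ₗ[ℝ] (κ₂ → ℝ)) (j : ι₂) (i : κ₂) :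
    mat2 A B C D (Pi.single (Sum.inr j) 1) (Sum.inr i) = D (Pi.single j 1) i := by
  simp only [mat2, LinearMap.add_apply, LinearMap.comp_apply, pL_inr, pR_inr, map_zero, zero_add,
    Pi.add_apply]
  simp [iL, iR]

variable {G : LieGpd}

lemma smooth_mat2 {A : G.Ob → List G.Ar → (ι₁ → ℝ) →ₗ[ℝ] (κ₁ → ℝ)}
    {B : G.Ob → List G.Ar → (ι₂ → ℝ) →ₗ[ℝ] (κ₁ → ℝ)}
    {C : G.Ob → List G.Ar → (ι₁ → ℝ) →ₗ[ℝ] (κ₂ → ℝ)}
    {D : G.Ob → List G.Ar → (ι₂ → ℝ) →ₗ[ℝ] (κ₂ → ℝ)} (hA : G.Smooth A) (hB : G.Smooth B)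
    (hC : G.Smooth C) (hD : G.Smooth D) :
    G.Smooth (fun x l => mat2 (A x l) (B x l) (C x l) (D x l)) := by
  intro d k U x g hU hx hg hc i j
  cases i with
  | inl i =>
    cases j with
    | inl j => exact (hA d k U x g hU hx hg hc i j).congr fun u _ => ent_ll _ _ _ _ _ _
    | inr j => exact (hB d k U x g hU hx hg hc i j).congr fun u _ => ent_rl _ _ _ _ _ _
  | inr i =>
    cases j with
    | inl j => exact (hC d k U x g hU hx hg hc i j).congr fun u _ => ent_lr _ _ _ _ _ _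
    | inr j => exact (hD d k U x g hU hx hg hc i j).congr fun u _ => ent_rr _ _ _ _ _ _

lemma smooth_zero : G.Smooth (fun _ _ => (0 : (ι → ℝ) →ₗ[ℝ] (κ → ℝ))) := by
  intro d k U x g _ _ _ _ i j
  exact contDiffOn_const

lemma smoothE_mat2 {A : G.Ob → (ι₁ → ℝ) →ₗ[ℝ] (κ₁ → ℝ)} {D : G.Ob → (ι₂ → ℝ) →ₗ[ℝ] (κ₂ → ℝ)}
    (hA : SmoothE G A) (hD : SmoothE G D) : SmoothE G (fun x => mat2 (A x) 0 0 (D x)) := by
  intro i j
  cases i with
  | inl i =>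
    cases j with
    | inl j => simpa only [ent_ll] using hA i j
    | inr j => simpa only [ent_rl] using contMDiff_const
  | inr i =>
    cases j with
    | inl j => simpa only [ent_lr] using contMDiff_const
    | inr j => simpa only [ent_rr] using hD i j

lemma smooth_nil {A : G.Ob → List G.Ar → (ι → ℝ) →ₗ[ℝ] (κ → ℝ)} (hA : G.Smooth A) :
    G.Smooth (fun x _ => A x []) := by
  intro d k U x g hU hx _ _ i j
  have h := hA d 0 U x (fun a => a.elim0) hU hx (fun a => a.elim0) (fun u _ => by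
    rw [List.ofFn_zero]; trivial) i j
  simpa only [List.ofFn_zero] using h

lemma smooth_ll {H : G.Ob → List G.Ar → (ι ⊕ κ → ℝ) →ₗ[ℝ] (ι ⊕ κ → ℝ)} (hH : G.Smooth H) :
    G.Smooth (fun x l => pL ℝ ι κ ∘ₗ H x l ∘ₗ iL ℝ ι κ) := by
  intro d k U x g hU hx hg hc i j
  refine (hH d k U x g hU hx hg hc (Sum.inl i) (Sum.inl j)).congr fun u _ => ?_
  simp only [LinearMap.comp_apply, iL_single]
  rfl

lemma smooth_lr {H : G.Ob → List G.Ar → (ι ⊕ κ → ℝ) →ₗ[ℝ] (ι ⊕ κ → ℝ)} (hH : G.Smooth H) :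
    G.Smooth (fun x l => pL ℝ ι κ ∘ₗ H x l ∘ₗ iR ℝ ι κ) := by
  intro d k U x g hU hx hg hc i j
  refine (hH d k U x g hU hx hg hc (Sum.inl i) (Sum.inr j)).congr fun u _ => ?_
  simp only [LinearMap.comp_apply, iR_single]
  rfl

lemma smooth_rr {H : G.Ob → List G.Ar → (ι ⊕ κ → ℝ) →ₗ[ℝ] (ι ⊕ κ → ℝ)} (hH : G.Smooth H) :
    G.Smooth (fun x l => pR ℝ ι κ ∘ₗ H x l ∘ₗ iR ℝ ι κ) := by
  intro d k U x g hU hx hg hc i j
  refine (hH d k U x g hU hx hg hc (Sum.inr i) (Sum.inr j)).congr fun u _ => ?_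
  simp only [LinearMap.comp_apply, iR_single]
  rfl

end Smooth

section Fibre

variable {G : LieGpd} {ι κ : Type} [Fintype ι] [DecidableEq ι] [Fintype κ] [DecidableEq κ]
  {dE : ι → ℤ} {dF : κ → ℤ} {eE : G.Ob → (ι → ℝ) →ₗ[ℝ] (ι → ℝ)}
  {RE : G.Ob → List G.Ar → (ι → ℝ) →ₗ[ℝ] (ι → ℝ)} {eF : G.Ob → (κ → ℝ) →ₗ[ℝ] (κ → ℝ)}
  {RF : G.Ob → List G.Ar → (κ → ℝ) →ₗ[ℝ] (κ → ℝ)}
  {Φ : G.Ob → List G.Ar → (ι → ℝ) →ₗ[ℝ] (κ → ℝ)}

lemma wf0_b (x : G.Ob) : (wf G x).b (wf0 G x) = x := G.tgt_one x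

/-- The fibres of a pre-representation. -/
lemma fib (hP : ∀ (V : Type) (F : Frame G V), PreRuth dE (fun v => eE (F.b v)) (F.hom RE))
    (x : G.Ob) : eE x ∘ₗ eE x = eE x ∧ RE x [] ∘ₗ RE x [] = 0 ∧ eE x ∘ₗ RE x [] = RE x [] ∧
      RE x [] ∘ₗ eE x = RE x [] ∧ Deg dE dE (eE x) 0 ∧ Deg dE dE (RE x []) 1 := by
  have h := hP _ (wf G x)
  have h1 := h.e_idem (wf0 G x)
  have h2 := h.eqn (wf0 G x) []
  have h3 := h.left (wf0 G x) []
  have h4 := h.right (wf0 G x) []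
  have h5 := h.e_deg (wf0 G x)
  have h6 := h.deg_R (wf0 G x) []
  rw [fc_nil, cv_nil, LinearMap.comp_zero, zero_add] at h2
  simp only [Frame.hom, Frame.arr, lst_nil, wf0_b, List.length_nil, Nat.cast_zero, sub_zero] at *
  exact ⟨h1, h2, h3, h4, h5, h6⟩

lemma fibΦ (hΦ : HCo G dE dF 0 eE eF Φ) (cΦ : HCl G dF RE RF Φ) (x : G.Ob) :
    Φ x [] ∘ₗ RE x [] = RF x [] ∘ₗ Φ x [] ∧ eF x ∘ₗ Φ x [] = Φ x [] ∧
      Φ x [] ∘ₗ eE x = Φ x [] := by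
  have h1 := cΦ _ (wf G x) (wf0 G x) []
  have h2 := (hΦ.co _ (wf G x)).left (wf0 G x) []
  have h3 := (hΦ.co _ (wf G x)).right (wf0 G x) []
  unfold DD at h1
  rw [fc_nil, cv_nil, cv_nil, LinearMap.comp_zero, zero_add, sgn_zero, DLBM.one_sm,
    sub_eq_zero] at h1
  simp only [Frame.hom, Frame.arr, lst_nil, wf0_b] at *
  exact ⟨h1.symm, h2, h3⟩

end Fibre

lemma co_shift {K V : Type} [CommRing K] {ι κ : Type} {dE : ι → ℤ} {dF : κ → ℤ}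
    {eE : V → (ι → K) →ₗ[K] (ι → K)} {eF : V → (κ → K) →ₗ[K] (κ → K)}
    {A : V → List V → ((ι → K) →ₗ[K] (κ → K))} (hA : IsCo dE dF 0 eE eF A) :
    IsCo (fun i => dE i + (-1)) dF 1 eE eF A where
  deg_A v l := by
    intro q z hz
    have h := hA.deg_A v l (q + 1) z (fun i hi => by
      have h0 : dE i + (-1) = q := hz i hi
      omega)
    have e : q + 1 + (0 - (l.length : ℤ)) = q + (1 - (l.length : ℤ)) := by ring
    rwa [e] at h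
  left := hA.left
  right := hA.right

lemma DD_shift {K V : Type} [CommRing K] {ι κ : Type} {dF : κ → ℤ}
    (RE : V → List V → ((ι → K) →ₗ[K] (ι → K))) (RF : V → List V → ((κ → K) →ₗ[K] (κ → K)))
    (A : V → List V → ((ι → K) →ₗ[K] (κ → K))) (v : V) (l : List V) :
    DD dF 1 (-RE) RF A v l = DD dF 0 RE RF A v l := by
  unfold DD
  rw [cv_neg_right, sgn_one, sgn_zero, DLBM.one_sm, DLBM.neg_one_sm, neg_neg]

end QHEM

open QHEM CNGM in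
theorem specQHE (hFRM : SpecFRM) (hTWS : SpecTWS) (hQAC : SpecQAC)
    (hACY : SpecACY) (hCNS : SpecCNS) (hCON : SpecCON) (hSMR : SpecSMR) (hSMP : SpecSMP) :
    SpecQHE := by
  intro G ι κ _ _ _ _ dE dF eE RE eF RF Φ hE hF hΦ cΦ hq
  have pE : ∀ (V : Type) (F : Frame G V), PreRuth dE (fun v => eE (F.b v)) (F.hom RE) :=
    fun V F => (hE.sr V F).toPreRuth
  have pF : ∀ (V : Type) (F : Frame G V), PreRuth dF (fun v => eF (F.b v)) (F.hom RF) :=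
    fun V F => (hF.sr V F).toPreRuth
  let e : G.Ob → (ι ⊕ κ → ℝ) →ₗ[ℝ] (ι ⊕ κ → ℝ) := eC eE eF
  let R : G.Ob → List G.Ar → (ι ⊕ κ → ℝ) →ₗ[ℝ] (ι ⊕ κ → ℝ) :=
    fun x l => mat2 (-(RE x l)) 0 (Φ x l) (RF x l)
  -- the cone on frames
  have pC : ∀ (V : Type) (F : Frame G V),
      PreRuth (dC dE dF) (fun v => e (F.b v)) (F.hom R) := by
    intro V F
    have h1 := ((hTWS ℝ V ι κ dE dF (fun v => eE (F.b v)) (fun v => eF (F.b v)) (F.hom RE)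
      (F.hom RF)).2 (-1) ⟨-1, by norm_num⟩).1 (pE V F)
    exact ((hTWS ℝ V ι κ (fun i => dE i + (-1)) dF (fun v => eE (F.b v)) (fun v => eF (F.b v))
      (-(F.hom RE)) (F.hom RF)).1 (F.hom Φ) h1 (pF V F) (co_shift (hΦ.co V F)) (fun v l => by
        rw [DD_shift]; exact cΦ V F v l)).1
  -- smoothness
  have se : SmoothE G e := smoothE_mat2 hE.e_smooth hF.e_smooth
  have sR : G.Smooth R := smooth_mat2
    (((hSMP G ι ι ι).2.1 RE RE (fun _ => 0) hE.smooth hE.smooth).2.2.1) smooth_zero hΦ.smooth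
    hF.smooth
  have zR : ∀ x l, ¬ G.Chain x l → R x l = 0 := by
    intro x l hc
    change mat2 (-(RE x l)) 0 (Φ x l) (RF x l) = 0
    rw [hE.zero x l hc, hF.zero x l hc, hΦ.zero x l hc]
    simp [mat2]
  have sR0 : SmoothE G (fun x => R x []) :=
    (hSMR G (ι ⊕ κ) (ι ⊕ κ)).2.2.2.2 (fun x => R x []) (smooth_nil sR)
  -- the fibres
  have fC := fib pC
  have acy : ∀ x z, e x z = z → R x [] z = 0 → ∃ y, z = R x [] y := by
    intro x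
    obtain ⟨a1, a2, a3, a4, -, -⟩ := fib pE x
    obtain ⟨b1, b2, b3, b4, -, -⟩ := fib pF x
    obtain ⟨c1, c2, c3⟩ := fibΦ hΦ cΦ x
    exact (hQAC ι κ (eE x) (RE x []) (eF x) (RF x []) (Φ x []) a1 a2 a3 a4 b1 b2 b3 b4 c1 c2
      c3).1 (hq x)
  obtain ⟨h, sh, h1, h2, h3, h4⟩ := hACY G (ι ⊕ κ) (dC dE dF) e (fun x => R x []) se sR0
    (fun x => (fC x).1) (fun x => (fC x).2.2.2.2.1) (fun x => (fC x).2.2.2.2.2)
    (fun x => (fC x).2.2.1) (fun x => (fC x).2.2.2.1) (fun x => (fC x).2.1) acy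
  obtain ⟨sH, zH, homH⟩ := hCNS G (ι ⊕ κ) e h R se sh sR zR
  let H := conG G e h R
  have eH : ∀ (V : Type) (F : Frame G V), F.hom H =
      conC (fun v => e (F.b v)) (fun v => h (F.b v)) (F.hom R) := by
    intro V F
    funext v l
    exact homH V F v l
  have kH : ∀ (V : Type) (F : Frame G V),
      IsCo (dC dE dF) (dC dE dF) (-1) (eC (fun v => eE (F.b v)) (fun v => eF (F.b v)))
        (eC (fun v => eE (F.b v)) (fun v => eF (F.b v))) (F.hom H) ∧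
      ∀ v l, DD (dC dE dF) (-1) (RC (F.hom RE) (F.hom RF) (F.hom Φ))
        (RC (F.hom RE) (F.hom RF) (F.hom Φ)) (F.hom H) v l =
          unt (eC (fun v => eE (F.b v)) (fun v => eF (F.b v))) v l := by
    intro V F
    rw [eH]
    exact hCON ℝ V (ι ⊕ κ) (dC dE dF) (fun v => e (F.b v)) (fun v => h (F.b v)) (F.hom R)
      (pC V F) (fun v => h1 _) (fun v => h2 _) (fun v => h3 _) (fun v => h4 _)
  have zz : ∀ x l, ¬ G.Chain x l → H x l = 0 := zH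
  refine ⟨fun x l => pL ℝ ι κ ∘ₗ H x l ∘ₗ iR ℝ ι κ, ⟨fun x l hc => ?_, smooth_lr sH,
    fun V F => coβ (kH V F).1⟩, fun V F v l => blkβ (kH V F).2 v l,
    ⟨fun x l => pL ℝ ι κ ∘ₗ H x l ∘ₗ iL ℝ ι κ, ⟨fun x l hc => ?_, smooth_ll sH,
      fun V F => coα (kH V F).1⟩, fun V F v l => ?_⟩,
    ⟨-(fun x l => pR ℝ ι κ ∘ₗ H x l ∘ₗ iR ℝ ι κ), ⟨fun x l hc => ?_,
      ((hSMP G κ κ κ).2.1 _ _ (fun _ => 0) (smooth_rr sH) (smooth_rr sH)).2.2.1,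
      fun V F => co_neg (coδ (kH V F).1)⟩, fun V F v l => ?_⟩⟩
  · rw [zz x l hc, LinearMap.zero_comp, LinearMap.comp_zero]
  · rw [zz x l hc, LinearMap.zero_comp, LinearMap.comp_zero]
  · rw [hom_star hFRM, hom_unit hFRM]
    exact blkα (kH V F).2 v l
  · rw [Pi.neg_apply, Pi.neg_apply, zz x l hc, LinearMap.zero_comp, LinearMap.comp_zero, neg_zero]
  · rw [hom_star hFRM, hom_unit hFRM]
    have h5 : F.hom (-(fun x l => pR ℝ ι κ ∘ₗ H x l ∘ₗ iR ℝ ι κ) :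
        G.Ob → List G.Ar → (κ → ℝ) →ₗ[ℝ] (κ → ℝ)) = -(bδ (F.hom H)) := rfl
    rw [h5, DD_neg]
    exact blkδ (kH V F).2 v l

end Pool.Agent.Lib.MP_9b987c_gt.HC
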