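import Pool.Agent.Lib.MP_9b987c_gt.HC.SpecT

section
/-!
# GEN: generic constants
-/
namespace Pool.Agent.Lib.MP_9b987c_gt.HC

open scoped Manifold ContDiff BigOperators
open MeasureTheory

namespace GENM

/-- The uniform measure on `[1, 2]`. -/
noncomputable def mu : Measure ℝ := volume.restrict (Set.Icc (1 : ℝ) 2)

instance : IsProbabilityMeasure mu := ⟨by
  rw [mu, Measure.restrict_apply MeasurableSet.univ, Set.univ_inter, Real.volume_Icc]
  norm_num⟩

/-- The product measure. -/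
noncomputable def P : Measure (ℕ → ℝ) := Measure.infinitePi (fun _ : ℕ => mu)

instance : IsProbabilityMeasure P := by
  unfold P
  infer_instance

theorem map_eq {ι : Type} [Fintype ι] (s : ι → ℕ) (hs : Function.Injective s) :
    P.map (fun c i => c (s i)) = Measure.pi (fun _ : ι => mu) := by
  symm
  apply Measure.pi_eq
  intro B hB
  have hf : Measurable (fun (c : ℕ → ℝ) (i : ι) => c (s i)) := by fun_prop
  rw [Measure.map_apply hf (MeasurableSet.univ_pi hB)]
  classical
  have e1 : (fun (c : ℕ → ℝ) (i : ι) => c (s i)) ⁻¹' (Set.pi Set.univ B) =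
      Set.pi (((Finset.univ.image s : Finset ℕ)) : Set ℕ)
        (fun n => if h : ∃ i, s i = n then B h.choose else Set.univ) := by
    ext c
    simp only [Set.mem_preimage, Set.mem_pi, Set.mem_univ, forall_true_left, Finset.coe_image,
      Finset.coe_univ, Set.image_univ, Set.mem_range]
    constructor
    · rintro h n ⟨i, rfl⟩
      have hex : ∃ j, s j = s i := ⟨i, rfl⟩
      rw [dif_pos hex]
      have := hs hex.choose_spec
      rw [this]
      exact h i
    · intro h i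
      have hex : ∃ j, s j = s i := ⟨i, rfl⟩
      have h1 := h (s i) hex
      rw [dif_pos hex] at h1
      have := hs hex.choose_spec
      rwa [this] at h1
  rw [e1]
  unfold P
  rw [Measure.infinitePi_pi]
  · rw [Finset.prod_image (fun a _ b _ h => hs h)]
    apply Finset.prod_congr rfl
    intro i _
    have hex : ∃ j, s j = s i := ⟨i, rfl⟩
    rw [dif_pos hex]
    have := hs hex.choose_spec
    rw [this]
  · intro n hn
    split_ifs
    · exact hB _
    · exact MeasurableSet.univ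

theorem pi_null {ι : Type} [Fintype ι] (N : Set (ι → ℝ)) (hN : volume N = 0) :
    Measure.pi (fun _ : ι => mu) N = 0 := by
  have : Measure.pi (fun _ : ι => mu) =
      (volume : Measure (ι → ℝ)).restrict (Set.pi Set.univ fun _ => Set.Icc (1 : ℝ) 2) := by
    unfold mu
    rw [volume_pi, Measure.restrict_pi_pi]
  rw [this]
  exact le_antisymm ((Measure.restrict_apply_le _ _).trans hN.le) bot_le

end GENM

theorem specGEN (hNUL : SpecNUL) : SpecGEN := by
  intro G ρ hρ
  have h1 : ∀ᵐ c ∂GENM.P, ∀ i, c i ∈ Set.Icc (1 : ℝ) 2 := by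
    rw [ae_all_iff]
    intro i
    have hm : GENM.P.map (fun c => c i) = GENM.mu := by
      unfold GENM.P
      exact Measure.infinitePi_map_eval (fun _ : ℕ => GENM.mu) i
    have h2 : ∀ᵐ t ∂GENM.mu, t ∈ Set.Icc (1 : ℝ) 2 := by
      unfold GENM.mu
      exact ae_restrict_mem measurableSet_Icc
    rw [← hm] at h2
    exact ae_of_ae_map (measurable_pi_apply i).aemeasurable h2
  have h3 : ∀ᵐ c ∂GENM.P, ∀ s : Fin (G.m + 2) → ℕ, Function.Injective s →
      ¬ ∃ x, (∀ i, 0 < ρ (s i) x) ∧ ∀ i j, c (s i) * ρ (s i) x = c (s j) * ρ (s j) x := by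
    rw [ae_all_iff]
    intro s
    by_cases hs : Function.Injective s
    · have h4 := hNUL G (fun i => ρ (s i)) (fun i => hρ (s i))
      have h5 := GENM.pi_null _ h4
      rw [← GENM.map_eq s hs] at h5
      have hf : AEMeasurable (fun (c : ℕ → ℝ) (i : Fin (G.m + 2)) => c (s i)) GENM.P := by
        apply Measurable.aemeasurable
        fun_prop
      have h6 := Measure.preimage_null_of_map_null hf h5
      have h7 : ∀ᵐ c ∂GENM.P, c ∉ (fun (c : ℕ → ℝ) (i : Fin (G.m + 2)) => c (s i)) ⁻¹'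
          {c | ∃ x, (∀ i, 0 < ρ (s i) x) ∧ ∀ i j, c i * ρ (s i) x = c j * ρ (s j) x} := by
        rw [ae_iff]
        simpa using h6
      filter_upwards [h7] with c hc _ hx
      exact hc hx
    · exact Filter.Eventually.of_forall fun c h => absurd h hs
  obtain ⟨c, hc1, hc2⟩ := (h1.and h3).exists
  exact ⟨c, fun i => hc1 i, fun s hs x hx h => hc2 s hs ⟨x, hx, h⟩⟩

end Pool.Agent.Lib.MP_9b987c_gt.HC
end

section
/-!
# LSC: local smooth sections of a surjective submersion
-/
namespace Pool.Agent.Lib.MP_9b987c_gt.HC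

open scoped Manifold ContDiff BigOperators Topology

namespace LSCM

/-- Local sections of a submersion near `f x'`. -/
theorem core {m m' : ℕ} {F : Type} [NormedAddCommGroup F] [NormedSpace ℝ F] {M N : Type}
    [TopologicalSpace M] [ChartedSpace (Eu m') M] [IsManifold (𝓡 m') ∞ M]
    [TopologicalSpace N] [ChartedSpace (Eu m) N] [IsManifold (𝓡 m) ∞ N] (f : M → N) (x' : M)
    (h : Manifold.IsSubmersionAtOfComplement F (𝓡 m') (𝓡 m) ∞ f x') :
    ∃ (U : Set N) (σ : N → M), IsOpen U ∧ f x' ∈ U ∧ ContMDiffOn (𝓡 m) (𝓡 m') ∞ σ U ∧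
      ∀ y ∈ U, f (σ y) = y := by
  set dc := h.domChart with hdc
  set cc := h.codChart with hcc
  set e := h.equiv with he
  have hx' : x' ∈ dc.source := h.mem_domChart_source
  have hfx : f x' ∈ cc.source := h.mem_codChart_source
  have hw : ∀ z ∈ dc.target, cc (f (dc.symm z)) = (e z).1 := by
    intro z hz
    have hz' : z ∈ (h.domChart.extend (𝓡 m')).target := by simpa using hz
    have := h.writtenInCharts hz'
    simpa using this
  set b0 := (e (dc x')).2 with hb0
  have he0 : (e (dc x')).1 = cc (f x') := by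
    have := hw (dc x') (dc.map_source hx')
    rw [dc.left_inv hx'] at this
    exact this.symm
  set τ : N → Eu m' := fun y => e.symm (cc y, b0) with hτ
  have hcont : ContinuousOn τ cc.source :=
    e.symm.continuous.comp_continuousOn (cc.continuousOn.prodMk continuousOn_const)
  have hU : IsOpen (cc.source ∩ τ ⁻¹' dc.target) :=
    hcont.isOpen_inter_preimage cc.open_source dc.open_target
  refine ⟨cc.source ∩ τ ⁻¹' dc.target, fun y => dc.symm (τ y), hU, ⟨hfx, ?_⟩, ?_, ?_⟩
  · show e.symm (cc (f x'), b0) ∈ dc.target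
    rw [← he0, hb0]
    show e.symm (e (dc x')) ∈ dc.target
    rw [e.symm_apply_apply]
    exact dc.map_source hx'
  · have h1 : ContMDiffOn (𝓡 m) (𝓡 m) ∞ cc cc.source :=
      contMDiffOn_of_mem_maximalAtlas h.codChart_mem_maximalAtlas
    have h2 : ContMDiffOn (𝓡 m') (𝓡 m') ∞ dc.symm dc.target :=
      contMDiffOn_symm_of_mem_maximalAtlas h.domChart_mem_maximalAtlas
    have h3 : ContDiff ℝ ∞ (fun z : Eu m => e.symm (z, b0)) :=
      e.symm.contDiff.comp (contDiff_id.prodMk contDiff_const)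
    have h4 : ContMDiffOn (𝓡 m) (𝓡 m') ∞ τ (cc.source ∩ τ ⁻¹' dc.target) :=
      h3.contMDiff.comp_contMDiffOn (h1.mono Set.inter_subset_left)
    exact h2.comp h4 fun y hy => hy.2
  · rintro y ⟨hy1, hy2⟩
    have h1 := hw (τ y) hy2
    have h2 : dc.symm (τ y) ∈ dc.source := dc.map_target hy2
    have h3 : f (dc.symm (τ y)) ∈ cc.source := h.source_subset_preimage_source h2
    have h4 : (e (τ y)).1 = cc y := by
      rw [hτ]
      simp
    exact cc.injOn h3 hy1 (h1.trans h4)

end LSCM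

theorem specLSC : SpecLSC := by
  intro G' G φ x
  obtain ⟨x', rfl⟩ := φ.ob_surj x
  obtain ⟨F, i1, i2, h⟩ := φ.ob_subm
  exact LSCM.core φ.ob x' (h x')

end Pool.Agent.Lib.MP_9b987c_gt.HC
end

section
/-!
# Module NUL: a null set of constants
-/
namespace Pool.Agent.Lib.MP_9b987c_gt.HC

open scoped Manifold ContDiff BigOperators Topology
open MeasureTheory

namespace NULM

/-- Images of sets of dimension at most `m + 1` in `ℝ^(m+2)` under maps which are `C^1` at their
points are null. -/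
theorem null_image {m : ℕ} (A : Set (Eu m × ℝ)) (Φ : Eu m × ℝ → (Fin (m + 2) → ℝ))
    (h : ∀ p ∈ A, ContDiffAt ℝ 1 Φ p) : volume (Φ '' A) = 0 := by
  have h1 : dimH (Φ '' A) ≤ dimH A := by
    apply dimH_image_le_of_locally_lipschitzOn
    intro p hp
    obtain ⟨K, t, ht, hK⟩ := (h p hp).exists_lipschitzOnWith
    exact ⟨K, t, mem_nhdsWithin_of_mem_nhds ht, hK⟩
  have h2 : dimH A ≤ (m + 1 : ℕ) := by
    refine (dimH_mono (Set.subset_univ A)).trans ?_
    rw [Real.dimH_univ_eq_finrank (Eu m × ℝ)]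
    simp
  have h3 : dimH (Φ '' A) < ((m + 2 : ℕ) : NNReal) := by
    refine (h1.trans h2).trans_lt ?_
    norm_cast
    exact Nat.lt_succ_self _
  have h4 := hausdorffMeasure_of_dimH_lt h3
  have h5 : (μH[((m + 2 : ℕ) : NNReal)] : Measure (Fin (m + 2) → ℝ)) = volume := by
    have := hausdorffMeasure_pi_real (ι := Fin (m + 2))
    rw [Fintype.card_fin] at this
    exact_mod_cast this
  rw [h5] at h4
  exact h4

end NULM

theorem specNUL : SpecNUL := by
  intro G ρ hρ
  obtain ⟨s, hs, hcov⟩ := TopologicalSpace.countable_cover_nhds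
    (f := fun x : G.Ob => (chartAt (Eu G.m) x).source)
    (fun x => (chartAt (Eu G.m) x).open_source.mem_nhds (mem_chart_source _ x))
  -- the map in the chart at `x₀`
  let Φ : G.Ob → Eu G.m × ℝ → (Fin (G.m + 2) → ℝ) := fun x₀ p i =>
    p.2 / ρ i ((chartAt (Eu G.m) x₀).symm p.1)
  let A : G.Ob → Set (Eu G.m × ℝ) := fun x₀ =>
    {p | p.1 ∈ (chartAt (Eu G.m) x₀).target ∧ ∀ i, 0 < ρ i ((chartAt (Eu G.m) x₀).symm p.1)}
  have hnull : ∀ x₀, volume (Φ x₀ '' A x₀) = 0 := by
    intro x₀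
    apply NULM.null_image
    rintro p ⟨hp1, hp2⟩
    rw [contDiffAt_pi]
    intro i
    have h1 : ContMDiffOn (𝓡 G.m) 𝓘(ℝ, ℝ) ∞ (fun y => ρ i ((chartAt (Eu G.m) x₀).symm y))
        (chartAt (Eu G.m) x₀).target :=
      (hρ i).comp_contMDiffOn (contMDiffOn_chart_symm (I := 𝓡 G.m) (n := ∞) (x := x₀))
    have h2 : ContDiffOn ℝ ∞ (fun y => ρ i ((chartAt (Eu G.m) x₀).symm y))
        (chartAt (Eu G.m) x₀).target := contMDiffOn_iff_contDiffOn.mp h1
    have h3 : ContDiffAt ℝ 1 (fun y => ρ i ((chartAt (Eu G.m) x₀).symm y)) p.1 :=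
      (h2.contDiffAt ((chartAt (Eu G.m) x₀).open_target.mem_nhds hp1)).of_le (by
        exact_mod_cast le_top)
    exact contDiffAt_snd.div (h3.comp p contDiffAt_fst) (hp2 i).ne'
  refine measure_mono_null ?_ ((measure_biUnion_null_iff hs).mpr (fun x₀ _ => hnull x₀))
  rintro c ⟨x, hx, hc⟩
  have hxs : x ∈ ⋃ x₀ ∈ s, (chartAt (Eu G.m) x₀).source := by
    rw [hcov]
    trivial
  simp only [Set.mem_iUnion, exists_prop] at hxs
  obtain ⟨x₀, hx₀, hxx⟩ := hxs
  simp only [Set.mem_iUnion, exists_prop]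
  refine ⟨x₀, hx₀, ⟨chartAt (Eu G.m) x₀ x, c 0 * ρ 0 x⟩, ⟨?_, ?_⟩, ?_⟩
  · exact (chartAt (Eu G.m) x₀).map_source hxx
  · intro i
    show 0 < ρ i ((chartAt (Eu G.m) x₀).symm (chartAt (Eu G.m) x₀ x))
    rw [(chartAt (Eu G.m) x₀).left_inv hxx]
    exact hx i
  · funext i
    show c 0 * ρ 0 x / ρ i ((chartAt (Eu G.m) x₀).symm (chartAt (Eu G.m) x₀ x)) = c i
    rw [(chartAt (Eu G.m) x₀).left_inv hxx, hc 0 i]
    exact mul_div_cancel_right₀ _ (hx i).ne'

end Pool.Agent.Lib.MP_9b987c_gt.HC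
end

section
/-!
# OST: every open cover of an `m`-manifold is refined by `m + 1` disjoint families
-/
namespace Pool.Agent.Lib.MP_9b987c_gt.HC

open scoped Manifold ContDiff BigOperators Topology

namespace OSTM

/-- The combinatorial part. -/
theorem core {X : Type} [TopologicalSpace X] (m : ℕ) (f : ℕ → X → ℝ) (hf : ∀ i, Continuous (f i))
    (h0 : ∀ i x, 0 ≤ f i x) (hlf : LocallyFinite fun i => Function.support (f i))
    (hpos : ∀ x, ∃ i, 0 < f i x)
    (hgen : ∀ s : Fin (m + 2) → ℕ, Function.Injective s → ∀ x, (∀ i, 0 < f (s i) x) →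
      ¬ ∀ i j, f (s i) x = f (s j) x) :
    ∃ W : Fin (m + 1) → Finset ℕ → Set X,
      (∀ c S, IsOpen (W c S)) ∧ (∀ c S, ∃ i, ∀ x ∈ W c S, 0 < f i x) ∧
      (∀ c S S', S ≠ S' → Disjoint (W c S) (W c S')) ∧ ∀ x, ∃ c S, x ∈ W c S := by
  classical
  have key : ∀ (S : Finset ℕ) (x : X), (∀ i ∈ S, ∀ j ∉ S, f j x < f i x) → ∀ i ∈ S, 0 < f i x := by
    intro S x h i hi
    obtain ⟨j, hj⟩ := Infinite.exists_notMem_finset S
    exact lt_of_le_of_lt (h0 j x) (h i hi j hj)
  refine ⟨fun c S => {x | S.card = (c : ℕ) + 1 ∧ ∀ i ∈ S, ∀ j ∉ S, f j x < f i x}, ?_, ?_, ?_, ?_⟩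
  · intro c S
    rw [isOpen_iff_mem_nhds]
    rintro x ⟨hc, hx⟩
    obtain ⟨V, hV, hfin⟩ := hlf x
    have h1 : ∀ᶠ y in 𝓝 x, ∀ i ∈ S, 0 < f i y := by
      rw [Filter.eventually_all_finset]
      intro i hi
      exact (hf i).continuousAt.eventually (lt_mem_nhds (key S x hx i hi))
    have h2 : ∀ᶠ y in 𝓝 x, ∀ i ∈ S, ∀ j ∈ hfin.toFinset \ S, f j y < f i y := by
      rw [Filter.eventually_all_finset]
      intro i hi
      rw [Filter.eventually_all_finset]
      intro j hj
      have h := hx i hi j (Finset.mem_sdiff.1 hj).2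
      exact ((hf j).continuousAt.prodMk (hf i).continuousAt).eventually
        ((isOpen_lt continuous_fst continuous_snd).mem_nhds h)
    filter_upwards [hV, h1, h2] with y hy1 hy2 hy3
    refine ⟨hc, fun i hi j hj => ?_⟩
    by_cases hjT : j ∈ hfin.toFinset
    · exact hy3 i hi j (Finset.mem_sdiff.2 ⟨hjT, hj⟩)
    · have : f j y = 0 := by
        by_contra hne
        exact hjT (hfin.mem_toFinset.2 ⟨y, hne, hy1⟩)
      rw [this]
      exact hy2 i hi
  · intro c S
    by_cases hS : S.Nonempty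
    · obtain ⟨i, hi⟩ := hS
      exact ⟨i, fun x hx => key S x hx.2 i hi⟩
    · refine ⟨0, fun x hx => ?_⟩
      have h1 := hx.1
      rw [Finset.not_nonempty_iff_eq_empty.1 hS, Finset.card_empty] at h1
      omega
  · intro c S S' hne
    rw [Set.disjoint_left]
    rintro x ⟨h1, h2⟩ ⟨h3, h4⟩
    have hcard : S.card = S'.card := h1.trans h3.symm
    have ha : ∃ i ∈ S, i ∉ S' := by
      by_contra hcon
      push Not at hcon
      exact hne (Finset.eq_of_subset_of_card_le hcon hcard.ge)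
    have hb : ∃ i ∈ S', i ∉ S := by
      by_contra hcon
      push Not at hcon
      exact hne (Finset.eq_of_subset_of_card_le hcon hcard.le).symm
    obtain ⟨i, hi, hi'⟩ := ha
    obtain ⟨j, hj, hj'⟩ := hb
    exact lt_asymm (h2 i hi j hj') (h4 j hj i hi')
  · intro x
    have hA : {i | x ∈ Function.support (f i)}.Finite := hlf.point_finite x
    have hAn : hA.toFinset.Nonempty := by
      obtain ⟨i, hi⟩ := hpos x
      exact ⟨i, hA.mem_toFinset.2 hi.ne'⟩
    obtain ⟨i0, hi0, hmax⟩ := Finset.exists_max_image hA.toFinset (fun i => f i x) hAn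
    have hi0p : 0 < f i0 x := lt_of_le_of_ne (h0 i0 x) (Ne.symm (hA.mem_toFinset.1 hi0))
    set S : Finset ℕ := hA.toFinset.filter (fun i => f i x = f i0 x) with hSdef
    have hi0S : i0 ∈ S := Finset.mem_filter.2 ⟨hi0, rfl⟩
    have hSc : S.card ≤ m + 1 := by
      by_contra hcon
      obtain ⟨t, ht, htc⟩ := Finset.exists_subset_card_eq (show m + 2 ≤ S.card by omega)
      have e := (t.equivFinOfCardEq htc).symm
      refine hgen (fun i => (e i).1) (fun a b hab => e.injective (Subtype.ext hab)) x ?_ ?_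
      · intro i
        have := (Finset.mem_filter.1 (ht (e i).2)).2
        rw [this]
        exact hi0p
      · intro i j
        rw [(Finset.mem_filter.1 (ht (e i).2)).2, (Finset.mem_filter.1 (ht (e j).2)).2]
    have hSp : 0 < S.card := Finset.card_pos.2 ⟨i0, hi0S⟩
    refine ⟨⟨S.card - 1, by omega⟩, S, ?_, ?_⟩
    · show S.card = S.card - 1 + 1
      omega
    · intro i hi j hj
      rw [(Finset.mem_filter.1 hi).2]
      by_cases hjA : j ∈ hA.toFinset
      · refine lt_of_le_of_ne (hmax j hjA) fun h => hj (Finset.mem_filter.2 ⟨hjA, h⟩)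
      · have : f j x = 0 := by
          by_contra hne
          exact hjA (hA.mem_toFinset.2 hne)
        rw [this]
        exact hi0p

end OSTM

theorem specOST (hGEN : SpecGEN) : SpecOST := by
  intro G P hP hmono
  classical
  by_cases hne : Nonempty G.Ob
  swap
  · refine ⟨fun _ _ => ∅, fun _ _ => isOpen_empty, fun _ _ => Or.inr rfl,
      fun _ _ _ _ => Set.disjoint_empty _, fun x => (hne ⟨x⟩).elim⟩
  choose U hUo hUx hUP using hP
  obtain ⟨s, hsc, hs⟩ := TopologicalSpace.countable_cover_nhds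
    (f := U) (fun x => (hUo x).mem_nhds (hUx x))
  have hsn : s.Nonempty := by
    obtain ⟨x⟩ := hne
    have : x ∈ ⋃ x ∈ s, U x := by rw [hs]; trivial
    obtain ⟨y, hy, _⟩ := Set.mem_iUnion₂.1 this
    exact ⟨y, hy⟩
  obtain ⟨g, hg⟩ := hsc.exists_eq_range hsn
  have : LocallyCompactSpace G.Ob := ChartedSpace.locallyCompactSpace (Eu G.m) G.Ob
  obtain ⟨ρ, hρ⟩ := SmoothPartitionOfUnity.exists_isSubordinate (𝓡 G.m) (s := (Set.univ : Set G.Ob))
    isClosed_univ (fun n => U (g n)) (fun n => hUo _) (by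
      intro x _
      have : x ∈ ⋃ x ∈ s, U x := by rw [hs]; trivial
      obtain ⟨y, hy, hxy⟩ := Set.mem_iUnion₂.1 this
      rw [hg] at hy
      obtain ⟨n, rfl⟩ := hy
      exact Set.mem_iUnion.2 ⟨n, hxy⟩)
  obtain ⟨c, hc, hgen⟩ := hGEN G (fun n => ρ n) (fun n => (ρ n).contMDiff)
  have hcp : ∀ i, 0 < c i := fun i => lt_of_lt_of_le one_pos (hc i).1
  obtain ⟨W, h1, h2, h3, h4⟩ := OSTM.core G.m (fun n x => c n * ρ n x)
    (fun n => continuous_const.mul (ρ n).contMDiff.continuous)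
    (fun n x => mul_nonneg (hcp n).le (ρ.nonneg n x))
    (by
      refine ρ.locallyFinite.subset fun i x hx => ?_
      exact fun h => hx (by simp [h]))
    (by
      intro x
      by_contra hcon
      push Not at hcon
      have h0 : ∀ i, ρ i x = 0 := by
        intro i
        have h := hcon i
        have h' := ρ.nonneg i x
        by_contra hne'
        have : 0 < ρ i x := lt_of_le_of_ne h' (Ne.symm hne')
        exact absurd (mul_pos (hcp i) this) (not_lt.2 h)
      have hsum := ρ.sum_eq_one (Set.mem_univ x)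
      simp [h0] at hsum)
    (by
      intro s hs x hx hall
      refine hgen s hs x (fun i => ?_) hall
      exact (pos_iff_pos_of_mul_pos (hx i)).1 (hcp _))
  refine ⟨W, h1, fun c' S => ?_, h3, h4⟩
  obtain ⟨i, hi⟩ := h2 c' S
  left
  refine hmono (U (g i)) _ (hUP _) (fun x hx => ?_) (h1 c' S)
  refine hρ i (subset_tsupport _ ?_)
  have := hi x hx
  intro h
  rw [h] at this
  simp at this

end Pool.Agent.Lib.MP_9b987c_gt.HC
end

section
/-!
# PUN: weights and cut-offs subordinate to a finite open cover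
-/
namespace Pool.Agent.Lib.MP_9b987c_gt.HC

open scoped Manifold ContDiff BigOperators

namespace PUNM

theorem locComp (G : LieGpd) : LocallyCompactSpace G.Ob :=
  Manifold.locallyCompact_of_finiteDimensional (𝓡 G.m)

theorem sigComp (G : LieGpd) : SigmaCompactSpace G.Ob := by
  have := locComp G
  exact sigmaCompactSpace_of_locallyCompact_secondCountable

theorem normal (G : LieGpd) : NormalSpace G.Ob := by
  have := locComp G
  have := sigComp G
  infer_instance

/-- The weights. -/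
theorem weights (G : LieGpd) (N : ℕ) (U : Fin N → Set G.Ob) (hU : ∀ c, IsOpen (U c))
    (hc : ∀ x, ∃ c, x ∈ U c) :
    ∃ l : Fin N → G.Ob → ℝ, (∀ c, ContMDiff (𝓡 G.m) 𝓘(ℝ, ℝ) ∞ (l c)) ∧
      (∀ c, tsupport (l c) ⊆ U c) ∧ ∀ x, ∑ c, l c x ^ 2 = 1 := by
  have := locComp G
  have := sigComp G
  obtain ⟨f, hf⟩ := SmoothPartitionOfUnity.exists_isSubordinate (𝓡 G.m) (isClosed_univ (X := G.Ob))
    U hU (fun x _ => Set.mem_iUnion.mpr (hc x))
  have hpos : ∀ x, 0 < ∑ c, f c x ^ 2 := by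
    intro x
    obtain ⟨c, hcx⟩ := f.exists_pos_of_mem (Set.mem_univ x)
    exact Finset.sum_pos' (fun c _ => sq_nonneg _) ⟨c, Finset.mem_univ c, by positivity⟩
  have hs : ContMDiff (𝓡 G.m) 𝓘(ℝ, ℝ) ∞ (fun x => ∑ c, f c x ^ 2) := by
    apply ContMDiff.sum
    intro c _
    exact (f c).contMDiff.pow 2
  have hr : ContMDiff (𝓡 G.m) 𝓘(ℝ, ℝ) ∞ (fun x => (Real.sqrt (∑ c, f c x ^ 2))⁻¹) := by
    intro x
    have h1 : ContDiffAt ℝ ∞ (fun t : ℝ => (Real.sqrt t)⁻¹) (∑ c, f c x ^ 2) :=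
      (Real.contDiffAt_sqrt (hpos x).ne').inv (Real.sqrt_ne_zero'.mpr (hpos x))
    exact ContMDiffAt.comp (g := fun t : ℝ => (Real.sqrt t)⁻¹) (f := fun x => ∑ c, f c x ^ 2) x
      h1.contMDiffAt (hs x)
  refine ⟨fun c x => f c x * (Real.sqrt (∑ c, f c x ^ 2))⁻¹, fun c => (f c).contMDiff.mul hr,
    fun c => ?_, fun x => ?_⟩
  · exact (tsupport_mul_subset_left).trans (hf c)
  · have h1 : ∀ c, (f c x * (Real.sqrt (∑ c, f c x ^ 2))⁻¹) ^ 2 =
        f c x ^ 2 * (∑ c, f c x ^ 2)⁻¹ := by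
      intro c
      rw [mul_pow, inv_pow, Real.sq_sqrt (hpos x).le]
    simp only [h1]
    rw [← Finset.sum_mul, mul_inv_cancel₀ (hpos x).ne']

/-- A cut-off. -/
theorem cutoff (G : LieGpd) (K U : Set G.Ob) (hK : IsClosed K) (hU : IsOpen U) (hKU : K ⊆ U) :
    ∃ t : G.Ob → ℝ, ContMDiff (𝓡 G.m) 𝓘(ℝ, ℝ) ∞ t ∧ tsupport t ⊆ U ∧ ∀ x ∈ K, t x = 1 := by
  have := locComp G
  have := sigComp G
  have := normal G
  obtain ⟨O, hO, hKO, hOU⟩ := normal_exists_closure_subset hK hU hKU
  obtain ⟨g, hg0, hg1, -⟩ := exists_contMDiffMap_zero_one_of_isClosed (𝓡 G.m) (n := ⊤)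
    hO.isClosed_compl hK (Set.disjoint_left.mpr fun x hx hx' => hx (hKO hx'))
  refine ⟨g, g.contMDiff, ?_, fun x hx => hg1 hx⟩
  apply (closure_mono _).trans hOU
  intro x hx
  by_contra h
  exact hx (hg0 h)

end PUNM

theorem specPUN : SpecPUN := by
  intro G N U hU hc
  obtain ⟨l, hl, hlU, hsum⟩ := PUNM.weights G N U hU hc
  have h := fun c => PUNM.cutoff G (tsupport (l c)) (U c) (isClosed_tsupport _) (hU c) (hlU c)
  choose t ht htU ht1 using h
  refine ⟨l, t, hl, ht, htU, hsum, ?_⟩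
  intro c x
  by_cases hx : x ∈ tsupport (l c)
  · rw [ht1 c x hx, one_mul]
  · rw [image_eq_zero_of_notMem_tsupport hx, mul_zero]

end Pool.Agent.Lib.MP_9b987c_gt.HC
end

section
/-!
# TOP: the topological data of a hypercover
-/
namespace Pool.Agent.Lib.MP_9b987c_gt.HC

open scoped Manifold ContDiff BigOperators Topology

theorem specTOP (hLSC : SpecLSC) (hOST : SpecOST) (hPUN : SpecPUN) : SpecTOP := by
  intro G' G φ
  classical
  obtain ⟨W, h1, h2, h3, h4⟩ := hOST G (fun U => ∃ σ : G.Ob → G'.Ob,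
    ContMDiffOn (𝓡 G.m) (𝓡 G'.m) ∞ σ U ∧ ∀ y ∈ U, φ.ob (σ y) = y)
    (fun x => by
      obtain ⟨U, σ, hU, hx, hσ, hs⟩ := hLSC G' G φ x
      exact ⟨U, hU, hx, σ, hσ, hs⟩)
    (fun U V hU hVU _ => by
      obtain ⟨σ, hσ, hs⟩ := hU
      exact ⟨σ, hσ.mono hVU, fun y hy => hs y (hVU hy)⟩)
  have h5 : ∀ c S, ∃ σ : G.Ob → G'.Ob,
      ContMDiffOn (𝓡 G.m) (𝓡 G'.m) ∞ σ (W c S) ∧ ∀ y ∈ W c S, φ.ob (σ y) = y := by
    intro c S
    rcases h2 c S with h | h
    · exact h
    · refine ⟨Function.surjInv φ.ob_surj, ?_, ?_⟩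
      · rw [h]
        exact fun x hx => hx.elim
      · rw [h]
        exact fun x hx => hx.elim
  choose s hs1 hs2 using h5
  obtain ⟨l, tau, hl, ht, hsupp, hsum, htl⟩ := hPUN G (G.m + 1) (fun c => ⋃ S, W c S)
    (fun c => isOpen_iUnion fun S => h1 c S)
    (fun x => by
      obtain ⟨c, S, hx⟩ := h4 x
      exact ⟨c, Set.mem_iUnion.2 ⟨S, hx⟩⟩)
  have huniq : ∀ c S S' x, x ∈ W c S → x ∈ W c S' → S = S' := by
    intro c S S' x hx hx'
    by_contra hne
    exact Set.disjoint_left.1 (h3 c S S' hne) hx hx'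
  let σ : Fin (G.m + 1) → G.Ob → G'.Ob := fun c x =>
    if h : ∃ S, x ∈ W c S then s c h.choose x else Function.surjInv φ.ob_surj x
  have hσ : ∀ c S x, x ∈ W c S → σ c x = s c S x := by
    intro c S x hx
    have h : ∃ S, x ∈ W c S := ⟨S, hx⟩
    have h' : h.choose = S := huniq c _ _ x h.choose_spec hx
    show (if h : ∃ S, x ∈ W c S then s c h.choose x else Function.surjInv φ.ob_surj x) = _
    rw [dif_pos h, h']
  refine ⟨⟨G.m + 1, fun c => ⋃ S, W c S, σ, l, tau, fun c => isOpen_iUnion fun S => h1 c S, ?_, ?_,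
    hl, ht, hsupp, hsum, htl⟩⟩
  · intro c x
    by_cases h : ∃ S, x ∈ W c S
    · obtain ⟨S, hx⟩ := h
      rw [hσ c S x hx]
      exact hs2 c S x hx
    · show φ.ob (if h : ∃ S, x ∈ W c S then s c h.choose x else Function.surjInv φ.ob_surj x) = x
      rw [dif_neg h]
      exact Function.surjInv_eq φ.ob_surj x
  · intro c
    refine contMDiffOn_of_locally_contMDiffOn fun x hx => ?_
    obtain ⟨S, hx⟩ := Set.mem_iUnion.1 hx
    refine ⟨W c S, h1 c S, hx, ?_⟩
    exact ((hs1 c S).mono Set.inter_subset_right).congr fun y hy => hσ c S y hy.2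

end Pool.Agent.Lib.MP_9b987c_gt.HC
end
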