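import Pool.Agent.Lib.MP_9b987c_gt.HC.SpecA

section
/-!
# Module CXS: the complex `S`
-/
namespace Pool.Agent.Lib.MP_9b987c_gt.HC.CXSM

open scoped BigOperators
open Pool.Agent.Lib.MP_9b987c_gt.HC

section Gen

variable {K V : Type} [CommRing K]
variable {N P Q : Type} [AddCommGroup N] [Module K N] [AddCommGroup P] [Module K P]
  [AddCommGroup Q] [Module K Q]

lemma ac_comp_left (F : P →ₗ[K] Q) (A : V → List V → (N →ₗ[K] P)) (f : V → List V → N) (v : V)
    (l : List V) : ac (fun v l => F ∘ₗ A v l) f v l = F (ac A f v l) := by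
  induction l generalizing A v with
  | nil => simp
  | cons u l ih =>
    rw [ac_cons, ac_cons, map_add, LinearMap.comp_apply]
    congr 1
    exact ih (sh A v) u

lemma ac_comp_mid (F : N →ₗ[K] P) (A : V → List V → (P →ₗ[K] Q)) (f : V → List V → N) (v : V)
    (l : List V) : ac (fun v l => A v l ∘ₗ F) f v l = ac A (fun v l => F (f v l)) v l := by
  induction l generalizing A v with
  | nil => simp
  | cons u l ih =>
    rw [ac_cons, ac_cons, LinearMap.comp_apply]
    congr 1
    exact ih (sh A v) u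

lemma ac_add_left (A A' : V → List V → (N →ₗ[K] P)) (f : V → List V → N) (v : V)
    (l : List V) : ac (A + A') f v l = ac A f v l + ac A' f v l := by
  induction l generalizing A A' v with
  | nil => simp
  | cons u l ih =>
    rw [ac_cons, ac_cons, ac_cons, sh_add, ih]
    simp only [Pi.add_apply, LinearMap.add_apply]
    abel

lemma ac_zero_left (f : V → List V → N) (v : V) (l : List V) :
    ac (0 : V → List V → (N →ₗ[K] P)) f v l = 0 := by
  have h := ac_add_left (0 : V → List V → (N →ₗ[K] P)) 0 f v l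
  rw [add_zero] at h
  exact left_eq_add.mp h

lemma ac_neg_left (A : V → List V → (N →ₗ[K] P)) (f : V → List V → N) (v : V)
    (l : List V) : ac (-A) f v l = - ac A f v l := by
  have h := ac_add_left A (-A) f v l
  rw [add_neg_cancel, ac_zero_left] at h
  exact (neg_eq_of_add_eq_zero_right h.symm).symm

lemma sh_eps {X : Type} [AddCommGroup X] (h : V → List V → X) (v : V) :
    sh (eps h) v = -(eps (sh h v)) := by
  funext u l
  simp only [sh_apply, eps_apply, Pi.neg_apply, List.length_cons, pow_succ]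
  simp

lemma fcl_neg {X : Type} [AddCommGroup X] (h : V → List V → X) (v : V) (l : List V) :
    fcl (-h) v l = - fcl h v l := by
  induction l generalizing h v with
  | nil => simp
  | cons u l ih =>
    rw [fcl_cons, fcl_cons]
    have : sh (-h) v = -(sh h v) := rfl
    rw [this, ih]
    simp only [Pi.neg_apply]
    abel

lemma fcl_eps {X : Type} [AddCommGroup X] (h : V → List V → X) (v : V) (l : List V) :
    fcl (eps h) v l = - (((-1 : ℤ) ^ l.length) • fcl h v l) := by
  induction l generalizing h v with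
  | nil => simp
  | cons u l ih =>
    rw [fcl_cons, fcl_cons, sh_eps, fcl_neg, ih]
    simp only [eps_apply, List.length_cons, pow_succ, mul_neg, mul_one, neg_smul, smul_sub,
      smul_neg, neg_neg]
    abel

lemma ac_eps (A : V → List V → (N →ₗ[K] P)) (h : V → List V → N) (v : V) (l : List V) :
    ac A (eps h) v l = ((-1 : ℤ) ^ l.length) • ac (eps A) h v l := by
  induction l generalizing A v with
  | nil => simp [eps_apply]
  | cons u l ih =>
    rw [ac_cons, ac_cons, sh_eps, ac_neg_left, ih]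
    simp only [eps_apply, List.length_cons, List.length_nil, pow_zero, one_smul, pow_succ,
      mul_neg, mul_one, neg_smul, map_neg, map_zsmul, smul_add, smul_neg, neg_neg]

lemma sgn_pow (n : ℕ) (x : N) : sgn K (n : ℤ) • x = ((-1 : ℤ) ^ n) • x :=
  (negOnePow_smul n x).symm

lemma pow_pow_smul {X : Type} [AddCommGroup X] (n : ℕ) (x : X) :
    ((-1 : ℤ) ^ n) • (((-1 : ℤ) ^ n) • x) = x := by
  rw [smul_smul, ← mul_pow]; simp

end Gen

section Deg

variable {K V ι : Type} [CommRing K] {deg : ι → ℤ}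

lemma ac_mem {s : ℤ} {A : V → List V → ((ι → K) →ₗ[K] (ι → K))}
    (hA : ∀ v l, Deg deg deg (A v l) (s - l.length)) {q : ℤ} {f : V → List V → (ι → K)}
    (hf : ∀ v l, f v l ∈ gr K deg (q - l.length)) (v : V) (l : List V) :
    ac A f v l ∈ gr K deg (q + s - l.length) := by
  induction l generalizing A s v with
  | nil =>
    rw [ac_nil]
    have := hA v [] _ _ (hf v [])
    simp only [List.length_nil, Nat.cast_zero, sub_zero] at this ⊢
    exact this
  | cons u l ih =>
    rw [ac_cons]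
    refine (gr K deg _).add_mem ?_ ?_
    · have := hA v [] _ _ (hf v (u :: l))
      have e : q - ((u :: l).length : ℤ) + (s - (([] : List V).length : ℤ)) =
          q + s - ((u :: l).length : ℤ) := by
        simp only [List.length_nil, Nat.cast_zero]; ring
      rw [e] at this
      exact this
    · have h1 : ∀ v' l', Deg deg deg (sh A v v' l') ((s - 1) - l'.length) := by
        intro v' l'
        have := hA v (v' :: l')
        refine this.congr ?_
        simp only [List.length_cons]; push_cast; ring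
      have := ih h1 u
      have e : q + (s - 1) - (l.length : ℤ) = q + s - ((u :: l).length : ℤ) := by
        simp only [List.length_cons]; push_cast; ring
      rw [e] at this
      exact this

lemma fcl_mem {q : ℤ} {f : V → List V → (ι → K)}
    (hf : ∀ v l, f v l ∈ gr K deg (q - l.length)) (v : V) (l : List V) :
    fcl f v l ∈ gr K deg (q + 1 - l.length) := by
  induction l generalizing f q v with
  | nil => rw [fcl_nil]; exact (gr K deg _).zero_mem
  | cons u l ih =>
    rw [fcl_cons]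
    refine (gr K deg _).sub_mem ((gr K deg _).neg_mem ?_) ?_
    · have e : q - (l.length : ℤ) = q + 1 - ((u :: l).length : ℤ) := by
        simp only [List.length_cons]; push_cast; ring
      rw [← e]
      exact hf v l
    · have h1 : ∀ v' l', sh f v v' l' ∈ gr K deg ((q - 1) - l'.length) := by
        intro v' l'
        have := hf v (v' :: l')
        have e : q - ((v' :: l').length : ℤ) = (q - 1) - (l'.length : ℤ) := by
          simp only [List.length_cons]; push_cast; ring
        rw [e] at this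
        exact this
      have := ih h1 u
      have e : (q - 1) + 1 - (l.length : ℤ) = q + 1 - ((u :: l).length : ℤ) := by
        simp only [List.length_cons]; push_cast; ring
      rw [e] at this
      exact this

end Deg

section Main

variable {K V ι : Type} [CommRing K] [Finite ι] {deg : ι → ℤ}
  {e : V → (ι → K) →ₗ[K] (ι → K)} {R : V → List V → ((ι → K) →ₗ[K] (ι → K))}

lemma th_R (h : PreRuth deg e R) (v : V) (l : List V) (x : ι → K) :
    th K deg (R v l x) = - (((-1 : ℤ) ^ l.length) • R v l (th K deg x)) := by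
  have h1 := LinearMap.congr_fun (th_comp_of_deg (h.deg_R v l)) x
  simp only [LinearMap.comp_apply, LinearMap.smul_apply] at h1
  rw [h1, sgn_sub, sgn_one, mul_smul, sgn_pow]
  simp

lemma th_eps (h : PreRuth deg e R) (v : V) (l : List V) :
    th K deg ∘ₗ eps R v l = - (R v l ∘ₗ th K deg) := by
  apply LinearMap.ext; intro x
  simp only [LinearMap.comp_apply, eps_apply, LinearMap.smul_apply, LinearMap.neg_apply, map_zsmul]
  rw [th_R h, smul_neg, pow_pow_smul]

lemma eps_th (h : PreRuth deg e R) (v : V) (l : List V) :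
    eps R v l ∘ₗ th K deg = - (th K deg ∘ₗ R v l) := by
  apply LinearMap.ext; intro x
  simp only [LinearMap.comp_apply, eps_apply, LinearMap.smul_apply, LinearMap.neg_apply]
  rw [th_R h, neg_neg]

lemma th_snoc (h : PreRuth deg e R) (v : V) (l : List V) (u : V) (x : ι → K) :
    ((-1 : ℤ) ^ l.length) • th K deg (R v (l ++ [u]) x) = R v (l ++ [u]) (th K deg x) := by
  rw [th_R h]
  simp only [List.length_append, List.length_cons, List.length_nil, zero_add, pow_succ, mul_neg,
    mul_one, neg_smul, neg_neg]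
  rw [pow_pow_smul]

/-- `ac R (eps (θ g)) = - (-1)^k θ ac R g`. -/
lemma ac_eps_th (h : PreRuth deg e R) (g : V → List V → (ι → K)) (v : V) (l : List V) :
    ac R (fun v l => ((-1 : ℤ) ^ l.length) • th K deg (g v l)) v l =
      - (((-1 : ℤ) ^ l.length) • th K deg (ac R g v l)) := by
  have h1 : (fun v l => ((-1 : ℤ) ^ (l : List V).length) • th K deg (g v l)) =
      eps (fun v l => th K deg (g v l)) := rfl
  rw [h1, ac_eps, ← ac_comp_mid (th K deg) (eps R) g]
  have h2 : (fun v l => eps R v l ∘ₗ th K deg) = -(fun v l => th K deg ∘ₗ R v l) := by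
    funext v l; exact eps_th h v l
  rw [h2, ac_neg_left, ac_comp_left]
  simp

omit [Finite ι] in
lemma fcl_th (g : V → List V → (ι → K)) (v : V) (l : List V) :
    fcl (fun v l => th K deg (g v l)) v l = th K deg (fcl g v l) :=
  fcl_map (X := ι → K) (Y := ι → K) (th K deg).toAddMonoidHom g v l

omit [Finite ι] in
/-- `fcl (eps (θ g)) = - (-1)^k θ fcl g`. -/
lemma fcl_eps_th (g : V → List V → (ι → K)) (v : V) (l : List V) :
    fcl (fun v l => ((-1 : ℤ) ^ l.length) • th K deg (g v l)) v l =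
      - (((-1 : ℤ) ^ l.length) • th K deg (fcl g v l)) := by
  have h1 : (fun v l => ((-1 : ℤ) ^ (l : List V).length) • th K deg (g v l)) =
      eps (fun v l => th K deg (g v l)) := rfl
  rw [h1, fcl_eps, fcl_th]

omit [Finite ι] in
lemma dS_apply (f : Fn K V ι) (v : V) (l : List V) :
    dS deg R f v l = ac R f v l + th K deg (fcl f v l) := rfl

omit [Finite ι] in
lemma dS_fun (f : Fn K V ι) :
    dS deg R f = (fun v l => ac R f v l) + (fun v l => th K deg (fcl f v l)) := rfl

theorem dd (hLEI : SpecLEI) (h : PreRuth deg e R) : dS deg R ∘ₗ dS deg R = 0 := by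
  obtain ⟨L1, L2, L3, L4, L5, L6, L7, L8, L9, L10, L11⟩ :=
    hLEI K V (ι → K) (ι → K) (ι → K) (ι → K)
  apply LinearMap.ext; intro f
  funext v l
  rw [LinearMap.comp_apply, dS_apply, dS_fun, ac_add_right, fcl_add]
  have e1 : ac R (fun v l => ac R f v l) v l = ac (cv R R) f v l := (L1 R R f v l).symm
  have e2 : fcl (fun v l => ac R f v l) v l = ac (fc R) f v l + ac (eps R) (fcl f) v l :=
    L3 R f v l
  have e3 : fcl (fun v l => th K deg (fcl f v l)) v l = 0 := by
    have := fcl_th (deg := deg) (fcl f) v l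
    rw [L5] at this
    rw [map_zero] at this
    exact this
  rw [e1, e2, e3, add_zero, map_add]
  have e4 : th K deg (ac (eps R) (fcl f) v l) = - ac R (fun v l => th K deg (fcl f v l)) v l := by
    rw [← ac_comp_left]
    have h2 : (fun v l => th K deg ∘ₗ eps R v l) = -(fun v l => R v l ∘ₗ th K deg) := by
      funext v l; exact th_eps h v l
    rw [h2, ac_neg_left, ac_comp_mid]
  have e5 : th K deg (ac (fc R) f v l) = ac (fun v l => th K deg ∘ₗ fc R v l) f v l :=
    (ac_comp_left _ _ _ _ _).symm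
  rw [e4, e5]
  have e6 : ac (cv R R) f v l + ac (fun v l => th K deg ∘ₗ fc R v l) f v l = 0 := by
    rw [← ac_add_left]
    have h3 : cv R R + (fun v l => th K deg ∘ₗ fc R v l) = 0 := by
      funext v l
      have := h.eqn v l
      rw [add_comm] at this
      exact this
    rw [h3, ac_zero_left]
  have : ac (cv R R) f v l + ac R (fun v l => th K deg (fcl f v l)) v l +
      (ac (fun v l => th K deg ∘ₗ fc R v l) f v l +
        -ac R (fun v l => th K deg (fcl f v l)) v l) =
      ac (cv R R) f v l + ac (fun v l => th K deg ∘ₗ fc R v l) f v l := by abel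
  rw [this, e6]
  rfl

theorem ds (hLEI : SpecLEI) (h : PreRuth deg e R) (u : V) :
    dS deg R ∘ₗ sU deg R u = sU deg R u ∘ₗ R u [] := by
  obtain ⟨L1, L2, L3, L4, L5, L6, L7, L8, L9, L10, L11⟩ :=
    hLEI K V (ι → K) (ι → K) (ι → K) (ι → K)
  apply LinearMap.ext; intro z
  funext v l
  rw [LinearMap.comp_apply, LinearMap.comp_apply, dS_apply]
  have e0 : (sU deg R u z : Fn K V ι) = fun v l => R v (l ++ [u]) (th K deg z) := rfl
  have e0' : (sU deg R u (R u [] z) : Fn K V ι) v l = R v (l ++ [u]) (th K deg (R u [] z)) := rfl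
  rw [e0', e0]
  have e1 : ac R (fun v l => R v (l ++ [u]) (th K deg z)) v l =
      cv R (fun v l => R v (l ++ [u])) v l (th K deg z) :=
    (L11 R (fun v l => R v (l ++ [u])) v l (th K deg z)).symm
  have e2 : fcl (fun v l => R v (l ++ [u]) (th K deg z)) v l =
      fcl (fun v l => R v (l ++ [u])) v l (th K deg z) := by
    have := fcl_map (X := (ι → K) →ₗ[K] (ι → K)) (Y := ι → K)
      ⟨⟨fun G => G (th K deg z), by simp⟩, fun a b => by simp⟩ (fun v l => R v (l ++ [u])) v l
    exact this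
  have e3 : fc R v (l ++ [u]) = fcl (fun v l => R v (l ++ [u])) v l := by
    have := (hLEI K V ((ι → K) →ₗ[K] (ι → K)) (ι → K) (ι → K) (ι → K)).2.2.2.2.2.2.2.1 R v l u
    exact this
  have e4 := L10 R R v l u
  have e5 := h.eqn v (l ++ [u])
  rw [e1, e2, ← e3]
  have e6 : cv R (fun v l => R v (l ++ [u])) v l = cv R R v (l ++ [u]) - R v (l ++ [u]) ∘ₗ R u [] :=
    eq_sub_of_add_eq e4.symm
  rw [e6]
  have e7 := LinearMap.congr_fun e5 (th K deg z)
  simp only [LinearMap.add_apply, LinearMap.comp_apply, LinearMap.zero_apply] at e7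
  have e8 : th K deg (R u [] z) = - R u [] (th K deg z) := by
    rw [th_R h]; simp
  rw [e8, map_neg]
  simp only [LinearMap.sub_apply, LinearMap.comp_apply]
  have : cv R R v (l ++ [u]) (th K deg z) - R v (l ++ [u]) (R u [] (th K deg z)) +
      th K deg (fc R v (l ++ [u]) (th K deg z)) =
      (th K deg (fc R v (l ++ [u]) (th K deg z)) + cv R R v (l ++ [u]) (th K deg z)) -
        R v (l ++ [u]) (R u [] (th K deg z)) := by abel
  rw [this, e7]
  simp

theorem hmt (hLEI : SpecLEI) (h : PreRuth deg e R) (u : V) :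
    sU deg R u ∘ₗ evU u - LinearMap.id = dS deg R ∘ₗ hU deg u + hU deg u ∘ₗ dS deg R := by
  obtain ⟨L1, L2, L3, L4, L5, L6, L7, L8, L9, L10, L11⟩ :=
    hLEI K V (ι → K) (ι → K) (ι → K) (ι → K)
  apply LinearMap.ext; intro f
  funext v l
  have a1 : ((sU deg R u ∘ₗ evU u - (LinearMap.id : Fn K V ι →ₗ[K] Fn K V ι)) f : Fn K V ι) v l =
      R v (l ++ [u]) (th K deg (f u [])) - f v l := rfl
  have a2 : ((dS deg R ∘ₗ hU deg u + hU deg u ∘ₗ dS deg R) f : Fn K V ι) v l =
      dS deg R (hU deg u f) v l + ((-1 : ℤ) ^ l.length) • th K deg (dS deg R f v (l ++ [u])) := rfl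
  rw [a1, a2, dS_apply, dS_apply]
  have a3 : (hU deg u f : Fn K V ι) =
    fun v l => ((-1 : ℤ) ^ l.length) • th K deg ((fun v l => f v (l ++ [u])) v l) := rfl
  rw [a3, ac_eps_th h, fcl_eps_th, L9, L7]
  simp only [map_add, smul_add, map_neg, map_zsmul, th_th]
  rw [th_snoc h, smul_smul, ← pow_add]
  have a4 : ((-1 : ℤ) ^ (l.length + (l.length + 1))) • f v l = - f v l := by
    rw [← add_assoc, pow_succ, ← two_mul, pow_mul]
    simp
  rw [a4]
  abel

end Main

theorem main (hLEI : SpecLEI) : SpecCXS := by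
  intro K V ι _ _ deg e R h
  refine ⟨dd hLEI h, ds hLEI h, ?_, hmt hLEI h, ?_, ?_, ?_, ?_, ?_, ?_, ?_, ?_, ?_, ?_⟩
  · intro u
    apply LinearMap.ext; intro f
    simp only [LinearMap.comp_apply]
    have a1 : evU u (dS deg R f) = dS deg R f u [] := rfl
    have a2 : (evU u f : ι → K) = f u [] := rfl
    rw [a1, a2, dS_apply, ac_nil, fcl_nil, map_zero, add_zero]
  · apply LinearMap.ext; intro f
    funext v l
    have a1 : ((thS deg ∘ₗ thS deg) f : Fn K V ι) v l =
      ((-1 : ℤ) ^ l.length) • th K deg (((-1 : ℤ) ^ l.length) • th K deg (f v l)) := rfl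
    rw [a1, map_zsmul, pow_pow_smul, th_th]
    rfl
  · apply LinearMap.ext; intro f
    funext v l
    have a1 : ((thS deg ∘ₗ dS deg R) f : Fn K V ι) v l =
      ((-1 : ℤ) ^ l.length) • th K deg (dS deg R f v l) := rfl
    have a2 : ((-(dS deg R ∘ₗ thS deg)) f : Fn K V ι) v l = -(dS deg R (thS deg f) v l) := rfl
    have a3 : (thS deg f : Fn K V ι) = fun v l => ((-1 : ℤ) ^ l.length) • th K deg (f v l) := rfl
    rw [a1, a2, dS_apply, dS_apply, a3, ac_eps_th h, fcl_eps_th]
    simp only [map_add, smul_add, map_neg, map_zsmul, th_th, neg_add, neg_neg]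
  · intro u
    apply LinearMap.ext; intro f
    funext v l
    have a1 : ((thS deg ∘ₗ (hU deg u : Fn K V ι →ₗ[K] Fn K V ι)) f : Fn K V ι) v l =
      ((-1 : ℤ) ^ l.length) • th K deg (((-1 : ℤ) ^ l.length) • th K deg (f v (l ++ [u]))) := rfl
    have a2 : ((-((hU deg u : Fn K V ι →ₗ[K] Fn K V ι) ∘ₗ thS deg)) f : Fn K V ι) v l =
      -(((-1 : ℤ) ^ l.length) • th K deg (((-1 : ℤ) ^ (l ++ [u]).length) •
        th K deg (f v (l ++ [u])))) := rfl
    rw [a1, a2]
    simp only [map_zsmul, th_th, List.length_append, List.length_cons, List.length_nil, zero_add,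
      pow_succ, mul_neg, mul_one, neg_smul, map_neg, smul_neg, neg_neg]
  · intro u
    apply LinearMap.ext; intro f
    have a1 : ((th K deg ∘ₗ evU u) f : ι → K) = th K deg (f u []) := rfl
    have a2 : ((evU u ∘ₗ (thS deg : Fn K V ι →ₗ[K] Fn K V ι)) f : ι → K) =
      ((-1 : ℤ) ^ ([] : List V).length) • th K deg (f u []) := rfl
    rw [a1, a2]
    simp
  · intro u
    apply LinearMap.ext; intro z
    funext v l
    have a1 : ((thS deg ∘ₗ sU deg R u) z : Fn K V ι) v l =
      ((-1 : ℤ) ^ l.length) • th K deg (R v (l ++ [u]) (th K deg z)) := rfl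
    have a2 : ((sU deg R u ∘ₗ th K deg) z : Fn K V ι) v l =
      R v (l ++ [u]) (th K deg (th K deg z)) := rfl
    rw [a1, a2, th_snoc h]
  · intro q f hf v l
    have h1 := ac_mem (s := 1) h.deg_R hf v l
    have h2 := fcl_mem hf v l
    exact (gr K deg _).add_mem h1 (th_mem h2)
  · intro u q f hf v l
    have h1 := hf v (l ++ [u])
    have a1 : (hU deg u f : Fn K V ι) v l = ((-1 : ℤ) ^ l.length) • th K deg (f v (l ++ [u])) := rfl
    rw [a1]
    have e1 : q - ((l ++ [u]).length : ℤ) = q + -1 - (l.length : ℤ) := by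
      simp only [List.length_append, List.length_cons, List.length_nil]; push_cast; ring
    rw [e1] at h1
    exact zsmul_mem (th_mem h1) _
  · intro u q z hz v l
    have h1 := h.deg_R v (l ++ [u]) q _ (th_mem hz)
    have e1 : q + (1 - ((l ++ [u]).length : ℤ)) = q + 0 - (l.length : ℤ) := by
      simp only [List.length_append, List.length_cons, List.length_nil]; push_cast; ring
    rw [e1] at h1
    exact h1
  · intro u q f hf
    have h1 := hf u []
    have e1 : q - (([] : List V).length : ℤ) = q + 0 := by simp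
    rw [e1] at h1
    exact h1
  · intro q f hf v l
    have h1 := hf v l
    have a1 : (thS deg f : Fn K V ι) v l = ((-1 : ℤ) ^ l.length) • th K deg (f v l) := rfl
    rw [a1, add_zero]
    exact zsmul_mem (th_mem h1) _

end Pool.Agent.Lib.MP_9b987c_gt.HC.CXSM

namespace Pool.Agent.Lib.MP_9b987c_gt.HC

theorem specCXS (hLEI : SpecLEI) : SpecCXS := CXSM.main hLEI

end Pool.Agent.Lib.MP_9b987c_gt.HC
end

section
set_option autoImplicit false

/-!
# Naturality of the set level construction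
-/

namespace Pool.Agent.Lib.MP_9b987c_gt.HC
namespace NATM

open scoped BigOperators

section rel

variable {K K' : Type} [CommRing K] [CommRing K'] (φ : K →+* K')

/-- A relation between modules over `K` and `K'` compatible with the operations. -/
structure Rel (X X' : Type) [AddCommGroup X] [Module K X] [AddCommGroup X'] [Module K' X'] where
  r : X → X' → Prop
  zero : r 0 0
  add : ∀ {x x' y y'}, r x x' → r y y' → r (x + y) (x' + y')
  smul : ∀ (c : K) {x x'}, r x x' → r (c • x) (φ c • x')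

variable {φ}
variable {X X' : Type} [AddCommGroup X] [Module K X] [AddCommGroup X'] [Module K' X']
variable {Y Y' : Type} [AddCommGroup Y] [Module K Y] [AddCommGroup Y'] [Module K' Y']
variable {Z Z' : Type} [AddCommGroup Z] [Module K Z] [AddCommGroup Z'] [Module K' Z']
variable {U U' : Type} [AddCommGroup U] [Module K U] [AddCommGroup U'] [Module K' U']

theorem Rel.neg (R : Rel φ X X') {x : X} {x' : X'} (h : R.r x x') : R.r (-x) (-x') := by
  have := R.smul (-1) h
  simpa using this

theorem Rel.sub (R : Rel φ X X') {x y : X} {x' y' : X'} (h : R.r x x') (h' : R.r y y') :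
    R.r (x - y) (x' - y') := by
  rw [sub_eq_add_neg, sub_eq_add_neg]
  exact R.add h (R.neg h')

theorem Rel.zsmul (R : Rel φ X X') (n : ℤ) {x : X} {x' : X'} (h : R.r x x') :
    R.r (n • x) (n • x') := by
  have := R.smul (n : K) h
  rw [map_intCast] at this
  rwa [Int.cast_smul_eq_zsmul, Int.cast_smul_eq_zsmul] at this

theorem Rel.sum (R : Rel φ X X') {J : Type} (T : Finset J) {f : J → X} {f' : J → X'}
    (h : ∀ j ∈ T, R.r (f j) (f' j)) : R.r (∑ j ∈ T, f j) (∑ j ∈ T, f' j) := by
  classical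
  induction T using Finset.induction_on with
  | empty => simpa using R.zero
  | insert a T ha ih =>
    rw [Finset.sum_insert ha, Finset.sum_insert ha]
    exact R.add (h a (Finset.mem_insert_self _ _))
      (ih (fun j hj => h j (Finset.mem_insert_of_mem hj)))

/-- linear maps which preserve relations -/
def homRel (RX : Rel φ X X') (RY : Rel φ Y Y') : Rel φ (X →ₗ[K] Y) (X' →ₗ[K'] Y') where
  r F F' := ∀ x x', RX.r x x' → RY.r (F x) (F' x')
  zero _ _ _ := RY.zero
  add h h' x x' hx := RY.add (h x x' hx) (h' x x' hx)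
  smul c _ _ h x x' hx := RY.smul c (h x x' hx)

theorem Rel.comp {RX : Rel φ X X'} {RY : Rel φ Y Y'} {RZ : Rel φ Z Z'} {F : X →ₗ[K] Y}
    {F' : X' →ₗ[K'] Y'} {G : Y →ₗ[K] Z} {G' : Y' →ₗ[K'] Z'} (hG : (homRel RY RZ).r G G')
    (hF : (homRel RX RY).r F F') : (homRel RX RZ).r (G ∘ₗ F) (G' ∘ₗ F') :=
  fun x x' hx => hG _ _ (hF x x' hx)

theorem Rel.id (RX : Rel φ X X') :
    (homRel RX RX).r (LinearMap.id : X →ₗ[K] X) (LinearMap.id : X' →ₗ[K'] X') :=
  fun _ _ hx => hx

theorem Rel.pow {RX : Rel φ X X'} {F : X →ₗ[K] X} {F' : X' →ₗ[K'] X'}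
    (hF : (homRel RX RX).r F F') (n : ℕ) :
    (homRel RX RX).r ((F ^ n : Module.End K X) : X →ₗ[K] X)
      ((F' ^ n : Module.End K' X') : X' →ₗ[K'] X') := by
  induction n with
  | zero => exact Rel.id RX
  | succ n ih =>
    rw [pow_succ, pow_succ]
    exact Rel.comp (RY := RX) ih hF

/-- products -/
def prodRel (RX : Rel φ X X') (RY : Rel φ Y Y') : Rel φ (X × Y) (X' × Y') where
  r x x' := RX.r x.1 x'.1 ∧ RY.r x.2 x'.2
  zero := ⟨RX.zero, RY.zero⟩
  add h h' := ⟨RX.add h.1 h'.1, RY.add h.2 h'.2⟩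
  smul c _ _ h := ⟨RX.smul c h.1, RY.smul c h.2⟩

theorem Rel.fst (RX : Rel φ X X') (RY : Rel φ Y Y') :
    (homRel (prodRel RX RY) RX).r (LinearMap.fst K X Y) (LinearMap.fst K' X' Y') :=
  fun _ _ hx => hx.1

theorem Rel.snd (RX : Rel φ X X') (RY : Rel φ Y Y') :
    (homRel (prodRel RX RY) RY).r (LinearMap.snd K X Y) (LinearMap.snd K' X' Y') :=
  fun _ _ hx => hx.2

theorem Rel.prod {RX : Rel φ X X'} {RY : Rel φ Y Y'} {RZ : Rel φ Z Z'} {F : X →ₗ[K] Y}
    {F' : X' →ₗ[K'] Y'} {G : X →ₗ[K] Z} {G' : X' →ₗ[K'] Z'} (hF : (homRel RX RY).r F F')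
    (hG : (homRel RX RZ).r G G') :
    (homRel RX (prodRel RY RZ)).r (F.prod G) (F'.prod G') :=
  fun x x' hx => ⟨hF x x' hx, hG x x' hx⟩

theorem Rel.coprod {RX : Rel φ X X'} {RY : Rel φ Y Y'} {RZ : Rel φ Z Z'} {F : X →ₗ[K] Z}
    {F' : X' →ₗ[K'] Z'} {G : Y →ₗ[K] Z} {G' : Y' →ₗ[K'] Z'} (hF : (homRel RX RZ).r F F')
    (hG : (homRel RY RZ).r G G') :
    (homRel (prodRel RX RY) RZ).r (F.coprod G) (F'.coprod G') := by
  intro x x' hx
  rw [LinearMap.coprod_apply, LinearMap.coprod_apply]
  exact RZ.add (hF _ _ hx.1) (hG _ _ hx.2)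

theorem Rel.prodMap {RX : Rel φ X X'} {RY : Rel φ Y Y'} {RZ : Rel φ Z Z'} {RU : Rel φ U U'}
    {F : X →ₗ[K] Y} {F' : X' →ₗ[K'] Y'} {G : Z →ₗ[K] U} {G' : Z' →ₗ[K'] U'}
    (hF : (homRel RX RY).r F F') (hG : (homRel RZ RU).r G G') :
    (homRel (prodRel RX RZ) (prodRel RY RU)).r (F.prodMap G) (F'.prodMap G') :=
  fun _ _ hx => ⟨hF _ _ hx.1, hG _ _ hx.2⟩

variable (φ) in
/-- scalars -/
def scRel : Rel φ K K' where
  r c c' := c' = φ c
  zero := by simp
  add h h' := by rw [h, h', map_add]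
  smul c _ _ h := by rw [h]; simp

variable (φ) in
/-- vectors -/
def fnRel (ι : Type) : Rel φ (ι → K) (ι → K') where
  r z z' := z' = fun i => φ (z i)
  zero := by funext i; simp
  add h h' := by rw [h, h']; funext i; simp
  smul c _ _ h := by rw [h]; funext i; simp

variable {ι κ : Type}

theorem Rel.pi {RX : Rel φ X X'} {F : ι → X →ₗ[K] K} {F' : ι → X' →ₗ[K'] K'}
    (h : ∀ i, (homRel RX (scRel φ)).r (F i) (F' i)) :
    (homRel RX (fnRel φ ι)).r (LinearMap.pi F) (LinearMap.pi F') := by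
  intro x x' hx
  funext i
  exact h i x x' hx

theorem Rel.proj (i : ι) :
    (homRel (fnRel φ ι) (scRel φ)).r (LinearMap.proj i : (ι → K) →ₗ[K] K)
      (LinearMap.proj i : (ι → K') →ₗ[K'] K') := by
  intro x x' hx
  exact congrFun hx i

theorem Rel.funLeft (g : κ → ι) :
    (homRel (fnRel φ ι) (fnRel φ κ)).r (LinearMap.funLeft K K g) (LinearMap.funLeft K' K' g) := by
  intro x x' hx
  funext i
  exact congrFun hx (g i)

theorem Rel.th (deg : ι → ℤ) :
    (homRel (fnRel φ ι) (fnRel φ ι)).r (HC.th K deg) (HC.th K' deg) := by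
  intro x x' hx
  funext i
  rw [th_apply, th_apply, map_mul, map_sgn, congrFun hx i]

theorem lnat_iff {F : (ι → K) →ₗ[K] (κ → K)} {F' : (ι → K') →ₗ[K'] (κ → K')} :
    LNat φ F F' ↔ (homRel (fnRel φ ι) (fnRel φ κ)).r F F' := by
  constructor
  · intro h x x' hx
    have hx2 : x' = fun i => φ (x i) := hx
    rw [hx2]
    exact h x
  · intro h z
    exact h z _ rfl

end rel

section cochains

variable {K K' : Type} [CommRing K] [CommRing K'] {φ : K →+* K'} {V V' : Type} (α : V → V')
variable {X X' : Type} [AddCommGroup X] [Module K X] [AddCommGroup X'] [Module K' X']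
variable {Y Y' : Type} [AddCommGroup Y] [Module K Y] [AddCommGroup Y'] [Module K' Y']
variable {Z Z' : Type} [AddCommGroup Z] [Module K Z] [AddCommGroup Z'] [Module K' Z']

/-- related cochains -/
def CR (R : Rel φ X X') (f : V → List V → X) (f' : V' → List V' → X') : Prop :=
  ∀ v l, R.r (f v l) (f' (α v) (l.map α))

variable {α}

theorem CR.sh {R : Rel φ X X'} {f : V → List V → X} {f' : V' → List V' → X'} (h : CR α R f f')
    (v : V) : CR α R (HC.sh f v) (HC.sh f' (α v)) := fun u l => h v (u :: l)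

theorem CR.fcl {R : Rel φ X X'} {f : V → List V → X} {f' : V' → List V' → X'} (h : CR α R f f') :
    CR α R (HC.fcl f) (HC.fcl f') := by
  intro v l
  induction l generalizing f f' v with
  | nil => exact R.zero
  | cons u l ih =>
    rw [List.map_cons, fcl_cons, fcl_cons]
    exact R.sub (R.neg (h v l)) (ih (h.sh v) u)

theorem CR.fc {R : Rel φ X X'} {f : V → List V → X} {f' : V' → List V' → X'} (h : CR α R f f') :
    CR α R (HC.fc f) (HC.fc f') := by
  intro v l
  induction l generalizing f f' v with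
  | nil => exact R.zero
  | cons u l ih =>
    cases l with
    | nil => exact R.zero
    | cons w l =>
      have ih' := ih (h.sh v) u
      simp only [List.map_cons] at ih' ⊢
      rw [fc_cons, fc_cons]
      exact R.sub (R.neg (h v (w :: l))) ih'

theorem CR.ac {RX : Rel φ X X'} {RY : Rel φ Y Y'} {A : V → List V → (X →ₗ[K] Y)}
    {A' : V' → List V' → (X' →ₗ[K'] Y')} {f : V → List V → X} {f' : V' → List V' → X'}
    (hA : CR α (homRel RX RY) A A') (h : CR α RX f f') : CR α RY (HC.ac A f) (HC.ac A' f') := by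
  intro v l
  induction l generalizing A A' v with
  | nil => exact hA v [] _ _ (h v [])
  | cons u l ih =>
    rw [List.map_cons, ac_cons, ac_cons]
    exact RY.add (hA v [] _ _ (h v (u :: l))) (ih (hA.sh v) u)

theorem CR.cv {RX : Rel φ X X'} {RY : Rel φ Y Y'} {RZ : Rel φ Z Z'} {A : V → List V → (Y →ₗ[K] Z)}
    {A' : V' → List V' → (Y' →ₗ[K'] Z')} {B : V → List V → (X →ₗ[K] Y)}
    {B' : V' → List V' → (X' →ₗ[K'] Y')}
    (hA : CR α (homRel RY RZ) A A') (hB : CR α (homRel RX RY) B B') :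
    CR α (homRel RX RZ) (HC.cv A B) (HC.cv A' B') := by
  intro v l
  induction l generalizing A A' v with
  | nil => exact Rel.comp (hA v []) (hB v [])
  | cons u l ih =>
    rw [List.map_cons, cv_cons, cv_cons]
    exact (homRel RX RZ).add (Rel.comp (hA v []) (hB v (u :: l))) (ih (hA.sh v) u)

variable (φ α) in
/-- the relation on `Fn` -/
def FnRel (ι : Type) : Rel φ (Fn K V ι) (Fn K' V' ι) where
  r f f' := CR α (fnRel φ ι) f f'
  zero _ _ := (fnRel φ ι).zero
  add h h' v l := (fnRel φ ι).add (h v l) (h' v l)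
  smul c _ _ h v l := (fnRel φ ι).smul c (h v l)

variable {ι : Type}
variable {R : V → List V → ((ι → K) →ₗ[K] (ι → K))} {R' : V' → List V' → ((ι → K') →ₗ[K'] (ι → K'))}

theorem nat_dS (deg : ι → ℤ) (hR : CR α (homRel (fnRel φ ι) (fnRel φ ι)) R R') :
    (homRel (FnRel φ α ι) (FnRel φ α ι)).r (dS deg R) (dS deg R') := by
  intro f f' hf v l
  exact (fnRel φ ι).add (CR.ac hR hf v l) (Rel.th deg _ _ (CR.fcl hf v l))

theorem nat_sU (deg : ι → ℤ) (hR : CR α (homRel (fnRel φ ι) (fnRel φ ι)) R R') (u : V) :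
    (homRel (fnRel φ ι) (FnRel φ α ι)).r (sU deg R u) (sU deg R' (α u)) := by
  intro z z' hz v l
  have := hR v (l ++ [u]) _ _ (Rel.th deg _ _ hz)
  rw [List.map_append] at this
  exact this

theorem nat_hU (deg : ι → ℤ) (u : V) :
    (homRel (FnRel φ α ι) (FnRel φ α ι)).r (hU (K := K) deg u) (hU (K := K') deg (α u)) := by
  intro f f' hf v l
  have := (fnRel φ ι).zsmul ((-1 : ℤ) ^ l.length) (Rel.th deg _ _ (hf v (l ++ [u])))
  rw [List.map_append] at this
  show (fnRel φ ι).r _ (((-1 : ℤ) ^ (l.map α).length) • _)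
  rw [List.length_map]
  exact this

theorem nat_thS (deg : ι → ℤ) :
    (homRel (FnRel φ α ι) (FnRel φ α ι)).r (thS (K := K) deg) (thS (K := K') deg) := by
  intro f f' hf v l
  have := (fnRel φ ι).zsmul ((-1 : ℤ) ^ l.length) (Rel.th deg _ _ (hf v l))
  show (fnRel φ ι).r _ (((-1 : ℤ) ^ (l.map α).length) • _)
  rw [List.length_map]
  exact this

end cochains

section cov

variable {K K' : Type} [CommRing K] [CommRing K'] {φ : K →+* K'} {V V' W W' C : Type} [Fintype C]
  {α : V → V'} {β : W → W'} {D : Cov K V W C} {D' : Cov K' V' W' C} {ι : Type}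
variable {R : V → List V → ((ι → K) →ₗ[K] (ι → K))} {R' : V' → List V' → ((ι → K') →ₗ[K'] (ι → K'))}

omit [Fintype C] in
theorem nat_dP (hD : Cov.Map φ α β D D') (hR : CR α (homRel (fnRel φ ι) (fnRel φ ι)) R R')
    (w : W) : (homRel (fnRel φ (C × ι)) (fnRel φ (C × ι))).r (dP D R w) (dP D' R' (β w)) := by
  intro z z' hz
  funext ⟨c, i⟩
  show D'.tau c (β w) * R' (D'.lift c (β w)) [] (fun j => z' (c, j)) i
    = φ (D.tau c w * R (D.lift c w) [] (fun j => z (c, j)) i)
  rcases hD.col c w with ⟨h1, h2, h3, h4⟩ | ⟨h1, h2, h3⟩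
  · rw [h2, h4]; simp
  · rw [h1, h3, map_mul]
    congr 1
    exact congrFun (hR (D.lift c w) [] (fun j => z (c, j)) (fun j => z' (c, j)) (by
      funext j
      exact congrFun hz (c, j))) i

omit [Fintype C] in
theorem nat_uW (hD : Cov.Map φ α β D D') (w : W) :
    (homRel (FnRel φ α ι) (fnRel φ (C × ι))).r (uW D w) (uW D' (β w)) := by
  intro f f' hf
  funext ⟨c, i⟩
  show D'.l c (β w) * f' (D'.lift c (β w)) [] i = φ (D.l c w * f (D.lift c w) [] i)
  rcases hD.col c w with ⟨h1, h2, h3, h4⟩ | ⟨h1, h2, h3⟩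
  · rw [h1, h3]; simp
  · rw [h1, h2, map_mul]
    congr 1
    exact congrFun (hf (D.lift c w) []) i

theorem nat_vW (hD : Cov.Map φ α β D D') (deg : ι → ℤ)
    (hR : CR α (homRel (fnRel φ ι) (fnRel φ ι)) R R') (w : W) :
    (homRel (fnRel φ (C × ι)) (FnRel φ α ι)).r (vW D deg R w) (vW D' deg R' (β w)) := by
  unfold vW
  apply Rel.sum
  intro c _
  rcases hD.col c w with ⟨h1, h2, h3, h4⟩ | ⟨h1, h2, h3⟩
  · rw [h1, h3, zero_smul, zero_smul]
    exact Rel.zero _
  · rw [h1, h2]
    exact Rel.smul _ _ (Rel.comp (nat_sU deg hR _) (Rel.funLeft _))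

theorem nat_etaW (hD : Cov.Map φ α β D D') (deg : ι → ℤ) (w : W) :
    (homRel (FnRel φ α ι) (FnRel φ α ι)).r (etaW D deg w) (etaW D' deg (β w)) := by
  unfold etaW
  apply Rel.sum
  intro c _
  rcases hD.col c w with ⟨h1, h2, h3, h4⟩ | ⟨h1, h2, h3⟩
  · rw [h1, h3, zero_pow two_ne_zero, zero_pow two_ne_zero, zero_smul, zero_smul]
    exact Rel.zero _
  · rw [h1, h2, ← map_pow]
    exact Rel.smul _ _ (nat_hU deg _)

end cov

section telescope

variable {K K' : Type} [CommRing K] [CommRing K'] {φ : K →+* K'}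
variable {S S' : Type} [AddCommGroup S] [Module K S] [AddCommGroup S'] [Module K' S'] {ρ : Type}
variable {RS : Rel φ S S'}
variable {dp : (ρ → K) →ₗ[K] (ρ → K)} {dp' : (ρ → K') →ₗ[K'] (ρ → K')}
  {u : S →ₗ[K] (ρ → K)} {u' : S' →ₗ[K'] (ρ → K')}
  {v : (ρ → K) →ₗ[K] S} {v' : (ρ → K') →ₗ[K'] S'} {η : S →ₗ[K] S} {η' : S' →ₗ[K'] S'}

theorem nat_pj (hu : (homRel RS (fnRel φ ρ)).r u u') (hv : (homRel (fnRel φ ρ) RS).r v v')
    (hη : (homRel RS RS).r η η') (j : ℕ) :
    (homRel (fnRel φ ρ) (fnRel φ ρ)).r (pj u v η j) (pj u' v' η' j) :=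
  Rel.comp hu (Rel.comp (Rel.pow hη _) hv)

theorem nat_slot (n : ℕ) (m : Fin (n + 3)) :
    (homRel (fnRel φ (Fin (n + 3) × ρ)) (fnRel φ ρ)).r (slot K n ρ m) (slot K' n ρ m) :=
  Rel.funLeft _

theorem nat_blk (n : ℕ) {B : ℕ → ℕ → ((ρ → K) →ₗ[K] (ρ → K))}
    {B' : ℕ → ℕ → ((ρ → K') →ₗ[K'] (ρ → K'))}
    (hB : ∀ i j, (homRel (fnRel φ ρ) (fnRel φ ρ)).r (B i j) (B' i j)) :
    (homRel (fnRel φ (Fin (n + 3) × ρ)) (fnRel φ (Fin (n + 3) × ρ))).r (blk n B) (blk n B') := by
  unfold blk
  apply Rel.pi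
  intro i
  apply Rel.sum
  intro m _
  exact Rel.comp (Rel.proj _) (Rel.comp (hB _ _) (nat_slot n m))

theorem nat_ins0 (n : ℕ) :
    (homRel (fnRel φ ρ) (fnRel φ (Fin (n + 3) × ρ))).r (ins0 (K := K) n) (ins0 (K := K') n) := by
  unfold ins0
  apply Rel.pi
  intro i
  split_ifs
  · exact Rel.proj _
  · exact Rel.zero _

theorem nat_prj {κ : Type} (Q : κ → Prop) [DecidablePred Q] :
    (homRel (fnRel φ κ) (fnRel φ κ)).r (prj (K := K) Q) (prj (K := K') Q) := by
  unfold prj
  apply Rel.pi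
  intro i
  split_ifs
  · exact Rel.proj _
  · exact Rel.zero _

theorem nat_telD (n : ℕ) (hdp : (homRel (fnRel φ ρ) (fnRel φ ρ)).r dp dp')
    (hu : (homRel RS (fnRel φ ρ)).r u u') (hv : (homRel (fnRel φ ρ) RS).r v v')
    (hη : (homRel RS RS).r η η') :
    (homRel (fnRel φ (Fin (n + 3) × ρ)) (fnRel φ (Fin (n + 3) × ρ))).r (telD n dp u v η)
      (telD n dp' u' v' η') := by
  unfold telD
  apply nat_blk
  intro i j
  split_ifs
  · exact Rel.zsmul _ _ hdp
  · exact Rel.sub _ (Rel.zsmul _ _ (nat_pj hu hv hη _)) (Rel.id _)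
  · exact Rel.sub _ (Rel.zsmul _ _ (nat_pj hu hv hη _)) (Rel.zero _)
  · exact Rel.zero _

theorem nat_telPi (n : ℕ) (hdp : (homRel (fnRel φ ρ) (fnRel φ ρ)).r dp dp')
    (hu : (homRel RS (fnRel φ ρ)).r u u') (hv : (homRel (fnRel φ ρ) RS).r v v')
    (hη : (homRel RS RS).r η η') :
    (homRel (fnRel φ (Fin (n + 3) × ρ)) (fnRel φ (Fin (n + 3) × ρ))).r (telPi n dp u v η)
      (telPi n dp' u' v' η') := by
  unfold telPi
  apply nat_blk
  intro i j
  split_ifs
  · exact Rel.zsmul _ _ hdp
  · exact Rel.add _ (Rel.zsmul _ _ (nat_pj hu hv hη _)) (Rel.id _)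
  · exact Rel.add _ (Rel.zsmul _ _ (nat_pj hu hv hη _)) (Rel.zero _)
  · exact Rel.zero _

theorem nat_telK (n : ℕ) :
    (homRel (fnRel φ (Fin (n + 3) × ρ)) (fnRel φ (Fin (n + 3) × ρ))).r (telK K n ρ)
      (telK K' n ρ) := by
  unfold telK
  apply nat_blk
  intro i j
  split_ifs
  · exact Rel.id _
  · exact Rel.zero _

theorem nat_telE (n : ℕ) (dg : ρ → ℤ) (lo : ℤ) (hdp : (homRel (fnRel φ ρ) (fnRel φ ρ)).r dp dp')
    (hu : (homRel RS (fnRel φ ρ)).r u u') (hv : (homRel (fnRel φ ρ) RS).r v v')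
    (hη : (homRel RS RS).r η η') :
    (homRel (fnRel φ (Fin (n + 3) × ρ)) (fnRel φ (Fin (n + 3) × ρ))).r (telE n dg lo dp u v η)
      (telE n dg lo dp' u' v' η') := by
  unfold telE
  exact Rel.add _ (nat_prj _) (Rel.comp (nat_telPi n hdp hu hv hη) (nat_prj _))

theorem nat_teldE (n : ℕ) (dg : ρ → ℤ) (lo : ℤ) (hdp : (homRel (fnRel φ ρ) (fnRel φ ρ)).r dp dp')
    (hu : (homRel RS (fnRel φ ρ)).r u u') (hv : (homRel (fnRel φ ρ) RS).r v v')
    (hη : (homRel RS RS).r η η') :
    (homRel (fnRel φ (Fin (n + 3) × ρ)) (fnRel φ (Fin (n + 3) × ρ))).r (teldE n dg lo dp u v η)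
      (teldE n dg lo dp' u' v' η') :=
  Rel.comp (nat_telD n hdp hu hv hη) (nat_telE n dg lo hdp hu hv hη)

theorem nat_telA (n : ℕ) (dg : ρ → ℤ) (lo : ℤ) (hdp : (homRel (fnRel φ ρ) (fnRel φ ρ)).r dp dp')
    (hu : (homRel RS (fnRel φ ρ)).r u u') (hv : (homRel (fnRel φ ρ) RS).r v v')
    (hη : (homRel RS RS).r η η') :
    (homRel (fnRel φ (Fin (n + 3) × ρ)) RS).r (telA n dg lo dp u v η)
      (telA n dg lo dp' u' v' η') := by
  unfold telA
  refine Rel.comp (Rel.sum _ _ ?_) (nat_telE n dg lo hdp hu hv hη)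
  intro m _
  exact Rel.comp (Rel.pow hη _) (Rel.comp hv (nat_slot n m))

theorem nat_telB (n : ℕ) (dg : ρ → ℤ) (lo : ℤ) (hdp : (homRel (fnRel φ ρ) (fnRel φ ρ)).r dp dp')
    (hu : (homRel RS (fnRel φ ρ)).r u u') (hv : (homRel (fnRel φ ρ) RS).r v v')
    (hη : (homRel RS RS).r η η') :
    (homRel RS (fnRel φ (Fin (n + 3) × ρ))).r (telB n dg lo dp u v η)
      (telB n dg lo dp' u' v' η') :=
  Rel.comp (nat_telE n dg lo hdp hu hv hη) (Rel.comp (nat_ins0 n) hu)

theorem nat_telKE (n : ℕ) (dg : ρ → ℤ) (lo : ℤ) (hdp : (homRel (fnRel φ ρ) (fnRel φ ρ)).r dp dp')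
    (hu : (homRel RS (fnRel φ ρ)).r u u') (hv : (homRel (fnRel φ ρ) RS).r v v')
    (hη : (homRel RS RS).r η η') :
    (homRel (fnRel φ (Fin (n + 3) × ρ)) (fnRel φ (Fin (n + 3) × ρ))).r (telKE n dg lo dp u v η)
      (telKE n dg lo dp' u' v' η') :=
  Rel.comp (nat_telE n dg lo hdp hu hv hη) (Rel.comp (nat_telK n) (nat_telE n dg lo hdp hu hv hη))

end telescope

section big

variable {K K' : Type} [CommRing K] [CommRing K'] {φ : K →+* K'}
variable {S S' : Type} [AddCommGroup S] [Module K S] [AddCommGroup S'] [Module K' S']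
variable {E E' : Type} [AddCommGroup E] [Module K E] [AddCommGroup E'] [Module K' E']
variable {RS : Rel φ S S'} {RE : Rel φ E E'}
variable {d : S →ₗ[K] S} {d' : S' →ₗ[K'] S'} {η : S →ₗ[K] S} {η' : S' →ₗ[K'] S'}
  {a : E →ₗ[K] S} {a' : E' →ₗ[K'] S'} {b : S →ₗ[K] E} {b' : S' →ₗ[K'] E'}
  {e : E →ₗ[K] E} {e' : E' →ₗ[K'] E'} {dE : E →ₗ[K] E} {dE' : E' →ₗ[K'] E'}
  {k : E →ₗ[K] E} {k' : E' →ₗ[K'] E'} {t : S →ₗ[K] S} {t' : S' →ₗ[K'] S'}
  {tE : E →ₗ[K] E} {tE' : E' →ₗ[K'] E'}

theorem nat_bigD (hd : (homRel RS RS).r d d') :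
    (homRel (prodRel RS (prodRel RE RE)) (prodRel RS (prodRel RE RE))).r (bigD (E := E) d)
      (bigD (E := E') d') :=
  Rel.prod (Rel.comp hd (Rel.fst _ _))
    (Rel.prod (Rel.zero _) (Rel.comp (Rel.fst _ _) (Rel.snd _ _)))

theorem nat_bigA (ha : (homRel RE RS).r a a') (hdE : (homRel RE RE).r dE dE')
    (hk : (homRel RE RE).r k k') :
    (homRel RE (prodRel RS (prodRel RE RE))).r (bigA a dE k) (bigA a' dE' k') :=
  Rel.prod ha (Rel.prod (Rel.neg _ (Rel.comp hk hdE)) (Rel.neg _ hk))

theorem nat_bigB (hb : (homRel RS RE).r b b') (he : (homRel RE RE).r e e')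
    (hdE : (homRel RE RE).r dE dE') :
    (homRel (prodRel RS (prodRel RE RE)) RE).r (bigB b e dE) (bigB b' e' dE') :=
  Rel.coprod hb (Rel.coprod he hdE)

theorem nat_bigH0 (hη : (homRel RS RS).r η η') (ha : (homRel RE RS).r a a')
    (hb : (homRel RS RE).r b b') (he : (homRel RE RE).r e e')
    (hdE : (homRel RE RE).r dE dE') (hk : (homRel RE RE).r k k') :
    (homRel (prodRel RS (prodRel RE RE)) (prodRel RS (prodRel RE RE))).r (bigH0 η a b e dE k)
      (bigH0 η' a' b' e' dE' k') :=
  Rel.prod (Rel.coprod hη (Rel.comp ha (Rel.snd _ _)))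
    (Rel.prod (Rel.sub _ (Rel.neg _ (Rel.comp hk (nat_bigB hb he hdE)))
      (Rel.comp (Rel.snd _ _) (Rel.snd _ _))) (Rel.zero _))

theorem nat_bigP (ha : (homRel RE RS).r a a')
    (hb : (homRel RS RE).r b b') (he : (homRel RE RE).r e e')
    (hdE : (homRel RE RE).r dE dE') (hk : (homRel RE RE).r k k') :
    (homRel (prodRel RS (prodRel RE RE)) (prodRel RS (prodRel RE RE))).r (bigP a b e dE k)
      (bigP a' b' e' dE' k') :=
  Rel.sub _ (Rel.id _) (Rel.comp (nat_bigA ha hdE hk) (nat_bigB hb he hdE))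

theorem nat_bigH1 (hη : (homRel RS RS).r η η') (ha : (homRel RE RS).r a a')
    (hb : (homRel RS RE).r b b') (he : (homRel RE RE).r e e')
    (hdE : (homRel RE RE).r dE dE') (hk : (homRel RE RE).r k k') :
    (homRel (prodRel RS (prodRel RE RE)) (prodRel RS (prodRel RE RE))).r (bigH1 η a b e dE k)
      (bigH1 η' a' b' e' dE' k') :=
  Rel.comp (nat_bigP ha hb he hdE hk) (Rel.comp (nat_bigH0 hη ha hb he hdE hk)
    (nat_bigP ha hb he hdE hk))

theorem nat_bigH (hd : (homRel RS RS).r d d') (hη : (homRel RS RS).r η η')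
    (ha : (homRel RE RS).r a a')
    (hb : (homRel RS RE).r b b') (he : (homRel RE RE).r e e')
    (hdE : (homRel RE RE).r dE dE') (hk : (homRel RE RE).r k k') :
    (homRel (prodRel RS (prodRel RE RE)) (prodRel RS (prodRel RE RE))).r (bigH d η a b e dE k)
      (bigH d' η' a' b' e' dE' k') :=
  Rel.neg _ (Rel.comp (nat_bigH1 hη ha hb he hdE hk) (Rel.comp (nat_bigD hd)
    (nat_bigH1 hη ha hb he hdE hk)))

theorem nat_bigTh (ht : (homRel RS RS).r t t') (htE : (homRel RE RE).r tE tE') :
    (homRel (prodRel RS (prodRel RE RE)) (prodRel RS (prodRel RE RE))).r (bigTh t tE)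
      (bigTh t' tE') :=
  Rel.prodMap ht (Rel.prodMap htE (Rel.neg _ htE))

end big

section transfer

variable {K K' : Type} [CommRing K] [CommRing K'] {φ : K →+* K'} {W W' : Type} {β : W → W'}
variable {M M' : Type} [AddCommGroup M] [Module K M] [AddCommGroup M'] [Module K' M']
variable {E E' : Type} [AddCommGroup E] [Module K E] [AddCommGroup E'] [Module K' E']
variable {RM : Rel φ M M'} {RE : Rel φ E E'}
variable {a : W → (E →ₗ[K] M)} {a' : W' → (E' →ₗ[K'] M')} {b : W → (M →ₗ[K] E)}
  {b' : W' → (M' →ₗ[K'] E')} {G : W → (M →ₗ[K] M)} {G' : W' → (M' →ₗ[K'] M')}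
  {dE : W → (E →ₗ[K] E)} {dE' : W' → (E' →ₗ[K'] E')} {tE : E →ₗ[K] E} {tE' : E' →ₗ[K'] E'}

theorem nat_Yc (ha : ∀ w, (homRel RE RM).r (a w) (a' (β w)))
    (hG : ∀ w, (homRel RM RM).r (G w) (G' (β w))) :
    CR β (homRel RE RM) (Yc a G) (Yc a' G') := by
  intro w l
  induction l generalizing w with
  | nil => exact ha w
  | cons u l ih => exact Rel.comp (hG w) (ih u)

theorem nat_trR (hdE : ∀ w, (homRel RE RE).r (dE w) (dE' (β w))) (htE : (homRel RE RE).r tE tE')
    (ha : ∀ w, (homRel RE RM).r (a w) (a' (β w)))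
    (hb : ∀ w, (homRel RM RE).r (b w) (b' (β w)))
    (hG : ∀ w, (homRel RM RM).r (G w) (G' (β w))) :
    CR β (homRel RE RE) (trR dE tE a b G) (trR dE' tE' a' b' G') := by
  intro w l
  cases l with
  | nil => exact hdE w
  | cons u l => exact Rel.comp (hb w) (Rel.comp (nat_Yc ha hG u l) htE)

end transfer

section output

variable {K K' : Type} [CommRing K] [CommRing K'] {φ : K →+* K'} {V V' W W' C : Type} [Fintype C]
  {α : V → V'} {β : W → W'} {D : Cov K V W C} {D' : Cov K' V' W' C} {ι : Type}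
variable {R : V → List V → ((ι → K) →ₗ[K] (ι → K))} {R' : V' → List V' → ((ι → K') →ₗ[K'] (ι → K'))}

theorem nat_oE (hD : Cov.Map φ α β D D') (deg : ι → ℤ) (lo : ℤ) (n : ℕ)
    (hR : CR α (homRel (fnRel φ ι) (fnRel φ ι)) R R') (w : W) :
    (homRel (fnRel φ (Kap n C ι)) (fnRel φ (Kap n C ι))).r (oE D deg lo n R w)
      (oE D' deg lo n R' (β w)) :=
  nat_telE n _ lo (nat_dP hD hR w) (nat_uW hD w) (nat_vW hD deg hR w) (nat_etaW hD deg w)

theorem nat_oD (hD : Cov.Map φ α β D D') (deg : ι → ℤ) (lo : ℤ) (n : ℕ)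
    (hR : CR α (homRel (fnRel φ ι) (fnRel φ ι)) R R') (w : W) :
    (homRel (fnRel φ (Kap n C ι)) (fnRel φ (Kap n C ι))).r (oD D deg lo n R w)
      (oD D' deg lo n R' (β w)) :=
  nat_teldE n _ lo (nat_dP hD hR w) (nat_uW hD w) (nat_vW hD deg hR w) (nat_etaW hD deg w)

theorem nat_oA (hD : Cov.Map φ α β D D') (deg : ι → ℤ) (lo : ℤ) (n : ℕ)
    (hR : CR α (homRel (fnRel φ ι) (fnRel φ ι)) R R') (w : W) :
    (homRel (fnRel φ (Kap n C ι)) (FnRel φ α ι)).r (oA D deg lo n R w)
      (oA D' deg lo n R' (β w)) :=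
  nat_telA n _ lo (nat_dP hD hR w) (nat_uW hD w) (nat_vW hD deg hR w) (nat_etaW hD deg w)

theorem nat_oB (hD : Cov.Map φ α β D D') (deg : ι → ℤ) (lo : ℤ) (n : ℕ)
    (hR : CR α (homRel (fnRel φ ι) (fnRel φ ι)) R R') (w : W) :
    (homRel (FnRel φ α ι) (fnRel φ (Kap n C ι))).r (oB D deg lo n R w)
      (oB D' deg lo n R' (β w)) :=
  nat_telB n _ lo (nat_dP hD hR w) (nat_uW hD w) (nat_vW hD deg hR w) (nat_etaW hD deg w)

theorem nat_oK (hD : Cov.Map φ α β D D') (deg : ι → ℤ) (lo : ℤ) (n : ℕ)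
    (hR : CR α (homRel (fnRel φ ι) (fnRel φ ι)) R R') (w : W) :
    (homRel (fnRel φ (Kap n C ι)) (fnRel φ (Kap n C ι))).r (oK D deg lo n R w)
      (oK D' deg lo n R' (β w)) :=
  nat_telKE n _ lo (nat_dP hD hR w) (nat_uW hD w) (nat_vW hD deg hR w) (nat_etaW hD deg w)

variable (φ α) in
/-- the relation on the big space -/
def bigRel (n : ℕ) (C ι : Type) : Rel φ (BigS K V n C ι) (BigS K' V' n C ι) :=
  prodRel (FnRel φ α ι) (prodRel (fnRel φ (Kap n C ι)) (fnRel φ (Kap n C ι)))

theorem nat_oAA (hD : Cov.Map φ α β D D') (deg : ι → ℤ) (lo : ℤ) (n : ℕ)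
    (hR : CR α (homRel (fnRel φ ι) (fnRel φ ι)) R R') (w : W) :
    (homRel (fnRel φ (Kap n C ι)) (bigRel φ α n C ι)).r (oAA D deg lo n R w)
      (oAA D' deg lo n R' (β w)) :=
  nat_bigA (nat_oA hD deg lo n hR w) (nat_oD hD deg lo n hR w) (nat_oK hD deg lo n hR w)

theorem nat_oBB (hD : Cov.Map φ α β D D') (deg : ι → ℤ) (lo : ℤ) (n : ℕ)
    (hR : CR α (homRel (fnRel φ ι) (fnRel φ ι)) R R') (w : W) :
    (homRel (bigRel φ α n C ι) (fnRel φ (Kap n C ι))).r (oBB D deg lo n R w)
      (oBB D' deg lo n R' (β w)) :=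
  nat_bigB (nat_oB hD deg lo n hR w) (nat_oE hD deg lo n hR w) (nat_oD hD deg lo n hR w)

theorem nat_oG (hD : Cov.Map φ α β D D') (deg : ι → ℤ) (lo : ℤ) (n : ℕ)
    (hR : CR α (homRel (fnRel φ ι) (fnRel φ ι)) R R') (w : W) :
    (homRel (bigRel φ α n C ι) (bigRel φ α n C ι)).r (oG D deg lo n R w)
      (oG D' deg lo n R' (β w)) :=
  Rel.comp (nat_bigTh (nat_thS deg) (Rel.th _))
    (nat_bigH (nat_dS deg hR) (nat_etaW hD deg w) (nat_oA hD deg lo n hR w)
      (nat_oB hD deg lo n hR w) (nat_oE hD deg lo n hR w) (nat_oD hD deg lo n hR w)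
      (nat_oK hD deg lo n hR w))

theorem nat_oR (hD : Cov.Map φ α β D D') (deg : ι → ℤ) (lo : ℤ) (n : ℕ)
    (hR : CR α (homRel (fnRel φ ι) (fnRel φ ι)) R R') :
    CR β (homRel (fnRel φ (Kap n C ι)) (fnRel φ (Kap n C ι))) (oR D deg lo n R)
      (oR D' deg lo n R') :=
  nat_trR (nat_oD hD deg lo n hR) (Rel.th _) (nat_oAA hD deg lo n hR) (nat_oBB hD deg lo n hR)
    (nat_oG hD deg lo n hR)

theorem nat_EV (n : ℕ) (C ι : Type) :
    CR α (homRel (bigRel φ α n C ι) (fnRel φ ι)) (EV K V n C ι) (EV K' V' n C ι) := by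
  intro v l x x' hx
  exact hx.1 v l

theorem nat_oPsi (hD : Cov.Map φ α β D D') (deg : ι → ℤ) (lo : ℤ) (n : ℕ)
    (hR : CR α (homRel (fnRel φ ι) (fnRel φ ι)) R R') {e : V → (ι → K) →ₗ[K] (ι → K)}
    {e' : V' → (ι → K') →ₗ[K'] (ι → K')}
    (he : ∀ v, (homRel (fnRel φ ι) (fnRel φ ι)).r (e v) (e' (α v))) :
    CR α (homRel (fnRel φ (Kap n C ι)) (fnRel φ ι)) (oPsi D deg lo n R e)
      (oPsi D' deg lo n R' e') := by
  intro v l
  refine Rel.comp (he v) (CR.cv (nat_EV n C ι) ?_ v l)
  intro v l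
  have h1 := nat_Yc (nat_oAA hD deg lo n hR) (nat_oG hD deg lo n hR) (D.p v) (l.map D.p)
  have h2 : (l.map D.p).map β = (l.map α).map D'.p := by
    rw [List.map_map, List.map_map]
    apply List.map_congr_left
    intro x _
    exact (hD.p x).symm
  rw [h2, ← hD.p v] at h1
  dsimp only
  rw [List.length_map]
  exact Rel.zsmul _ _ h1

end output

end NATM

open NATM in
theorem specNAT : SpecNAT := by
  intro K K' V V' W W' C ι _ _ _ φ α β D D' deg lo n e R e' R' hD hR he
  have hR' : CR α (homRel (fnRel φ ι) (fnRel φ ι)) R R' := fun v l => lnat_iff.1 (hR v l)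
  refine ⟨?_, ?_, ?_⟩
  · intro w
    exact lnat_iff.2 (nat_oE hD deg lo n hR' w)
  · intro w l
    exact lnat_iff.2 (nat_oR hD deg lo n hR' w l)
  · intro v l
    exact lnat_iff.2 (nat_oPsi hD deg lo n hR' (fun v => lnat_iff.1 (he v)) v l)

end Pool.Agent.Lib.MP_9b987c_gt.HC
end

section
/-!
# NTA: naturality of averages
-/
namespace Pool.Agent.Lib.MP_9b987c_gt.HC

open scoped BigOperators

namespace NTAM

variable {K K' : Type} [CommRing K] [CommRing K'] {φ : K →+* K'} {ι κ : Type}

theorem lnat_zero : LNat φ (0 : (ι → K) →ₗ[K] (κ → K)) (0 : (ι → K') →ₗ[K'] (κ → K')) := by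
  intro z
  funext j
  simp

theorem lnat_add {F G : (ι → K) →ₗ[K] (κ → K)} {F' G' : (ι → K') →ₗ[K'] (κ → K')}
    (h : LNat φ F F') (h' : LNat φ G G') : LNat φ (F + G) (F' + G') := by
  intro z
  funext j
  have h1 := congrFun (h z) j
  have h2 := congrFun (h' z) j
  simp only [LinearMap.add_apply, Pi.add_apply, map_add] at h1 h2 ⊢
  rw [h1, h2]

theorem lnat_sub {F G : (ι → K) →ₗ[K] (κ → K)} {F' G' : (ι → K') →ₗ[K'] (κ → K')}
    (h : LNat φ F F') (h' : LNat φ G G') : LNat φ (F - G) (F' - G') := by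
  intro z
  funext j
  have h1 := congrFun (h z) j
  have h2 := congrFun (h' z) j
  simp only [LinearMap.sub_apply, Pi.sub_apply, map_sub] at h1 h2 ⊢
  rw [h1, h2]

theorem lnat_smul {F : (ι → K) →ₗ[K] (κ → K)} {F' : (ι → K') →ₗ[K'] (κ → K')} (k : K) (k' : K')
    (hk : k' = φ k) (h : LNat φ F F') : LNat φ (k • F) (k' • F') := by
  intro z
  funext j
  have h1 := congrFun (h z) j
  simp only [LinearMap.smul_apply, Pi.smul_apply, smul_eq_mul, map_mul] at h1 ⊢
  rw [h1, hk]

theorem lnat_sum {C : Type} (s : Finset C) {F : C → ((ι → K) →ₗ[K] (κ → K))}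
    {F' : C → ((ι → K') →ₗ[K'] (κ → K'))} (h : ∀ c ∈ s, LNat φ (F c) (F' c)) :
    LNat φ (∑ c ∈ s, F c) (∑ c ∈ s, F' c) := by
  classical
  induction s using Finset.induction_on with
  | empty => rw [Finset.sum_empty, Finset.sum_empty]; exact lnat_zero
  | insert a s ha ih =>
    rw [Finset.sum_insert ha, Finset.sum_insert ha]
    exact lnat_add (h a (Finset.mem_insert_self a s))
      (ih (fun c hc => h c (Finset.mem_insert_of_mem hc)))

variable {V V' W W' C : Type} [Fintype C] {α : V → V'} {β : W → W'}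
  {D : Cov K V W C} {D' : Cov K' V' W' C}

theorem conat_sh {A : V → List V → ((ι → K) →ₗ[K] (κ → K))}
    {A' : V' → List V' → ((ι → K') →ₗ[K'] (κ → K'))} (h : CoNat φ α A A') (v : V) :
    CoNat φ α (sh A v) (sh A' (α v)) := fun u l => h v (u :: l)

theorem avL_nat (hD : Cov.Map φ α β D D') (l : List W) :
    ∀ (A : V → List V → ((ι → K) →ₗ[K] (κ → K))) (A' : V' → List V' → ((ι → K') →ₗ[K'] (κ → K')))
      (w : W), CoNat φ α A A' → LNat φ (avL D l A w) (avL D' (l.map β) A' (β w)) := by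
  induction l with
  | nil =>
    intro A A' w h
    show LNat φ (∑ c, (D.l c w ^ 2) • A (D.lift c w) [])
      (∑ c, (D'.l c (β w) ^ 2) • A' (D'.lift c (β w)) [])
    refine lnat_sum _ fun c _ => ?_
    rcases hD.col c w with ⟨h1, -, h2, -⟩ | ⟨h1, h2, -⟩
    · rw [h1, h2]
      simp only [ne_eq, OfNat.ofNat_ne_zero, not_false_eq_true, zero_pow, zero_smul]
      exact lnat_zero
    · rw [h1]
      exact lnat_smul _ _ (by rw [h2, map_pow]) (h (D.lift c w) [])
  | cons w' l ih =>
    intro A A' w h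
    show LNat φ (∑ c, (D.l c w ^ 2) • avL D l (sh A (D.lift c w)) w')
      (∑ c, (D'.l c (β w) ^ 2) • avL D' (l.map β) (sh A' (D'.lift c (β w))) (β w'))
    refine lnat_sum _ fun c _ => ?_
    rcases hD.col c w with ⟨h1, -, h2, -⟩ | ⟨h1, h2, -⟩
    · rw [h1, h2]
      simp only [ne_eq, OfNat.ofNat_ne_zero, not_false_eq_true, zero_pow, zero_smul]
      exact lnat_zero
    · rw [h1]
      exact lnat_smul _ _ (by rw [h2, map_pow]) (ih _ _ _ (conat_sh h _))

theorem hrL_nat (hD : Cov.Map φ α β D D') (l : List V) :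
    ∀ (A : V → List V → ((ι → K) →ₗ[K] (κ → K))) (A' : V' → List V' → ((ι → K') →ₗ[K'] (κ → K')))
      (v : V), CoNat φ α A A' → LNat φ (hrL D l A v) (hrL D' (l.map α) A' (α v)) := by
  induction l with
  | nil =>
    intro A A' v h
    show LNat φ (avL D [] (sh A v) (D.p v)) (avL D' [] (sh A' (α v)) (D'.p (α v)))
    rw [hD.p]
    exact avL_nat hD [] _ _ _ (conat_sh h v)
  | cons u l ih =>
    intro A A' v h
    show LNat φ (avL D ((u :: l).map D.p) (sh A v) (D.p v) - hrL D l (sh A v) u)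
      (avL D' (((u :: l).map α).map D'.p) (sh A' (α v)) (D'.p (α v)) -
        hrL D' (l.map α) (sh A' (α v)) (α u))
    refine lnat_sub ?_ (ih _ _ _ (conat_sh h v))
    have e : ((u :: l).map α).map D'.p = ((u :: l).map D.p).map β := by
      rw [List.map_map, List.map_map]
      apply List.map_congr_left
      intro x _
      exact hD.p x
    rw [e, hD.p]
    exact avL_nat hD _ _ _ _ (conat_sh h v)

end NTAM

open NTAM in
theorem specNTA : SpecNTA := by
  intro K K' V V' W W' C ι κ _ _ _ φ α β D D' A A' hD hA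
  exact ⟨fun w l => avL_nat hD l A A' w hA, fun v l => hrL_nat hD l A A' v hA⟩

end Pool.Agent.Lib.MP_9b987c_gt.HC
end

section
/-!
# OUT: set level construction, conclusion
-/
namespace Pool.Agent.Lib.MP_9b987c_gt.HC

open scoped BigOperators

namespace OUTM

section

variable {K V : Type} [CommRing K] {ι κ : Type}

theorem lst_snoc (v u : V) (l : List V) : lst v (l ++ [u]) = u := by
  induction l generalizing v with
  | nil => rfl
  | cons w l ih => exact ih w

/-- value of a product of operator cochains at a vector -/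
theorem cv_apply {M N P : Type} [AddCommGroup M] [Module K M] [AddCommGroup N] [Module K N]
    [AddCommGroup P] [Module K P] (A : V → List V → (N →ₗ[K] P)) (B : V → List V → (M →ₗ[K] N))
    (v : V) (l : List V) (z : M) : cv A B v l z = ac A (fun v l => B v l z) v l := by
  induction l generalizing A v with
  | nil => rfl
  | cons u l ih =>
    rw [cv_cons, ac_cons, LinearMap.add_apply, ih]
    rfl

theorem fcl_apply {M N : Type} [AddCommGroup M] [Module K M] [AddCommGroup N] [Module K N]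
    (B : V → List V → (M →ₗ[K] N)) (v : V) (l : List V) (z : M) :
    fcl B v l z = fcl (fun v l => B v l z) v l := by
  have := fcl_map (X := M →ₗ[K] N) (Y := N)
    ⟨⟨fun G => G z, by simp⟩, fun a b => by simp⟩ B v l
  exact this.symm

/-- `θ e = e θ` -/
theorem th_e [Finite ι] {deg : ι → ℤ} {e : (ι → K) →ₗ[K] (ι → K)} (h : Deg deg deg e 0) :
    th K deg ∘ₗ e = e ∘ₗ th K deg := by
  rw [th_comp_of_deg h, sgn_zero, one_smul]

/-- `s e = s` -/
theorem s_e [Finite ι] {deg : ι → ℤ} {e : V → (ι → K) →ₗ[K] (ι → K)}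
    {R : V → List V → ((ι → K) →ₗ[K] (ι → K))} (h : PreRuth deg e R) (u : V) :
    sU deg R u ∘ₗ e u = sU deg R u := by
  apply LinearMap.ext
  intro z
  funext v l
  show R v (l ++ [u]) (th K deg (e u z)) = R v (l ++ [u]) (th K deg z)
  have h1 : th K deg (e u z) = e u (th K deg z) := LinearMap.congr_fun (th_e (h.e_deg u)) z
  have h2 := LinearMap.congr_fun (h.right v (l ++ [u])) (th K deg z)
  rw [lst_snoc] at h2
  rw [h1]
  exact h2

end

section

variable {K M κ ι : Type} [CommRing K] [AddCommGroup M] [Module K M]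

/-- the abstract homotopy equivalence -/
theorem hoeq {e₁ d₁ k : (κ → K) →ₗ[K] (κ → K)} {e r : (ι → K) →ₗ[K] (ι → K)}
    {d η H : M →ₗ[K] M} {a : (κ → K) →ₗ[K] M} {b : M →ₗ[K] (κ → K)}
    {s : (ι → K) →ₗ[K] M} {ev : M →ₗ[K] (ι → K)}
    (d_a : d ∘ₗ a = a ∘ₗ d₁) (e_b : e₁ ∘ₗ b = b) (b_d : b ∘ₗ d = d₁ ∘ₗ b)
    (ab : a ∘ₗ b - LinearMap.id = d ∘ₗ η + η ∘ₗ d) (ba : b ∘ₗ a = e₁ + d₁ ∘ₗ k + k ∘ₗ d₁)
    (d_s : d ∘ₗ s = s ∘ₗ r) (ev_d : ev ∘ₗ d = r ∘ₗ ev)
    (sev : s ∘ₗ ev - LinearMap.id = d ∘ₗ H + H ∘ₗ d) (hse : s ∘ₗ e = s)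
    (hev : ev ∘ₗ s = e) (hee : e ∘ₗ e = e) (her : e ∘ₗ r = r) (hre : r ∘ₗ e = r) :
    HoEq e₁ d₁ e r (e ∘ₗ ev ∘ₗ a) := by
  refine ⟨b ∘ₗ s, e ∘ₗ ev ∘ₗ η ∘ₗ s, k + b ∘ₗ H ∘ₗ a, ?_, ?_, ?_, ?_, ?_⟩
  · rw [← LinearMap.comp_assoc, e_b]
  · rw [LinearMap.comp_assoc, hse]
  · rw [LinearMap.comp_assoc, ← d_s, ← LinearMap.comp_assoc, b_d, LinearMap.comp_assoc]
  · apply LinearMap.ext
    intro z
    have h1 := LinearMap.congr_fun ab (s z)
    have h2 := LinearMap.congr_fun d_s z
    have h3 := LinearMap.congr_fun ev_d (η (s z))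
    have h4 := LinearMap.congr_fun hev z
    have h5 := LinearMap.congr_fun hee z
    have h6 := LinearMap.congr_fun her (ev (η (s z)))
    have h7 := LinearMap.congr_fun hre (ev (η (s z)))
    simp only [LinearMap.comp_apply, LinearMap.sub_apply, LinearMap.add_apply,
      LinearMap.id_apply] at h1 h2 h3 h4 h5 h6 h7 ⊢
    have h8 : a (b (s z)) = s z + (d (η (s z)) + η (d (s z))) := by
      rw [← h1]; abel
    rw [h8, map_add, map_add, map_add, map_add, h4, h5, h3, h6, h2, h7]
    abel
  · apply LinearMap.ext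
    intro z
    have h1 := LinearMap.congr_fun sev (a z)
    have h2 := LinearMap.congr_fun hse (ev (a z))
    have h3 := LinearMap.congr_fun d_a z
    have h4 := LinearMap.congr_fun b_d (H (a z))
    have h5 := LinearMap.congr_fun ba z
    simp only [LinearMap.comp_apply, LinearMap.sub_apply, LinearMap.add_apply,
      LinearMap.id_apply] at h1 h2 h3 h4 h5 ⊢
    have h8 : s (ev (a z)) = a z + (d (H (a z)) + H (d (a z))) := by
      rw [← h1]; abel
    rw [h2, h8, map_add, map_add, h5, h4, h3, map_add]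
    abel

end

end OUTM

open OUTM in
theorem specOUT (hCXS : SpecCXS) (hDOM : SpecDOM) (hTEL : SpecTEL) (hBIG : SpecBIG)
    (hTRF : SpecTRF) (hPSI : SpecPSI) : SpecOUT := by
  intro K V W C ι _ _ _ _ _ D deg lo n e R hD hR h1 h2
  obtain ⟨c1, c2, c3, c4, c5, c6, c7, c8, c9, c10, c11, c12, c13, c14⟩ :=
    hCXS K V ι deg e R hR.toPreRuth
  have hdom := hDOM K V W C ι D deg lo n e R hD hR.toPreRuth h1 h2
  have hret : ∀ w, RetOk (dgO n C deg) (grS K V deg) (dS deg R) (thS deg) (etaW D deg w)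
      (oE D deg lo n R w) (oD D deg lo n R w) (oK D deg lo n R w) (oA D deg lo n R w)
      (oB D deg lo n R w) := fun w =>
    hTEL K (Fn K V ι) (C × ι) (fun r : C × ι => deg r.2) lo n (grS K V deg) (dS deg R) (thS deg)
      (dP D R w) (uW D w) (vW D deg R w) (etaW D deg w) (hdom w)
  have hsdr : ∀ w, SdrOk (dgO n C deg) (bigG (dgO n C deg) (grS K V deg)) (bigD (dS deg R))
      (bigTh (thS deg) (th K (dgO n C deg))) (oE D deg lo n R w) (oD D deg lo n R w)
      (oAA D deg lo n R w) (oBB D deg lo n R w)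
      (bigH (dS deg R) (etaW D deg w) (oA D deg lo n R w) (oB D deg lo n R w) (oE D deg lo n R w)
        (oD D deg lo n R w) (oK D deg lo n R w)) := fun w =>
    hBIG K (Fn K V ι) (Kap n C ι) (dgO n C deg) (grS K V deg) (dS deg R) (thS deg)
      (etaW D deg w) (oE D deg lo n R w) (oD D deg lo n R w) (oK D deg lo n R w)
      (oA D deg lo n R w) (oB D deg lo n R w) (hret w) c14
  have htrf := hTRF K (BigS K V n C ι) (Kap n C ι) W (dgO n C deg)
    (bigG (dgO n C deg) (grS K V deg)) (bigD (dS deg R))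
    (bigTh (thS deg) (th K (dgO n C deg))) (oE D deg lo n R) (oD D deg lo n R)
    (oAA D deg lo n R) (oBB D deg lo n R)
    (fun w => bigH (dS deg R) (etaW D deg w) (oA D deg lo n R w) (oB D deg lo n R w)
      (oE D deg lo n R w) (oD D deg lo n R w) (oK D deg lo n R w)) hsdr
  have e1 : ∀ v l, GMap (bigG (dgO n C deg) (grS K V deg)) (gr K deg) (EV K V n C ι v l)
      (-l.length) := by
    intro v l q x hx
    have hx1 : x.1 ∈ grS K V deg q := hx.1
    have := hx1 v l
    rw [sub_eq_add_neg] at this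
    exact this
  have e2 : ∀ v l, EV K V n C ι v l ∘ₗ bigD (dS deg R) =
      cv R (EV K V n C ι) v l + th K deg ∘ₗ fcl (EV K V n C ι) v l := by
    intro v l
    apply LinearMap.ext
    intro x
    rw [LinearMap.add_apply, cv_apply, LinearMap.comp_apply, LinearMap.comp_apply, fcl_apply]
    rfl
  have e3 : ∀ v l, EV K V n C ι v l ∘ₗ bigTh (thS deg) (th K (dgO n C deg)) =
      ((-1 : ℤ) ^ l.length) • (th K deg ∘ₗ EV K V n C ι v l) := by
    intro v l
    apply LinearMap.ext
    intro x
    rfl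
  have hpsi := hPSI K (BigS K V n C ι) (Kap n C ι) ι V W (dgO n C deg) deg
    (bigG (dgO n C deg) (grS K V deg)) (bigD (dS deg R))
    (bigTh (thS deg) (th K (dgO n C deg))) (oE D deg lo n R) (oD D deg lo n R)
    (oAA D deg lo n R) (oBB D deg lo n R)
    (fun w => bigH (dS deg R) (etaW D deg w) (oA D deg lo n R w) (oB D deg lo n R w)
      (oE D deg lo n R w) (oD D deg lo n R w) (oK D deg lo n R w)) D.p e R (EV K V n C ι)
    hsdr hR e1 e2 e3
  refine ⟨htrf.1, hpsi.1, hpsi.2, fun v => ?_⟩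
  have r := hret (D.p v)
  have hev : evU v ∘ₗ sU deg R v = e v := by
    apply LinearMap.ext
    intro z
    show R v [v] (th K deg z) = e v z
    rw [hR.unit_one v]
    show e v (th K deg (th K deg z)) = e v z
    rw [th_th]
  have main := hoeq (e := e v) (r := R v []) (s := sU deg R v) (ev := evU v) (H := hU deg v)
    r.d_a r.e_b r.b_d r.ab r.ba (c2 v) (c3 v) (c4 v) (s_e hR.toPreRuth v) hev (hR.e_idem v)
    (hR.left v []) (hR.right v [])
  have hF : oPsi D deg lo n R e v [] = e v ∘ₗ evU v ∘ₗ oA D deg lo n R (D.p v) := by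
    show e v ∘ₗ (EV K V n C ι v [] ∘ₗ (((-1 : ℤ) ^ 0) • oAA D deg lo n R (D.p v))) = _
    rw [pow_zero, one_smul]
    rfl
  rw [hF]
  exact main

end Pool.Agent.Lib.MP_9b987c_gt.HC
end

section
/-!
# TLB: the telescope, block identities
-/
namespace Pool.Agent.Lib.MP_9b987c_gt.HC

open scoped BigOperators

namespace TLBM

variable {K : Type} [CommRing K] {ρ : Type} {n : ℕ}

/-- The slots, indexed by natural numbers. -/
def sl (x : Fin (n + 3) × ρ → K) (m : ℕ) : ρ → K :=
  if h : m < n + 3 then slot K n ρ ⟨m, h⟩ x else 0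

lemma sl_fin (x : Fin (n + 3) × ρ → K) (m : Fin (n + 3)) : sl x m = slot K n ρ m x := by
  simp [sl]

lemma slot_apply (x : Fin (n + 3) × ρ → K) (m : Fin (n + 3)) (r : ρ) :
    slot K n ρ m x r = x (m, r) := rfl

lemma ext_sl {x y : Fin (n + 3) × ρ → K} (h : ∀ m < n + 3, sl x m = sl y m) : x = y := by
  funext i
  have := congrFun (h i.1 i.1.2) i.2
  rw [sl_fin, sl_fin] at this
  exact this

lemma sl_add (x y : Fin (n + 3) × ρ → K) (m : ℕ) : sl (x + y) m = sl x m + sl y m := by
  unfold sl; split_ifs <;> simp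

lemma sl_sub (x y : Fin (n + 3) × ρ → K) (m : ℕ) : sl (x - y) m = sl x m - sl y m := by
  unfold sl; split_ifs <;> simp

lemma sl_neg (x : Fin (n + 3) × ρ → K) (m : ℕ) : sl (-x) m = -sl x m := by
  unfold sl; split_ifs <;> simp

lemma sl_zero (m : ℕ) : sl (0 : Fin (n + 3) × ρ → K) m = 0 := by
  unfold sl; split_ifs <;> simp

lemma blk_slot (B : ℕ → ℕ → ((ρ → K) →ₗ[K] (ρ → K))) (x : Fin (n + 3) × ρ → K)
    (m' : Fin (n + 3)) :
    slot K n ρ m' (blk n B x) = ∑ m : Fin (n + 3), B m' m (slot K n ρ m x) := by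
  funext r
  rw [slot_apply, Finset.sum_apply]
  simp [blk]

lemma sl_blk (B : ℕ → ℕ → ((ρ → K) →ₗ[K] (ρ → K))) (x : Fin (n + 3) × ρ → K) {m' : ℕ}
    (h : m' < n + 3) : sl (blk n B x) m' = ∑ m ∈ Finset.range (n + 3), B m' m (sl x m) := by
  have h1 : sl (blk n B x) m' = slot K n ρ ⟨m', h⟩ (blk n B x) := by simp [sl, h]
  rw [h1, blk_slot, Finset.sum_range]
  refine Finset.sum_congr rfl (fun m _ => ?_)
  rw [sl_fin]

lemma sl_telK_zero (x : Fin (n + 3) × ρ → K) : sl (telK K n ρ x) 0 = 0 := by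
  rw [telK, sl_blk _ _ (by omega)]
  refine Finset.sum_eq_zero (fun m _ => ?_)
  rw [if_neg (by omega)]
  rfl

lemma sl_telK_succ (x : Fin (n + 3) × ρ → K) {m : ℕ} (h : m + 1 < n + 3) :
    sl (telK K n ρ x) (m + 1) = sl x m := by
  rw [telK, sl_blk _ _ h, Finset.sum_eq_single m]
  · rw [if_pos rfl]; rfl
  · intro b _ hb
    rw [if_neg (by omega)]; rfl
  · intro hm
    exact absurd (Finset.mem_range.2 (by omega)) hm

lemma sl_ins0_zero (z : ρ → K) : sl (ins0 n z) 0 = z := by
  have h1 : sl (ins0 n z) 0 = slot K n ρ ⟨0, by omega⟩ (ins0 n z) := by simp [sl]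
  rw [h1]
  funext r
  rw [slot_apply]
  simp [ins0]

lemma sl_ins0_succ (z : ρ → K) (m : ℕ) : sl (ins0 n z) (m + 1) = 0 := by
  unfold sl
  split_ifs with h
  · funext r
    rw [slot_apply]
    have : (⟨m + 1, h⟩ : Fin (n + 3)) ≠ 0 := by
      intro h0
      have := congrArg Fin.val h0
      simp at this
    simp [ins0, this]
  · rfl

variable {dg : ρ → ℤ}

lemma mem_dgT {q : ℤ} {x : Fin (n + 3) × ρ → K} :
    x ∈ gr K (dgT n dg) q ↔ ∀ m < n + 3, sl x m ∈ gr K dg (q + m) := by
  constructor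
  · intro h m hm r hr
    have h1 : sl x m r = x (⟨m, hm⟩, r) := by simp [sl, hm, slot_apply]
    rw [h1] at hr
    have := h _ hr
    simp only [dgT] at this
    omega
  · intro h i hi
    have h1 : sl x i.1 i.2 = x i := by rw [sl_fin]; rfl
    have := h i.1 i.1.2 i.2 (by rw [h1]; exact hi)
    simp only [dgT]
    omega

lemma sl_mem {q : ℤ} {x : Fin (n + 3) × ρ → K} (hx : x ∈ gr K (dgT n dg) q) (m : ℕ) :
    sl x m ∈ gr K dg (q + m) := by
  by_cases hm : m < n + 3
  · exact mem_dgT.1 hx m hm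
  · have : sl x m = 0 := by simp [sl, hm]
    rw [this]
    exact (gr K dg _).zero_mem

lemma eq_zero_of_hi {lo : ℤ} (hhi : ∀ r, dg r ≤ lo + n) {q : ℤ} (hq : lo + n < q) {z : ρ → K}
    (hz : z ∈ gr K dg q) : z = 0 := by
  funext r
  by_contra h
  have := hz r h
  have := hhi r
  omega

lemma eq_zero_of_lo {lo : ℤ} (hlo : ∀ r, lo ≤ dg r) {q : ℤ} (hq : q < lo) {z : ρ → K}
    (hz : z ∈ gr K dg q) : z = 0 := by
  funext r
  by_contra h
  have := hz r h
  have := hlo r
  omega

/-- The degree of a block operator. -/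
lemma blk_deg {B : ℕ → ℕ → ((ρ → K) →ₗ[K] (ρ → K))} {s : ℤ}
    (hB : ∀ m' m : ℕ, Deg dg dg (B m' m) (s + m' - m)) :
    GMap (gr K (dgT n dg)) (gr K (dgT n dg)) (blk n B) s := by
  intro q x hx
  rw [mem_dgT]
  intro m' hm'
  rw [sl_blk _ _ hm']
  refine Submodule.sum_mem _ (fun m _ => ?_)
  have := hB m' m _ _ (sl_mem hx m)
  have e1 : q + m + (s + m' - m) = q + s + m' := by ring
  rwa [e1] at this

variable {S : Type} [AddCommGroup S] [Module K S]

lemma pow_deg {G : ℤ → Submodule K S} {η : S →ₗ[K] S} (h : GMap G G η (-1)) (k : ℕ) :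
    GMap G G ((η ^ k : Module.End K S) : S →ₗ[K] S) (-k) := by
  induction k with
  | zero => intro q x hx; simpa using hx
  | succ k ih =>
    intro q x hx
    rw [pow_succ']
    have := h _ _ (ih q x hx)
    have e1 : q + -(k : ℤ) + -1 = q + -((k + 1 : ℕ) : ℤ) := by push_cast; ring
    rw [e1] at this
    exact this

lemma pj_deg {lo : ℤ} {G : ℤ → Submodule K S} {d t : S →ₗ[K] S}
    {dp : (ρ → K) →ₗ[K] (ρ → K)} {u : S →ₗ[K] (ρ → K)} {v : (ρ → K) →ₗ[K] S} {η : S →ₗ[K] S}
    (h : DomOk dg lo n G d t dp u v η) {j : ℕ} (hj : 1 ≤ j) :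
    Deg dg dg (pj u v η j) (1 - j) := by
  intro q z hz
  have h1 : v z ∈ G q := by
    have := h.g_v q z hz
    rwa [add_zero] at this
  have h2 := pow_deg h.g_η (j - 1) q _ h1
  have h3 := h.g_u _ _ h2
  have e1 : q + -((j - 1 : ℕ) : ℤ) + 0 = q + (1 - j) := by
    rw [Nat.cast_sub hj]; push_cast; ring
  rw [e1] at h3
  exact h3

end TLBM

open TLBM in
/-- The module TLB. -/
theorem specTLB : SpecTLB := by
  intro K S ρ _ _ _ dg lo n G d t dp u v η h
  have hdp : ∀ s : ℤ, s = 1 → Deg dg dg dp s := by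
    intro s hs; rw [hs]; exact h.g_dp
  have hpj : ∀ (j : ℕ) (s : ℤ), 1 ≤ j → s = 1 - j → Deg dg dg (pj u v η j) s := by
    intro j s hj hs; rw [hs]; exact pj_deg h hj
  have hid : ∀ s : ℤ, s = 0 → Deg dg dg (LinearMap.id : (ρ → K) →ₗ[K] (ρ → K)) s := by
    intro s hs; rw [hs]; exact deg_id
  have hsg : ∀ (F : (ρ → K) →ₗ[K] (ρ → K)) (k : ℕ) (s : ℤ), Deg dg dg F s →
      Deg dg dg (((-1 : ℤ) ^ k) • F) s := by
    intro F k s hF q z hz
    rw [LinearMap.smul_apply]
    exact (gr K dg _).toAddSubgroup.zsmul_mem (hF q z hz) _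
  refine ⟨?_, ?_, ?_, ?_, ?_, ?_⟩
  · intro x hx
    have hz : sl x (n + 2) = 0 :=
      eq_zero_of_hi h.le_hi (by push_cast; omega) (sl_mem hx (n + 2))
    apply ext_sl
    intro m' hm'
    rw [sl_sub, telD, sl_blk _ _ hm', telPi, sl_blk _ _ hm', Finset.sum_range_succ',
      Finset.sum_range_succ _ (n + 2), hz, sl_telK_zero, map_zero, map_zero, add_zero, add_zero]
    have hxm : sl x m' = ∑ m ∈ Finset.range (n + 2), (if m = m' then sl x m else 0) := by
      rw [Finset.sum_ite_eq']
      split_ifs with h1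
      · rfl
      · have : m' = n + 2 := by
          have := Finset.mem_range.not.1 h1
          omega
        rw [this, hz]
    rw [hxm, ← Finset.sum_sub_distrib]
    refine Finset.sum_congr rfl (fun m hm => ?_)
    have hm : m < n + 2 := Finset.mem_range.1 hm
    rw [sl_telK_succ _ (by omega)]
    rcases lt_trichotomy m' (m + 1) with hlt | heq | hgt
    · have c1 : ¬ (m + 1 = m') := by omega
      have c2 : m' ≤ m := by omega
      rw [if_neg c1, if_pos hlt, if_neg c1, if_pos c2]
      have e1 : m - m' + 1 = m + 1 - m' := by omega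
      rw [e1, LinearMap.sub_apply, LinearMap.add_apply]
      by_cases hmm : m = m'
      · subst hmm
        rcases Nat.even_or_odd m with he | ho
        · rw [if_pos ⟨rfl, he⟩, if_neg (by rintro ⟨_, ho⟩; exact (Nat.not_even_iff_odd.2 ho) he),
            if_pos rfl]
          simp
        · rw [if_neg (by rintro ⟨_, he⟩; exact (Nat.not_even_iff_odd.2 ho) he), if_pos ⟨rfl, ho⟩,
            if_pos rfl]
          simp
      · rw [if_neg (by rintro ⟨h1, _⟩; omega), if_neg (by rintro ⟨h1, _⟩; omega), if_neg hmm]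
        simp
    · rw [if_pos heq.symm, if_pos heq.symm, if_neg (by omega), sub_zero]
    · rw [if_neg (by omega), if_neg (by omega), if_neg (by omega), if_neg (by omega),
        if_neg (by omega)]
      simp
  · intro x hx
    have hz1 : sl x (n + 1) = 0 :=
      eq_zero_of_hi h.le_hi (by push_cast; omega) (sl_mem hx (n + 1))
    have hz2 : sl x (n + 2) = 0 :=
      eq_zero_of_hi h.le_hi (by push_cast; omega) (sl_mem hx (n + 2))
    apply ext_sl
    intro m' hm'
    rw [sl_neg, telD, sl_blk _ _ hm', Finset.sum_range_succ', sl_telK_zero, map_zero, add_zero]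
    have hA : ∀ B : ℕ → ((ρ → K) →ₗ[K] (ρ → K)),
        ∑ m ∈ Finset.range (n + 2), B (m + 1) (sl (telK K n ρ (telK K n ρ x)) (m + 1)) =
        ∑ m ∈ Finset.range (n + 1), B (m + 2) (sl x m) := by
      intro B
      have : ∀ m ∈ Finset.range (n + 2), B (m + 1) (sl (telK K n ρ (telK K n ρ x)) (m + 1)) =
          B (m + 1) (sl (telK K n ρ x) m) := by
        intro m hm
        rw [sl_telK_succ _ (by have := Finset.mem_range.1 hm; omega)]
      rw [Finset.sum_congr rfl this, Finset.sum_range_succ', sl_telK_zero, map_zero, add_zero]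
      refine Finset.sum_congr rfl (fun m hm => ?_)
      rw [sl_telK_succ _ (by have := Finset.mem_range.1 hm; omega)]
    rw [hA (fun m => if m = m' then ((-1 : ℤ) ^ m') • dp
      else if m' < m then ((-1 : ℤ) ^ m') • pj u v η (m - m') -
        (if m = m' + 1 ∧ Even m' then LinearMap.id else 0)
      else 0)]
    rcases m' with _ | M
    · rw [sl_telK_zero, neg_zero]
      refine Finset.sum_eq_zero (fun m hm => ?_)
      rw [if_neg (by omega), if_pos (by omega), if_neg (by rintro ⟨h1, _⟩; omega), sub_zero,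
        pow_zero, one_smul]
      have h1 := pj_deg h (j := m + 2 - 0) (by omega) _ _ (sl_mem hx m)
      refine eq_zero_of_lo h.lo_le ?_ h1
      push_cast
      omega
    · rw [sl_telK_succ _ hm', telPi, sl_blk _ _ (by omega), Finset.sum_range_succ _ (n + 2),
        Finset.sum_range_succ _ (n + 1), hz1, hz2, map_zero, map_zero, add_zero, add_zero,
        ← Finset.sum_neg_distrib]
      refine Finset.sum_congr rfl (fun m hm => ?_)
      have hm : m < n + 1 := Finset.mem_range.1 hm
      rcases lt_trichotomy M (m + 1) with hlt | heq | hgt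
      · have c1 : ¬ (m + 2 = M + 1) := by omega
        have c2 : M + 1 < m + 2 := by omega
        have c3 : ¬ (m + 1 = M) := by omega
        have c4 : M ≤ m := by omega
        rw [if_neg c1, if_pos c2, if_neg c3, if_pos c4]
        have e1 : m + 2 - (M + 1) = m - M + 1 := by omega
        rw [e1, LinearMap.sub_apply, LinearMap.add_apply, pow_succ]
        by_cases hmm : m = M
        · subst hmm
          rcases Nat.even_or_odd m with he | ho
          · rw [if_neg (by
                rintro ⟨_, h2⟩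
                exact (Nat.not_even_iff_odd.2 (he.add_one)) h2),
              if_neg (by rintro ⟨_, ho⟩; exact (Nat.not_even_iff_odd.2 ho) he)]
            simp
          · rw [if_pos ⟨rfl, ho.add_one⟩, if_pos ⟨rfl, ho⟩]
            simp
            abel
        · rw [if_neg (by rintro ⟨h1, _⟩; omega), if_neg (by rintro ⟨h1, _⟩; omega)]
          simp
      · rw [if_pos (by omega), if_pos heq.symm, pow_succ]
        simp
      · rw [if_neg (by omega), if_neg (by omega), if_neg (by omega), if_neg (by omega)]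
        simp
  · intro q hq x hx
    have hz1 : sl x (n + 1) = 0 :=
      eq_zero_of_hi h.le_hi (by push_cast; omega) (sl_mem hx (n + 1))
    have hz2 : sl x (n + 2) = 0 :=
      eq_zero_of_hi h.le_hi (by push_cast; omega) (sl_mem hx (n + 2))
    have haF : u (∑ m : Fin (n + 3), ((η ^ (m : ℕ) : Module.End K S) : S →ₗ[K] S)
          (v (slot K n ρ m x))) = ∑ m ∈ Finset.range (n + 3), pj u v η (m + 1) (sl x m) := by
      rw [map_sum, Finset.sum_range]
      refine Finset.sum_congr rfl (fun m _ => ?_)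
      rw [sl_fin]
      rfl
    rw [haF]
    apply ext_sl
    intro m' hm'
    rw [sl_add, sl_sub, telD, sl_blk _ _ hm', Finset.sum_range_succ', sl_telK_zero, map_zero,
      add_zero]
    have hK : ∑ m ∈ Finset.range (n + 2), (if m + 1 = m' then ((-1 : ℤ) ^ m') • dp
        else if m' < m + 1 then ((-1 : ℤ) ^ m') • pj u v η (m + 1 - m') -
          (if m + 1 = m' + 1 ∧ Even m' then LinearMap.id else 0)
        else 0) (sl (telK K n ρ x) (m + 1)) =
        ∑ m ∈ Finset.range (n + 2), (if m + 1 = m' then ((-1 : ℤ) ^ m') • dp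
        else if m' < m + 1 then ((-1 : ℤ) ^ m') • pj u v η (m + 1 - m') -
          (if m + 1 = m' + 1 ∧ Even m' then LinearMap.id else 0)
        else 0) (sl x m) := by
      refine Finset.sum_congr rfl (fun m hm => ?_)
      rw [sl_telK_succ _ (by have := Finset.mem_range.1 hm; omega)]
    rw [hK]
    have hxm : sl x m' = ∑ m ∈ Finset.range (n + 2), (if m = m' then sl x m else 0) := by
      rw [Finset.sum_ite_eq']
      split_ifs with h1
      · rfl
      · have : m' = n + 2 := by
          have := Finset.mem_range.not.1 h1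
          omega
        rw [this, hz2]
    rw [hxm]
    rcases m' with _ | M
    · rw [sl_telK_zero, add_zero, sl_ins0_zero, Finset.sum_range_succ _ (n + 2), hz2, map_zero,
        add_zero, ← Finset.sum_sub_distrib]
      refine Finset.sum_congr rfl (fun m _ => ?_)
      rw [if_neg (by omega), if_pos (by omega), LinearMap.sub_apply, pow_zero, one_smul,
        Nat.sub_zero]
      by_cases hm0 : m = 0
      · subst hm0
        rw [if_pos ⟨rfl, Even.zero⟩, if_pos rfl]
        rfl
      · rw [if_neg (by rintro ⟨h1, _⟩; omega), if_neg hm0]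
        rfl
    · rw [sl_telK_succ _ hm', sl_blk _ _ (by omega), sl_ins0_succ, zero_sub,
        Finset.sum_range_succ _ (n + 2), hz2, map_zero, add_zero, ← Finset.sum_add_distrib,
        ← Finset.sum_neg_distrib]
      refine Finset.sum_congr rfl (fun m _ => ?_)
      rcases lt_trichotomy M m with hlt | heq | hgt
      · have c1 : ¬ (m + 1 = M + 1) := by omega
        have c2 : M + 1 < m + 1 := by omega
        have c3 : ¬ (m = M) := by omega
        rw [if_neg c1, if_pos c2, if_neg c3, if_pos hlt]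
        have e1 : m + 1 - (M + 1) = m - M := by omega
        rw [e1, LinearMap.sub_apply, LinearMap.sub_apply, pow_succ]
        by_cases hmm : m = M + 1
        · subst hmm
          rw [if_pos rfl]
          rcases Nat.even_or_odd M with he | ho
          · rw [if_neg (by
                rintro ⟨_, h2⟩
                exact (Nat.not_even_iff_odd.2 (he.add_one)) h2), if_pos ⟨rfl, he⟩]
            simp
            abel
          · rw [if_pos ⟨rfl, ho.add_one⟩,
              if_neg (by rintro ⟨_, he⟩; exact (Nat.not_even_iff_odd.2 ho) he)]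
            simp
            abel
        · rw [if_neg (by rintro ⟨h1, _⟩; omega), if_neg (by rintro ⟨h1, _⟩; omega), if_neg hmm]
          simp
      · rw [if_pos (by omega), if_pos heq.symm, if_neg (by omega), pow_succ]
        simp
      · rw [if_neg (by omega), if_neg (by omega), if_neg (by omega), if_neg (by omega),
          if_neg (by omega)]
        simp
  · apply blk_deg
    intro m' m
    split_ifs with h1 h2 h3
    · exact hsg _ _ _ (hdp _ (by omega))
    · refine Deg.sub (hsg _ _ _ (hpj _ _ (by omega) (by rw [Nat.cast_sub (by omega)]; ring))) ?_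
      exact hid _ (by omega)
    · refine Deg.sub (hsg _ _ _ (hpj _ _ (by omega) (by rw [Nat.cast_sub (by omega)]; ring))) ?_
      exact Deg.zero
    · exact Deg.zero
  · apply blk_deg
    intro m' m
    split_ifs with h1 h2 h3
    · exact hsg _ _ _ (hdp _ (by omega))
    · refine Deg.add (hsg _ _ _ (hpj _ _ (by omega)
        (by push_cast; rw [Nat.cast_sub (by omega)]; ring))) ?_
      exact hid _ (by omega)
    · refine Deg.add (hsg _ _ _ (hpj _ _ (by omega)
        (by push_cast; rw [Nat.cast_sub (by omega)]; ring))) ?_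
      exact Deg.zero
    · exact Deg.zero
  · apply blk_deg
    intro m' m
    split_ifs with h1
    · exact hid _ (by omega)
    · exact Deg.zero

end Pool.Agent.Lib.MP_9b987c_gt.HC
end

section
/-!
# TEL: the telescope, conclusion (uses TLA, TLB)
-/
namespace Pool.Agent.Lib.MP_9b987c_gt.HC

open scoped BigOperators

namespace TELM

open TLBM

variable {K : Type} [CommRing K] {ρ : Type} {n : ℕ} {dg : ρ → ℤ} {lo : ℤ}

lemma prj_apply {κ : Type} (Q : κ → Prop) [DecidablePred Q] (x : κ → K) (i : κ) :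
    prj Q x i = if Q i then x i else 0 := by
  unfold prj
  rw [LinearMap.pi_apply]
  split_ifs <;> rfl

lemma prj_of {κ : Type} {Q : κ → Prop} [DecidablePred Q] {x : κ → K}
    (h : ∀ i, x i ≠ 0 → Q i) : prj Q x = x := by
  funext i
  rw [prj_apply]
  split_ifs with hi
  · rfl
  · by_contra h0
    exact hi (h i (fun hx => h0 hx.symm))

lemma prj_none {κ : Type} {Q : κ → Prop} [DecidablePred Q] {x : κ → K}
    (h : ∀ i, x i ≠ 0 → ¬ Q i) : prj Q x = 0 := by
  funext i
  rw [prj_apply]
  split_ifs with hi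
  · by_contra h0
    exact h i h0 hi
  · rfl

variable {S : Type} [AddCommGroup S] [Module K S]

section

variable {dp : (ρ → K) →ₗ[K] (ρ → K)} {u : S →ₗ[K] (ρ → K)} {v : (ρ → K) →ₗ[K] S}
  {η : S →ₗ[K] S}

lemma telE_hi {q : ℤ} (hq : lo < q) {x : Fin (n + 3) × ρ → K} (hx : x ∈ gr K (dgT n dg) q) :
    telE n dg lo dp u v η x = x := by
  unfold telE
  rw [LinearMap.add_apply, LinearMap.comp_apply, prj_of (fun i hi => by rw [hx i hi]; exact hq),
    prj_none (fun i hi => by rw [hx i hi]; exact hq.ne'), map_zero, add_zero]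

lemma telE_lo {x : Fin (n + 3) × ρ → K} (hx : x ∈ gr K (dgT n dg) lo) :
    telE n dg lo dp u v η x = telPi n dp u v η x := by
  unfold telE
  rw [LinearMap.add_apply, LinearMap.comp_apply, prj_none (fun i hi => by rw [hx i hi]; simp),
    prj_of (fun i hi => hx i hi), zero_add]

lemma telE_low {q : ℤ} (hq : q < lo) {x : Fin (n + 3) × ρ → K} (hx : x ∈ gr K (dgT n dg) q) :
    telE n dg lo dp u v η x = 0 := by
  unfold telE
  rw [LinearMap.add_apply, LinearMap.comp_apply,
    prj_none (fun i hi => by rw [hx i hi]; exact not_lt.2 hq.le),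
    prj_none (fun i hi => by rw [hx i hi]; exact hq.ne), map_zero, add_zero]

end

lemma ins0_mem {q : ℤ} {z : ρ → K} (hz : z ∈ gr K dg q) : ins0 n z ∈ gr K (dgT n dg) q := by
  rw [mem_dgT]
  intro m hm
  rcases m with _ | m
  · rw [sl_ins0_zero]
    simpa using hz
  · rw [sl_ins0_succ]
    exact (gr K dg _).zero_mem

lemma slot_mem {q : ℤ} {x : Fin (n + 3) × ρ → K} (hx : x ∈ gr K (dgT n dg) q)
    (m : Fin (n + 3)) : slot K n ρ m x ∈ gr K dg (q + (m : ℕ)) := by
  rw [← sl_fin]
  exact sl_mem hx m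

lemma slot_th (x : Fin (n + 3) × ρ → K) (m : Fin (n + 3)) :
    slot K n ρ m (th K (dgT n dg) x) = ((-1 : ℤ) ^ (m : ℕ)) • th K dg (slot K n ρ m x) := by
  rw [negOnePow_smul (K := K)]
  funext r
  rw [slot_apply, th_apply, Pi.smul_apply, th_apply, slot_apply, smul_eq_mul, ← mul_assoc]
  congr 1
  rw [dgT, sgn_sub, mul_comm]

end TELM

open TLBM TELM in
/-- The module TEL. -/
theorem specTEL (hTLA : SpecTLA) (hTLB : SpecTLB) : SpecTEL := by
  intro K S ρ _ _ _ _ _ dg lo n G d t dp u v η h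
  obtain ⟨hDD, hdF, hDi⟩ := hTLA K S ρ dg lo n G d t dp u v η h
  obtain ⟨hDk, hDkk, hDkD, gD, gPi, gk⟩ := hTLB K S ρ dg lo n G d t dp u v η h
  have e_hi : ∀ q, lo < q → ∀ x ∈ gr K (dgT n dg) q, telE n dg lo dp u v η x = x :=
    fun q hq x hx => telE_hi hq hx
  have e_lo : ∀ x ∈ gr K (dgT n dg) lo, telE n dg lo dp u v η x = telPi n dp u v η x :=
    fun x hx => telE_lo hx
  have e_low : ∀ q, q < lo → ∀ x ∈ gr K (dgT n dg) q, telE n dg lo dp u v η x = 0 :=
    fun q hq x hx => telE_low hq hx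
  obtain ⟨aF, haF⟩ : ∃ aF : (Fin (n + 3) × ρ → K) →ₗ[K] S, aF = ∑ m : Fin (n + 3),
    ((η ^ (m : ℕ) : Module.End K S) : S →ₗ[K] S) ∘ₗ v ∘ₗ slot K n ρ m := ⟨_, rfl⟩
  have hA : telA n dg lo dp u v η = aF ∘ₗ telE n dg lo dp u v η := by rw [haF]; rfl
  have hB : telB n dg lo dp u v η = telE n dg lo dp u v η ∘ₗ ins0 n ∘ₗ u := rfl
  have hdE : teldE n dg lo dp u v η = telD n dp u v η ∘ₗ telE n dg lo dp u v η := rfl
  have hKE : telKE n dg lo dp u v η = telE n dg lo dp u v η ∘ₗ telK K n ρ ∘ₗ
    telE n dg lo dp u v η := rfl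
  have haF' : ∀ x, aF x = ∑ m : Fin (n + 3), ((η ^ (m : ℕ) : Module.End K S) : S →ₗ[K] S)
          (v (slot K n ρ m x)) := by
    intro x
    rw [haF, LinearMap.sum_apply]
    rfl
  have hDkD' : ∀ q, lo ≤ q → ∀ x ∈ gr K (dgT n dg) q,
      telD n dp u v η (telK K n ρ x) + telK K n ρ (telD n dp u v η x) =
        ins0 n (u (aF x)) - x := by
    intro q hq x hx
    rw [hDkD q hq x hx, haF']
  rw [← haF] at hdF
  rw [hA, hB, hdE, hKE]
  obtain ⟨e, he⟩ : ∃ e, e = telE n dg lo dp u v η := ⟨_, rfl⟩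
  obtain ⟨D, hD⟩ : ∃ D, D = telD n dp u v η := ⟨_, rfl⟩
  obtain ⟨π, hπ⟩ : ∃ π, π = telPi n dp u v η := ⟨_, rfl⟩
  obtain ⟨k, hk⟩ : ∃ k, k = telK K n ρ := ⟨_, rfl⟩
  rw [← he] at e_hi e_lo e_low ⊢
  rw [← hD] at hDD hdF hDi hDk hDkk hDkD' gD ⊢
  rw [← hk] at hDk hDkk hDkD' gk ⊢
  rw [← hπ] at hDk hDkk gPi e_lo
  -- pointwise versions
  have DD : ∀ x, D (D x) = 0 := fun x => LinearMap.congr_fun hDD x
  have dF : ∀ x, d (aF x) = aF (D x) := fun x => LinearMap.congr_fun hdF x
  have Di : ∀ f, D (ins0 n (u f)) = ins0 n (u (d f)) := fun f => LinearMap.congr_fun hDi f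
  have gF : ∀ q, ∀ x ∈ gr K (dgT n dg) q, aF x ∈ G q := by
    intro q x hx
    rw [haF']
    refine Submodule.sum_mem _ (fun m _ => ?_)
    have h1 := h.g_v _ _ (slot_mem hx m)
    have h2 := pow_deg h.g_η (m : ℕ) _ _ h1
    have e1 : q + ((m : ℕ) : ℤ) + 0 + -((m : ℕ) : ℤ) = q := by ring
    rw [e1] at h2
    exact h2
  have gPi' : ∀ q, ∀ x ∈ gr K (dgT n dg) q, π x ∈ gr K (dgT n dg) q := by
    intro q x hx
    have := gPi q x hx
    rwa [add_zero] at this
  have gE : ∀ q, ∀ x ∈ gr K (dgT n dg) q, e x ∈ gr K (dgT n dg) q := by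
    intro q x hx
    rcases lt_trichotomy q lo with hq | hq | hq
    · rw [e_low q hq x hx]; exact (gr K _ _).zero_mem
    · subst hq
      rw [e_lo x hx]
      exact gPi' _ x hx
    · rw [e_hi q hq x hx]; exact hx
  have Dpi : ∀ x ∈ gr K (dgT n dg) lo, D (π x) = D x := by
    intro x hx
    have h1 : π x = D (k x) + x := by rw [hDk x hx]; abel
    rw [h1, map_add, DD, zero_add]
  have pipi : ∀ x ∈ gr K (dgT n dg) lo, π (π x) = π x := by
    intro x hx
    have h1 := congrArg D (hDkk x hx)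
    rw [DD, map_neg, hDk _ (gPi' _ x hx)] at h1
    have h2 : π (π x) - π x = 0 := by
      rw [← neg_eq_zero]; exact h1.symm
    exact sub_eq_zero.1 h2
  have aFpi : ∀ x ∈ gr K (dgT n dg) lo, aF (π x) = aF x := by
    intro x hx
    have h1 : π x = D (k x) + x := by rw [hDk x hx]; abel
    have h2 : aF (k x) = 0 := h.bdd (lo + -1) (by omega) _ (gF _ _ (gk lo x hx))
    rw [h1, map_add, ← dF, h2, map_zero, zero_add]
  have ee : ∀ q, ∀ x ∈ gr K (dgT n dg) q, e (e x) = e x := by
    intro q x hx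
    rcases lt_trichotomy q lo with hq | hq | hq
    · rw [e_low q hq x hx, map_zero]
    · subst hq
      rw [e_lo x hx, e_lo _ (gPi' _ x hx), pipi x hx]
    · rw [e_hi q hq x hx, e_hi q hq x hx]
  have eDe : ∀ q, ∀ x ∈ gr K (dgT n dg) q, e (D (e x)) = D (e x) := by
    intro q x hx
    rcases lt_trichotomy q lo with hq | hq | hq
    · rw [e_low q hq x hx, map_zero, map_zero]
    · subst hq
      exact e_hi (q + 1) (by omega) _ (gD _ _ (gE _ x hx))
    · exact e_hi (q + 1) (by omega) _ (gD _ _ (gE _ x hx))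
  have aFe : ∀ q, lo ≤ q → ∀ x ∈ gr K (dgT n dg) q, aF (e x) = aF x := by
    intro q hq x hx
    rcases hq.eq_or_lt with hq | hq
    · subst hq
      rw [e_lo x hx, aFpi x hx]
    · rw [e_hi q hq x hx]
  have eD : ∀ q, lo ≤ q → ∀ x ∈ gr K (dgT n dg) q, e (D x) = D (e x) := by
    intro q hq x hx
    rcases hq.eq_or_lt with hq | hq
    · subst hq
      rw [e_lo x hx, Dpi x hx, e_hi _ (by omega) _ (gD _ x hx)]
    · rw [e_hi q hq x hx, e_hi _ (by omega) _ (gD _ x hx)]
  have Hee : e ∘ₗ e = e := ext_hom (dgT n dg) (fun q x hx => ee q x hx)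
  have HeDe : e ∘ₗ D ∘ₗ e = D ∘ₗ e := ext_hom (dgT n dg) (fun q x hx => eDe q x hx)
  have Pee : ∀ x, e (e x) = e x := fun x => LinearMap.congr_fun Hee x
  have PeDe : ∀ x, e (D (e x)) = D (e x) := fun x => LinearMap.congr_fun HeDe x
  have HaFi : aF ∘ₗ e ∘ₗ ins0 n = aF ∘ₗ ins0 n := by
    apply ext_hom dg
    intro q z hz
    by_cases hq : q < lo
    · rw [eq_zero_of_lo h.lo_le hq hz, map_zero, map_zero]
    · exact aFe q (not_lt.1 hq) _ (ins0_mem hz)
  have HeDi : e ∘ₗ D ∘ₗ ins0 n = D ∘ₗ e ∘ₗ ins0 n := by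
    apply ext_hom dg
    intro q z hz
    by_cases hq : q < lo
    · rw [eq_zero_of_lo h.lo_le hq hz, map_zero, map_zero]
    · exact eD q (not_lt.1 hq) _ (ins0_mem hz)
  have aFi : ∀ z, aF (ins0 n z) = v z := by
    intro z
    rw [haF', Finset.sum_eq_single (0 : Fin (n + 3))]
    · rw [← sl_fin]
      have : ((0 : Fin (n + 3)) : ℕ) = 0 := rfl
      rw [this, sl_ins0_zero, pow_zero]
      rfl
    · intro m _ hm
      rw [← sl_fin]
      obtain ⟨m', hm'⟩ : ∃ m', (m : ℕ) = m' + 1 :=
        ⟨m - 1, by have : (m : ℕ) ≠ 0 := fun h0 => hm (Fin.ext h0); omega⟩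
      rw [hm', sl_ins0_succ, map_zero, map_zero]
    · intro h0; exact absurd (Finset.mem_univ _) h0
  have th_e : ∀ x, th K (dgT n dg) (e x) = e (th K (dgT n dg) x) := by
    intro x
    have hg : Deg (dgT n dg) (dgT n dg) e 0 := by
      intro q z hz; rw [add_zero]; exact gE q z hz
    have := LinearMap.congr_fun (th_comp_of_deg hg) x
    simpa [sgn_zero] using this
  have th_i : ∀ z : ρ → K, th K (dgT n dg) (ins0 n z) = ins0 n (th K dg z) := by
    intro z
    have hg : Deg dg (dgT n dg) (ins0 (K := K) n) 0 := by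
      intro q z hz; rw [add_zero]; exact ins0_mem hz
    have := LinearMap.congr_fun (th_comp_of_deg hg) z
    simpa [sgn_zero] using this
  have t_pow : ∀ (m : ℕ) (f : S), t (((η ^ m : Module.End K S) : S →ₗ[K] S) f) =
      ((-1 : ℤ) ^ m) • (((η ^ m : Module.End K S) : S →ₗ[K] S) (t f)) := by
    intro m
    induction m with
    | zero => intro f; simp
    | succ m ih =>
      intro f
      have h1 : ∀ g, ((η ^ (m + 1) : Module.End K S) : S →ₗ[K] S) g =
          η (((η ^ m : Module.End K S) : S →ₗ[K] S) g) := by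
        intro g; rw [pow_succ']; rfl
      have h2 : ∀ g, t (η g) = -(η (t g)) := by
        intro g
        have := LinearMap.congr_fun h.t_η g
        simpa using this
      rw [h1, h2, ih, map_zsmul, h1, pow_succ]
      simp
  have t_F : ∀ x, t (aF x) = aF (th K (dgT n dg) x) := by
    intro x
    rw [haF', haF', map_sum]
    refine Finset.sum_congr rfl (fun m _ => ?_)
    have h1 : ∀ z, t (v z) = v (th K dg z) := fun z => LinearMap.congr_fun h.t_v z
    rw [t_pow, h1, slot_th, map_zsmul, map_zsmul]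
  refine
    { d_d := h.d_d
      t_t := h.t_t
      t_d := h.t_d
      t_η := h.t_η
      g_d := h.g_d
      g_η := h.g_η
      e_e := Hee
      g_e := fun q x hx => by rw [add_zero]; exact gE q x hx
      e_dE := HeDe
      dE_e := by rw [LinearMap.comp_assoc, Hee]
      dE_dE := ?_
      g_dE := fun q x hx => gD _ _ (gE q x hx)
      e_k := by rw [← LinearMap.comp_assoc, Hee]
      k_e := by rw [LinearMap.comp_assoc, LinearMap.comp_assoc, Hee]
      g_k := fun q x hx => gE _ _ (gk _ _ (gE q x hx))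
      a_e := by rw [LinearMap.comp_assoc, Hee]
      d_a := ?_
      g_a := fun q x hx => by rw [add_zero]; exact gF _ _ (gE q x hx)
      t_a := ?_
      e_b := by rw [← LinearMap.comp_assoc, Hee]
      b_d := ?_
      g_b := ?_
      th_b := ?_
      ab := ?_
      ba := ?_ }
  · apply LinearMap.ext; intro x
    simp only [LinearMap.comp_apply, LinearMap.zero_apply]
    rw [PeDe, DD]
  · apply LinearMap.ext; intro x
    simp only [LinearMap.comp_apply]
    rw [dF, PeDe]
  · apply LinearMap.ext; intro x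
    simp only [LinearMap.comp_apply]
    rw [t_F, th_e]
  · apply LinearMap.ext; intro f
    simp only [LinearMap.comp_apply]
    rw [← Di, Pee]
    exact LinearMap.congr_fun HeDi (u f)
  · intro q f hf
    have h1 := h.g_u q f hf
    exact gE _ _ (ins0_mem h1)
  · apply LinearMap.ext; intro f
    simp only [LinearMap.comp_apply]
    rw [th_e, th_i]
    have h1 : th K dg (u f) = u (t f) := LinearMap.congr_fun h.th_u f
    rw [h1]
  · apply LinearMap.ext; intro f
    simp only [LinearMap.comp_apply, LinearMap.sub_apply, LinearMap.add_apply, LinearMap.id_apply]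
    have h1 : aF (e (ins0 n (u f))) = aF (ins0 n (u f)) := LinearMap.congr_fun HaFi (u f)
    have h2 := LinearMap.congr_fun h.dom f
    rw [Pee, h1, aFi]
    exact h2
  · apply ext_hom (dgT n dg)
    intro q x hx
    simp only [LinearMap.comp_apply, LinearMap.add_apply]
    rw [Pee, PeDe]
    by_cases hq : q < lo
    · rw [e_low q hq x hx]
      simp
    have hq : lo ≤ q := not_lt.1 hq
    obtain ⟨y, hy⟩ : ∃ y, y = e x := ⟨_, rfl⟩
    have hyq : y ∈ gr K (dgT n dg) q := by rw [hy]; exact gE q x hx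
    have hey : e y = y := by rw [hy, Pee]
    rw [← hy]
    have h1 : ins0 n (u (aF y)) = y + D (k y) + k (D y) := by
      have := hDkD' q hq y hyq
      rw [add_assoc, this]
      abel
    rw [h1, map_add, map_add, hey]
    have h2 : e (D (k y)) = D (e (k y)) := by
      rcases hq.eq_or_lt with hq | hq
      · subst hq
        rw [e_low _ (by omega) _ (gk _ _ hyq), map_zero, hDk y hyq, map_sub, e_lo _ (gPi' _ y hyq),
          pipi y hyq, e_lo y hyq, sub_self]
      · exact eD (q + -1) (by omega) _ (gk _ _ hyq)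
    rw [h2]

end Pool.Agent.Lib.MP_9b987c_gt.HC
end

section
/-!
# TLA: the telescope, first part
-/
namespace Pool.Agent.Lib.MP_9b987c_gt.HC

namespace TLA

open scoped BigOperators

variable {K S ρ : Type*} [CommRing K] [AddCommGroup S] [Module K S]

lemma slot_blk (n : ℕ) (B : ℕ → ℕ → ((ρ → K) →ₗ[K] (ρ → K))) (x : Fin (n + 3) × ρ → K)
    (m' : Fin (n + 3)) :
    slot K n ρ m' (blk n B x) = ∑ m : Fin (n + 3), B m' m (slot K n ρ m x) := by
  funext r
  rw [Finset.sum_apply]
  show blk n B x (m', r) = _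
  unfold blk
  rw [LinearMap.pi_apply, LinearMap.sum_apply]
  rfl

lemma ext_slot {n : ℕ} {x y : Fin (n + 3) × ρ → K}
    (h : ∀ m, slot K n ρ m x = slot K n ρ m y) : x = y := by
  funext ⟨m, r⟩
  exact congrFun (h m) r

lemma slot_ins0 (n : ℕ) (z : ρ → K) (m : Fin (n + 3)) :
    slot K n ρ m (ins0 n z) = if m = 0 then z else 0 := by
  funext r
  show ins0 n z (m, r) = _
  unfold ins0
  rw [LinearMap.pi_apply]
  by_cases h : m = 0
  · subst h
    simp
  · simp [h]

variable {d η : S →ₗ[K] S} {dp : (ρ → K) →ₗ[K] (ρ → K)} {u : S →ₗ[K] (ρ → K)}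
  {v : (ρ → K) →ₗ[K] S}

lemma d_pow (h : v ∘ₗ u - LinearMap.id = d ∘ₗ η + η ∘ₗ d) (m : ℕ) (s : S) :
    d ((η ^ m : Module.End K S) s) = ((-1 : ℤ) ^ m) • (η ^ m : Module.End K S) (d s) +
      ∑ i ∈ Finset.range m, ((-1 : ℤ) ^ i) • (η ^ i : Module.End K S)
        (v (u ((η ^ (m - 1 - i) : Module.End K S) s))) -
      (if Odd m then (η ^ (m - 1) : Module.End K S) s else 0) := by
  have h1 : ∀ y : S, d (η y) = - η (d y) + v (u y) - y := by
    intro y
    have := LinearMap.congr_fun h y
    simp only [LinearMap.sub_apply, LinearMap.comp_apply, LinearMap.id_apply,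
      LinearMap.add_apply] at this
    rw [add_sub_assoc, this]
    abel
  induction m with
  | zero => simp
  | succ m ih =>
    have hη : ∀ (k : ℕ) (y : S), (η ^ (k + 1) : Module.End K S) y = η ((η ^ k : Module.End K S) y) := by
      intro k y
      rw [pow_succ']
      rfl
    rw [hη, h1, ih, Finset.sum_range_succ']
    simp only [map_add, map_sub, map_sum, map_zsmul]
    have e1 : ∀ i ∈ Finset.range m, ((-1 : ℤ) ^ (i + 1)) • (η ^ (i + 1) : Module.End K S)
        (v (u ((η ^ (m + 1 - 1 - (i + 1)) : Module.End K S) s))) =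
        - (((-1 : ℤ) ^ i) • η ((η ^ i : Module.End K S)
          (v (u ((η ^ (m - 1 - i) : Module.End K S) s))))) := by
      intro i _
      rw [hη, pow_succ, mul_neg, mul_one, neg_smul,
        show m + 1 - 1 - (i + 1) = m - 1 - i by omega]
    rw [Finset.sum_congr rfl e1, Finset.sum_neg_distrib]
    have e2 : ((-1 : ℤ) ^ (m + 1)) • (η ^ (m + 1) : Module.End K S) (d s) =
        - (((-1 : ℤ) ^ m) • η ((η ^ m : Module.End K S) (d s))) := by
      rw [hη, pow_succ, mul_neg, mul_one, neg_smul]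
    rw [e2]
    have e3 : (if Odd (m + 1) then (η ^ (m + 1 - 1) : Module.End K S) s else 0) =
        (η ^ m : Module.End K S) s - η (if Odd m then (η ^ (m - 1) : Module.End K S) s else 0) := by
      by_cases hm : Odd m
      · have h2 : ¬ Odd (m + 1) := by
          rw [Nat.odd_add_one]; simpa using hm
        rw [if_neg h2, if_pos hm]
        obtain ⟨k, hk⟩ : ∃ k, m = k + 1 := ⟨m - 1, by have := hm.pos; omega⟩
        subst hk
        rw [Nat.add_sub_cancel, ← hη, sub_self]
      · have h2 : Odd (m + 1) := by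
          rw [Nat.odd_add_one]; exact hm
        rw [if_pos h2, if_neg hm, map_zero, sub_zero, Nat.add_sub_cancel]
    rw [e3]
    simp only [pow_zero, one_smul, Module.End.one_apply, Nat.sub_zero, Nat.add_sub_cancel]
    abel

/-- The blocks of the differential. -/
def PP (dp : (ρ → K) →ₗ[K] (ρ → K)) (u : S →ₗ[K] (ρ → K)) (v : (ρ → K) →ₗ[K] S)
    (η : S →ₗ[K] S) (i : ℕ) : (ρ → K) →ₗ[K] (ρ → K) :=
  if i = 0 then dp else pj u v η i

lemma PP_zero : PP dp u v η 0 = dp := by simp [PP]
lemma PP_succ (i : ℕ) (z : ρ → K) :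
    PP dp u v η (i + 1) z = u ((η ^ i : Module.End K S) (v z)) := by simp [PP, pj]

lemma star (h : v ∘ₗ u - LinearMap.id = d ∘ₗ η + η ∘ₗ d) (hu : u ∘ₗ d = dp ∘ₗ u)
    (hv : d ∘ₗ v = v ∘ₗ dp) (k : ℕ) (z : ρ → K) :
    ∑ i ∈ Finset.range (k + 2), ((-1 : ℤ) ^ i) • PP dp u v η i (PP dp u v η (k + 1 - i) z) =
      - (if Odd k then PP dp u v η k z else 0) := by
  have hu' : ∀ s, dp (u s) = u (d s) := fun s => (LinearMap.congr_fun hu s).symm
  have hv' : ∀ y, d (v y) = v (dp y) := fun y => LinearMap.congr_fun hv y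
  rw [Finset.sum_range_succ', Finset.sum_range_succ]
  have e0 : PP dp u v η 0 (PP dp u v η (k + 1 - 0) z) =
      ((-1 : ℤ) ^ k) • PP dp u v η (k + 1) (PP dp u v η 0 z) +
      ∑ i ∈ Finset.range k, ((-1 : ℤ) ^ i) • PP dp u v η (i + 1) (PP dp u v η (k - i) z) -
      (if Odd k then PP dp u v η k z else 0) := by
    rw [Nat.sub_zero, PP_succ, PP_zero, hu', d_pow h, hv', map_sub, map_add, map_sum, map_zsmul,
      PP_succ]
    congr 1
    · congr 1
      refine Finset.sum_congr rfl (fun i hi => ?_)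
      have hi' := Finset.mem_range.1 hi
      obtain ⟨t, ht⟩ : ∃ t, k = i + 1 + t := ⟨k - (i + 1), by omega⟩
      subst ht
      rw [map_zsmul, PP_succ, show i + 1 + t - i = t + 1 by omega, PP_succ,
        show i + 1 + t - 1 - i = t by omega]
    · by_cases hk : Odd k
      · rw [if_pos hk, if_pos hk]
        obtain ⟨t, ht⟩ : ∃ t, k = t + 1 := ⟨k - 1, by have := hk.pos; omega⟩
        subst ht
        rw [PP_succ, Nat.add_sub_cancel]
      · rw [if_neg hk, if_neg hk, map_zero]
  rw [pow_zero, one_smul, e0]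
  have e1 : ∀ i ∈ Finset.range k, ((-1 : ℤ) ^ (i + 1)) •
      PP dp u v η (i + 1) (PP dp u v η (k + 1 - (i + 1)) z) =
      - (((-1 : ℤ) ^ i) • PP dp u v η (i + 1) (PP dp u v η (k - i) z)) := by
    intro i _
    rw [pow_succ, mul_neg, mul_one, neg_smul, Nat.add_sub_add_right]
  rw [Finset.sum_congr rfl e1, Finset.sum_neg_distrib, Nat.sub_self]
  have e2 : ((-1 : ℤ) ^ (k + 1)) • PP dp u v η (k + 1) (PP dp u v η 0 z) =
      - (((-1 : ℤ) ^ k) • PP dp u v η (k + 1) (PP dp u v η 0 z)) := by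
    rw [pow_succ, mul_neg, mul_one, neg_smul]
  rw [e2]
  abel

/-- The block function of `telD`. -/
def BD (dp : (ρ → K) →ₗ[K] (ρ → K)) (u : S →ₗ[K] (ρ → K)) (v : (ρ → K) →ₗ[K] S)
    (η : S →ₗ[K] S) (m' m : ℕ) : (ρ → K) →ₗ[K] (ρ → K) :=
  if m = m' then ((-1 : ℤ) ^ m') • dp
  else if m' < m then ((-1 : ℤ) ^ m') • pj u v η (m - m') -
    (if m = m' + 1 ∧ Even m' then LinearMap.id else 0)
  else 0

lemma BD_lt {m' m : ℕ} (h : m < m') : BD dp u v η m' m = 0 := by
  unfold BD
  rw [if_neg (by omega), if_neg (by omega)]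

lemma BD_add (m' i : ℕ) (z : ρ → K) : BD dp u v η m' (m' + i) z =
    ((-1 : ℤ) ^ m') • PP dp u v η i z - (if i = 1 ∧ Even m' then z else 0) := by
  unfold BD PP
  by_cases h : i = 0
  · subst h
    rw [Nat.add_zero, if_pos rfl, if_pos rfl, if_neg (fun hh => absurd hh.1 (by norm_num)),
      sub_zero]
    rfl
  · rw [if_neg (by omega), if_pos (by omega), if_neg h, Nat.add_sub_cancel_left]
    rw [LinearMap.sub_apply, LinearMap.smul_apply]
    congr 1
    by_cases h1 : i = 1 ∧ Even m'
    · rw [if_pos h1, if_pos ⟨by omega, h1.2⟩]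
      rfl
    · rw [if_neg h1, if_neg (by rintro ⟨h2, h3⟩; exact h1 ⟨by omega, h3⟩)]
      rfl

lemma telD_slot (n : ℕ) (x : Fin (n + 3) × ρ → K) (m' : Fin (n + 3)) :
    slot K n ρ m' (telD n dp u v η x) =
      ∑ m : Fin (n + 3), BD dp u v η m' m (slot K n ρ m x) :=
  slot_blk n (BD dp u v η) x m'

lemma block_zero (h : v ∘ₗ u - LinearMap.id = d ∘ₗ η + η ∘ₗ d) (hu : u ∘ₗ d = dp ∘ₗ u)
    (hv : d ∘ₗ v = v ∘ₗ dp) (hdp : dp ∘ₗ dp = 0) (N m' m'' : ℕ) (hN : m'' < N) (z : ρ → K) :
    ∑ m ∈ Finset.range N, BD dp u v η m' m (BD dp u v η m m'' z) = 0 := by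
  rcases Nat.lt_or_ge m'' m' with hlt | hge
  · refine Finset.sum_eq_zero (fun m _ => ?_)
    rcases Nat.lt_or_ge m m' with h1 | h1
    · rw [BD_lt h1]; rfl
    · rw [BD_lt (show m'' < m by omega)]; simp
  · have hsub : Finset.Ico m' (m'' + 1) ⊆ Finset.range N := by
      intro m hm
      rw [Finset.mem_Ico] at hm
      rw [Finset.mem_range]
      omega
    rw [← Finset.sum_subset hsub]
    · rw [Finset.sum_Ico_eq_sum_range]
      obtain ⟨j, rfl⟩ : ∃ j, m'' = m' + j := ⟨m'' - m', by omega⟩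
      rw [show m' + j + 1 - m' = j + 1 by omega]
      cases j with
      | zero =>
        rw [Finset.sum_range_one]
        have e1 := BD_add (dp := dp) (u := u) (v := v) (η := η) m' 0
        simp only [Nat.add_zero] at e1 ⊢
        have e2 : dp (dp z) = 0 := LinearMap.congr_fun hdp z
        rw [e1, e1, PP_zero, if_neg (fun hh => absurd hh.1 (by norm_num)),
          if_neg (fun hh => absurd hh.1 (by norm_num)), sub_zero, sub_zero, map_zsmul, e2,
          smul_zero, smul_zero]
      | succ k =>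
        have hterm : ∀ i ∈ Finset.range (k + 1 + 1),
            BD dp u v η m' (m' + i) (BD dp u v η (m' + i) (m' + (k + 1)) z) =
            ((-1 : ℤ) ^ i) • PP dp u v η i (PP dp u v η (k + 1 - i) z)
            - ((-1 : ℤ) ^ m') • (if i = k then (if Even (m' + k) then PP dp u v η k z else 0)
                else 0)
            - (if i = 1 then (if Even m' then ((-1 : ℤ) ^ (m' + 1)) • PP dp u v η k z else 0)
                else 0) := by
          intro i hi
          have hi' := Finset.mem_range.1 hi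
          rw [show m' + (k + 1) = m' + i + (k + 1 - i) by omega, BD_add, BD_add]
          rw [map_sub, map_zsmul, smul_sub, smul_smul]
          have hs : ((-1 : ℤ) ^ m') * ((-1 : ℤ) ^ (m' + i)) = (-1) ^ i := by
            rw [pow_add, ← mul_assoc, ← pow_add, ← two_mul, pow_mul]; simp
          rw [hs]
          have f1 : PP dp u v η i (if k + 1 - i = 1 ∧ Even (m' + i) then z else 0) =
              (if i = k then (if Even (m' + k) then PP dp u v η k z else 0) else 0) := by
            by_cases hik : i = k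
            · subst hik
              by_cases he : Even (m' + i)
              · rw [if_pos ⟨by omega, he⟩, if_pos rfl, if_pos he]
              · rw [if_neg (fun hh => he hh.2), if_pos rfl, if_neg he, map_zero]
            · rw [if_neg (by rintro ⟨h1, _⟩; omega), if_neg hik, map_zero]
          rw [f1]
          congr 1
          by_cases h1 : i = 1
          · subst h1
            by_cases he : Even m'
            · have hne : ¬ Even (m' + 1) := by
                rw [Nat.even_add_one]; simpa using he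
              rw [if_pos ⟨rfl, he⟩, if_pos rfl, if_pos he, if_neg (fun hh => hne hh.2), sub_zero,
                Nat.add_sub_cancel]
            · rw [if_neg (fun hh => he hh.2), if_pos rfl, if_neg he]
          · rw [if_neg (fun hh => h1 hh.1), if_neg h1]
        rw [Finset.sum_congr rfl hterm, Finset.sum_sub_distrib, Finset.sum_sub_distrib,
          ← Finset.smul_sum, star h hu hv, Finset.sum_ite_eq' (Finset.range (k + 1 + 1)) k,
          Finset.sum_ite_eq' (Finset.range (k + 1 + 1)) 1,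
          if_pos (Finset.mem_range.2 (by omega)), if_pos (Finset.mem_range.2 (by omega))]
        rcases Nat.even_or_odd m' with hm | hm
        · rcases Nat.even_or_odd k with hk | hk
          · rw [if_neg (by simpa using hk), if_pos (hm.add hk), if_pos hm, hm.neg_one_pow,
              hm.add_one.neg_one_pow]
            simp
          · rw [if_pos hk, if_neg (by simpa using hm.add_odd hk), if_pos hm, hm.neg_one_pow,
              hm.add_one.neg_one_pow]
            simp
        · rcases Nat.even_or_odd k with hk | hk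
          · rw [if_neg (by simpa using hk), if_neg (by simpa using hm.add_even hk),
              if_neg (by simpa using hm)]
            simp
          · rw [if_pos hk, if_pos (hm.add_odd hk), if_neg (by simpa using hm), hm.neg_one_pow]
            simp
    · intro m _ hm
      rw [Finset.mem_Ico, not_and_or] at hm
      rcases hm with h1 | h1
      · rw [BD_lt (show m < m' by omega)]; rfl
      · rw [BD_lt (show m'' < m by omega)]; simp

lemma D_D (h : v ∘ₗ u - LinearMap.id = d ∘ₗ η + η ∘ₗ d) (hu : u ∘ₗ d = dp ∘ₗ u)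
    (hv : d ∘ₗ v = v ∘ₗ dp) (hdp : dp ∘ₗ dp = 0) (n : ℕ) :
    telD n dp u v η ∘ₗ telD n dp u v η = 0 := by
  apply LinearMap.ext
  intro x
  apply ext_slot
  intro m'
  rw [LinearMap.comp_apply, telD_slot]
  simp only [telD_slot, map_sum]
  rw [Finset.sum_comm]
  rw [LinearMap.zero_apply, map_zero]
  refine Finset.sum_eq_zero (fun m'' _ => ?_)
  rw [← block_zero h hu hv hdp (n + 3) m' m'' m''.2 (slot K n ρ m'' x),
    ← Fin.sum_univ_eq_sum_range
      (fun m => BD dp u v η m' m (BD dp u v η m m'' (slot K n ρ m'' x))) (n + 3)]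

lemma d_aF_block (h : v ∘ₗ u - LinearMap.id = d ∘ₗ η + η ∘ₗ d)
    (hv : d ∘ₗ v = v ∘ₗ dp) (N m'' : ℕ) (hN : m'' < N) (z : ρ → K) :
    d ((η ^ m'' : Module.End K S) (v z)) =
      ∑ m ∈ Finset.range N, (η ^ m : Module.End K S) (v (BD dp u v η m m'' z)) := by
  have hv' : ∀ y, d (v y) = v (dp y) := fun y => LinearMap.congr_fun hv y
  have hsub : Finset.range (m'' + 1) ⊆ Finset.range N := by
    intro m hm
    rw [Finset.mem_range] at *
    omega
  rw [← Finset.sum_subset hsub]
  · rw [Finset.sum_range_succ, d_pow h, hv']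
    have e0 : BD dp u v η m'' m'' z = ((-1 : ℤ) ^ m'') • dp z := by
      have e0 := BD_add (dp := dp) (u := u) (v := v) (η := η) m'' 0 z
      simp only [Nat.add_zero] at e0
      rw [e0, PP_zero, if_neg (fun hh => absurd hh.1 (by norm_num)), sub_zero]
    rw [e0, map_zsmul, map_zsmul]
    have hterm : ∀ m ∈ Finset.range m'', (η ^ m : Module.End K S) (v (BD dp u v η m m'' z)) =
        ((-1 : ℤ) ^ m) • (η ^ m : Module.End K S)
          (v (u ((η ^ (m'' - 1 - m) : Module.End K S) (v z)))) -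
        (if m = m'' - 1 then (if Odd m'' then (η ^ (m'' - 1) : Module.End K S) (v z) else 0)
          else 0) := by
      intro m hm
      have hm' := Finset.mem_range.1 hm
      obtain ⟨t, rfl⟩ : ∃ t, m'' = m + (t + 1) := ⟨m'' - m - 1, by omega⟩
      rw [BD_add, PP_succ, map_sub, map_sub, map_zsmul, map_zsmul,
        show m + (t + 1) - 1 - m = t by omega]
      congr 1
      by_cases ht : t = 0
      · subst ht
        rw [if_pos (show m = m + (0 + 1) - 1 by omega)]
        by_cases he : Even m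
        · rw [if_pos ⟨rfl, he⟩, if_pos (by simpa using he.add_one),
            show m + (0 + 1) - 1 = m by omega]
        · rw [if_neg (fun hh => he hh.2), if_neg, map_zero, map_zero]
          intro ho
          apply he
          rw [Nat.zero_add, Nat.odd_add_one] at ho
          simpa using ho
      · rw [if_neg (by omega), if_neg (by omega), map_zero, map_zero]
    rw [Finset.sum_congr rfl hterm, Finset.sum_sub_distrib,
      Finset.sum_ite_eq' (Finset.range m'') (m'' - 1)]
    by_cases ho : Odd m''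
    · rw [if_pos ho, if_pos (Finset.mem_range.2 (by have := ho.pos; omega))]
      abel
    · rw [if_neg ho]
      simp only [ite_self]
      abel
  · intro m _ hm
    rw [Finset.mem_range] at hm
    rw [BD_lt (show m'' < m by omega)]
    simp

lemma d_aF (h : v ∘ₗ u - LinearMap.id = d ∘ₗ η + η ∘ₗ d)
    (hv : d ∘ₗ v = v ∘ₗ dp) (n : ℕ) :
    (d ∘ₗ (∑ m : Fin (n + 3), ((η ^ (m : ℕ) : Module.End K S) : S →ₗ[K] S) ∘ₗ v ∘ₗ slot K n ρ m) =
      (∑ m : Fin (n + 3), ((η ^ (m : ℕ) : Module.End K S) : S →ₗ[K] S) ∘ₗ v ∘ₗ slot K n ρ m) ∘ₗ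
        telD n dp u v η) := by
  apply LinearMap.ext
  intro x
  simp only [LinearMap.comp_apply, LinearMap.sum_apply, map_sum, telD_slot]
  rw [Finset.sum_comm]
  refine Finset.sum_congr rfl (fun m'' _ => ?_)
  rw [d_aF_block h hv (n + 3) m'' m''.2,
    ← Fin.sum_univ_eq_sum_range
      (fun m => (η ^ m : Module.End K S) (v (BD dp u v η m m'' (slot K n ρ m'' x)))) (n + 3)]

lemma D_ins0 (n : ℕ) (z : ρ → K) : telD n dp u v η (ins0 n z) = ins0 n (dp z) := by
  apply ext_slot
  intro m'
  rw [telD_slot, slot_ins0, Finset.sum_eq_single 0]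
  · rw [slot_ins0, if_pos rfl]
    by_cases h : m' = 0
    · subst h
      rw [if_pos rfl]
      have e0 := BD_add (dp := dp) (u := u) (v := v) (η := η) 0 0 z
      simp only [Nat.add_zero] at e0
      rw [Fin.val_zero, e0, PP_zero]
      simp
    · rw [if_neg h, BD_lt]
      · rfl
      · have : (m' : ℕ) ≠ 0 := fun hh => h (Fin.ext hh)
        rw [Fin.val_zero]
        omega
  · intro m _ hm
    rw [slot_ins0, if_neg hm, map_zero]
  · intro hh
    exact absurd (Finset.mem_univ _) hh

end TLA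

theorem TLA : SpecTLA := by
  intro K S ρ _ _ _ dg lo n G d t dp u v η H
  refine ⟨TLA.D_D H.dom H.u_d H.d_v H.dp_dp n, TLA.d_aF H.dom H.d_v n, ?_⟩
  apply LinearMap.ext
  intro f
  rw [LinearMap.comp_apply, LinearMap.comp_apply, TLA.D_ins0]
  rw [LinearMap.comp_apply, LinearMap.comp_apply]
  congr 1
  exact (LinearMap.congr_fun H.u_d f).symm

end Pool.Agent.Lib.MP_9b987c_gt.HC
end

section
/-!
# TRF: homotopy transfer
-/
namespace Pool.Agent.Lib.MP_9b987c_gt.HC

open scoped BigOperators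

namespace TRFM

variable {K M κ W : Type} [CommRing K] [AddCommGroup M] [Module K M]

section Y

variable (a : W → (κ → K) →ₗ[K] M) (G : W → M →ₗ[K] M)

/-- The signed chain `(-1)^k Y`. -/
def Z : W → List W → ((κ → K) →ₗ[K] M) := fun w l => ((-1 : ℤ) ^ l.length) • Yc a G w l

/-- The first face of `Z`. -/
def Z1 : W → List W → ((κ → K) →ₗ[K] M)
  | _, [] => 0
  | _, u :: l => Z a G u l

@[simp] lemma Yc_nil (w : W) : Yc a G w [] = a w := rfl
@[simp] lemma Yc_cons (w u : W) (l : List W) : Yc a G w (u :: l) = G w ∘ₗ Yc a G u l := rfl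
lemma Z_nil (w : W) : Z a G w [] = a w := by simp [Z]
lemma Z_cons (w u : W) (l : List W) : Z a G w (u :: l) = (-(G w)) ∘ₗ Z a G u l := by
  simp only [Z, Yc_cons, List.length_cons, pow_succ]
  apply LinearMap.ext; intro z
  simp

lemma sh_Z (w : W) : sh (Z a G) w = fun u l => (-(G w)) ∘ₗ Z a G u l := by
  funext u l
  rw [sh_apply, Z_cons]

lemma fc_Z_cons (w u : W) (l : List W) :
    fc (Z a G) w (u :: l) = G w ∘ₗ (fc (Z a G) u l + Z1 a G u l) := by
  cases l with
  | nil => simp [Z1]
  | cons v l =>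
    rw [fc_cons, sh_Z, fc_comp_left, Z_cons]
    apply LinearMap.ext; intro z
    simp [Z1]
    abel

lemma cv_Z_cons (R : W → List W → ((κ → K) →ₗ[K] (κ → K))) (w u : W) (l : List W) :
    cv (Z a G) R w (u :: l) = a w ∘ₗ R w (u :: l) + (-(G w)) ∘ₗ cv (Z a G) R u l := by
  rw [cv_cons, sh_Z, cv_comp_left, Z_nil]

end Y

end TRFM

open TRFM in
/-- The module TRF. -/
theorem specTRF : SpecTRF := by
  intro K M κ W _ _ _ _ dg G d t e dE a b h hS
  obtain ⟨H, hH⟩ : ∃ H : W → M →ₗ[K] M, H = fun w => t ∘ₗ h w := ⟨_, rfl⟩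
  rw [← hH]
  obtain ⟨θ, hθ⟩ : ∃ θ, θ = th K dg := ⟨_, rfl⟩
  have t_t : ∀ w : W, ∀ x, t (t x) = x := fun w x => LinearMap.congr_fun (hS w).t_t x
  have t_d : ∀ w : W, ∀ x, t (d x) = -(d (t x)) := fun w x => by
    have := LinearMap.congr_fun (hS w).t_d x
    simpa using this
  have t_h : ∀ (w : W) x, t (h w x) = -(h w (t x)) := fun w x => by
    have := LinearMap.congr_fun (hS w).t_h x
    simpa using this
  have d_a : ∀ (w : W) z, d (a w z) = a w (dE w z) := fun w z => LinearMap.congr_fun (hS w).d_a z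
  have t_a : ∀ (w : W) z, t (a w z) = a w (θ z) := fun w z => by
    rw [hθ]; exact LinearMap.congr_fun (hS w).t_a z
  have a_e : ∀ (w : W) z, a w (e w z) = a w z := fun w z => LinearMap.congr_fun (hS w).a_e z
  have e_b : ∀ (w : W) x, e w (b w x) = b w x := fun w x => LinearMap.congr_fun (hS w).e_b x
  have b_d : ∀ (w : W) x, b w (d x) = dE w (b w x) := fun w x => LinearMap.congr_fun (hS w).b_d x
  have th_b : ∀ (w : W) x, θ (b w x) = b w (t x) := fun w x => by
    rw [hθ]; exact LinearMap.congr_fun (hS w).th_b x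
  have ab : ∀ (w : W) x, a w (b w x) = x + d (h w x) + h w (d x) := fun w x => by
    have := LinearMap.congr_fun (hS w).ab x
    simp only [LinearMap.sub_apply, LinearMap.comp_apply, LinearMap.id_apply,
      LinearMap.add_apply] at this
    rw [sub_eq_iff_eq_add] at this
    rw [this]; abel
  have ba : ∀ (w : W) z, b w (a w z) = e w z := fun w z => LinearMap.congr_fun (hS w).ba z
  have h_a : ∀ (w : W) z, h w (a w z) = 0 := fun w z => LinearMap.congr_fun (hS w).h_a z
  have b_h : ∀ (w : W) x, b w (h w x) = 0 := fun w x => LinearMap.congr_fun (hS w).b_h x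
  have h_h : ∀ (w : W) x, h w (h w x) = 0 := fun w x => LinearMap.congr_fun (hS w).h_h x
  have θ_e : ∀ (w : W) z, θ (e w z) = e w (θ z) := fun w z => by
    rw [hθ]
    have := LinearMap.congr_fun (th_comp_of_deg (deg := dg) (deg' := dg) (hS w).g_e) z
    simpa [sgn_zero] using this
  have H_apply : ∀ (w : W) x, H w x = t (h w x) := fun w x => by rw [hH]; rfl
  have dH : ∀ (w : W) x, d (H w x) = H w (d x) + t x - t (a w (b w x)) := fun w x => by
    rw [H_apply, H_apply, ab]
    have := t_d w (h w x)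
    rw [map_add, map_add, this]
    abel
  have tH : ∀ (w : W) x, t (H w x) = -(H w (t x)) := fun w x => by
    rw [H_apply, H_apply, t_h w x]
    simp
  -- sign of `Y`
  have tZ : ∀ l (w : W) z, t (Z a H w l z) = Yc a H w l (θ z) := by
    intro l
    induction l with
    | nil => intro w z; rw [Z_nil, Yc_nil, t_a]
    | cons u l ih =>
      intro w z
      rw [Z_cons, Yc_cons, LinearMap.comp_apply, LinearMap.comp_apply, LinearMap.neg_apply, map_neg,
        tH, neg_neg, ih]
  obtain ⟨R, hR⟩ : ∃ R, R = trR dE θ a b H := ⟨_, rfl⟩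
  have R_nil : ∀ w, R w [] = dE w := fun w => by rw [hR]; rfl
  have R_cons : ∀ w u l, R w (u :: l) = (b w ∘ₗ t) ∘ₗ Z a H u l := fun w u l => by
    apply LinearMap.ext; intro z
    rw [LinearMap.comp_apply, LinearMap.comp_apply, tZ, hR]
    rfl
  have sh_R : ∀ w, sh R w = fun u l => (b w ∘ₗ t) ∘ₗ Z a H u l := by
    intro w; funext u l; rw [sh_apply, R_cons]
  -- the differential of `Z`
  have dZ : ∀ l (w : W) z, d (Z a H w l z) =
      cv (Z a H) R w l z - t (fc (Z a H) w l z) - t (Z1 a H w l z) := by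
    intro l
    induction l with
    | nil =>
      intro w z
      rw [cv_nil, fc_nil, Z_nil, LinearMap.comp_apply, R_nil, d_a]
      simp [Z1]
    | cons u l ih =>
      intro w z
      rw [Z_cons, fc_Z_cons, cv_Z_cons, R_cons]
      have e1 : Z1 a H w (u :: l) = Z a H u l := rfl
      have e2 : t (a w (b w (Z a H u l z))) = a w (b w (t (Z a H u l z))) := by
        rw [t_a, th_b]
      rw [e1]
      simp only [LinearMap.comp_apply, LinearMap.add_apply, LinearMap.neg_apply, map_neg, dH, ih,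
        map_sub, map_add, tH, e2]
      abel
  have gY : ∀ l (w : W), GMap (gr K dg) G (Yc a H w l) (-l.length) := by
    intro l
    induction l with
    | nil =>
      intro w q z hz
      have := (hS w).g_a q z hz
      simpa using this
    | cons u l ih =>
      intro w q z hz
      have h1 := ih u q z hz
      have h2 := (hS w).g_t _ _ ((hS w).g_h _ _ h1)
      rw [Yc_cons, LinearMap.comp_apply, H_apply]
      have e1 : q + -(l.length : ℤ) + -1 + 0 = q + -((u :: l).length : ℤ) := by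
        rw [List.length_cons]; push_cast; ring
      rw [e1] at h2
      exact h2
  have Ye : ∀ l (w : W), Yc a H w l ∘ₗ e (lst w l) = Yc a H w l := by
    intro l
    induction l with
    | nil => intro w; exact (hS w).a_e
    | cons u l ih => intro w; rw [Yc_cons, lst_cons, LinearMap.comp_assoc, ih]
  have Yrep : ∀ l (w : W), HasRep w l → Yc a H w l = 0 := by
    intro l
    induction l with
    | nil => intro w hw; exact absurd hw (hasRep_nil w)
    | cons u l ih =>
      intro w hw
      rw [hasRep_cons] at hw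
      rcases hw with hw | hw
      · subst hw
        cases l with
        | nil =>
          apply LinearMap.ext; intro z
          rw [Yc_cons, Yc_nil, LinearMap.comp_apply, H_apply, h_a, map_zero]
          rfl
        | cons v l =>
          apply LinearMap.ext; intro z
          rw [Yc_cons, Yc_cons, LinearMap.comp_apply, LinearMap.comp_apply, H_apply, H_apply]
          have e1 : ∀ x, h w (t (h w x)) = 0 := by
            intro x
            rw [t_h, map_neg, h_h, neg_zero]
          rw [e1, map_zero]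
          rfl
      · rw [Yc_cons, ih u hw, LinearMap.comp_zero]
  refine ⟨?_, fun w l => gY l w, fun w l => Ye l w, ?_⟩
  · rw [← hθ, ← hR]
    refine
      { e_idem := fun w => (hS w).e_e
        e_deg := fun w => (hS w).g_e
        deg_R := ?_
        left := ?_
        right := ?_
        eqn := ?_
        unit_one := ?_
        unit_rep := ?_ }
    · intro w l q z hz
      cases l with
      | nil =>
        rw [R_nil]
        have := (hS w).g_dE q z hz
        simpa using this
      | cons u l =>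
        have e0 : R w (u :: l) z = b w (Yc a H u l (θ z)) := by rw [hR]; rfl
        rw [e0]
        have h0 : θ z ∈ gr K dg q := by rw [hθ]; exact th_mem hz
        have h1 := (hS w).g_b _ _ (gY l u q _ h0)
        have e1 : q + -(l.length : ℤ) + 0 = q + (1 - ((u :: l).length : ℤ)) := by
          rw [List.length_cons]; push_cast; ring
        rw [e1] at h1
        exact h1
    · intro w l
      cases l with
      | nil => rw [R_nil]; exact (hS w).e_dE
      | cons u l =>
        rw [R_cons]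
        apply LinearMap.ext; intro z
        simp only [LinearMap.comp_apply]
        rw [e_b]
    · intro w l
      cases l with
      | nil => rw [R_nil]; exact (hS w).dE_e
      | cons u l =>
        apply LinearMap.ext; intro z
        have e0 : ∀ y, R w (u :: l) y = b w (Yc a H u l (θ y)) := by intro y; rw [hR]; rfl
        rw [LinearMap.comp_apply, e0, e0, lst_cons, θ_e]
        have := LinearMap.congr_fun (Ye l u) (θ z)
        rw [LinearMap.comp_apply] at this
        rw [this]
    · intro w l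
      rw [← hθ]
      cases l with
      | nil =>
        rw [fc_nil, cv_nil, R_nil, (hS w).dE_dE]
        simp
      | cons u l =>
        have hfc : θ ∘ₗ fc R w (u :: l) = -(b w ∘ₗ (fc (Z a H) u l + Z1 a H u l)) := by
          cases l with
          | nil => simp [Z1]
          | cons v l =>
            rw [fc_cons, sh_R, fc_comp_left, R_cons]
            apply LinearMap.ext; intro z
            simp only [LinearMap.comp_apply, LinearMap.sub_apply, LinearMap.neg_apply, map_sub,
              map_neg, th_b, t_t w, LinearMap.add_apply, map_add]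
            have e1 : Z1 a H u (v :: l) = Z a H v l := rfl
            rw [e1]
            abel
        rw [hfc, cv_cons, sh_R, cv_comp_left, R_nil, R_cons]
        apply LinearMap.ext; intro z
        simp only [LinearMap.comp_apply, LinearMap.neg_apply, LinearMap.add_apply, map_add,
          LinearMap.zero_apply]
        have e1 : dE w (b w (t (Z a H u l z))) = -(b w (t (d (Z a H u l z)))) := by
          rw [← b_d, t_d w, map_neg, neg_neg]
        rw [e1, dZ]
        simp only [map_sub, t_t w]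
        abel
    · intro w
      apply LinearMap.ext; intro z
      have e0 : R w [w] z = b w (a w (θ z)) := by rw [hR]; rfl
      rw [e0, ba, ← hθ]
      rfl
    · intro w l hl hw
      apply LinearMap.ext; intro z
      match l, hl, hw with
      | u :: v :: l, _, hw =>
        have e0 : R w (u :: v :: l) z = b w (Yc a H u (v :: l) (θ z)) := by rw [hR]; rfl
        rw [e0]
        rw [hasRep_cons] at hw
        rcases hw with hw | hw
        · subst hw
          rw [Yc_cons, LinearMap.comp_apply, H_apply, ← th_b, b_h, map_zero]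
          rfl
        · rw [Yrep _ _ hw]
          simp
  · intro w l
    rw [← hθ, ← hR]
    apply LinearMap.ext; intro z
    have := dZ l w z
    rw [LinearMap.sub_apply, LinearMap.sub_apply, LinearMap.comp_apply, LinearMap.comp_apply,
      LinearMap.comp_apply]
    cases l with
    | nil => exact this
    | cons u l => exact this

end Pool.Agent.Lib.MP_9b987c_gt.HC
end
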