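import Pool.Agent.Lib.MP_9b987c_gt.HC.SpecG
import Pool.Agent.Lib.MP_9b987c_gt.HC.Basic

section
/-!
# Path objects
-/
namespace Pool.Agent.Lib.MP_9b987c_gt.HC

open scoped Manifold ContDiff BigOperators

namespace PTHM

section Unit

variable {K : Type*} [CommRing K] {V : Type*} {ι κ μ : Type*}

lemma sh_unt (e : V → (ι → K) →ₗ[K] (ι → K)) (v : V) : sh (unt e) v = 0 := rfl

lemma fc_zero' {X : Type*} [AddCommGroup X] (v : V) (l : List V) :
    fc (0 : V → List V → X) v l = 0 := by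
  induction l generalizing v with
  | nil => rfl
  | cons u l ih =>
    cases l with
    | nil => rfl
    | cons w l =>
      rw [fc_cons]
      have h : sh (0 : V → List V → X) v = 0 := rfl
      rw [h, ih]; simp

lemma fc_unt (e : V → (ι → K) →ₗ[K] (ι → K)) (v : V) (l : List V) : fc (unt e) v l = 0 := by
  cases l with
  | nil => rfl
  | cons u l =>
    cases l with
    | nil => rfl
    | cons w l => rw [fc_cons, sh_unt, fc_zero']; simp [unt]

lemma cv_unt_left (e : V → (ι → K) →ₗ[K] (ι → K)) (A : V → List V → ((κ → K) →ₗ[K] (ι → K)))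
    (v : V) (l : List V) : cv (unt e) A v l = e v ∘ₗ A v l := by
  cases l with
  | nil => rfl
  | cons u l => rw [cv_cons, sh_unt, cv_zero_left, add_zero]; rfl

lemma cv_unt_right (e : V → (ι → K) →ₗ[K] (ι → K)) (A : V → List V → ((ι → K) →ₗ[K] (κ → K)))
    (v : V) (l : List V) : cv A (unt e) v l = A v l ∘ₗ e (lst v l) := by
  induction l generalizing A v with
  | nil => rfl
  | cons u l ih =>
    rw [cv_cons, ih]
    show A v [] ∘ₗ (0 : (ι → K) →ₗ[K] (ι → K)) + A v (u :: l) ∘ₗ e (lst u l) = _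
    rw [LinearMap.comp_zero, zero_add]; rfl

end Unit

section Blocks

variable {K : Type*} [CommRing K] {ι₁ ι₂ κ₁ κ₂ κ : Type}

@[simp] lemma iL_inl (z : ι₁ → K) (i : ι₁) : iL K ι₁ ι₂ z (Sum.inl i) = z i := rfl
@[simp] lemma iL_inr (z : ι₁ → K) (i : ι₂) : iL K ι₁ ι₂ z (Sum.inr i) = 0 := rfl
@[simp] lemma iR_inl (z : ι₂ → K) (i : ι₁) : iR K ι₁ ι₂ z (Sum.inl i) = 0 := rfl
@[simp] lemma iR_inr (z : ι₂ → K) (i : ι₂) : iR K ι₁ ι₂ z (Sum.inr i) = z i := rfl
@[simp] lemma pL_ap (z : ι₁ ⊕ ι₂ → K) (i : ι₁) : pL K ι₁ ι₂ z i = z (Sum.inl i) := rfl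
@[simp] lemma pR_ap (z : ι₁ ⊕ ι₂ → K) (i : ι₂) : pR K ι₁ ι₂ z i = z (Sum.inr i) := rfl
@[simp] lemma pL_iL (z : ι₁ → K) : pL K ι₁ ι₂ (iL K ι₁ ι₂ z) = z := rfl
@[simp] lemma pR_iL (z : ι₁ → K) : pR K ι₁ ι₂ (iL K ι₁ ι₂ z) = 0 := rfl
@[simp] lemma pL_iR (z : ι₂ → K) : pL K ι₁ ι₂ (iR K ι₁ ι₂ z) = 0 := rfl
@[simp] lemma pR_iR (z : ι₂ → K) : pR K ι₁ ι₂ (iR K ι₁ ι₂ z) = z := rfl

lemma mat2_ap (A : (ι₁ → K) →ₗ[K] (κ₁ → K)) (B : (ι₂ → K) →ₗ[K] (κ₁ → K))
    (C : (ι₁ → K) →ₗ[K] (κ₂ → K)) (D : (ι₂ → K) →ₗ[K] (κ₂ → K)) (z : ι₁ ⊕ ι₂ → K) :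
    mat2 A B C D z = iL K κ₁ κ₂ (A (pL K ι₁ ι₂ z) + B (pR K ι₁ ι₂ z)) +
      iR K κ₁ κ₂ (C (pL K ι₁ ι₂ z) + D (pR K ι₁ ι₂ z)) := rfl

variable [DecidableEq ι₁] [DecidableEq ι₂]

lemma pL_single_inl (j : ι₁) : pL K ι₁ ι₂ (Pi.single (Sum.inl j) 1) = Pi.single j 1 := by
  funext i; by_cases h : i = j
  · subst h; simp
  · simp [h]
lemma pL_single_inr (j : ι₂) : pL K ι₁ ι₂ (Pi.single (Sum.inr j) 1) = 0 := by
  funext i; simp
lemma pR_single_inl (j : ι₁) : pR K ι₁ ι₂ (Pi.single (Sum.inl j) 1) = 0 := by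
  funext i; simp
lemma pR_single_inr (j : ι₂) : pR K ι₁ ι₂ (Pi.single (Sum.inr j) 1) = Pi.single j 1 := by
  funext i; by_cases h : i = j
  · subst h; simp
  · simp [h]

end Blocks

section Smoothness

variable {G : LieGpd} {ι₁ ι₂ κ₁ κ₂ : Type} [DecidableEq ι₁] [DecidableEq ι₂]

lemma smooth_mat2 {A : G.Ob → List G.Ar → (ι₁ → ℝ) →ₗ[ℝ] (κ₁ → ℝ)}
    {B : G.Ob → List G.Ar → (ι₂ → ℝ) →ₗ[ℝ] (κ₁ → ℝ)}
    {C : G.Ob → List G.Ar → (ι₁ → ℝ) →ₗ[ℝ] (κ₂ → ℝ)}
    {D : G.Ob → List G.Ar → (ι₂ → ℝ) →ₗ[ℝ] (κ₂ → ℝ)} (hA : G.Smooth A) (hB : G.Smooth B)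
    (hC : G.Smooth C) (hD : G.Smooth D) :
    G.Smooth (fun x l => mat2 (A x l) (B x l) (C x l) (D x l)) := by
  intro d k U x g hU hx hg hch i j
  rcases j with j | j <;> rcases i with i | i
  · have h := hA d k U x g hU hx hg hch i j
    convert h using 2 with u
    rw [mat2_ap, pL_single_inl, pR_single_inl]; simp
  · have h := hC d k U x g hU hx hg hch i j
    convert h using 2 with u
    rw [mat2_ap, pL_single_inl, pR_single_inl]; simp
  · have h := hB d k U x g hU hx hg hch i j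
    convert h using 2 with u
    rw [mat2_ap, pL_single_inr, pR_single_inr]; simp
  · have h := hD d k U x g hU hx hg hch i j
    convert h using 2 with u
    rw [mat2_ap, pL_single_inr, pR_single_inr]; simp

lemma smoothE_mat2 {A : G.Ob → (ι₁ → ℝ) →ₗ[ℝ] (κ₁ → ℝ)}
    {D : G.Ob → (ι₂ → ℝ) →ₗ[ℝ] (κ₂ → ℝ)} (hA : SmoothE G A) (hD : SmoothE G D) :
    SmoothE G (fun x => mat2 (A x) 0 0 (D x)) := by
  intro i j
  rcases j with j | j <;> rcases i with i | i
  · have h := hA i j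
    convert h using 2 with u
    rw [mat2_ap, pL_single_inl, pR_single_inl]; simp
  · have : (fun x => mat2 (A x) 0 0 (D x) (Pi.single (Sum.inl j) 1) (Sum.inr i)) =
        fun _ => (0 : ℝ) := by
      funext u
      rw [mat2_ap, pL_single_inl, pR_single_inl]; simp
    rw [this]; exact contMDiff_const
  · have : (fun x => mat2 (A x) 0 0 (D x) (Pi.single (Sum.inr j) 1) (Sum.inl i)) =
        fun _ => (0 : ℝ) := by
      funext u
      rw [mat2_ap, pL_single_inr, pR_single_inr]; simp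
    rw [this]; exact contMDiff_const
  · have h := hD i j
    convert h using 2 with u
    rw [mat2_ap, pL_single_inr, pR_single_inr]; simp

end Smoothness

section Star

variable {G : LieGpd} {ι κ μ : Type}

/-- products with a family supported on empty lists -/
lemma starG_left {A : G.Ob → List G.Ar → (κ → ℝ) →ₗ[ℝ] (μ → ℝ)}
    (hA : ∀ x g l, A x (g :: l) = 0) (B : G.Ob → List G.Ar → (ι → ℝ) →ₗ[ℝ] (κ → ℝ)) (x : G.Ob)
    (l : List G.Ar) : starG G A B x l = A x [] ∘ₗ B x l := by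
  unfold starG
  rw [Finset.sum_eq_single 0]
  · simp [LieGpd.fin]
  · intro j hj hj0
    cases l with
    | nil => simp at hj; omega
    | cons g l =>
      obtain ⟨j', rfl⟩ := Nat.exists_eq_succ_of_ne_zero hj0
      rw [List.take_succ_cons, hA, LinearMap.zero_comp]
  · intro h; simp at h

end Star

end PTHM

open PTHM

theorem specPTH (hFRM : SpecFRM) (hSMP : SpecSMP) (hTWS : SpecTWS) : SpecPTH := by
  intro G ι κ _ _ _ _ dE dF eE RE eF RF hE hF
  -- every chain comes from a frame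
  have hch : ∀ x l, G.Chain x l → ∃ l', (wf G x).arr (wf0 G x) l' = l ∧
      (wf G x).b (wf0 G x) = x := (hFRM G).2.2.2.2.1
  have hunt : ∀ (V : Type) (F : Frame G V) (κ : Type) (e : G.Ob → (κ → ℝ) →ₗ[ℝ] (κ → ℝ)) v l,
      F.hom (unitG G e) v l = unt (fun v => e (F.b v)) v l :=
    fun V F κ e v l => (hFRM G).2.2.2.2.2.2.1 V F κ e v l
  -- smoothness facts
  have scomp : ∀ {α β γ : Type} [Fintype α] [DecidableEq α] [Fintype β] [DecidableEq β]
      [Fintype γ] [DecidableEq γ] {A : G.Ob → List G.Ar → (β → ℝ) →ₗ[ℝ] (γ → ℝ)}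
      {B : G.Ob → List G.Ar → (α → ℝ) →ₗ[ℝ] (β → ℝ)}, G.Smooth A → G.Smooth B →
      G.Smooth (fun x l => A x l ∘ₗ B x l) := by
    intro α β γ _ _ _ _ _ _ A B hA hB
    exact ((hSMP G α β γ).1 A B).2.1 hA hB
  have scon : ∀ {α β : Type} [Fintype α] [DecidableEq α] [Fintype β] [DecidableEq β]
      (F : (α → ℝ) →ₗ[ℝ] (β → ℝ)), G.Smooth (fun _ _ => F) := by
    intro α β _ _ _ _ F
    exact ((hSMP G α β β).2.2.2.2.2.1 LinearMap.id F).2
  have sadd : ∀ {α β : Type} [Fintype α] [DecidableEq α] [Fintype β] [DecidableEq β]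
      {A B : G.Ob → List G.Ar → (α → ℝ) →ₗ[ℝ] (β → ℝ)}, G.Smooth A → G.Smooth B →
      G.Smooth (fun x l => A x l + B x l) := by
    intro α β _ _ _ _ A B hA hB
    exact ((hSMP G α β β).2.1 A B (fun _ => 1) hA hB).1
  have ssub : ∀ {α β : Type} [Fintype α] [DecidableEq α] [Fintype β] [DecidableEq β]
      {A B : G.Ob → List G.Ar → (α → ℝ) →ₗ[ℝ] (β → ℝ)}, G.Smooth A → G.Smooth B →
      G.Smooth (fun x l => A x l - B x l) := by
    intro α β _ _ _ _ A B hA hB
    exact ((hSMP G α β β).2.1 A B (fun _ => 1) hA hB).2.1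
  have sneg : ∀ {α β : Type} [Fintype α] [DecidableEq α] [Fintype β] [DecidableEq β]
      {A : G.Ob → List G.Ar → (α → ℝ) →ₗ[ℝ] (β → ℝ)}, G.Smooth A →
      G.Smooth (fun x l => - A x l) := by
    intro α β _ _ _ _ A hA
    exact ((hSMP G α β β).2.1 A A (fun _ => 1) hA hA).2.2.1
  have sunit : G.Smooth (unitG G eF) := (hSMP G κ κ κ).2.2.2.1 eF hF.e_smooth
  -- facts about `F` on frames
  have pF : ∀ (V : Type) (F : Frame G V), SRuth dF (fun v => eF (F.b v)) (F.hom RF) := hF.sr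
  have unit_off : ∀ x l, ¬ G.Chain x l → unitG G eF x l = 0 := by
    intro x l h
    cases l with
    | nil => exact absurd trivial h
    | cons g l => rfl
  -- constant maps
  set c : (κ → ℝ) →ₗ[ℝ] ((κ ⊕ κ) ⊕ κ → ℝ) := iL ℝ (κ ⊕ κ) κ ∘ₗ (iL ℝ κ κ + iR ℝ κ κ) with hc
  set p0 : ((κ ⊕ κ) ⊕ κ → ℝ) →ₗ[ℝ] (κ → ℝ) := pL ℝ κ κ ∘ₗ pL ℝ (κ ⊕ κ) κ with hp0
  set p1 : ((κ ⊕ κ) ⊕ κ → ℝ) →ₗ[ℝ] (κ → ℝ) := pR ℝ κ κ ∘ₗ pL ℝ (κ ⊕ κ) κ with hp1
  have cDeg : Deg dF (pthDeg dF) c 0 := by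
    intro q z hz i hi
    rcases i with (i | i) | i
    · simp [hc] at hi; simpa [pthDeg] using hz i hi
    · simp [hc] at hi; simpa [pthDeg] using hz i hi
    · simp [hc] at hi
  have p0Deg : Deg (pthDeg dF) dF p0 0 := by
    intro q z hz i hi
    have := hz (Sum.inl (Sum.inl i)) (by simpa [hp0] using hi)
    simpa [pthDeg] using this
  have p1Deg : Deg (pthDeg dF) dF p1 0 := by
    intro q z hz i hi
    have := hz (Sum.inl (Sum.inr i)) (by simpa [hp1] using hi)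
    simpa [pthDeg] using this
  have hI : ∀ x l, pthI G eF x l = c ∘ₗ unitG G eF x l := by
    intro x l
    refine LinearMap.ext fun z => ?_
    simp [pthI, hc]
  have hP0 : ∀ x l, pthP0 G eF x l = unitG G eF x l ∘ₗ p0 := fun x l => rfl
  have hP1 : ∀ x l, pthP1 G eF x l = unitG G eF x l ∘ₗ p1 := fun x l => rfl
  have Ec : ∀ x, pthE eF x ∘ₗ c = c ∘ₗ eF x := by
    intro x; refine LinearMap.ext fun z => ?_
    simp [pthE, mat2_ap, hc]
  have p0E : ∀ x, p0 ∘ₗ pthE eF x = eF x ∘ₗ p0 := by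
    intro x; refine LinearMap.ext fun z => ?_
    simp [pthE, mat2_ap, hp0]
  have p1E : ∀ x, p1 ∘ₗ pthE eF x = eF x ∘ₗ p1 := by
    intro x; refine LinearMap.ext fun z => ?_
    simp [pthE, mat2_ap, hp1]
  have Rc : ∀ x l, mat2 (mat2 (RF x l) 0 0 (RF x l)) 0
      (unitG G eF x l ∘ₗ pL ℝ κ κ - unitG G eF x l ∘ₗ pR ℝ κ κ) (-(RF x l)) ∘ₗ c =
      c ∘ₗ RF x l := by
    intro x l; refine LinearMap.ext fun z => ?_
    simp [mat2_ap, hc]
  have p0R : ∀ x l, p0 ∘ₗ pthR G eF RF x l = RF x l ∘ₗ p0 := by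
    intro x l; refine LinearMap.ext fun z => ?_
    simp [pthR, mat2_ap, hp0]
  have p1R : ∀ x l, p1 ∘ₗ pthR G eF RF x l = RF x l ∘ₗ p1 := by
    intro x l; refine LinearMap.ext fun z => ?_
    simp [pthR, mat2_ap, hp1]
  have hE' : ∀ (V : Type) (F : Frame G V) v, eF (F.b v) ∘ₗ eF (F.b v) = eF (F.b v) :=
    fun V F v => (pF V F).e_idem v
  have eun : ∀ (V : Type) (F : Frame G V) v l, eF (F.b v) ∘ₗ unt (fun v => eF (F.b v)) v l =
      unt (fun v => eF (F.b v)) v l := by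
    intro V F v l
    cases l with
    | nil => exact hE' V F v
    | cons u l => exact LinearMap.comp_zero _
  have une : ∀ (V : Type) (F : Frame G V) v l, unt (fun v => eF (F.b v)) v l ∘ₗ
      eF (F.b (lst v l)) = unt (fun v => eF (F.b v)) v l := by
    intro V F v l
    cases l with
    | nil => exact hE' V F v
    | cons u l => exact LinearMap.zero_comp _
  -- the structure is a representation
  have C1 : HRuth G (pthDeg dF) (pthE eF) (pthR G eF RF) := by
    refine ⟨?_, ?_, ?_, ?_⟩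
    · exact smoothE_mat2 (smoothE_mat2 hF.e_smooth hF.e_smooth) hF.e_smooth
    · intro x l h
      refine LinearMap.ext fun z => ?_
      simp [pthR, hF.zero x l h, unit_off x l h, mat2_ap]
    · exact smooth_mat2 (smooth_mat2 hF.smooth (scon 0) (scon 0) hF.smooth) (scon 0)
        (ssub (scomp sunit (scon _)) (scomp sunit (scon _))) (sneg hF.smooth)
    · intro V F
      have h1 := pF V F
      have hX0 : IsCo dF dF 1 (fun v => eF (F.b v)) (fun v => eF (F.b v))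
          (0 : V → List V → (κ → ℝ) →ₗ[ℝ] (κ → ℝ)) :=
        ⟨fun v l => Deg.zero, fun v l => LinearMap.comp_zero _, fun v l => LinearMap.zero_comp _⟩
      have hD0 : ∀ v l, DD dF 1 (F.hom RF) (F.hom RF)
          (0 : V → List V → (κ → ℝ) →ₗ[ℝ] (κ → ℝ)) v l = 0 := by
        intro v l
        unfold DD
        rw [fc_zero', cv_zero_right, cv_zero_left]; simp
      have h2 := (((hTWS ℝ V κ κ dF dF (fun v => eF (F.b v)) (fun v => eF (F.b v)) (F.hom RF)
        (F.hom RF)).1 0 h1.toPreRuth h1.toPreRuth hX0 hD0).2) h1 h1 (fun v => rfl)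
        (fun v l _ _ => rfl)
      have h3 := ((hTWS ℝ V κ κ dF dF (fun v => eF (F.b v)) (fun v => eF (F.b v)) (F.hom RF)
        (F.hom RF)).2 1 odd_one).2 h1
      -- the twisting cochain
      set g : (κ ⊕ κ → ℝ) →ₗ[ℝ] (κ → ℝ) := pL ℝ κ κ - pR ℝ κ κ with hg
      set X : V → List V → (κ ⊕ κ → ℝ) →ₗ[ℝ] (κ → ℝ) :=
        fun v l => unt (fun v => eF (F.b v)) v l ∘ₗ g with hX
      have gDeg : Deg (Sum.elim dF dF) (fun i => dF i + 1) g 1 := by
        intro q z hz i hi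
        have h4 : z (Sum.inl i) ≠ 0 ∨ z (Sum.inr i) ≠ 0 := by
          by_contra hcon
          push Not at hcon
          apply hi
          simp [hg, hcon.1, hcon.2]
        rcases h4 with h4 | h4
        · have := hz _ h4; simp at this; simp [this]
        · have := hz _ h4; simp at this; simp [this]
      have gE : ∀ v, g ∘ₗ mat2 (eF (F.b v)) 0 0 (eF (F.b v)) = eF (F.b v) ∘ₗ g := by
        intro v; refine LinearMap.ext fun z => ?_
        simp [mat2_ap, hg]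
      have gR : ∀ v l, g ∘ₗ mat2 (F.hom RF v l) 0 0 (F.hom RF v l) = F.hom RF v l ∘ₗ g := by
        intro v l; refine LinearMap.ext fun z => ?_
        simp [mat2_ap, hg]
      have hXco : IsCo (Sum.elim dF dF) (fun i => dF i + 1) 1
          (fun v => mat2 (eF (F.b v)) 0 0 (eF (F.b v))) (fun v => eF (F.b v)) X := by
        refine ⟨?_, ?_, ?_⟩
        · intro v l
          cases l with
          | nil =>
            have he : Deg (fun i => dF i + 1) (fun i => dF i + 1) (eF (F.b v)) 0 := by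
              intro q z hz i hi
              have h6 : ∀ j, z j ≠ 0 → dF j = q - 1 := by
                intro j hj
                have h7 : dF j + 1 = q := hz j hj
                omega
              have h5 : dF i = q - 1 + 0 := h1.e_deg v (q - 1) z h6 i hi
              show dF i + 1 = q + 0
              omega
            exact (he.comp gDeg).congr (by simp)
          | cons u l =>
            have : X v (u :: l) = 0 := LinearMap.zero_comp _
            rw [this]; exact Deg.zero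
        · intro v l
          show eF (F.b v) ∘ₗ (unt (fun v => eF (F.b v)) v l ∘ₗ g) = _
          rw [← LinearMap.comp_assoc, eun]
        · intro v l
          show (unt (fun v => eF (F.b v)) v l ∘ₗ g) ∘ₗ mat2 (eF (F.b (lst v l))) 0 0
            (eF (F.b (lst v l))) = _
          rw [LinearMap.comp_assoc, gE, ← LinearMap.comp_assoc, une]
      have hXD : ∀ v l, DD (fun i => dF i + 1) 1
          (fun v l => mat2 (F.hom RF v l) 0 0 (F.hom RF v l)) (-(F.hom RF)) X v l = 0 := by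
        intro v l
        unfold DD
        have e1 : fc X v l = 0 := by
          rw [hX, fc_comp_right, fc_unt, LinearMap.zero_comp]
        have e2 : cv (-(F.hom RF)) X v l = -(F.hom RF v l ∘ₗ g) := by
          rw [cv_neg_left, hX, cv_comp_right, cv_unt_right, (pF V F).right]
        have e3 : cv X (fun v l => mat2 (F.hom RF v l) 0 0 (F.hom RF v l)) v l =
            F.hom RF v l ∘ₗ g := by
          rw [hX, cv_comp_mid]
          have : (fun v l => g ∘ₗ mat2 (F.hom RF v l) 0 0 (F.hom RF v l)) =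
              fun v l => F.hom RF v l ∘ₗ g := by
            funext v l; exact gR v l
          rw [this, cv_comp_right, cv_unt_left, (pF V F).left]
        rw [e1, e2, e3, sgn_one, LinearMap.comp_zero]
        refine LinearMap.ext fun z => ?_
        simp
      have h4 := (((hTWS ℝ V (κ ⊕ κ) κ (Sum.elim dF dF) (fun i => dF i + 1)
        (fun v => mat2 (eF (F.b v)) 0 0 (eF (F.b v))) (fun v => eF (F.b v))
        (fun v l => mat2 (F.hom RF v l) 0 0 (F.hom RF v l)) (-(F.hom RF))).1 X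
        h2.toPreRuth h3.toPreRuth hXco hXD).2) h2 h3 (fun v => LinearMap.zero_comp _)
        (fun v l hl _ => by
          cases l with
          | nil => simp at hl
          | cons u l => exact LinearMap.zero_comp _)
      have h5 : F.hom (pthR G eF RF) = fun v l => mat2 (mat2 (F.hom RF v l) 0 0 (F.hom RF v l)) 0
          (X v l) ((-(F.hom RF)) v l) := by
        funext v l
        show mat2 _ 0 _ _ = mat2 _ 0 _ _
        congr 1
        rw [hX]
        show F.hom (unitG G eF) v l ∘ₗ pL ℝ κ κ - F.hom (unitG G eF) v l ∘ₗ pR ℝ κ κ = _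
        rw [hunt, hg]
        refine LinearMap.ext fun z => ?_
        simp
      rw [h5]
      exact h4
  -- the diagonal
  have homI : ∀ (V : Type) (F : Frame G V), F.hom (pthI G eF) =
      fun v l => c ∘ₗ unt (fun v => eF (F.b v)) v l := by
    intro V F; funext v l
    have : F.hom (pthI G eF) v l = c ∘ₗ F.hom (unitG G eF) v l := hI _ _
    rw [this, hunt]
  have homP0 : ∀ (V : Type) (F : Frame G V), F.hom (pthP0 G eF) =
      fun v l => unt (fun v => eF (F.b v)) v l ∘ₗ p0 := by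
    intro V F; funext v l
    have : F.hom (pthP0 G eF) v l = F.hom (unitG G eF) v l ∘ₗ p0 := hP0 _ _
    rw [this, hunt]
  have homP1 : ∀ (V : Type) (F : Frame G V), F.hom (pthP1 G eF) =
      fun v l => unt (fun v => eF (F.b v)) v l ∘ₗ p1 := by
    intro V F; funext v l
    have : F.hom (pthP1 G eF) v l = F.hom (unitG G eF) v l ∘ₗ p1 := hP1 _ _
    rw [this, hunt]
  have C2 : HCo G dF (pthDeg dF) 0 eF (pthE eF) (pthI G eF) := by
    refine ⟨?_, ?_, ?_⟩
    · intro x l h; rw [hI, unit_off x l h, LinearMap.comp_zero]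
    · have : pthI G eF = fun x l => c ∘ₗ unitG G eF x l := by funext x l; exact hI x l
      rw [this]; exact scomp (scon c) sunit
    · intro V F
      rw [homI]
      refine ⟨?_, ?_, ?_⟩
      · intro v l
        cases l with
        | nil => exact (cDeg.comp ((pF V F).e_deg v)).congr (by simp)
        | cons u l =>
          have : (c ∘ₗ unt (fun v => eF (F.b v)) v (u :: l)) = 0 := LinearMap.comp_zero _
          rw [this]; exact Deg.zero
      · intro v l
        show pthE eF (F.b v) ∘ₗ (c ∘ₗ unt (fun v => eF (F.b v)) v l) = _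
        rw [← LinearMap.comp_assoc, Ec, LinearMap.comp_assoc, eun]
      · intro v l
        show (c ∘ₗ unt (fun v => eF (F.b v)) v l) ∘ₗ eF (F.b (lst v l)) = _
        rw [LinearMap.comp_assoc, une]
  have C3 : HCl G (pthDeg dF) RF (pthR G eF RF) (pthI G eF) := by
    intro V F v l
    rw [homI]
    unfold DD
    have e1 : fc (fun v l => c ∘ₗ unt (fun v => eF (F.b v)) v l) v l = 0 := by
      rw [fc_comp_left, fc_unt, LinearMap.comp_zero]
    have e2 : cv (F.hom (pthR G eF RF)) (fun v l => c ∘ₗ unt (fun v => eF (F.b v)) v l) v l =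
        c ∘ₗ F.hom RF v l := by
      rw [← cv_comp_mid]
      have : (fun v l => F.hom (pthR G eF RF) v l ∘ₗ c) = fun v l => c ∘ₗ F.hom RF v l := by
        funext v l; exact Rc _ _
      rw [this, cv_comp_left, cv_unt_right, (pF V F).right]
    have e3 : cv (fun v l => c ∘ₗ unt (fun v => eF (F.b v)) v l) (F.hom RF) v l =
        c ∘ₗ F.hom RF v l := by
      rw [cv_comp_left, cv_unt_left, (pF V F).left]
    rw [e1, e2, e3, sgn_zero]; simp
  have hcoP : ∀ (p : ((κ ⊕ κ) ⊕ κ → ℝ) →ₗ[ℝ] (κ → ℝ)), Deg (pthDeg dF) dF p 0 →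
      (∀ x, p ∘ₗ pthE eF x = eF x ∘ₗ p) → (∀ x l, p ∘ₗ pthR G eF RF x l = RF x l ∘ₗ p) →
      HCo G (pthDeg dF) dF 0 (pthE eF) eF (fun x l => unitG G eF x l ∘ₗ p) ∧
      HCl G dF (pthR G eF RF) RF (fun x l => unitG G eF x l ∘ₗ p) := by
    intro p pDeg pE pR'
    have homP : ∀ (V : Type) (F : Frame G V), F.hom (fun x l => unitG G eF x l ∘ₗ p) =
        fun v l => unt (fun v => eF (F.b v)) v l ∘ₗ p := by
      intro V F; funext v l
      show F.hom (unitG G eF) v l ∘ₗ p = _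
      rw [hunt]
    refine ⟨⟨?_, ?_, ?_⟩, ?_⟩
    · intro x l h
      show unitG G eF x l ∘ₗ p = 0
      rw [unit_off x l h, LinearMap.zero_comp]
    · exact scomp sunit (scon p)
    · intro V F
      rw [homP]
      refine ⟨?_, ?_, ?_⟩
      · intro v l
        cases l with
        | nil => exact (((pF V F).e_deg v).comp pDeg).congr (by simp)
        | cons u l =>
          have : (unt (fun v => eF (F.b v)) v (u :: l) ∘ₗ p) = 0 := LinearMap.zero_comp _
          rw [this]; exact Deg.zero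
      · intro v l
        show eF (F.b v) ∘ₗ (unt (fun v => eF (F.b v)) v l ∘ₗ p) = _
        rw [← LinearMap.comp_assoc, eun]
      · intro v l
        show (unt (fun v => eF (F.b v)) v l ∘ₗ p) ∘ₗ pthE eF (F.b (lst v l)) = _
        rw [LinearMap.comp_assoc, pE, ← LinearMap.comp_assoc, une]
    · intro V F v l
      rw [homP]
      unfold DD
      have e1 : fc (fun v l => unt (fun v => eF (F.b v)) v l ∘ₗ p) v l = 0 := by
        rw [fc_comp_right, fc_unt, LinearMap.zero_comp]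
      have e2 : cv (F.hom RF) (fun v l => unt (fun v => eF (F.b v)) v l ∘ₗ p) v l =
          F.hom RF v l ∘ₗ p := by
        rw [cv_comp_right, cv_unt_right, (pF V F).right]
      have e3 : cv (fun v l => unt (fun v => eF (F.b v)) v l ∘ₗ p) (F.hom (pthR G eF RF)) v l =
          F.hom RF v l ∘ₗ p := by
        rw [cv_comp_mid]
        have : (fun v l => p ∘ₗ F.hom (pthR G eF RF) v l) = fun v l => F.hom RF v l ∘ₗ p := by
          funext v l; exact pR' _ _
        rw [this, cv_comp_right, cv_unt_left, (pF V F).left]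
      rw [e1, e2, e3, sgn_zero]; simp
  have C4 := hcoP p0 p0Deg p0E p0R
  have C5 := hcoP p1 p1Deg p1E p1R
  -- equations at a point
  have ptE : ∀ x, eF x ∘ₗ eF x = eF x := by
    intro x
    obtain ⟨l', _, hb⟩ := hch x [] trivial
    have := (pF _ (wf G x)).e_idem (wf0 G x)
    simp only [hb] at this
    exact this
  have ptl : ∀ x, eF x ∘ₗ RF x [] = RF x [] := by
    intro x
    obtain ⟨l', _, hb⟩ := hch x [] trivial
    have : eF ((wf G x).b (wf0 G x)) ∘ₗ RF ((wf G x).b (wf0 G x)) [] =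
      RF ((wf G x).b (wf0 G x)) [] := (pF _ (wf G x)).left (wf0 G x) []
    rw [hb] at this
    exact this
  have ptr : ∀ x, RF x [] ∘ₗ eF x = RF x [] := by
    intro x
    obtain ⟨l', _, hb⟩ := hch x [] trivial
    have : RF ((wf G x).b (wf0 G x)) [] ∘ₗ eF ((wf G x).b (wf0 G x)) =
      RF ((wf G x).b (wf0 G x)) [] := (pF _ (wf G x)).right (wf0 G x) []
    rw [hb] at this
    exact this
  have C6 : ∀ x, QisAt (eF x) (RF x []) (pthE eF x) (pthR G eF RF x []) (pthI G eF x []) := by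
    intro x
    have hIx : pthI G eF x [] = c ∘ₗ eF x := hI x []
    have hRx : ∀ z, pthR G eF RF x [] z = mat2 (mat2 (RF x []) 0 0 (RF x [])) 0
      (eF x ∘ₗ pL ℝ κ κ - eF x ∘ₗ pR ℝ κ κ) (-(RF x [])) z := fun z => rfl
    constructor
    · rintro z hz hdz ⟨y, hy⟩
      refine ⟨p0 y, ?_⟩
      have h1 := congrArg p0 hy
      rw [hIx, hRx] at h1
      simp [hc, hp0, mat2_ap, hz] at h1
      simpa [hp0] using h1
    · intro z' hz' hdz'
      set a := pL ℝ κ κ (pL ℝ (κ ⊕ κ) κ z') with ha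
      set b := pR ℝ κ κ (pL ℝ (κ ⊕ κ) κ z') with hb
      set w := pR ℝ (κ ⊕ κ) κ z' with hw
      have ea : eF x a = a := by
        have := congrArg (fun z => pL ℝ κ κ (pL ℝ (κ ⊕ κ) κ z)) hz'
        simpa [pthE, mat2_ap] using this
      have eb : eF x b = b := by
        have := congrArg (fun z => pR ℝ κ κ (pL ℝ (κ ⊕ κ) κ z)) hz'
        simpa [pthE, mat2_ap] using this
      have ew : eF x w = w := by
        have := congrArg (fun z => pR ℝ (κ ⊕ κ) κ z) hz'
        simpa [pthE, mat2_ap] using this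
      have da : RF x [] a = 0 := by
        have := congrArg (fun z => pL ℝ κ κ (pL ℝ (κ ⊕ κ) κ z)) hdz'
        rw [hRx] at this
        simpa [mat2_ap] using this
      have dw : eF x a - eF x b - RF x [] w = 0 := by
        have := congrArg (fun z => pR ℝ (κ ⊕ κ) κ z) hdz'
        rw [hRx] at this
        simpa [mat2_ap, sub_eq_add_neg] using this
      rw [ea, eb] at dw
      refine ⟨a, iL ℝ (κ ⊕ κ) κ (iR ℝ κ κ (-w)), ea, da, ?_⟩
      have hb' : b = a - RF x [] w := by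
        have := sub_eq_zero.1 dw
        rw [← this]; abel
      rw [hIx, hRx]
      funext i
      rcases i with (i | i) | i
      · have : a i = z' (Sum.inl (Sum.inl i)) := rfl
        simp [hc, mat2_ap, ea, this]
      · have h1 : b i = z' (Sum.inl (Sum.inr i)) := rfl
        have h2 := congrFun hb' i
        rw [h1] at h2
        simp [hc, mat2_ap, ea, h2, sub_eq_add_neg]
      · have h1 : w i = z' (Sum.inr i) := rfl
        simp [hc, mat2_ap, ea, ew, h1]
  -- compositions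
  have S1 : starG G (pthP0 G eF) (pthI G eF) = unitG G eF := by
    funext x l
    rw [starG_left (fun x g l => by rw [hP0]; exact LinearMap.zero_comp _)]
    show (eF x ∘ₗ p0) ∘ₗ pthI G eF x l = _
    rw [hI]
    cases l with
    | nil =>
      show (eF x ∘ₗ p0) ∘ₗ (c ∘ₗ eF x) = eF x
      have : (eF x ∘ₗ p0) ∘ₗ (c ∘ₗ eF x) = eF x ∘ₗ eF x := by
        refine LinearMap.ext fun z => ?_
        simp [hp0, hc]
      rw [this, ptE]
    | cons g l =>
      show (eF x ∘ₗ p0) ∘ₗ (c ∘ₗ 0) = 0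
      rw [LinearMap.comp_zero, LinearMap.comp_zero]
  have S2 : starG G (pthP1 G eF) (pthI G eF) = unitG G eF := by
    funext x l
    rw [starG_left (fun x g l => by rw [hP1]; exact LinearMap.zero_comp _)]
    show (eF x ∘ₗ p1) ∘ₗ pthI G eF x l = _
    rw [hI]
    cases l with
    | nil =>
      show (eF x ∘ₗ p1) ∘ₗ (c ∘ₗ eF x) = eF x
      have : (eF x ∘ₗ p1) ∘ₗ (c ∘ₗ eF x) = eF x ∘ₗ eF x := by
        refine LinearMap.ext fun z => ?_
        simp [hp1, hc]
      rw [this, ptE]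
    | cons g l =>
      show (eF x ∘ₗ p1) ∘ₗ (c ∘ₗ 0) = 0
      rw [LinearMap.comp_zero, LinearMap.comp_zero]
  refine ⟨C1, ⟨C2, C3⟩, C6, C4, C5, S1, S2, ?_⟩
  rintro F₁ F₂ hF1 hcl1 hF2 hcl2 ⟨H, hH, hHD⟩
  -- left identities on the groupoid
  have left1 : ∀ (F₁ : G.Ob → List G.Ar → (ι → ℝ) →ₗ[ℝ] (κ → ℝ)), HCo G dE dF 0 eE eF F₁ →
      ∀ x l, eF x ∘ₗ F₁ x l = F₁ x l := by
    intro F₁ hF1 x l
    by_cases h : G.Chain x l
    · obtain ⟨l', hl', hb⟩ := hch x l h
      have h1 := (hF1.co _ (wf G x)).left (wf0 G x) l'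
      have h2 : (wf G x).hom F₁ (wf0 G x) l' = F₁ x l := by
        show F₁ ((wf G x).b (wf0 G x)) ((wf G x).arr (wf0 G x) l') = _
        rw [hb, hl']
      rw [h2] at h1
      simp only [hb] at h1
      exact h1
    · rw [hF1.zero x l h, LinearMap.comp_zero]
  obtain ⟨j0, hj0⟩ : ∃ j : (κ → ℝ) →ₗ[ℝ] ((κ ⊕ κ) ⊕ κ → ℝ), j = iL ℝ (κ ⊕ κ) κ ∘ₗ iL ℝ κ κ :=
    ⟨_, rfl⟩
  obtain ⟨j1, hj1⟩ : ∃ j : (κ → ℝ) →ₗ[ℝ] ((κ ⊕ κ) ⊕ κ → ℝ), j = iL ℝ (κ ⊕ κ) κ ∘ₗ iR ℝ κ κ :=
    ⟨_, rfl⟩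
  obtain ⟨j2, hj2⟩ : ∃ j : (κ → ℝ) →ₗ[ℝ] ((κ ⊕ κ) ⊕ κ → ℝ), j = iR ℝ (κ ⊕ κ) κ :=
    ⟨_, rfl⟩
  set Φ : G.Ob → List G.Ar → (ι → ℝ) →ₗ[ℝ] ((κ ⊕ κ) ⊕ κ → ℝ) :=
    fun x l => j0 ∘ₗ F₁ x l + j1 ∘ₗ F₂ x l + j2 ∘ₗ H x l with hΦ
  have j0Deg : Deg dF (pthDeg dF) j0 0 := by
    intro q z hz i hi
    rcases i with (i | i) | i
    · simp [hj0] at hi; simpa [pthDeg] using hz i hi
    · simp [hj0] at hi
    · simp [hj0] at hi
  have j1Deg : Deg dF (pthDeg dF) j1 0 := by
    intro q z hz i hi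
    rcases i with (i | i) | i
    · simp [hj1] at hi
    · simp [hj1] at hi; simpa [pthDeg] using hz i hi
    · simp [hj1] at hi
  have j2Deg : Deg dF (pthDeg dF) j2 1 := by
    intro q z hz i hi
    rcases i with (i | i) | i
    · simp [hj2] at hi
    · simp [hj2] at hi
    · simp [hj2] at hi; simpa [pthDeg] using hz i hi
  have Ej0 : ∀ x, pthE eF x ∘ₗ j0 = j0 ∘ₗ eF x := by
    intro x; refine LinearMap.ext fun z => ?_
    simp [pthE, mat2_ap, hj0]
  have Ej1 : ∀ x, pthE eF x ∘ₗ j1 = j1 ∘ₗ eF x := by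
    intro x; refine LinearMap.ext fun z => ?_
    simp [pthE, mat2_ap, hj1]
  have Ej2 : ∀ x, pthE eF x ∘ₗ j2 = j2 ∘ₗ eF x := by
    intro x; refine LinearMap.ext fun z => ?_
    simp [pthE, mat2_ap, hj2]
  have Rj0 : ∀ x l, pthR G eF RF x l ∘ₗ j0 = j0 ∘ₗ RF x l + j2 ∘ₗ unitG G eF x l := by
    intro x l; refine LinearMap.ext fun z => ?_
    simp [pthR, mat2_ap, hj0, hj2]
  have Rj1 : ∀ x l, pthR G eF RF x l ∘ₗ j1 = j1 ∘ₗ RF x l - j2 ∘ₗ unitG G eF x l := by
    intro x l; refine LinearMap.ext fun z => ?_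
    simp [pthR, mat2_ap, hj1, hj2, sub_eq_add_neg]
  have Rj2 : ∀ x l, pthR G eF RF x l ∘ₗ j2 = -(j2 ∘ₗ RF x l) := by
    intro x l; refine LinearMap.ext fun z => ?_
    simp [pthR, mat2_ap, hj2]
  have tj0 : th ℝ (pthDeg dF) ∘ₗ j0 = j0 ∘ₗ th ℝ dF := by
    refine LinearMap.ext fun z => ?_
    funext i
    rcases i with (i | i) | i <;> simp [hj0, pthDeg]
  have tj1 : th ℝ (pthDeg dF) ∘ₗ j1 = j1 ∘ₗ th ℝ dF := by
    refine LinearMap.ext fun z => ?_
    funext i
    rcases i with (i | i) | i <;> simp [hj1, pthDeg]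
  have tj2 : th ℝ (pthDeg dF) ∘ₗ j2 = -(j2 ∘ₗ th ℝ dF) := by
    refine LinearMap.ext fun z => ?_
    funext i
    rcases i with (i | i) | i <;> simp [hj2, pthDeg, sgn_add, sgn_one]
  refine ⟨Φ, ⟨?_, ?_, ?_⟩, ?_, ?_, ?_⟩
  · intro x l h
    rw [hΦ]
    simp [hF1.zero x l h, hF2.zero x l h, hH.zero x l h]
  · exact sadd (sadd (scomp (scon j0) hF1.smooth) (scomp (scon j1) hF2.smooth))
      (scomp (scon j2) hH.smooth)
  · intro V F
    have c1 := hF1.co V F
    have c2 := hF2.co V F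
    have c3 := hH.co V F
    refine ⟨?_, ?_, ?_⟩
    · intro v l
      have d1 := (j0Deg.comp (c1.deg_A v l)).congr (show (0 - (l.length : ℤ)) + 0 = 0 - l.length by
        ring)
      have d2 := (j1Deg.comp (c2.deg_A v l)).congr (show (0 - (l.length : ℤ)) + 0 = 0 - l.length by
        ring)
      have d3 := (j2Deg.comp (c3.deg_A v l)).congr (show (-1 - (l.length : ℤ)) + 1 = 0 - l.length by
        ring)
      exact (d1.add d2).add d3
    · intro v l
      show pthE eF (F.b v) ∘ₗ (j0 ∘ₗ F.hom F₁ v l + j1 ∘ₗ F.hom F₂ v l + j2 ∘ₗ F.hom H v l) = _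
      rw [LinearMap.comp_add, LinearMap.comp_add, ← LinearMap.comp_assoc, ← LinearMap.comp_assoc,
        ← LinearMap.comp_assoc, Ej0, Ej1, Ej2, LinearMap.comp_assoc, LinearMap.comp_assoc,
        LinearMap.comp_assoc, c1.left, c2.left, c3.left]
      rfl
    · intro v l
      show (j0 ∘ₗ F.hom F₁ v l + j1 ∘ₗ F.hom F₂ v l + j2 ∘ₗ F.hom H v l) ∘ₗ
        eE (F.b (lst v l)) = _
      rw [LinearMap.add_comp, LinearMap.add_comp, LinearMap.comp_assoc, LinearMap.comp_assoc,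
        LinearMap.comp_assoc, c1.right, c2.right, c3.right]
      rfl
  · intro V F v l
    have c1 := hF1.co V F
    have c2 := hF2.co V F
    have c3 := hH.co V F
    have z1 := hcl1 V F v l
    have z2 := hcl2 V F v l
    have z3 := hHD V F v l
    unfold DD at z1 z2 z3 ⊢
    rw [sgn_zero, one_smul] at z1 z2 ⊢
    have hs : sgn ℝ (-1) = -1 := by rw [sgn_neg, sgn_one]
    rw [hs] at z3
    have hΦF : F.hom Φ = (fun v l => j0 ∘ₗ F.hom F₁ v l) + (fun v l => j1 ∘ₗ F.hom F₂ v l) +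
        (fun v l => j2 ∘ₗ F.hom H v l) := rfl
    have e1 : fc (F.hom Φ) v l = j0 ∘ₗ fc (F.hom F₁) v l + j1 ∘ₗ fc (F.hom F₂) v l +
        j2 ∘ₗ fc (F.hom H) v l := by
      rw [hΦF, fc_add, fc_add, fc_comp_left, fc_comp_left, fc_comp_left]
    have e3 : cv (F.hom Φ) (F.hom RE) v l = j0 ∘ₗ cv (F.hom F₁) (F.hom RE) v l +
        j1 ∘ₗ cv (F.hom F₂) (F.hom RE) v l + j2 ∘ₗ cv (F.hom H) (F.hom RE) v l := by
      rw [hΦF, cv_add_left, cv_add_left, cv_comp_left, cv_comp_left, cv_comp_left]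
    have q0 : cv (F.hom (pthR G eF RF)) (fun v l => j0 ∘ₗ F.hom F₁ v l) v l =
        j0 ∘ₗ cv (F.hom RF) (F.hom F₁) v l + j2 ∘ₗ F.hom F₁ v l := by
      rw [← cv_comp_mid]
      have : (fun v l => F.hom (pthR G eF RF) v l ∘ₗ j0) = (fun v l => j0 ∘ₗ F.hom RF v l) +
          (fun v l => j2 ∘ₗ unt (fun v => eF (F.b v)) v l) := by
        funext v l
        show F.hom (pthR G eF RF) v l ∘ₗ j0 = j0 ∘ₗ F.hom RF v l +
          j2 ∘ₗ unt (fun v => eF (F.b v)) v l
        rw [← hunt]; exact Rj0 _ _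
      rw [this, cv_add_left, cv_comp_left, cv_comp_left, cv_unt_left, c1.left]
    have q1 : cv (F.hom (pthR G eF RF)) (fun v l => j1 ∘ₗ F.hom F₂ v l) v l =
        j1 ∘ₗ cv (F.hom RF) (F.hom F₂) v l - j2 ∘ₗ F.hom F₂ v l := by
      rw [← cv_comp_mid]
      have : (fun v l => F.hom (pthR G eF RF) v l ∘ₗ j1) = (fun v l => j1 ∘ₗ F.hom RF v l) -
          (fun v l => j2 ∘ₗ unt (fun v => eF (F.b v)) v l) := by
        funext v l
        show F.hom (pthR G eF RF) v l ∘ₗ j1 = j1 ∘ₗ F.hom RF v l -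
          j2 ∘ₗ unt (fun v => eF (F.b v)) v l
        rw [← hunt]; exact Rj1 _ _
      rw [this, cv_sub_left, cv_comp_left, cv_comp_left, cv_unt_left, c2.left]
    have q2 : cv (F.hom (pthR G eF RF)) (fun v l => j2 ∘ₗ F.hom H v l) v l =
        -(j2 ∘ₗ cv (F.hom RF) (F.hom H) v l) := by
      rw [← cv_comp_mid]
      have : (fun v l => F.hom (pthR G eF RF) v l ∘ₗ j2) = -(fun v l => j2 ∘ₗ F.hom RF v l) := by
        funext v l; exact Rj2 _ _
      rw [this, cv_neg_left, cv_comp_left]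
    have e2 : cv (F.hom (pthR G eF RF)) (F.hom Φ) v l =
        (j0 ∘ₗ cv (F.hom RF) (F.hom F₁) v l + j2 ∘ₗ F.hom F₁ v l) +
        (j1 ∘ₗ cv (F.hom RF) (F.hom F₂) v l - j2 ∘ₗ F.hom F₂ v l) -
        j2 ∘ₗ cv (F.hom RF) (F.hom H) v l := by
      rw [hΦF, cv_add_right, cv_add_right, q0, q1, q2]; abel
    rw [e1, e2, e3, LinearMap.comp_add, LinearMap.comp_add, ← LinearMap.comp_assoc,
      ← LinearMap.comp_assoc, ← LinearMap.comp_assoc, tj0, tj1, tj2]
    refine LinearMap.ext fun z => ?_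
    have y1 := LinearMap.congr_fun z1 z
    have y2 := LinearMap.congr_fun z2 z
    have y3 := LinearMap.congr_fun z3 z
    simp only [LinearMap.add_apply, LinearMap.sub_apply, LinearMap.comp_apply,
      LinearMap.zero_apply, LinearMap.neg_apply, LinearMap.smul_apply] at y1 y2 y3 ⊢
    have w1 : j0 (th ℝ dF (fc (F.hom F₁) v l z) + cv (F.hom RF) (F.hom F₁) v l z -
      cv (F.hom F₁) (F.hom RE) v l z) = 0 := by rw [y1, map_zero]
    have w2 : j1 (th ℝ dF (fc (F.hom F₂) v l z) + cv (F.hom RF) (F.hom F₂) v l z -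
      cv (F.hom F₂) (F.hom RE) v l z) = 0 := by rw [y2, map_zero]
    have w3 := congrArg j2 y3
    simp only [map_add, map_sub, map_neg, neg_smul, one_smul] at w1 w2 w3 ⊢
    have : j2 (F.hom F₁ v l z) = j2 (F.hom F₂ v l z) + (j2 (th ℝ dF (fc (F.hom H) v l z)) +
      j2 (cv (F.hom RF) (F.hom H) v l z) - -j2 (cv (F.hom H) (F.hom RE) v l z)) := by
      rw [← w3]; abel
    rw [this]
    have w1' : j0 (cv (F.hom F₁) (F.hom RE) v l z) = j0 (th ℝ dF (fc (F.hom F₁) v l z)) +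
      j0 (cv (F.hom RF) (F.hom F₁) v l z) := (sub_eq_zero.1 w1).symm
    have w2' : j1 (cv (F.hom F₂) (F.hom RE) v l z) = j1 (th ℝ dF (fc (F.hom F₂) v l z)) +
      j1 (cv (F.hom RF) (F.hom F₂) v l z) := (sub_eq_zero.1 w2).symm
    rw [w1', w2']
    abel
  · funext x l
    rw [starG_left (fun x g l => by rw [hP0]; exact LinearMap.zero_comp _)]
    show (eF x ∘ₗ p0) ∘ₗ (j0 ∘ₗ F₁ x l + j1 ∘ₗ F₂ x l + j2 ∘ₗ H x l) = _
    rw [← left1 F₁ hF1 x l]
    refine LinearMap.ext fun z => ?_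
    have h2 : eF x (eF x (F₁ x l z)) = eF x (F₁ x l z) := LinearMap.congr_fun (ptE x) _
    simp [hp0, hj0, hj1, hj2, h2]
  · funext x l
    rw [starG_left (fun x g l => by rw [hP1]; exact LinearMap.zero_comp _)]
    show (eF x ∘ₗ p1) ∘ₗ (j0 ∘ₗ F₁ x l + j1 ∘ₗ F₂ x l + j2 ∘ₗ H x l) = _
    rw [← left1 F₂ hF2 x l]
    refine LinearMap.ext fun z => ?_
    have h2 : eF x (eF x (F₂ x l z)) = eF x (F₂ x l z) := LinearMap.congr_fun (ptE x) _
    simp [hp1, hj0, hj1, hj2, h2]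

end Pool.Agent.Lib.MP_9b987c_gt.HC
end

section
/-!
# QAC: the cone of a quasi-isomorphism, homotopy equivalences
-/
namespace Pool.Agent.Lib.MP_9b987c_gt.HC

namespace QACM

variable {ι κ : Type} {e d : (ι → ℝ) →ₗ[ℝ] (ι → ℝ)} {e' d' : (κ → ℝ) →ₗ[ℝ] (κ → ℝ)}
  {F : (ι → ℝ) →ₗ[ℝ] (κ → ℝ)}

theorem mat2_inl {ι₁ ι₂ κ₁ κ₂ : Type} (A : (ι₁ → ℝ) →ₗ[ℝ] (κ₁ → ℝ)) (B : (ι₂ → ℝ) →ₗ[ℝ] (κ₁ → ℝ))
    (C : (ι₁ → ℝ) →ₗ[ℝ] (κ₂ → ℝ)) (D : (ι₂ → ℝ) →ₗ[ℝ] (κ₂ → ℝ)) (z : ι₁ ⊕ ι₂ → ℝ) (i : κ₁) :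
    mat2 A B C D z (Sum.inl i) = A (fun i => z (Sum.inl i)) i + B (fun i => z (Sum.inr i)) i := by
  have : mat2 A B C D z (Sum.inl i) =
      (A (fun i => z (Sum.inl i)) i + B (fun i => z (Sum.inr i)) i) + 0 := rfl
  rw [this, add_zero]

theorem mat2_inr {ι₁ ι₂ κ₁ κ₂ : Type} (A : (ι₁ → ℝ) →ₗ[ℝ] (κ₁ → ℝ)) (B : (ι₂ → ℝ) →ₗ[ℝ] (κ₁ → ℝ))
    (C : (ι₁ → ℝ) →ₗ[ℝ] (κ₂ → ℝ)) (D : (ι₂ → ℝ) →ₗ[ℝ] (κ₂ → ℝ)) (z : ι₁ ⊕ ι₂ → ℝ) (i : κ₂) :
    mat2 A B C D z (Sum.inr i) = C (fun i => z (Sum.inl i)) i + D (fun i => z (Sum.inr i)) i := by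
  have : mat2 A B C D z (Sum.inr i) =
      0 + (C (fun i => z (Sum.inl i)) i + D (fun i => z (Sum.inr i)) i) := rfl
  rw [this, zero_add]

theorem cone (he'F : e' ∘ₗ F = F) (hF : F ∘ₗ d = d' ∘ₗ F)
    (hQ : QisAt e d e' d' F) (z : ι ⊕ κ → ℝ)
    (h1 : mat2 e 0 0 e' z = z) (h2 : mat2 (-d) 0 F d' z = 0) :
    ∃ y, z = mat2 (-d) 0 F d' y := by
  have a1 : e (fun i => z (Sum.inl i)) = fun i => z (Sum.inl i) := by
    funext i
    have := congrFun h1 (Sum.inl i)
    rw [mat2_inl] at this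
    simpa using this
  have a2 : e' (fun i => z (Sum.inr i)) = fun i => z (Sum.inr i) := by
    funext i
    have := congrFun h1 (Sum.inr i)
    rw [mat2_inr] at this
    simpa using this
  have b1 : d (fun i => z (Sum.inl i)) = 0 := by
    funext i
    have := congrFun h2 (Sum.inl i)
    rw [mat2_inl] at this
    simpa using this
  have b2 : F (fun i => z (Sum.inl i)) + d' (fun i => z (Sum.inr i)) = 0 := by
    funext i
    have := congrFun h2 (Sum.inr i)
    rw [mat2_inr] at this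
    simpa using this
  set z1 : ι → ℝ := fun i => z (Sum.inl i) with hz1
  set z2 : κ → ℝ := fun i => z (Sum.inr i) with hz2
  have hFd : ∀ x, F (d x) = d' (F x) := fun x => LinearMap.congr_fun hF x
  have heF : ∀ x, e' (F x) = F x := fun x => LinearMap.congr_fun he'F x
  obtain ⟨y1, hy1⟩ := hQ.1 z1 a1 b1 ⟨-z2, by rw [map_neg]; exact eq_neg_of_add_eq_zero_left b2⟩
  have c1 : e' (F y1 + z2) = F y1 + z2 := by rw [map_add, heF, a2]
  have c2 : d' (F y1 + z2) = 0 := by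
    rw [map_add, ← hFd, ← hy1]
    exact b2
  obtain ⟨w, u, -, hw, hu⟩ := hQ.2 _ c1 c2
  refine ⟨Sum.elim (w - y1) u, ?_⟩
  funext i
  cases i with
  | inl i =>
    have h3 : z1 = -d (w - y1) := by
      rw [map_sub, hw, zero_sub, neg_neg]
      exact hy1
    rw [mat2_inl]
    have h4 := congrFun h3 i
    change z1 i = (-(d (w - y1))) i + 0
    rw [add_zero]
    exact h4
  | inr i =>
    have h3 : z2 = F (w - y1) + d' u := by
      rw [map_sub]
      have : z2 = (F y1 + z2) - F y1 := by abel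
      rw [this, hu]
      abel
    rw [mat2_inr]
    exact congrFun h3 i

theorem qis (hH : HoEq e d e' d' F) : QisAt e d e' d' F := by
  obtain ⟨B, h, k, h1, -, h3, h4, h5⟩ := hH
  have hd : ∀ x, B (d' x) = d (B x) := fun x => LinearMap.congr_fun h3 x
  have he : ∀ x, e (B x) = B x := fun x => LinearMap.congr_fun h1 x
  have hFB : ∀ x, F (B x) = e' x + d' (h x) + h (d' x) := fun x => by
    simpa using LinearMap.congr_fun h4 x
  have hBF : ∀ x, B (F x) = e x + d (k x) + k (d x) := fun x => by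
    simpa using LinearMap.congr_fun h5 x
  refine ⟨?_, ?_⟩
  · rintro z hz hdz ⟨y, hy⟩
    refine ⟨B y - k z, ?_⟩
    have := hBF z
    rw [hy, hd, hz, hdz, map_zero, add_zero] at this
    rw [map_sub, this]
    abel
  · intro z' hz' hdz'
    refine ⟨B z', -(h z'), he z', by rw [← hd, hdz', map_zero], ?_⟩
    rw [hFB, hz', hdz', map_zero, map_neg]
    abel

end QACM

theorem specQAC : SpecQAC := by
  intro ι κ e d e' d' F _ _ _ _ _ _ _ _ h9 h10 _
  exact ⟨fun hQ z h1 h2 => QACM.cone h10 h9 hQ z h1 h2, QACM.qis⟩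

end Pool.Agent.Lib.MP_9b987c_gt.HC
end

section
/-!
# Module SMC: smooth covering data (helper94)
-/
namespace Pool.Agent.Lib.MP_9b987c_gt.HC

open scoped Manifold ContDiff BigOperators

namespace SMCM

/-- Pull back of a frame along a map of sets. -/
def pull {G : LieGpd} {V V' : Type} (F : Frame G V) (α : V' → V) : Frame G V' where
  b v := F.b (α v)
  c v u := F.c (α v) (α u)
  src_c _ _ := F.src_c _ _
  tgt_c _ _ := F.tgt_c _ _
  c_one _ := F.c_one _
  c_mul _ _ _ := F.c_mul _ _ _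

theorem pull_map {G : LieGpd} {V V' : Type} (F : Frame G V) (α : V' → V) :
    Frame.Map (pull F α) F α := ⟨fun _ => rfl, fun _ _ => rfl⟩

/-- composition of a smooth function on `G.Ob` with a smooth map from an open set -/
theorem comp_fun {G : LieGpd} {d : ℕ} {U : Set (Eu d)} {f : G.Ob → ℝ} {x : Eu d → G.Ob}
    (hf : ContMDiff (𝓡 G.m) 𝓘(ℝ, ℝ) ∞ f) (hx : ContMDiffOn (𝓡 d) (𝓡 G.m) ∞ x U) :
    ContDiffOn ℝ ∞ (fun u => f (x u)) U := by
  have h : ContMDiffOn (𝓡 d) 𝓘(ℝ, ℝ) ∞ (f ∘ x) U := hf.comp_contMDiffOn hx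
  exact contMDiffOn_iff_contDiffOn.1 h

variable {G' G : LieGpd} (φ : Hypercover G' G) (T : TopData φ)

/-- some colour is good -/
theorem exists_good (x : G.Ob) : ∃ c, x ∈ tsupport (T.tau c) := by
  by_contra h
  push Not at h
  have h1 : ∀ c, T.l c x = 0 := by
    intro c
    have h2 : T.tau c x = 0 := image_eq_zero_of_notMem_tsupport (h c)
    rw [← T.tau_l, h2, zero_mul]
  have h2 := T.sum_sq x
  simp [h1] at h2

theorem tau_zero {c : Fin T.N} {x : G.Ob} (h : x ∉ tsupport (T.tau c)) : T.tau c x = 0 :=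
  image_eq_zero_of_notMem_tsupport h

theorem l_zero {c : Fin T.N} {x : G.Ob} (h : x ∉ tsupport (T.tau c)) : T.l c x = 0 := by
  rw [← T.tau_l, tau_zero φ T h, zero_mul]

end SMCM

open SMCM in
theorem specSMC : SpecSMC := by
  classical
  intro G' G φ T d U W I _ _ F q n hn hUo hF hnS u₀
  obtain ⟨hFb, hFc⟩ := hF
  choose xb hxb hxbe using hFb
  choose xc hxc hxce using hFc
  have hg : ∀ w, ∃ c, (F u₀).b w ∈ tsupport (T.tau c) := fun w => exists_good φ T _
  choose g hgg using hg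
  obtain ⟨c', hc'⟩ : ∃ c' : Fin T.N → W → Fin T.N,
      (∀ c w, (F u₀).b w ∈ tsupport (T.tau (c' c w))) ∧
      ∀ c w, (F u₀).b w ∈ tsupport (T.tau c) → c' c w = c := by
    refine ⟨fun c w => if (F u₀).b w ∈ tsupport (T.tau c) then c else g w, fun c w => ?_,
      fun c w h => if_pos h⟩
    by_cases h : (F u₀).b w ∈ tsupport (T.tau c)
    · simp only [if_pos h]
      exact h
    · simp only [if_neg h]
      exact hgg w
  obtain ⟨hc1, hc2⟩ := hc'
  obtain ⟨O, hO1, hO2, hO3, hO4⟩ : ∃ O : Fin T.N → W → Set G.Ob, (∀ c w, IsOpen (O c w)) ∧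
      (∀ c w, (F u₀).b w ∈ O c w) ∧
      (∀ c w, (F u₀).b w ∈ tsupport (T.tau c) → O c w ⊆ T.U c) ∧
      ∀ c w, (F u₀).b w ∉ tsupport (T.tau c) → O c w ⊆ (tsupport (T.tau c))ᶜ := by
    refine ⟨fun c w => if (F u₀).b w ∈ tsupport (T.tau c) then T.U c else
      (tsupport (T.tau c))ᶜ, fun c w => ?_, fun c w => ?_, fun c w h => ?_, fun c w h => ?_⟩
    · by_cases h : (F u₀).b w ∈ tsupport (T.tau c)
      · simp only [if_pos h]
        exact T.isOpen c
      · simp only [if_neg h]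
        exact (isClosed_tsupport _).isOpen_compl
    · by_cases h : (F u₀).b w ∈ tsupport (T.tau c)
      · simp only [if_pos h]
        exact T.supp c h
      · simp only [if_neg h]
        exact h
    · simp only [if_pos h]
      exact subset_rfl
    · simp only [if_neg h]
      exact subset_rfl
  obtain ⟨U', hU, hU'o, hu₀, hU'⟩ : ∃ (U' : Set (Eu d)) (_ : U' ⊆ U), IsOpen U' ∧
      (u₀ : Eu d) ∈ U' ∧ ∀ u ∈ U', ∀ c w, xb w u ∈ O c w := by
    refine ⟨U ∩ ⋂ p : Fin T.N × W, (U ∩ xb p.2 ⁻¹' O p.1 p.2), Set.inter_subset_left, ?_, ?_, ?_⟩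
    · refine hUo.inter (isOpen_iInter_of_finite fun p => ?_)
      exact (hxb p.2).continuousOn.isOpen_inter_preimage hUo (hO1 p.1 p.2)
    · refine ⟨u₀.2, Set.mem_iInter.2 fun p => ⟨u₀.2, ?_⟩⟩
      change xb p.2 u₀ ∈ O p.1 p.2
      rw [← hxbe p.2 u₀]
      exact hO2 p.1 p.2
    · intro u hu c w
      exact (Set.mem_iInter.1 hu.2 (c, w)).2
  refine ⟨U', hU, hU'o, hu₀, ?_⟩
  have hb : ∀ (u : U') (w : W), (F ⟨u, hU u.2⟩).b w = xb w u := fun u w => hxbe w ⟨u, hU u.2⟩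
  have hcc : ∀ (u : U') (v w : W), (F ⟨u, hU u.2⟩).c v w = xc v w u :=
    fun u v w => hxce v w ⟨u, hU u.2⟩
  -- smooth functions
  let lS : Fin T.N → W → Sm U' := fun c w => ⟨fun u => T.l c ((F ⟨u, hU u.2⟩).b w),
    fun u => T.l c (xb w u), comp_fun (T.smooth_l c) ((hxb w).mono hU), fun u => congrArg (T.l c) (hb u w)⟩
  let tS : Fin T.N → W → Sm U' := fun c w => ⟨fun u => T.tau c ((F ⟨u, hU u.2⟩).b w),
    fun u => T.tau c (xb w u), comp_fun (T.smooth_tau c) ((hxb w).mono hU), fun u => congrArg (T.tau c) (hb u w)⟩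
  have hlS : ∀ c w (u : U'), evS U' u (lS c w) = T.l c ((F ⟨u, hU u.2⟩).b w) :=
    fun c w u => rfl
  have htS : ∀ c w (u : U'), evS U' u (tS c w) = T.tau c ((F ⟨u, hU u.2⟩).b w) :=
    fun c w u => rfl
  have hext : ∀ a b : Sm U', (∀ u : U', evS U' u a = evS U' u b) → a = b := by
    intro a b h
    apply Subtype.ext
    funext u
    exact h u
  let D : Cov (Sm U') ((Fin T.N × W) ⊕ I) W (Fin T.N) :=
    { p := Sum.elim (fun a => a.2) q
      lift := fun c w => Sum.inl (c, w)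
      l := lS
      tau := tS }
  let α : ∀ u : U', ((Fin T.N × W) ⊕ I) → VV φ (F ⟨u, hU u.2⟩) := fun u v =>
    match v with
    | Sum.inl a => ⟨(T.σ (c' a.1 a.2) ((F ⟨u, hU u.2⟩).b a.2), a.2), T.sec _ _⟩
    | Sum.inr j => ⟨(n j u, q j), hn ⟨u, hU u.2⟩ j⟩
  have hα2 : ∀ (u : U') v, (α u v).1.2 = D.p v := by
    intro u v
    cases v with
    | inl a => rfl
    | inr j => rfl
  -- the smooth objects
  have hobj : ∀ v, ∃ f : Eu d → G'.Ob, ContMDiffOn (𝓡 d) (𝓡 G'.m) ∞ f U' ∧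
      ∀ u : U', (α u v).1.1 = f u := by
    intro v
    cases v with
    | inl a =>
      refine ⟨fun u => T.σ (c' a.1 a.2) (xb a.2 u), ?_, fun u => ?_⟩
      · refine (T.smooth_σ (c' a.1 a.2)).comp ((hxb a.2).mono hU) ?_
        intro u hu
        exact hO3 _ _ (hc1 a.1 a.2) (hU' u hu (c' a.1 a.2) a.2)
      · change T.σ (c' a.1 a.2) ((F ⟨u, hU u.2⟩).b a.2) = _
        rw [hb]
    | inr j => exact ⟨n j, (hnS j).mono hU, fun u => rfl⟩
  refine ⟨(Fin T.N × W) ⊕ I, D, α, fun u => pull (upF φ (F ⟨u, hU u.2⟩)) (α u), Sum.inr,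
    ⟨fun c w => rfl, fun w => ?_, fun c w => ?_⟩, ⟨?_, ?_⟩, fun u => ⟨fun v => ?_, fun c w => ?_⟩,
    fun u => pull_map _ _, fun u j => rfl⟩
  · refine hext _ _ fun u => ?_
    rw [map_sum, map_one]
    refine Eq.trans (Finset.sum_congr rfl fun c _ => ?_) (T.sum_sq ((F ⟨u, hU u.2⟩).b w))
    rw [map_pow]
    exact congrArg (fun t => t ^ 2) (hlS c w u)
  · refine hext _ _ fun u => ?_
    rw [map_mul]
    exact T.tau_l c ((F ⟨u, hU u.2⟩).b w)
  · intro v
    obtain ⟨f, hf, hfe⟩ := hobj v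
    exact ⟨f, hf, hfe⟩
  · intro v v'
    obtain ⟨f, hf, hfe⟩ := hobj v
    obtain ⟨f', hf', hfe'⟩ := hobj v'
    have hk : ∀ u ∈ U', φ.ob (f u) = G.tgt (xc (D.p v) (D.p v') u) ∧
        φ.ob (f' u) = G.src (xc (D.p v) (D.p v') u) := by
      intro u hu
      have h1 := (α ⟨u, hu⟩ v).2
      have h2 := (α ⟨u, hu⟩ v').2
      rw [hα2, hfe ⟨u, hu⟩] at h1
      rw [hα2, hfe' ⟨u, hu⟩] at h2
      have h3 := hcc ⟨u, hu⟩ (D.p v) (D.p v')
      constructor
      · rw [← h3, (F ⟨u, hU hu⟩).tgt_c]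
        exact h1
      · rw [← h3, (F ⟨u, hU hu⟩).src_c]
        exact h2
    refine ⟨fun u => upA φ (f u) (xc (D.p v) (D.p v') u) (f' u), ?_, fun u => ?_⟩
    · refine φ.cart_smooth d U' _ hU'o ?_ ?_ ?_
      · exact hf.congr fun u hu => (upA_spec φ (hk u hu).1 (hk u hu).2).1
      · exact hf'.congr fun u hu => (upA_spec φ (hk u hu).1 (hk u hu).2).2.1
      · exact ((hxc (D.p v) (D.p v')).mono hU).congr
          fun u hu => (upA_spec φ (hk u hu).1 (hk u hu).2).2.2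
    · change upA φ (α u v).1.1 ((F ⟨u, hU u.2⟩).c (α u v).1.2 (α u v').1.2) (α u v').1.1 = _
      rw [hα2, hα2, hcc, hfe, hfe']
  · exact hα2 u v
  · by_cases h : (F u₀).b w ∈ tsupport (T.tau c)
    · right
      refine ⟨?_, rfl, rfl⟩
      change (⟨(T.σ c ((F ⟨u, hU u.2⟩).b w), w), _⟩ : VV φ (F ⟨u, hU u.2⟩)) =
        ⟨(T.σ (c' c w) ((F ⟨u, hU u.2⟩).b w), w), _⟩
      apply Subtype.ext
      change (T.σ c ((F ⟨u, hU u.2⟩).b w), w) = (T.σ (c' c w) ((F ⟨u, hU u.2⟩).b w), w)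
      rw [hc2 c w h]
    · left
      have h0 : ∀ u' : U', (F ⟨u', hU u'.2⟩).b w ∉ tsupport (T.tau c) := by
        intro u'
        rw [hb]
        exact hO4 c w h (hU' u' u'.2 c w)
      refine ⟨?_, ?_, ?_, ?_⟩
      · refine hext _ _ fun u' => ?_
        rw [map_zero]
        exact l_zero φ T (h0 u')
      · refine hext _ _ fun u' => ?_
        rw [map_zero]
        exact tau_zero φ T (h0 u')
      · exact l_zero φ T (h0 u)
      · exact tau_zero φ T (h0 u)

end Pool.Agent.Lib.MP_9b987c_gt.HC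
end

section
/-!
# Module SMR: linear algebra over the ring of smooth functions on an open set
-/
namespace Pool.Agent.Lib.MP_9b987c_gt.HC.SMRM

open scoped Manifold ContDiff BigOperators
open Pool.Agent.Lib.MP_9b987c_gt.HC

section Nat

variable {K K' : Type} [CommRing K] [CommRing K'] {φ : K →+* K'} {ι κ μ : Type} {V V' : Type}

lemma lnat_comp {F : (κ → K) →ₗ[K] (μ → K)} {F' : (κ → K') →ₗ[K'] (μ → K')}
    {H : (ι → K) →ₗ[K] (κ → K)} {H' : (ι → K') →ₗ[K'] (κ → K')}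
    (hF : LNat φ F F') (hH : LNat φ H H') : LNat φ (F ∘ₗ H) (F' ∘ₗ H') := by
  intro z
  rw [LinearMap.comp_apply, hH z]
  exact hF (H z)

lemma lnat_add {F H : (ι → K) →ₗ[K] (κ → K)} {F' H' : (ι → K') →ₗ[K'] (κ → K')}
    (hF : LNat φ F F') (hH : LNat φ H H') : LNat φ (F + H) (F' + H') := by
  intro z
  rw [LinearMap.add_apply, hF z, hH z]
  funext j
  simp

lemma lnat_neg {F : (ι → K) →ₗ[K] (κ → K)} {F' : (ι → K') →ₗ[K'] (κ → K')}
    (hF : LNat φ F F') : LNat φ (-F) (-F') := by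
  intro z
  rw [LinearMap.neg_apply, hF z]
  funext j
  simp

lemma lnat_sub {F H : (ι → K) →ₗ[K] (κ → K)} {F' H' : (ι → K') →ₗ[K'] (κ → K')}
    (hF : LNat φ F F') (hH : LNat φ H H') : LNat φ (F - H) (F' - H') := by
  rw [sub_eq_add_neg, sub_eq_add_neg]
  exact lnat_add hF (lnat_neg hH)

lemma lnat_zero : LNat φ (0 : (ι → K) →ₗ[K] (κ → K)) (0 : (ι → K') →ₗ[K'] (κ → K')) := by
  intro z
  funext j
  simp

lemma lnat_th (deg : ι → ℤ) : LNat φ (th K deg) (th K' deg) := by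
  intro z
  funext j
  simp only [th_apply, map_mul, map_sgn]

/-- Naturality of cochains on the same set. -/
lemma cv_nat {A : V → List V → ((κ → K) →ₗ[K] (μ → K))}
    {A' : V → List V → ((κ → K') →ₗ[K'] (μ → K'))} {B : V → List V → ((ι → K) →ₗ[K] (κ → K))}
    {B' : V → List V → ((ι → K') →ₗ[K'] (κ → K'))} (hA : ∀ v l, LNat φ (A v l) (A' v l))
    (hB : ∀ v l, LNat φ (B v l) (B' v l)) (v : V) (l : List V) :
    LNat φ (cv A B v l) (cv A' B' v l) := by
  induction l generalizing A A' v with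
  | nil => exact lnat_comp (hA v []) (hB v [])
  | cons u l ih =>
    rw [cv_cons, cv_cons]
    exact lnat_add (lnat_comp (hA v []) (hB v (u :: l)))
      (ih (A := sh A v) (A' := sh A' v) (fun v' l' => hA v (v' :: l')) u)

lemma fc_nat {A : V → List V → ((ι → K) →ₗ[K] (κ → K))}
    {A' : V → List V → ((ι → K') →ₗ[K'] (κ → K'))} (hA : ∀ v l, LNat φ (A v l) (A' v l))
    (v : V) (l : List V) : LNat φ (fc A v l) (fc A' v l) := by
  induction l generalizing A A' v with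
  | nil => exact lnat_zero
  | cons u l ih =>
    cases l with
    | nil => exact lnat_zero
    | cons w l =>
      rw [fc_cons, fc_cons]
      exact lnat_sub (lnat_neg (hA v (w :: l)))
        (ih (A := sh A v) (A' := sh A' v) (fun v' l' => hA v (v' :: l')) u)

end Nat

section Ring

variable {d : ℕ} {U : Set (Eu d)} {ι κ : Type}

lemma evS_apply (u : U) (f : Sm U) : evS U u f = (f : U → ℝ) u := rfl

lemma sm_ext {f f' : Sm U} (h : ∀ u : U, evS U u f = evS U u f') : f = f' :=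
  Subtype.ext (funext h)

/-- Linear maps over `Sm U` with the same values at all points agree. -/
lemma lnat_ext {F F' : (ι → Sm U) →ₗ[Sm U] (κ → Sm U)} {H H' : U → ((ι → ℝ) →ₗ[ℝ] (κ → ℝ))}
    (hF : ∀ u, LNat (evS U u) F (H u)) (hF' : ∀ u, LNat (evS U u) F' (H' u))
    (h : ∀ u, H u = H' u) : F = F' := by
  apply LinearMap.ext; intro z
  funext j
  apply sm_ext; intro u
  have h1 := congrFun (hF u z) j
  have h2 := congrFun (hF' u z) j
  rw [← h1, ← h2, h u]

/-- Degrees may be checked at points. -/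
lemma lnat_deg {F : (ι → Sm U) →ₗ[Sm U] (κ → Sm U)} {H : U → ((ι → ℝ) →ₗ[ℝ] (κ → ℝ))}
    (hF : ∀ u, LNat (evS U u) F (H u)) {deg : ι → ℤ} {deg' : κ → ℤ} {s : ℤ}
    (h : ∀ u, Deg deg deg' (H u) s) : Deg deg deg' F s := by
  intro q z hz j hj
  by_contra hne
  apply hj
  apply sm_ext; intro u
  rw [map_zero]
  by_contra h0
  apply hne
  have h1 := congrFun (hF u z) j
  refine h u q (fun i => evS U u (z i)) ?_ j ?_
  · intro i hi
    apply hz i
    intro h2
    exact hi (by simp only [h2, map_zero])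
  · rw [h1]; exact h0

/-- A family of linear maps with smooth entries lifts. -/
lemma lift_mat [Fintype ι] [DecidableEq ι] (F : U → ((ι → ℝ) →ₗ[ℝ] (κ → ℝ)))
    (h : ∀ i j, ∃ g : Eu d → ℝ, ContDiffOn ℝ ∞ g U ∧ ∀ u : U, F u (Pi.single j 1) i = g u) :
    ∃ F' : (ι → Sm U) →ₗ[Sm U] (κ → Sm U), ∀ u, LNat (evS U u) F' (F u) := by
  let M : κ → ι → Sm U := fun i j => ⟨fun u => F u (Pi.single j 1) i, h i j⟩
  refine ⟨{ toFun := fun z i => ∑ j, M i j * z j
            map_add' := ?_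
            map_smul' := ?_ }, ?_⟩
  · intro x y
    funext i
    simp only [Pi.add_apply, mul_add, Finset.sum_add_distrib]
  · intro c x
    funext i
    simp only [Pi.smul_apply, smul_eq_mul, RingHom.id_apply, Finset.mul_sum]
    exact Finset.sum_congr rfl (fun j _ => by ring)
  · intro u z
    have h1 : F u (fun i => evS U u (z i)) =
        ∑ j, evS U u (z j) • F u (Pi.single j 1) := by
      have h2 : (fun i => evS U u (z i)) =
          ∑ j, evS U u (z j) • (Pi.single j (1 : ℝ) : ι → ℝ) := by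
        funext i
        rw [Finset.sum_apply]
        simp [Pi.single_apply]
      conv_lhs => rw [h2]
      rw [map_sum]
      exact Finset.sum_congr rfl (fun j _ => by rw [map_smul])
    rw [h1]
    funext i
    rw [Finset.sum_apply]
    have h3 : evS U u (∑ j, M i j * z j) = ∑ j, evS U u (M i j) * evS U u (z j) := by
      rw [map_sum]
      exact Finset.sum_congr rfl (fun j _ => by rw [map_mul])
    refine Eq.trans ?_ h3.symm
    refine Finset.sum_congr rfl (fun j _ => ?_)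
    rw [Pi.smul_apply, smul_eq_mul, mul_comm]
    rfl

end Ring

section Fam

variable {G : LieGpd} {d : ℕ} {U : Set (Eu d)} {V : Type} {ι κ : Type}

lemma chain_arr (F : Frame G V) (v : V) (l : List V) : G.Chain (F.b v) (F.arr v l) := by
  induction l generalizing v with
  | nil => exact trivial
  | cons u l ih =>
    refine ⟨F.tgt_c v u, ?_⟩
    rw [F.src_c]
    exact ih u

/-- The entries of `arr`. -/
lemma arr_ofFn (F : Frame G V) (v : V) (l : List V) :
    F.arr v l = List.ofFn (fun a : Fin l.length => F.c ((v :: l).get a.castSucc) (l.get a)) := by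
  induction l generalizing v with
  | nil => rfl
  | cons u l ih =>
    rw [Frame.arr, ih u]
    exact (List.ofFn_succ (f := fun a : Fin (l.length + 1) =>
      F.c ((v :: u :: l).get a.castSucc) ((u :: l).get a))).symm

lemma lift_hom [Fintype ι] [DecidableEq ι] {F : U → Frame G V}
    {A : G.Ob → List G.Ar → (ι → ℝ) →ₗ[ℝ] (κ → ℝ)} (hU : IsOpen U) (hF : SmFam F)
    (hA : G.Smooth A) (v : V) (l : List V) :
    ∃ A' : (ι → Sm U) →ₗ[Sm U] (κ → Sm U), ∀ u, LNat (evS U u) A' ((F u).hom A v l) := by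
  apply lift_mat
  intro i j
  obtain ⟨f, hf, hf'⟩ := hF.1 v
  choose g hg hg' using fun a : Fin l.length => hF.2 ((v :: l).get a.castSucc) (l.get a)
  have e1 : ∀ u : U, (F u).arr v l = List.ofFn (fun a => g a u) := by
    intro u
    rw [arr_ofFn]
    congr 1
    funext a
    exact hg' a u
  refine ⟨fun u => A (f u) (List.ofFn (fun a => g a u)) (Pi.single j 1) i, ?_, ?_⟩
  · refine hA d l.length U f g hU hf hg ?_ i j
    intro u hu
    have h1 := chain_arr (F ⟨u, hu⟩) v l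
    rw [e1 ⟨u, hu⟩, hf' ⟨u, hu⟩] at h1
    exact h1
  · intro u
    rw [Frame.hom, e1 u, hf' u]

lemma lift_ob [Fintype ι] [DecidableEq ι] {F : U → Frame G V}
    {e : G.Ob → (ι → ℝ) →ₗ[ℝ] (κ → ℝ)} (hF : SmFam F) (he : SmoothE G e) (v : V) :
    ∃ e' : (ι → Sm U) →ₗ[Sm U] (κ → Sm U), ∀ u, LNat (evS U u) e' (e ((F u).b v)) := by
  apply lift_mat
  intro i j
  obtain ⟨f, hf, hf'⟩ := hF.1 v
  refine ⟨fun u => e (f u) (Pi.single j 1) i, ?_, ?_⟩
  · have h1 := (he i j).comp_contMDiffOn hf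
    exact contMDiffOn_iff_contDiffOn.mp h1
  · intro u
    rw [hf' u]

end Fam

theorem main : SpecSMR := by
  intro G ι κ _ _ _ _
  refine ⟨?_, ?_, ?_, ?_, ?_⟩
  · intro d U F h
    exact lift_mat F h
  · intro d U V F A hU hF hA
    choose A' hA' using fun v l => lift_hom hU hF hA v l
    exact ⟨A', fun u v l => hA' v l u⟩
  · intro d U V F deg e R hU hF hR
    choose R' hR' using fun v l => lift_hom hU hF hR.smooth v l
    choose e' he' using fun v => lift_ob hF hR.e_smooth v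
    refine ⟨e', R', ?_, fun u v => he' v u, fun u v l => hR' v l u⟩
    refine
      { e_idem := ?_
        e_deg := ?_
        deg_R := ?_
        left := ?_
        right := ?_
        eqn := ?_
        unit_one := ?_
        unit_rep := ?_ }
    · intro v
      exact lnat_ext (fun u => lnat_comp (he' v u) (he' v u)) (he' v)
        (fun u => (hR.sr V (F u)).e_idem v)
    · intro v
      exact lnat_deg (he' v) (fun u => (hR.sr V (F u)).e_deg v)
    · intro v l
      exact lnat_deg (hR' v l) (fun u => (hR.sr V (F u)).deg_R v l)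
    · intro v l
      exact lnat_ext (fun u => lnat_comp (he' v u) (hR' v l u)) (hR' v l)
        (fun u => (hR.sr V (F u)).left v l)
    · intro v l
      exact lnat_ext (fun u => lnat_comp (hR' v l u) (he' (lst v l) u)) (hR' v l)
        (fun u => (hR.sr V (F u)).right v l)
    · intro v l
      refine lnat_ext (fun u => lnat_add (lnat_comp (lnat_th deg)
        (fc_nat (fun v l => hR' v l u) v l)) (cv_nat (fun v l => hR' v l u)
          (fun v l => hR' v l u) v l)) (fun u => lnat_zero) ?_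
      exact fun u => (hR.sr V (F u)).eqn v l
    · intro v
      exact lnat_ext (hR' v [v]) (fun u => lnat_comp (he' v u) (lnat_th deg))
        (fun u => (hR.sr V (F u)).unit_one v)
    · intro v l h1 h2
      exact lnat_ext (hR' v l) (fun u => lnat_zero)
        (fun u => (hR.sr V (F u)).unit_rep v l h1 h2)
  · intro A h d k U x g hU hx hg hc i j u₀ hu₀
    obtain ⟨U', hU', hu', hs, F', hF'⟩ := h d k U x g hU hx hg hc u₀ hu₀
    obtain ⟨f, hf, hf'⟩ := (F' (Pi.single j 1) i).2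
    have h1 : ∀ u : U', A (x u) (List.ofFn (fun a => g a u)) (Pi.single j 1) i = f u := by
      intro u
      rw [← hf' u]
      have h2 := congrFun (hF' u (Pi.single j 1)) i
      have h3 : (fun i => evS U' u ((Pi.single j (1 : Sm U') : ι → Sm U') i)) =
          (Pi.single j 1 : ι → ℝ) := by
        funext a
        by_cases ha : a = j
        · subst ha; simp
        · simp [ha]
      rw [h3] at h2
      exact h2
    have h2 : ContDiffAt ℝ ∞ f u₀ := (hf u₀ hu').contDiffAt (hU'.mem_nhds hu')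
    have h3 : ContDiffAt ℝ ∞ (fun u => A (x u) (List.ofFn (fun a => g a u)) (Pi.single j 1) i)
        u₀ := by
      refine h2.congr_of_eventuallyEq ?_
      filter_upwards [hU'.mem_nhds hu'] with u hu
      exact h1 ⟨u, hu⟩
    exact h3.contDiffWithinAt
  · intro e h i j x₀
    set c := chartAt (Eu G.m) x₀ with hc
    have h1 : ContDiffOn ℝ ∞ (fun u => e (c.symm u) (Pi.single j 1) i) c.target := by
      refine h G.m 0 c.target (fun u => c.symm u) (fun a => Fin.elim0 a) c.open_target ?_ ?_ ?_ i j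
      · exact contMDiffOn_chart_symm
      · intro a; exact Fin.elim0 a
      · intro u _; exact trivial
    have hx₀ : x₀ ∈ c.source := mem_chart_source _ _
    have h2 : ContDiffAt ℝ ∞ (fun u => e (c.symm u) (Pi.single j 1) i) (c x₀) :=
      (h1 _ (c.map_source hx₀)).contDiffAt (c.open_target.mem_nhds (c.map_source hx₀))
    have h3 : ContMDiffAt (𝓡 G.m) (𝓡 G.m) ∞ c x₀ :=
      (contMDiffOn_chart (I := 𝓡 G.m) (n := ∞) (x := x₀) x₀ hx₀).contMDiffAt
        (c.open_source.mem_nhds hx₀)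
    have h4 : ContMDiffAt (𝓡 G.m) 𝓘(ℝ, ℝ) ∞
        ((fun u => e (c.symm u) (Pi.single j 1) i) ∘ c) x₀ :=
      (h2.contMDiffAt).comp x₀ h3
    refine h4.congr_of_eventuallyEq ?_
    filter_upwards [c.open_source.mem_nhds hx₀] with x hx
    simp only [Function.comp_apply]
    rw [c.left_inv hx]

end Pool.Agent.Lib.MP_9b987c_gt.HC.SMRM

namespace Pool.Agent.Lib.MP_9b987c_gt.HC

theorem specSMR : SpecSMR := SMRM.main

end Pool.Agent.Lib.MP_9b987c_gt.HC
end

section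
/-!
# TWS: twisted sums and shifts
-/
namespace Pool.Agent.Lib.MP_9b987c_gt.HC

namespace TWS

open scoped BigOperators

variable {K : Type*} [CommRing K] {ι₁ ι₂ κ₁ κ₂ μ₁ μ₂ : Type}

lemma mat2_inl (A : (ι₁ → K) →ₗ[K] (κ₁ → K)) (B : (ι₂ → K) →ₗ[K] (κ₁ → K))
    (C : (ι₁ → K) →ₗ[K] (κ₂ → K)) (D : (ι₂ → K) →ₗ[K] (κ₂ → K)) (z : ι₁ ⊕ ι₂ → K) (i : κ₁) :
    mat2 A B C D z (Sum.inl i) =
      A (fun j => z (Sum.inl j)) i + B (fun j => z (Sum.inr j)) i := by
  show (A _ + B _) i + (0 : κ₁ → K) i = _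
  rw [Pi.zero_apply, add_zero, Pi.add_apply]
  rfl

lemma mat2_inr (A : (ι₁ → K) →ₗ[K] (κ₁ → K)) (B : (ι₂ → K) →ₗ[K] (κ₁ → K))
    (C : (ι₁ → K) →ₗ[K] (κ₂ → K)) (D : (ι₂ → K) →ₗ[K] (κ₂ → K)) (z : ι₁ ⊕ ι₂ → K) (i : κ₂) :
    mat2 A B C D z (Sum.inr i) =
      C (fun j => z (Sum.inl j)) i + D (fun j => z (Sum.inr j)) i := by
  show (0 : κ₂ → K) i + (C _ + D _) i = _
  rw [Pi.zero_apply, zero_add, Pi.add_apply]
  rfl

lemma ext2 {F F' : (ι₁ ⊕ ι₂ → K) →ₗ[K] (κ₁ ⊕ κ₂ → K)}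
    (h1 : ∀ z i, F z (Sum.inl i) = F' z (Sum.inl i))
    (h2 : ∀ z i, F z (Sum.inr i) = F' z (Sum.inr i)) : F = F' := by
  apply LinearMap.ext
  intro z
  funext i
  cases i with
  | inl i => exact h1 z i
  | inr i => exact h2 z i

lemma mat2_comp (A : (κ₁ → K) →ₗ[K] (μ₁ → K)) (B : (κ₂ → K) →ₗ[K] (μ₁ → K))
    (C : (κ₁ → K) →ₗ[K] (μ₂ → K)) (D : (κ₂ → K) →ₗ[K] (μ₂ → K))
    (A' : (ι₁ → K) →ₗ[K] (κ₁ → K)) (B' : (ι₂ → K) →ₗ[K] (κ₁ → K))
    (C' : (ι₁ → K) →ₗ[K] (κ₂ → K)) (D' : (ι₂ → K) →ₗ[K] (κ₂ → K)) :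
    mat2 A B C D ∘ₗ mat2 A' B' C' D' =
      mat2 (A ∘ₗ A' + B ∘ₗ C') (A ∘ₗ B' + B ∘ₗ D') (C ∘ₗ A' + D ∘ₗ C') (C ∘ₗ B' + D ∘ₗ D') := by
  apply ext2
  · intro z i
    rw [LinearMap.comp_apply, mat2_inl, mat2_inl]
    have e1 : (fun j => (mat2 A' B' C' D' z) (Sum.inl j)) =
        A' (fun j => z (Sum.inl j)) + B' (fun j => z (Sum.inr j)) := by
      funext j; rw [mat2_inl]; rfl
    have e2 : (fun j => (mat2 A' B' C' D' z) (Sum.inr j)) =
        C' (fun j => z (Sum.inl j)) + D' (fun j => z (Sum.inr j)) := by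
      funext j; rw [mat2_inr]; rfl
    rw [e1, e2]
    simp only [map_add, Pi.add_apply, LinearMap.add_apply, LinearMap.comp_apply]
    ring
  · intro z i
    rw [LinearMap.comp_apply, mat2_inr, mat2_inr]
    have e1 : (fun j => (mat2 A' B' C' D' z) (Sum.inl j)) =
        A' (fun j => z (Sum.inl j)) + B' (fun j => z (Sum.inr j)) := by
      funext j; rw [mat2_inl]; rfl
    have e2 : (fun j => (mat2 A' B' C' D' z) (Sum.inr j)) =
        C' (fun j => z (Sum.inl j)) + D' (fun j => z (Sum.inr j)) := by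
      funext j; rw [mat2_inr]; rfl
    rw [e1, e2]
    simp only [map_add, Pi.add_apply, LinearMap.add_apply, LinearMap.comp_apply]
    ring

lemma mat2_add (A A' : (ι₁ → K) →ₗ[K] (κ₁ → K)) (B B' : (ι₂ → K) →ₗ[K] (κ₁ → K))
    (C C' : (ι₁ → K) →ₗ[K] (κ₂ → K)) (D D' : (ι₂ → K) →ₗ[K] (κ₂ → K)) :
    mat2 A B C D + mat2 A' B' C' D' = mat2 (A + A') (B + B') (C + C') (D + D') := by
  apply ext2
  · intro z i
    rw [LinearMap.add_apply, Pi.add_apply, mat2_inl, mat2_inl, mat2_inl]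
    simp only [Pi.add_apply, LinearMap.add_apply]
    ring
  · intro z i
    rw [LinearMap.add_apply, Pi.add_apply, mat2_inr, mat2_inr, mat2_inr]
    simp only [Pi.add_apply, LinearMap.add_apply]
    ring

lemma mat2_neg (A : (ι₁ → K) →ₗ[K] (κ₁ → K)) (B : (ι₂ → K) →ₗ[K] (κ₁ → K))
    (C : (ι₁ → K) →ₗ[K] (κ₂ → K)) (D : (ι₂ → K) →ₗ[K] (κ₂ → K)) :
    - mat2 A B C D = mat2 (-A) (-B) (-C) (-D) := by
  apply ext2
  · intro z i
    rw [LinearMap.neg_apply, Pi.neg_apply, mat2_inl, mat2_inl]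
    simp only [Pi.neg_apply, LinearMap.neg_apply]
    ring
  · intro z i
    rw [LinearMap.neg_apply, Pi.neg_apply, mat2_inr, mat2_inr]
    simp only [Pi.neg_apply, LinearMap.neg_apply]
    ring

lemma mat2_zero : mat2 (0 : (ι₁ → K) →ₗ[K] (κ₁ → K)) (0 : (ι₂ → K) →ₗ[K] (κ₁ → K))
    (0 : (ι₁ → K) →ₗ[K] (κ₂ → K)) (0 : (ι₂ → K) →ₗ[K] (κ₂ → K)) = 0 := by
  apply ext2
  · intro z i; rw [mat2_inl]; simp
  · intro z i; rw [mat2_inr]; simp

lemma th_sum (d₁ : ι₁ → ℤ) (d₂ : ι₂ → ℤ) :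
    th K (Sum.elim d₁ d₂) = mat2 (th K d₁) 0 0 (th K d₂) := by
  apply ext2
  · intro z i; rw [mat2_inl]; simp
  · intro z i; rw [mat2_inr]; simp

lemma deg_mat2 {d₁ : ι₁ → ℤ} {d₂ : ι₂ → ℤ} {d₁' : κ₁ → ℤ} {d₂' : κ₂ → ℤ} {s : ℤ}
    {A : (ι₁ → K) →ₗ[K] (κ₁ → K)} {B : (ι₂ → K) →ₗ[K] (κ₁ → K)}
    {C : (ι₁ → K) →ₗ[K] (κ₂ → K)} {D : (ι₂ → K) →ₗ[K] (κ₂ → K)}
    (hA : Deg d₁ d₁' A s) (hB : Deg d₂ d₁' B s) (hC : Deg d₁ d₂' C s) (hD : Deg d₂ d₂' D s) :
    Deg (Sum.elim d₁ d₂) (Sum.elim d₁' d₂') (mat2 A B C D) s := by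
  intro q z hz
  have h1 : (fun j => z (Sum.inl j)) ∈ gr K d₁ q := fun j hj => hz (Sum.inl j) hj
  have h2 : (fun j => z (Sum.inr j)) ∈ gr K d₂ q := fun j hj => hz (Sum.inr j) hj
  intro i hi
  cases i with
  | inl i =>
    rw [mat2_inl] at hi
    exact (gr K d₁' _).add_mem (hA q _ h1) (hB q _ h2) i hi
  | inr i =>
    rw [mat2_inr] at hi
    exact (gr K d₂' _).add_mem (hC q _ h1) (hD q _ h2) i hi

variable {V : Type*}

lemma fc_mat2 (A : V → List V → ((ι₁ → K) →ₗ[K] (κ₁ → K)))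
    (B : V → List V → ((ι₂ → K) →ₗ[K] (κ₁ → K)))
    (C : V → List V → ((ι₁ → K) →ₗ[K] (κ₂ → K)))
    (D : V → List V → ((ι₂ → K) →ₗ[K] (κ₂ → K))) (v : V) (l : List V) :
    fc (fun v l => mat2 (A v l) (B v l) (C v l) (D v l)) v l =
      mat2 (fc A v l) (fc B v l) (fc C v l) (fc D v l) := by
  induction l generalizing A B C D v with
  | nil => simp [mat2_zero]
  | cons u l ih =>
    cases l with
    | nil => simp [mat2_zero]
    | cons w l =>
      rw [fc_cons, fc_cons, fc_cons, fc_cons, fc_cons]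
      have := ih (sh A v) (sh B v) (sh C v) (sh D v) u
      have e : sh (fun v l => mat2 (A v l) (B v l) (C v l) (D v l)) v =
        (fun u l => mat2 (sh A v u l) (sh B v u l) (sh C v u l) (sh D v u l)) := rfl
      rw [e, this, sub_eq_add_neg, mat2_neg, mat2_neg, mat2_add]
      simp only [sub_eq_add_neg]

lemma cv_mat2 (A : V → List V → ((κ₁ → K) →ₗ[K] (μ₁ → K)))
    (B : V → List V → ((κ₂ → K) →ₗ[K] (μ₁ → K)))
    (C : V → List V → ((κ₁ → K) →ₗ[K] (μ₂ → K)))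
    (D : V → List V → ((κ₂ → K) →ₗ[K] (μ₂ → K)))
    (A' : V → List V → ((ι₁ → K) →ₗ[K] (κ₁ → K)))
    (B' : V → List V → ((ι₂ → K) →ₗ[K] (κ₁ → K)))
    (C' : V → List V → ((ι₁ → K) →ₗ[K] (κ₂ → K)))
    (D' : V → List V → ((ι₂ → K) →ₗ[K] (κ₂ → K))) (v : V) (l : List V) :
    cv (fun v l => mat2 (A v l) (B v l) (C v l) (D v l))
      (fun v l => mat2 (A' v l) (B' v l) (C' v l) (D' v l)) v l =
      mat2 (cv A A' v l + cv B C' v l) (cv A B' v l + cv B D' v l)
        (cv C A' v l + cv D C' v l) (cv C B' v l + cv D D' v l) := by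
  induction l generalizing A B C D v with
  | nil => simp only [cv_nil, mat2_comp]
  | cons u l ih =>
    have e : sh (fun v l => mat2 (A v l) (B v l) (C v l) (D v l)) v =
      (fun u l => mat2 (sh A v u l) (sh B v u l) (sh C v u l) (sh D v u l)) := rfl
    rw [cv_cons, e, ih, mat2_comp, mat2_add]
    simp only [cv_cons]
    congr 1
    · abel
    · abel
    · abel
    · abel

lemma gr_shift (d : ι₁ → ℤ) (s q : ℤ) : gr K (fun i => d i + s) q = gr K d (q - s) := by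
  ext z
  constructor
  · intro h i hi
    have := h i hi
    simp only at this
    omega
  · intro h i hi
    have := h i hi
    simp only
    omega

lemma deg_shift {d : ι₁ → ℤ} {F : (ι₁ → K) →ₗ[K] (ι₁ → K)} {t : ℤ} (h : Deg d d F t) (s : ℤ) :
    Deg (fun i => d i + s) (fun i => d i + s) F t := by
  intro q z hz
  rw [gr_shift] at hz ⊢
  have := h (q - s) z hz
  rwa [show q + t - s = q - s + t by ring]

lemma th_shift (d : ι₁ → ℤ) (s : ℤ) (hs : Odd s) : th K (fun i => d i + s) = - th K d := by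
  apply LinearMap.ext
  intro z
  funext i
  rw [LinearMap.neg_apply, Pi.neg_apply, th_apply, th_apply, sgn_add, sgn_odd hs]
  ring

lemma fc_neg (A : V → List V → ((ι₁ → K) →ₗ[K] (ι₁ → K))) (v : V) (l : List V) :
    fc (-A) v l = - fc A v l := by
  have h := fc_add A (-A) v l
  rw [add_neg_cancel] at h
  have h0 : fc (0 : V → List V → ((ι₁ → K) →ₗ[K] (ι₁ → K))) v l = 0 := by
    have := fc_add (0 : V → List V → ((ι₁ → K) →ₗ[K] (ι₁ → K))) 0 v l
    rw [add_zero] at this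
    simpa using this
  rw [h0] at h
  exact (neg_eq_of_add_eq_zero_right h.symm).symm

lemma pre_shift {d : ι₁ → ℤ} {e : V → (ι₁ → K) →ₗ[K] (ι₁ → K)}
    {R : V → List V → ((ι₁ → K) →ₗ[K] (ι₁ → K))} (h : PreRuth d e R) (s : ℤ) (hs : Odd s) :
    PreRuth (fun i => d i + s) e (-R) where
  e_idem := h.e_idem
  e_deg v := deg_shift (h.e_deg v) s
  deg_R v l := (deg_shift (h.deg_R v l) s).neg
  left v l := by
    show e v ∘ₗ (-(R v l)) = -(R v l)
    rw [LinearMap.comp_neg, h.left]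
  right v l := by
    show (-(R v l)) ∘ₗ e (lst v l) = -(R v l)
    rw [LinearMap.neg_comp, h.right]
  eqn v l := by
    rw [th_shift d s hs, fc_neg, cv_neg_left, cv_neg_right, neg_neg, LinearMap.neg_comp,
      LinearMap.comp_neg, neg_neg]
    exact h.eqn v l

lemma uni_shift {d : ι₁ → ℤ} {e : V → (ι₁ → K) →ₗ[K] (ι₁ → K)}
    {R : V → List V → ((ι₁ → K) →ₗ[K] (ι₁ → K))} (h : SRuth d e R) (s : ℤ) (hs : Odd s) :
    SRuth (fun i => d i + s) e (-R) where
  toPreRuth := pre_shift h.toPreRuth s hs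
  unit_one v := by
    show -(R v [v]) = _
    rw [th_shift d s hs, h.unit_one, LinearMap.comp_neg]
  unit_rep v l h1 h2 := by
    show -(R v l) = 0
    rw [h.unit_rep v l h1 h2, neg_zero]

end TWS

theorem TWS : SpecTWS := by
  intro K V _ ι₁ ι₂ _ _ d₁ d₂ e₁ e₂ R₁ R₂
  refine ⟨?_, ?_⟩
  · intro X h1 h2 hX hD
    have hpre : PreRuth (Sum.elim d₁ d₂) (fun v => mat2 (e₁ v) 0 0 (e₂ v))
        (fun v l => mat2 (R₁ v l) 0 (X v l) (R₂ v l)) := by
      refine ⟨?_, ?_, ?_, ?_, ?_, ?_⟩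
      · intro v
        rw [TWS.mat2_comp, h1.e_idem, h2.e_idem]
        simp
      · intro v
        exact TWS.deg_mat2 (h1.e_deg v) Deg.zero Deg.zero (h2.e_deg v)
      · intro v l
        exact TWS.deg_mat2 (h1.deg_R v l) Deg.zero (hX.deg_A v l) (h2.deg_R v l)
      · intro v l
        rw [TWS.mat2_comp, h1.left, h2.left, hX.left]
        simp
      · intro v l
        rw [TWS.mat2_comp, h1.right, h2.right, hX.right]
        simp
      · intro v l
        have hz : ∀ v l, fc (fun (_ : V) (_ : List V) => (0 : (ι₂ → K) →ₗ[K] (ι₁ → K))) v l = 0 := by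
          intro v l
          have := fc_add (fun (_ : V) (_ : List V) => (0 : (ι₂ → K) →ₗ[K] (ι₁ → K)))
            (fun (_ : V) (_ : List V) => (0 : (ι₂ → K) →ₗ[K] (ι₁ → K))) v l
          have e : (fun (_ : V) (_ : List V) => (0 : (ι₂ → K) →ₗ[K] (ι₁ → K))) +
            (fun (_ : V) (_ : List V) => (0 : (ι₂ → K) →ₗ[K] (ι₁ → K))) =
            (fun (_ : V) (_ : List V) => (0 : (ι₂ → K) →ₗ[K] (ι₁ → K))) := by
            funext v l; simp
          rw [e] at this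
          simpa using this
        have c1 : cv (fun (_ : V) (_ : List V) => (0 : (ι₂ → K) →ₗ[K] (ι₁ → K))) X v l = 0 :=
          cv_zero_left X v l
        have c2 : cv R₁ (fun (_ : V) (_ : List V) => (0 : (ι₂ → K) →ₗ[K] (ι₁ → K))) v l = 0 :=
          cv_zero_right R₁ v l
        have c3 : cv (fun (_ : V) (_ : List V) => (0 : (ι₂ → K) →ₗ[K] (ι₁ → K))) R₂ v l = 0 :=
          cv_zero_left R₂ v l
        have c4 : cv X (fun (_ : V) (_ : List V) => (0 : (ι₂ → K) →ₗ[K] (ι₁ → K))) v l = 0 :=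
          cv_zero_right X v l
        have hD' := hD v l
        unfold DD at hD'
        have e3 : sgn K 1 • cv X R₁ v l = - cv X R₁ v l := by
          rw [sgn_one]
          exact neg_one_smul K (cv X R₁ v l)
        rw [e3, sub_neg_eq_add] at hD'
        rw [TWS.fc_mat2 R₁ (fun _ _ => 0) X R₂, TWS.cv_mat2 R₁ (fun _ _ => 0) X R₂, TWS.th_sum,
          TWS.mat2_comp, TWS.mat2_add, hz, c1, c2, c3, c4]
        simp only [LinearMap.zero_comp, LinearMap.comp_zero, add_zero, zero_add]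
        rw [h1.eqn, h2.eqn, add_comm (cv X R₁ v l), ← add_assoc, hD', TWS.mat2_zero]
    refine ⟨hpre, ?_⟩
    intro s1 s2 hX1 hX2
    refine ⟨hpre, ?_, ?_⟩
    · intro v
      rw [s1.unit_one, s2.unit_one, hX1, TWS.th_sum, TWS.mat2_comp]
      simp
    · intro v l hl hr
      rw [s1.unit_rep v l hl hr, s2.unit_rep v l hl hr, hX2 v l hl hr, TWS.mat2_zero]
  · intro s hs
    exact ⟨fun h => TWS.pre_shift h s hs, fun h => TWS.uni_shift h s hs⟩

end Pool.Agent.Lib.MP_9b987c_gt.HC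
end
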