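import Pool.Agent.Lib.MP_9b987c_gt.HC.PLF
import Pool.Agent.Lib.MP_9b987c_gt.HC.TRF
import Pool.Agent.Lib.MP_9b987c_gt.HC.DOM
import Pool.Agent.Lib.MP_9b987c_gt.HC.TWS
import Pool.Agent.Lib.MP_9b987c_gt.HC.NU.HATN
import Pool.Agent.Lib.MP_9b987c_gt.HC.TOP
import Pool.Agent.Lib.MP_9b987c_gt.HC.QHE

section
/-!
# Module PSI: the morphism from the pullback of the transferred structure
-/
namespace Pool.Agent.Lib.MP_9b987c_gt.HC

open scoped BigOperators

namespace PSIM

section Lin

variable {K V M N P : Type*} [CommRing K] [AddCommGroup M] [Module K M] [AddCommGroup N]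
  [Module K N] [AddCommGroup P] [Module K P]

/-- Omit the first point. -/
def ff (Y : V → List V → (M →ₗ[K] N)) : V → List V → (M →ₗ[K] N)
  | _, [] => 0
  | _, u :: l => Y u l

lemma cv_const (A : V → List V → (N →ₗ[K] P)) (Y : V → List V → (M →ₗ[K] N)) (v u : V)
    (l : List V) :
    cv (fun _ l => A v l) Y u l = cv A Y v l - A v [] ∘ₗ Y v l + A v [] ∘ₗ Y u l := by
  cases l with
  | nil => simp
  | cons w l =>
    have h : sh (fun (_ : V) l => A v l) u = sh A v := rfl
    rw [cv_cons, cv_cons, h]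
    abel

/-- The last face of the first factor against the first face of the second factor. -/
lemma faces (A : V → List V → (N →ₗ[K] P)) (Y : V → List V → (M →ₗ[K] N)) (v : V)
    (l : List V) : cv (fc A) Y v l - cv (fcl A) Y v l = cv (eps A) (ff Y) v l := by
  induction l generalizing A v with
  | nil => simp [ff]
  | cons u l ih =>
    rw [cv_cons, cv_cons, cv_cons, LEIM.sh_fc, LEIM.sh_fcl, LEIM.sh_eps, cv_sub_left, cv_sub_left,
      cv_neg_left, cv_neg_left, cv_neg_left, LEIM.cv_tl, cv_const, ← ih]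
    simp only [fc_nil, fcl_nil, LinearMap.zero_comp, eps_apply, List.length_nil, pow_zero,
      one_smul, ff]
    abel

end Lin

section Degs

variable {K V M ι κ : Type*} [CommRing K] [AddCommGroup M] [Module K M]

lemma cv_deg {deg : ι → ℤ} {dg : κ → ℤ} {G : ℤ → Submodule K M}
    (A : V → List V → (M →ₗ[K] (ι → K))) (B : V → List V → ((κ → K) →ₗ[K] M)) (s : ℤ)
    (hA : ∀ v l, GMap G (gr K deg) (A v l) (s - l.length))
    (hB : ∀ v l, GMap (gr K dg) G (B v l) (-(l.length : ℤ))) (v : V) (l : List V) :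
    Deg dg deg (cv A B v l) (s - l.length) := by
  induction l generalizing A v s with
  | nil =>
    intro q z hz
    have h1 := hB v [] q z hz
    have h2 := hA v [] _ _ h1
    have e : q + -((([] : List V).length : ℕ) : ℤ) + (s - (([] : List V).length : ℕ)) =
        q + (s - (([] : List V).length : ℕ)) := by simp
    rw [e] at h2
    exact h2
  | cons u l ih =>
    rw [cv_cons]
    apply Deg.add
    · intro q z hz
      have h1 := hB v (u :: l) q z hz
      have h2 := hA v [] _ _ h1
      have e : q + -(((u :: l).length : ℕ) : ℤ) + (s - (([] : List V).length : ℕ)) =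
          q + (s - ((u :: l).length : ℕ)) := by simp; ring
      rw [e] at h2
      exact h2
    · have h := ih (sh A v) (s - 1) (fun w l' => by
        have h3 := hA v (w :: l')
        have e : s - (((w :: l').length : ℕ) : ℤ) = s - 1 - (l'.length : ℤ) := by
          push_cast [List.length_cons]; ring
        rw [e] at h3
        exact h3) u
      exact h.congr (by push_cast [List.length_cons]; ring)

/-- In a unital representation `θ` commutes with `e`. -/
lemma th_e {deg : ι → ℤ} {e : V → (ι → K) →ₗ[K] (ι → K)}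
    {R : V → List V → ((ι → K) →ₗ[K] (ι → K))} (hR : SRuth deg e R) (v : V) :
    th K deg ∘ₗ e v = e v ∘ₗ th K deg := by
  have h1 := hR.eqn v [v, v]
  have h2 : R v [v, v] = 0 := hR.unit_rep v [v, v] (by simp) (by simp)
  rw [fc_cons, cv_cons, cv_cons, cv_nil] at h1
  simp only [sh_apply, fc_one, h2, hR.unit_one, LinearMap.comp_zero, LinearMap.zero_comp,
    sub_zero, zero_add, add_zero, LinearMap.comp_neg] at h1
  have h3 : (e v ∘ₗ th K deg) ∘ₗ e v = e v ∘ₗ th K deg := by
    have := hR.right v [v]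
    rw [hR.unit_one] at this
    exact this
  have h4 : (e v ∘ₗ th K deg) ∘ₗ (e v ∘ₗ th K deg) = e v := by
    rw [← LinearMap.comp_assoc, h3, LinearMap.comp_assoc, th_comp_th, LinearMap.comp_id]
  rw [h4] at h1
  have h5 : th K deg ∘ₗ (e v ∘ₗ th K deg) = e v := by
    have := eq_neg_of_add_eq_zero_left h1
    rw [neg_inj] at this
    exact this
  have h6 := congrArg (fun F => F ∘ₗ th K deg) h5
  simp only [LinearMap.comp_assoc] at h6
  rw [th_comp_th, LinearMap.comp_id] at h6
  exact h6

end Degs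

end PSIM

open PSIM in
/-- The morphism. -/
theorem specPSI (hTRF : SpecTRF) : SpecPSI := by
  intro K M κ ι V W _ _ _ _ _ dg deg G d t e dE a b h p eV R Ev hS hR hEv hEd hEt
  obtain ⟨hRE, hYdeg, hYe, hYd⟩ := hTRF K M κ W dg G d t e dE a b h hS
  set RE := trR dE (th K dg) a b (fun w => t ∘ₗ h w) with hREdef
  set Yw : W → List W → ((κ → K) →ₗ[K] M) :=
    fun w l => ((-1 : ℤ) ^ l.length) • Yc a (fun w => t ∘ₗ h w) w l with hYw
  have hY : (fun (v : V) (l : List V) => ((-1 : ℤ) ^ l.length) •
      Yc a (fun w => t ∘ₗ h w) (p v) (l.map p)) = pb p Yw := by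
    funext v l
    simp [pb, hYw]
  rw [hY]
  have hYe' : ∀ v l, pb p Yw v l ∘ₗ e (p (lst v l)) = pb p Yw v l := by
    intro v l
    have h1 := hYe (p v) (l.map p)
    rw [lst_map] at h1
    simp only [pb, hYw]
    rw [LinearMap.smul_comp, h1]
  have hYdeg' : ∀ v l, GMap (gr K dg) G (pb p Yw v l) (-(l.length : ℤ)) := by
    intro v l q x hx
    have h1 := hYdeg (p v) (l.map p) q x hx
    rw [List.length_map] at h1
    simp only [pb, hYw]
    exact zsmul_mem h1 _
  have hcomm := th_e hR
  -- the main computation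
  have hmain : ∀ v l, th K deg ∘ₗ fc (cv Ev (pb p Yw)) v l + cv R (cv Ev (pb p Yw)) v l =
      cv (cv Ev (pb p Yw)) (pb p RE) v l := by
    intro v l
    have hREv : cv R Ev = (fun v l => Ev v l ∘ₗ d) - (fun v l => th K deg ∘ₗ fcl Ev v l) := by
      funext v l
      simp only [Pi.sub_apply]
      rw [hEd]
      abel
    have hEvt : (fun (v : V) (l : List V) => Ev v l ∘ₗ t) =
        (fun v l => th K deg ∘ₗ eps Ev v l) := by
      funext v l
      rw [hEt, eps_apply]
      ext x i
      simp
      ring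
    have hdY : (fun (v : V) (l : List V) => d ∘ₗ pb p Yw v l) =
        cv (pb p Yw) (pb p RE) - (fun v l => t ∘ₗ fc (pb p Yw) v l) -
          (fun v l => t ∘ₗ ff (pb p Yw) v l) := by
      funext v l
      simp only [Pi.sub_apply]
      rw [cv_pb, fc_pb]
      have h1 := hYd (p v) (l.map p)
      cases l with
      | nil => exact h1
      | cons u l => exact h1
    have e1 : cv R (cv Ev (pb p Yw)) v l =
        cv (cv Ev (pb p Yw)) (pb p RE) v l - th K deg ∘ₗ cv (eps Ev) (fc (pb p Yw)) v l -
          th K deg ∘ₗ cv (eps Ev) (ff (pb p Yw)) v l - th K deg ∘ₗ cv (fcl Ev) (pb p Yw) v l := by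
      rw [← LEIM.cv_assoc, hREv, cv_sub_left, cv_comp_left, cv_comp_mid, hdY, cv_sub_right,
        cv_sub_right, ← LEIM.cv_assoc, ← cv_comp_mid, ← cv_comp_mid, hEvt, cv_comp_left,
        cv_comp_left]
    rw [e1, LEIM.fc_cv, ← faces]
    simp only [LinearMap.comp_add, LinearMap.comp_sub]
    abel
  refine ⟨⟨?_, ?_, ?_⟩, ?_⟩
  · intro v l
    have h1 := cv_deg (deg := deg) (dg := dg) (G := G) Ev (pb p Yw) 0
      (fun v l => by
        have h2 := hEv v l
        rw [zero_sub]
        exact h2) hYdeg' v l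
    have h3 := Deg.comp (hR.e_deg v) h1
    exact h3.congr (by ring)
  · intro v l
    rw [← LinearMap.comp_assoc, hR.e_idem]
  · intro v l
    rw [LinearMap.comp_assoc, ← cv_last (fun v => e (p v))]
    congr 2
    funext v l
    exact hYe' v l
  · intro v l
    unfold DD
    rw [sgn_zero, one_smul]
    have e1 : fc (fun v l => eV v ∘ₗ cv Ev (pb p Yw) v l) v l =
        eV v ∘ₗ fc (cv Ev (pb p Yw)) v l := fc_first eV (cv Ev (pb p Yw)) v l
    have e2 : cv (fun v l => eV v ∘ₗ cv Ev (pb p Yw) v l) (pb p RE) v l =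
        eV v ∘ₗ cv (cv Ev (pb p Yw)) (pb p RE) v l := cv_first eV (cv Ev (pb p Yw)) (pb p RE) v l
    have e3 : cv R (fun v l => eV v ∘ₗ cv Ev (pb p Yw) v l) v l =
        eV v ∘ₗ cv R (cv Ev (pb p Yw)) v l := by
      rw [← cv_mid eV R (cv Ev (pb p Yw)), ← cv_first eV R (cv Ev (pb p Yw))]
      congr 2
      funext v l
      rw [hR.right, hR.left]
    rw [e1, e2, e3, ← LinearMap.comp_assoc, hcomm, LinearMap.comp_assoc, ← LinearMap.comp_add,
      hmain, sub_self]

end Pool.Agent.Lib.MP_9b987c_gt.HC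
end

section
/-!
# All the modules, without hypotheses
-/
namespace Pool.Agent.Lib.MP_9b987c_gt.HC

theorem hLEI : SpecLEI := specLEI

theorem hCXS : SpecCXS := specCXS hLEI

theorem hDOM : SpecDOM := specDOM hCXS

theorem hTLA : SpecTLA := Pool.Agent.Lib.MP_9b987c_gt.HC.TLA

theorem hTLB : SpecTLB := specTLB

theorem hTEL : SpecTEL := specTEL hTLA hTLB

theorem hBGA : SpecBGA := specBGA

theorem hBIG : SpecBIG := specBIG hBGA

theorem hTRF : SpecTRF := specTRF

theorem hPSI : SpecPSI := specPSI hTRF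

theorem hOUT : SpecOUT := specOUT hCXS hDOM hTEL hBIG hTRF hPSI

theorem hNAT : SpecNAT := specNAT

theorem hNTA : SpecNTA := specNTA

theorem hAVG : SpecAVG := specAVG

theorem hHRA : SpecHRA := specHRA

theorem hCON : SpecCON := specCON

theorem hDLB : SpecDLB := specDLB

theorem hTWS : SpecTWS := Pool.Agent.Lib.MP_9b987c_gt.HC.TWS

theorem hQAC : SpecQAC := specQAC

theorem hFRM : SpecFRM := specFRM

theorem hDSC : SpecDSC := specDSC hFRM

theorem hSMP : SpecSMP := specSMP

theorem hHAT : SpecHAT := specHAT hFRM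

theorem hPUL : SpecPUL := specPUL

theorem hCNG : SpecCNG := specCNG hFRM hSMP

theorem hCNS : SpecCNS := specCNS hFRM hSMP

theorem hACY : SpecACY := specACY

theorem hPTH : SpecPTH := specPTH hFRM hSMP hTWS

theorem hSMR : SpecSMR := specSMR

theorem hPLF : SpecPLF := specPLF

theorem hSMC : SpecSMC := specSMC

theorem hHRE : SpecHRE := specHRE hFRM hDSC hSMR hPLF hSMC hNAT hOUT

theorem hHPS : SpecHPS := specHPS hFRM hDSC hSMR hPLF hSMC hNAT

theorem hHES : SpecHES := specHES hFRM hHRE hHPS hOUT hQAC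

theorem hHAV : SpecHAV := specHAV hFRM hDSC hSMR hPLF hSMC hNTA

theorem hHFF : SpecHFF := specHFF hFRM hSMP hHAV hHRA

theorem hLSC : SpecLSC := specLSC

theorem hNUL : SpecNUL := specNUL

theorem hGEN : SpecGEN := specGEN hNUL

theorem hOST : SpecOST := specOST hGEN

theorem hPUN : SpecPUN := specPUN

theorem hTOP : SpecTOP := specTOP hLSC hOST hPUN

theorem hQHE : SpecQHE := specQHE hFRM hTWS hQAC hACY hCNS hCON hSMR hSMP

theorem hCTG : SpecCTG := specCTG (NU.specCTGN (NU.specHATN hFRM) hHAT hFRM)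

end Pool.Agent.Lib.MP_9b987c_gt.HC
end
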