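import Mathlib

/-!
# MP_9b987c_gt, representations up to homotopy and hypercovers: set level cochains

Everything here is over a commutative ring `K`.  A cochain on a set `V` with values in an abelian
group `X` is a function `V → List V → X` (the pair `(v, l)` is the nonempty list `v :: l`).
-/

namespace Pool.Agent.Lib.MP_9b987c_gt.HC

open scoped BigOperators

universe u v w

section Signs

variable (K : Type*) [CommRing K]

/-- `(-1)^n` in `K`. -/
def sgn (n : ℤ) : K := ((n.negOnePow : ℤ) : K)

variable {ι : Type*}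

/-- The sign operator `θ`: multiplication by `(-1)^(deg i)` in coordinate `i`. -/
def th (deg : ι → ℤ) : (ι → K) →ₗ[K] (ι → K) where
  toFun z := fun i => sgn K (deg i) * z i
  map_add' x y := by funext i; simp [mul_add]
  map_smul' c x := by funext i; simp [mul_left_comm]

/-- Vectors of degree `q`. -/
def gr (deg : ι → ℤ) (q : ℤ) : Submodule K (ι → K) where
  carrier := {z | ∀ i, z i ≠ 0 → deg i = q}
  add_mem' := by
    intro a b ha hb i hi
    by_cases h : a i = 0
    · exact hb i (by intro h'; exact hi (by simp [h, h']))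
    · exact ha i h
  zero_mem' := by intro i hi; exact absurd rfl hi
  smul_mem' := by
    intro c x hx i hi
    exact hx i (by intro h; exact hi (by simp [h]))

variable {K}
variable {κ : Type*}

/-- The linear map `F` has degree `s`. -/
def Deg (deg : ι → ℤ) (deg' : κ → ℤ) (F : (ι → K) →ₗ[K] (κ → K)) (s : ℤ) : Prop :=
  ∀ q : ℤ, ∀ z ∈ gr K deg q, F z ∈ gr K deg' (q + s)

end Signs

section Cochains

variable {V : Type*}

section Additive

variable {X : Type*} [AddCommGroup X]

/-- Freeze the first entry. -/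
def sh (f : V → List V → X) (v : V) : V → List V → X := fun u l => f v (u :: l)

/-- Inner faces: `fc f (v_0, ..., v_k) = Σ_{0 < j < k} (-1)^j f (v_0, .., v_j omitted, .., v_k)`. -/
def fcL : List V → (V → List V → X) → V → X
  | [], _, _ => 0
  | [_], _, _ => 0
  | u :: w :: l, f, v => - f v (w :: l) - fcL (w :: l) (sh f v) u

/-- Inner faces. -/
def fc (f : V → List V → X) : V → List V → X := fun v l => fcL l f v

/-- Inner and last faces:
`fcl f (v_0, ..., v_k) = Σ_{0 < j ≤ k} (-1)^j f (v_0, .., v_j omitted, .., v_k)`. -/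
def fclL : List V → (V → List V → X) → V → X
  | [], _, _ => 0
  | u :: l, f, v => - f v l - fclL l (sh f v) u

/-- Inner and last faces. -/
def fcl (f : V → List V → X) : V → List V → X := fun v l => fclL l f v

/-- The sign `(-1)^k` on cochains of `k + 1` points. -/
def eps (f : V → List V → X) : V → List V → X := fun v l => ((-1 : ℤ) ^ l.length) • f v l

end Additive

section Linear

variable {K : Type*} [CommRing K]
variable {M N P : Type*} [AddCommGroup M] [Module K M] [AddCommGroup N] [Module K N]
  [AddCommGroup P] [Module K P]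

/-- Action of an operator valued cochain on a vector valued cochain:
`ac A f (v_0..v_k) = Σ_j A(v_0..v_j) (f(v_j..v_k))`. -/
def acL : List V → (V → List V → (N →ₗ[K] P)) → (V → List V → N) → V → P
  | [], A, f, v => A v [] (f v [])
  | u :: l, A, f, v => A v [] (f v (u :: l)) + acL l (sh A v) f u

/-- Action of an operator valued cochain on a vector valued cochain. -/
def ac (A : V → List V → (N →ₗ[K] P)) (f : V → List V → N) : V → List V → P :=
  fun v l => acL l A f v

/-- Product of operator valued cochains: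
`cv A B (v_0..v_k) = Σ_j A(v_0..v_j) ∘ B(v_j..v_k)`. -/
def cvL : List V → (V → List V → (N →ₗ[K] P)) → (V → List V → (M →ₗ[K] N)) → V → (M →ₗ[K] P)
  | [], A, B, v => A v [] ∘ₗ B v []
  | u :: l, A, B, v => A v [] ∘ₗ B v (u :: l) + cvL l (sh A v) B u

/-- Product of operator valued cochains. -/
def cv (A : V → List V → (N →ₗ[K] P)) (B : V → List V → (M →ₗ[K] N)) :
    V → List V → (M →ₗ[K] P) := fun v l => cvL l A B v

end Linear

/-- The last point of the list `v :: l`. -/
def lst : V → List V → V
  | v, [] => v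
  | _, u :: l => lst u l

/-- The list `v :: l` has two equal neighbours. -/
def HasRep : V → List V → Prop
  | _, [] => False
  | v, u :: l => v = u ∨ HasRep u l

end Cochains

section SimpLemmas

variable {V : Type*} {X : Type*} [AddCommGroup X]

@[simp] lemma sh_apply (f : V → List V → X) (v u : V) (l : List V) : sh f v u l = f v (u :: l) := rfl
@[simp] lemma fc_nil (f : V → List V → X) (v : V) : fc f v [] = 0 := rfl
@[simp] lemma fc_one (f : V → List V → X) (v u : V) : fc f v [u] = 0 := rfl
@[simp] lemma fc_cons (f : V → List V → X) (v u w : V) (l : List V) :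
    fc f v (u :: w :: l) = - f v (w :: l) - fc (sh f v) u (w :: l) := rfl
@[simp] lemma fcl_nil (f : V → List V → X) (v : V) : fcl f v [] = 0 := rfl
@[simp] lemma fcl_cons (f : V → List V → X) (v u : V) (l : List V) :
    fcl f v (u :: l) = - f v l - fcl (sh f v) u l := rfl
lemma eps_apply (f : V → List V → X) (v : V) (l : List V) :
    eps f v l = ((-1 : ℤ) ^ l.length) • f v l := rfl

variable {K : Type*} [CommRing K]
variable {M N P : Type*} [AddCommGroup M] [Module K M] [AddCommGroup N] [Module K N]
  [AddCommGroup P] [Module K P]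

@[simp] lemma ac_nil (A : V → List V → (N →ₗ[K] P)) (f : V → List V → N) (v : V) :
    ac A f v [] = A v [] (f v []) := rfl
@[simp] lemma ac_cons (A : V → List V → (N →ₗ[K] P)) (f : V → List V → N) (v u : V)
    (l : List V) : ac A f v (u :: l) = A v [] (f v (u :: l)) + ac (sh A v) f u l := rfl
@[simp] lemma cv_nil (A : V → List V → (N →ₗ[K] P)) (B : V → List V → (M →ₗ[K] N)) (v : V) :
    cv A B v [] = A v [] ∘ₗ B v [] := rfl
@[simp] lemma cv_cons (A : V → List V → (N →ₗ[K] P)) (B : V → List V → (M →ₗ[K] N)) (v u : V)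
    (l : List V) : cv A B v (u :: l) = A v [] ∘ₗ B v (u :: l) + cv (sh A v) B u l := rfl
@[simp] lemma lst_nil (v : V) : lst v [] = v := rfl
@[simp] lemma lst_cons (v u : V) (l : List V) : lst v (u :: l) = lst u l := rfl
@[simp] lemma hasRep_nil (v : V) : ¬ HasRep v [] := fun h => h
@[simp] lemma hasRep_cons (v u : V) (l : List V) :
    HasRep v (u :: l) ↔ (v = u ∨ HasRep u l) := Iff.rfl

variable {ι : Type*}
@[simp] lemma th_apply (deg : ι → ℤ) (z : ι → K) (i : ι) : th K deg z i = sgn K (deg i) * z i := rfl
lemma mem_gr {deg : ι → ℤ} {q : ℤ} {z : ι → K} : z ∈ gr K deg q ↔ ∀ i, z i ≠ 0 → deg i = q :=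
  Iff.rfl

end SimpLemmas

section Structures

variable {K : Type*} [CommRing K] {V : Type*} {ι : Type*} {κ : Type*}

/-- A representation up to homotopy on the set `V` (hat form), without the unit conditions:
`e` is an idempotent of degree `0`, `R (v_0..v_k)` has degree `1 - k`, `e R = R = R e`, and
`θ fc R + cv R R = 0`. -/
structure PreRuth (deg : ι → ℤ) (e : V → (ι → K) →ₗ[K] (ι → K))
    (R : V → List V → ((ι → K) →ₗ[K] (ι → K))) : Prop where
  e_idem : ∀ v, e v ∘ₗ e v = e v
  e_deg : ∀ v, Deg deg deg (e v) 0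
  deg_R : ∀ v l, Deg deg deg (R v l) (1 - l.length)
  left : ∀ v l, e v ∘ₗ R v l = R v l
  right : ∀ v l, R v l ∘ₗ e (lst v l) = R v l
  eqn : ∀ v l, th K deg ∘ₗ fc R v l + cv R R v l = 0

/-- A unital representation up to homotopy on the set `V` (hat form). -/
structure SRuth (deg : ι → ℤ) (e : V → (ι → K) →ₗ[K] (ι → K))
    (R : V → List V → ((ι → K) →ₗ[K] (ι → K))) : Prop extends PreRuth deg e R where
  unit_one : ∀ v, R v [v] = e v ∘ₗ th K deg
  unit_rep : ∀ v l, 2 ≤ l.length → HasRep v l → R v l = 0

/-- The cochain `A` of total degree `t`, with `eF A = A = A eE`. -/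
structure IsCo (deg : ι → ℤ) (deg' : κ → ℤ) (t : ℤ) (eE : V → (ι → K) →ₗ[K] (ι → K))
    (eF : V → (κ → K) →ₗ[K] (κ → K)) (A : V → List V → ((ι → K) →ₗ[K] (κ → K))) : Prop where
  deg_A : ∀ v l, Deg deg deg' (A v l) (t - l.length)
  left : ∀ v l, eF v ∘ₗ A v l = A v l
  right : ∀ v l, A v l ∘ₗ eE (lst v l) = A v l

/-- The differential of a cochain `A` of total degree of parity `t` from `(RE)` to `(RF)`:
`θ fc A + cv RF A - (-1)^t cv A RE`. -/
def DD (deg' : κ → ℤ) (t : ℤ) (RE : V → List V → ((ι → K) →ₗ[K] (ι → K)))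
    (RF : V → List V → ((κ → K) →ₗ[K] (κ → K))) (A : V → List V → ((ι → K) →ₗ[K] (κ → K))) :
    V → List V → ((ι → K) →ₗ[K] (κ → K)) :=
  fun v l => th K deg' ∘ₗ fc A v l + cv RF A v l - sgn K t • cv A RE v l

/-- The unit cochain of an idempotent: `e` on one point lists, `0` otherwise. -/
def unt (e : V → (ι → K) →ₗ[K] (ι → K)) : V → List V → ((ι → K) →ₗ[K] (ι → K))
  | v, [] => e v
  | _, _ :: _ => 0

end Structures

end Pool.Agent.Lib.MP_9b987c_gt.HC
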