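import Pool.Agent.Lib.MP_9b987c_gt.HC.Basic

/-!
# Set level Specs (module list A)

All types are in `Type`.  Notation of the proofs: a list `v :: l = (v_0, .., v_k)` has `k = l.length`;
`θ = th K deg`; `R_j` means `R (v_0 .. v_j)`.  If `F` has degree `s` then `θ F = (-1)^s F θ`
(`Basic.th_comp_of_deg`), and `θ θ = 1`.
-/

namespace Pool.Agent.Lib.MP_9b987c_gt.HC

open scoped BigOperators

/-- `F` maps the degree `q` part of the grading `A` to the degree `q + s` part of the grading `B`. -/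
def GMap {K M N : Type*} [CommRing K] [AddCommGroup M] [Module K M] [AddCommGroup N] [Module K N]
    (A : ℤ → Submodule K M) (B : ℤ → Submodule K N) (F : M →ₗ[K] N) (s : ℤ) : Prop :=
  ∀ q : ℤ, ∀ x ∈ A q, F x ∈ B (q + s)

/-- **LEI** (Leibniz rules, 150 lines).  All by induction on the list, generalizing the cochains and
the first point.
(1) `ac (cv A B) f = ac A (ac B f)`, (2) associativity of `cv`,
(3) `fcl (ac A f) = ac (fc A) f + ac (eps A) (fcl f)`: omit `v_i` from a product with splitting point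
`v_j`, `j ≠ i`: if `i < j` it is an inner face of the first factor, if `i > j` it is the face `i - j`
of the second factor and `(-1)^i = (-1)^j (-1)^(i-j)`.
(4) the same for `fc` and `cv`; (5), (6) `fcl fcl = 0`, `fc fc = 0` (simplicial identities; for the
induction prove first `fcl (f ·)` for the function `fun v l => fcl f v l` in recursive form).
(7) `fcl f (v_0..v_k, u) = fcl (f (·, u)) (v_0..v_k) + (-1)^(k+1) f (v_0..v_k)` and
`fc f (v_0..v_k, u) = fcl (f (·, u)) (v_0..v_k)`,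
`ac A f (v_0..v_k, u) = ac A (f (·, u)) (v_0..v_k) + A (v_0..v_k, u) (f (u))`, and the same for
`cv` (here `f (·, u)` is `fun v l => f v (l ++ [u])`). -/
def SpecLEI : Prop :=
  ∀ (K V M N P Q : Type) [CommRing K] [AddCommGroup M] [Module K M] [AddCommGroup N] [Module K N]
    [AddCommGroup P] [Module K P] [AddCommGroup Q] [Module K Q],
    (∀ (A : V → List V → (N →ₗ[K] P)) (B : V → List V → (M →ₗ[K] N)) (f : V → List V → M) v l,
      ac (cv A B) f v l = ac A (ac B f) v l) ∧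
    (∀ (A : V → List V → (P →ₗ[K] Q)) (B : V → List V → (N →ₗ[K] P)) (C : V → List V → (M →ₗ[K] N))
      v l, cv (cv A B) C v l = cv A (cv B C) v l) ∧
    (∀ (A : V → List V → (N →ₗ[K] P)) (f : V → List V → N) v l,
      fcl (ac A f) v l = ac (fc A) f v l + ac (eps A) (fcl f) v l) ∧
    (∀ (A : V → List V → (N →ₗ[K] P)) (B : V → List V → (M →ₗ[K] N)) v l,
      fc (cv A B) v l = cv (fc A) B v l + cv (eps A) (fc B) v l) ∧
    (∀ (f : V → List V → M) v l, fcl (fcl f) v l = 0) ∧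
    (∀ (f : V → List V → M) v l, fc (fc f) v l = 0) ∧
    (∀ (f : V → List V → M) v l u,
      fcl f v (l ++ [u]) = fcl (fun v l => f v (l ++ [u])) v l +
        ((-1 : ℤ) ^ (l.length + 1)) • f v l) ∧
    (∀ (f : V → List V → M) v l u,
      fc f v (l ++ [u]) = fcl (fun v l => f v (l ++ [u])) v l) ∧
    (∀ (A : V → List V → (N →ₗ[K] P)) (f : V → List V → N) v l u,
      ac A f v (l ++ [u]) = ac A (fun v l => f v (l ++ [u])) v l + A v (l ++ [u]) (f u [])) ∧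
    (∀ (A : V → List V → (N →ₗ[K] P)) (B : V → List V → (M →ₗ[K] N)) v l u,
      cv A B v (l ++ [u]) = cv A (fun v l => B v (l ++ [u])) v l + A v (l ++ [u]) ∘ₗ B u []) ∧
    (∀ (A : V → List V → (N →ₗ[K] P)) (B : V → List V → (M →ₗ[K] N)) v l z,
      cv A B v l z = ac A (fun v l => B v l z) v l)

/-- **CXS** (the complex `S`, 200 lines; uses LEI).
(1) `d d = 0`: `ac R (ac R f) + ac R (θ fcl f) + θ fcl (ac R f) + θ fcl (θ fcl f)`, where
`fcl (ac R f) = ac (fc R) f + ac (eps R) (fcl f)` and `θ (eps R)_k = (-1)^k (-1)^(1-k) R_k θ = - R_k θ`,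
so the sum is `ac (cv R R + θ fc R) f = 0` (`θ` commutes with `fcl`, `θ θ = 1`, `fcl fcl = 0`).
(2) `d s_u = s_u R(u)`: at `(v_0..v_k)` the left side is
`[Σ_j R(v_0..v_j) R(v_j..v_k,u) + θ fc R (v_0..v_k,u)] θ z` `= - R(v_0..v_k,u) R(u) θ z`
`= R(v_0..v_k,u) θ R(u) z`.
(3) `ev d = R(u) ev` is immediate.
(4) `s_u ev_u - 1 = d H_u + H_u d`: `(H_u d f)(v_0..v_k) = (-1)^k θ (d f)(v_0..v_k,u)` and
`(d f)(v_0..v_k,u) = Σ_j R_j f(v_j..v_k,u) + R(v_0..v_k,u) f(u)`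
`+ θ (Σ_(1≤i≤k) (-1)^i f(..v_i omitted..,u) + (-1)^(k+1) f(v_0..v_k))`; with
`θ R_j = (-1)^(1-j) R_j θ` the first sum cancels `ac R (H_u f)`, the second `θ fcl (H_u f)`, the last
term gives `- f`, and `(-1)^k θ R(v_0..v_k,u) f(u) = R(v_0..v_k,u) θ f(u) = s_u (f(u))`.
(5) signs and (6) degrees: same bookkeeping. -/
def SpecCXS : Prop :=
  ∀ (K V ι : Type) [CommRing K] [Finite ι] (deg : ι → ℤ) (e : V → (ι → K) →ₗ[K] (ι → K))
    (R : V → List V → ((ι → K) →ₗ[K] (ι → K))), PreRuth deg e R →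
    dS deg R ∘ₗ dS deg R = 0 ∧
    (∀ u, dS deg R ∘ₗ sU deg R u = sU deg R u ∘ₗ R u []) ∧
    (∀ u, evU u ∘ₗ dS deg R = R u [] ∘ₗ evU u) ∧
    (∀ u, sU deg R u ∘ₗ evU u - LinearMap.id = dS deg R ∘ₗ hU deg u + hU deg u ∘ₗ dS deg R) ∧
    (thS deg ∘ₗ thS deg = (LinearMap.id : Fn K V ι →ₗ[K] Fn K V ι)) ∧
    thS deg ∘ₗ dS deg R = -(dS deg R ∘ₗ thS deg) ∧
    (∀ u : V, thS deg ∘ₗ (hU deg u : Fn K V ι →ₗ[K] Fn K V ι) = -(hU deg u ∘ₗ thS deg)) ∧
    (∀ u : V, th K deg ∘ₗ evU u = evU u ∘ₗ (thS deg : Fn K V ι →ₗ[K] Fn K V ι)) ∧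
    (∀ u, thS deg ∘ₗ sU deg R u = sU deg R u ∘ₗ th K deg) ∧
    GMap (grS K V deg) (grS K V deg) (dS deg R) 1 ∧
    (∀ u : V, GMap (grS K V deg) (grS K V deg) (hU deg u) (-1)) ∧
    (∀ u, GMap (gr K deg) (grS K V deg) (sU deg R u) 0) ∧
    (∀ u : V, GMap (grS K V deg) (gr K deg) (evU u) 0) ∧
    GMap (grS K V deg) (grS K V deg) (thS deg) 0

/-- Domination data: `S` is dominated by the finite rank complex `(ρ → K, dp)`, in degrees
`lo, .., lo + n`. -/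
structure DomOk {K S ρ : Type} [CommRing K] [AddCommGroup S] [Module K S] (dg : ρ → ℤ) (lo : ℤ)
    (n : ℕ) (G : ℤ → Submodule K S) (d t : S →ₗ[K] S) (dp : (ρ → K) →ₗ[K] (ρ → K))
    (u : S →ₗ[K] (ρ → K)) (v : (ρ → K) →ₗ[K] S) (η : S →ₗ[K] S) : Prop where
  lo_le : ∀ r, lo ≤ dg r
  le_hi : ∀ r, dg r ≤ lo + n
  d_d : d ∘ₗ d = 0
  dp_dp : dp ∘ₗ dp = 0
  u_d : u ∘ₗ d = dp ∘ₗ u
  d_v : d ∘ₗ v = v ∘ₗ dp
  dom : v ∘ₗ u - LinearMap.id = d ∘ₗ η + η ∘ₗ d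
  t_t : t ∘ₗ t = LinearMap.id
  t_d : t ∘ₗ d = -(d ∘ₗ t)
  t_η : t ∘ₗ η = -(η ∘ₗ t)
  th_u : th K dg ∘ₗ u = u ∘ₗ t
  t_v : t ∘ₗ v = v ∘ₗ th K dg
  g_d : GMap G G d 1
  g_η : GMap G G η (-1)
  g_u : GMap G (gr K dg) u 0
  g_v : GMap (gr K dg) G v 0
  g_dp : GMap (gr K dg) (gr K dg) dp 1
  bdd : ∀ q < lo, ∀ x ∈ G q, x = 0

/-- Homotopy retract data of `S` onto `(κ → K, e, dE)`. -/
structure RetOk {K S κ : Type} [CommRing K] [AddCommGroup S] [Module K S] (dg : κ → ℤ)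
    (G : ℤ → Submodule K S) (d t : S →ₗ[K] S) (η : S →ₗ[K] S) (e dE k : (κ → K) →ₗ[K] (κ → K))
    (a : (κ → K) →ₗ[K] S) (b : S →ₗ[K] (κ → K)) : Prop where
  d_d : d ∘ₗ d = 0
  t_t : t ∘ₗ t = LinearMap.id
  t_d : t ∘ₗ d = -(d ∘ₗ t)
  t_η : t ∘ₗ η = -(η ∘ₗ t)
  g_d : GMap G G d 1
  g_η : GMap G G η (-1)
  e_e : e ∘ₗ e = e
  g_e : GMap (gr K dg) (gr K dg) e 0
  e_dE : e ∘ₗ dE = dE
  dE_e : dE ∘ₗ e = dE
  dE_dE : dE ∘ₗ dE = 0
  g_dE : GMap (gr K dg) (gr K dg) dE 1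
  e_k : e ∘ₗ k = k
  k_e : k ∘ₗ e = k
  g_k : GMap (gr K dg) (gr K dg) k (-1)
  a_e : a ∘ₗ e = a
  d_a : d ∘ₗ a = a ∘ₗ dE
  g_a : GMap (gr K dg) G a 0
  t_a : t ∘ₗ a = a ∘ₗ th K dg
  e_b : e ∘ₗ b = b
  b_d : b ∘ₗ d = dE ∘ₗ b
  g_b : GMap G (gr K dg) b 0
  th_b : th K dg ∘ₗ b = b ∘ₗ t
  ab : a ∘ₗ b - LinearMap.id = d ∘ₗ η + η ∘ₗ d
  ba : b ∘ₗ a = e + dE ∘ₗ k + k ∘ₗ dE

/-- **DOM** (domination, 200 lines; uses CXS).  `v u f = Σ l_c^2 s_c (ev_c f) = Σ l_c^2 (f + d H_c f +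
H_c d f) = f + d η f + η d f`; `u d f = (l_c R(lift_c) f(lift_c))_c = dP (u f)` since `tau_c l_c = l_c`;
`d v z = Σ l_c s_c (R(lift_c) z_c) = v (dP z)`; `dP dP = tau^2 R(u) R(u) = 0` (the equation of `R` for
the empty list).  `bdd`: if `f` has degree `q < lo` then `f (v_0..v_k)` has degree `q - k < lo`, so it
is `0`. -/
def SpecDOM : Prop :=
  ∀ (K V W C ι : Type) [CommRing K] [Fintype C] [Finite ι] (D : Cov K V W C) (deg : ι → ℤ) (lo : ℤ) (n : ℕ)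
    (e : V → (ι → K) →ₗ[K] (ι → K)) (R : V → List V → ((ι → K) →ₗ[K] (ι → K))),
    D.Ok → PreRuth deg e R → (∀ i, lo ≤ deg i) → (∀ i, deg i ≤ lo + n) → ∀ w,
    DomOk (fun r : C × ι => deg r.2) lo n (grS K V deg) (dS deg R) (thS deg) (dP D R w) (uW D w)
      (vW D deg R w) (etaW D deg w)

/-- **TLA** (telescope, first part, 200 lines).  `p_j = u η^(j-1) v` (`j ≥ 1`) has degree `1 - j`.
(1) `D D = 0`: with `[d, η] = v u - 1` one gets
`dp p_j + (-1)^j p_j dp = Σ_(1≤i≤j-1) (-1)^(i-1) p_i p_(j-i) - [j even] p_(j-1)` (for `j ≥ 1`,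
`p_0` does not occur: for `j = 1` both sums are empty), from
`d η^m = (-1)^m η^m d + Σ_(i<m) (-1)^i η^i (v u - 1) η^(m-1-i)`.  Then the block of `D D` from slot `m`
to slot `m' = m - j` is `dp p_j + (-1)^j p_j dp + Σ_(1≤t≤j-1) (-1)^t p_t p_(j-t)`
`+ [m' even][j≥2] p_(j-1) - [m-1 even][j≥2] (-1)^(m'+m-1) p_(j-1)` (plus `- dp + dp` if `j = 1`,
`m'` even), which is `0` in each of the four parity cases.
(2) with `aF z = Σ_m η^m v z_m`: `d aF = aF D` (same formula).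
(3) `D (ins0 (u f)) = ins0 (u (d f))`. -/
def SpecTLA : Prop :=
  ∀ (K S ρ : Type) [CommRing K] [AddCommGroup S] [Module K S] (dg : ρ → ℤ) (lo : ℤ)
    (n : ℕ) (G : ℤ → Submodule K S) (d t : S →ₗ[K] S) (dp : (ρ → K) →ₗ[K] (ρ → K))
    (u : S →ₗ[K] (ρ → K)) (v : (ρ → K) →ₗ[K] S) (η : S →ₗ[K] S),
    DomOk dg lo n G d t dp u v η →
    telD n dp u v η ∘ₗ telD n dp u v η = 0 ∧
    (d ∘ₗ (∑ m : Fin (n + 3), ((η ^ (m : ℕ) : Module.End K S) : S →ₗ[K] S) ∘ₗ v ∘ₗ slot K n ρ m) =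
      (∑ m : Fin (n + 3), ((η ^ (m : ℕ) : Module.End K S) : S →ₗ[K] S) ∘ₗ v ∘ₗ slot K n ρ m) ∘ₗ
        telD n dp u v η) ∧
    telD n dp u v η ∘ₗ ins0 n ∘ₗ u = ins0 n ∘ₗ u ∘ₗ d

/-- **TLB** (telescope, block identities, 200 lines; independent of TLA).  `k` is the shift
(slot `m` to slot `m + 1`, and `0` on the last slot), `x` is a vector of degree `lo` (so its slots
`> n` vanish, because the slot `m` of `x` has `dg = lo + m ≤ lo + n`).
(1) `D k x = π x - x`: blockwise `D_(m+1→m') = π_(m→m') - [m = m']` (for `m' ≤ m + 1`).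
(2) `D k k x = - k π x`: blockwise `D_(m+2→m'+1) = - π_(m→m')` and the block `D_(m+2→0) = p_(m+2)`
vanishes on `x` since `p_(m+2)` maps degree `lo + m` to degree `lo - 1`, where `ρ → K` is zero.
(3) on vectors `x` of degree `q ≥ lo`: `(D k + k D) x = ins0 (u (aF x)) - x` (same block formulas:
for `m' ≤ m` the sum `D_(m+1→m') + [m' ≥ 1] D_(m→m'-1)` is `- [m = m']`, plus `p_(m+1)` for
`m' = 0`; for `m' = m + 1` it is `(-1)^(m+1) dp + (-1)^m dp = 0`).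
(4) degrees: `D` has degree `1`, `π` degree `0`, `k` degree `-1` for `dgT n dg`. -/
def SpecTLB : Prop :=
  ∀ (K S ρ : Type) [CommRing K] [AddCommGroup S] [Module K S] (dg : ρ → ℤ) (lo : ℤ)
    (n : ℕ) (G : ℤ → Submodule K S) (d t : S →ₗ[K] S) (dp : (ρ → K) →ₗ[K] (ρ → K))
    (u : S →ₗ[K] (ρ → K)) (v : (ρ → K) →ₗ[K] S) (η : S →ₗ[K] S),
    DomOk dg lo n G d t dp u v η →
    (∀ x ∈ gr K (dgT n dg) lo,
      telD n dp u v η (telK K n ρ x) = telPi n dp u v η x - x) ∧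
    (∀ x ∈ gr K (dgT n dg) lo,
      telD n dp u v η (telK K n ρ (telK K n ρ x)) = - telK K n ρ (telPi n dp u v η x)) ∧
    (∀ q, lo ≤ q → ∀ x ∈ gr K (dgT n dg) q,
      telD n dp u v η (telK K n ρ x) + telK K n ρ (telD n dp u v η x) =
        ins0 n (u (∑ m : Fin (n + 3), ((η ^ (m : ℕ) : Module.End K S) : S →ₗ[K] S)
          (v (slot K n ρ m x)))) - x) ∧
    GMap (gr K (dgT n dg)) (gr K (dgT n dg)) (telD n dp u v η) 1 ∧
    GMap (gr K (dgT n dg)) (gr K (dgT n dg)) (telPi n dp u v η) 0 ∧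
    GMap (gr K (dgT n dg)) (gr K (dgT n dg)) (telK K n ρ) (-1)

/-- **TEL** (telescope, conclusion, 250 lines; uses TLA, TLB).  Write `aF x = Σ_m η^m v x_m`.  An
identity between linear maps on `κ → K` may be checked on the basis vectors `Pi.single i 1`, which are
homogeneous (`i` of degree `dgT n dg i`); `e x = x` for `x` of degree `> lo`, `e x = π x` in degree
`lo`, `e x = 0` in degree `< lo`.  For `x` of degree `lo`:
* `D π x = D x`, since `π x - x = D k x` and `D D = 0`;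
* `π π x = π x`: apply `D` to `D k k x = - k π x`: `0 = - D k π x = - (π π x - π x)`;
* `aF π x = aF x`: `aF (D k x) = d aF (k x)` and `aF (k x)` has degree `lo - 1`, so it is `0`
  (`DomOk.bdd`).
Hence `e e = e`; `D e x` is in degree `> lo`, so `e D e = D e`, `e dE = dE`, `dE e = dE`,
`dE dE = D e D e = D D e = 0`; `aF e x = aF x` for `x` of degree `≥ lo`.
`a = aF e`: `d a = aF D e = aF e D e = a dE`.
`b = e ins0 u`: all components of `y = ins0 (u f)` have degree `≥ lo` (`lo ≤ dg r`); for such `y`,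
`e D y = D e y` (degree `> lo`: both `D y`; degree `lo`: `D y = D π y`), so
`b d = e ins0 u d = e D ins0 u = D e ins0 u = dE b` (`D e e = D e`).
`a b = aF e e ins0 u = aF ins0 u = v u`.
`b a = e ins0 u aF e = e (1 + D k + k D) e = e + e D k e + e k D e`; `kE dE = e k e D e = e k D e`, and
`dE kE = D e e k e = D e k e`, so it remains to see `e D k x = D e k x` for `x = e z` homogeneous of
degree `q ≥ lo` (`e z = z`): `q > lo + 1`: both `D k x`; `q = lo + 1`: `D π k x = D k x` and `e = 1`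
in degree `lo + 1`; `q = lo`: `e k x = 0` and `e D k x = π (π x - x) = 0`.
`t a = a th`: `t η^m v = (-1)^m η^m t v` and `th (dgT)` on slot `m` is `(-1)^m th dg`; `th` commutes
with `e` (degree `0`), with `ins0 u`. -/
def SpecTEL : Prop :=
  ∀ (K S ρ : Type) [CommRing K] [AddCommGroup S] [Module K S] [Fintype ρ] [DecidableEq ρ]
    (dg : ρ → ℤ) (lo : ℤ)
    (n : ℕ) (G : ℤ → Submodule K S) (d t : S →ₗ[K] S) (dp : (ρ → K) →ₗ[K] (ρ → K))
    (u : S →ₗ[K] (ρ → K)) (v : (ρ → K) →ₗ[K] S) (η : S →ₗ[K] S),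
    DomOk dg lo n G d t dp u v η →
    RetOk (dgT n dg) G d t η (telE n dg lo dp u v η) (teldE n dg lo dp u v η)
      (telKE n dg lo dp u v η) (telA n dg lo dp u v η) (telB n dg lo dp u v η)

/-- Strong deformation retract data of `M` onto `(κ → K, e, dE)`. -/
structure SdrOk {K M κ : Type} [CommRing K] [AddCommGroup M] [Module K M] (dg : κ → ℤ)
    (G : ℤ → Submodule K M) (d t : M →ₗ[K] M) (e dE : (κ → K) →ₗ[K] (κ → K))
    (a : (κ → K) →ₗ[K] M) (b : M →ₗ[K] (κ → K)) (h : M →ₗ[K] M) : Prop where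
  d_d : d ∘ₗ d = 0
  t_t : t ∘ₗ t = LinearMap.id
  t_d : t ∘ₗ d = -(d ∘ₗ t)
  g_d : GMap G G d 1
  g_t : GMap G G t 0
  e_e : e ∘ₗ e = e
  g_e : GMap (gr K dg) (gr K dg) e 0
  e_dE : e ∘ₗ dE = dE
  dE_e : dE ∘ₗ e = dE
  dE_dE : dE ∘ₗ dE = 0
  g_dE : GMap (gr K dg) (gr K dg) dE 1
  a_e : a ∘ₗ e = a
  d_a : d ∘ₗ a = a ∘ₗ dE
  g_a : GMap (gr K dg) G a 0
  t_a : t ∘ₗ a = a ∘ₗ th K dg
  e_b : e ∘ₗ b = b
  b_d : b ∘ₗ d = dE ∘ₗ b
  g_b : GMap G (gr K dg) b 0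
  th_b : th K dg ∘ₗ b = b ∘ₗ t
  ab : a ∘ₗ b - LinearMap.id = d ∘ₗ h + h ∘ₗ d
  ba : b ∘ₗ a = e
  h_a : h ∘ₗ a = 0
  b_h : b ∘ₗ h = 0
  h_h : h ∘ₗ h = 0
  t_h : t ∘ₗ h = -(h ∘ₗ t)
  g_h : GMap G G h (-1)

/-- The grading of `S × E × E` (the last factor is shifted). -/
def bigG {K S κ : Type} [CommRing K] [AddCommGroup S] [Module K S] (dg : κ → ℤ)
    (G : ℤ → Submodule K S) : ℤ → Submodule K (S × (κ → K) × (κ → K)) :=
  fun q => (G q).prod ((gr K dg q).prod (gr K dg (q - 1)))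

/-- **BGA** (big space, first part, 150 lines).  `A = bigA`, `B = bigB`, `h0 = bigH0`, `D = bigD d`:
(1) `B A = b a - e k dE - dE k = e`; (2) `D A = A dE`; (3) `B D = dE B`;
(4) `A B - 1 = D h0 + h0 D`: on `F = (f, q, q')`: `D h0 F = (d η f + d a q', 0, - k B F - q')`,
`h0 D F = (η d f + a q, - k dE B F - q, 0)`, and
`A B F - F = (a b f + a e q + a dE q' - f, - k dE B F - q, - k B F - q')`;
(5) `A e = A`, `e B = B`, `D D = 0`; (6) signs with `T = bigTh t (th K dg)`: `T T = 1`, `T D = - D T`,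
`T A = A th`, `th B = B T`, `T h0 = - h0 T`; (7) degrees for `bigG dg G`. -/
def SpecBGA : Prop :=
  ∀ (K S κ : Type) [CommRing K] [AddCommGroup S] [Module K S] [Finite κ] (dg : κ → ℤ)
    (G : ℤ → Submodule K S) (d t : S →ₗ[K] S) (η : S →ₗ[K] S) (e dE k : (κ → K) →ₗ[K] (κ → K))
    (a : (κ → K) →ₗ[K] S) (b : S →ₗ[K] (κ → K)),
    RetOk dg G d t η e dE k a b → (GMap G G t 0) →
    bigB b e dE ∘ₗ bigA a dE k = e ∧
    bigD d ∘ₗ bigA a dE k = bigA a dE k ∘ₗ dE ∧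
    bigB b e dE ∘ₗ bigD d = dE ∘ₗ bigB b e dE ∧
    bigA a dE k ∘ₗ bigB b e dE - LinearMap.id =
      bigD d ∘ₗ bigH0 η a b e dE k + bigH0 η a b e dE k ∘ₗ bigD d ∧
    bigA a dE k ∘ₗ e = bigA a dE k ∧
    e ∘ₗ bigB b e dE = bigB b e dE ∧
    bigD d ∘ₗ bigD d = (0 : (S × (κ → K) × (κ → K)) →ₗ[K] (S × (κ → K) × (κ → K))) ∧
    bigTh t (th K dg) ∘ₗ bigTh t (th K dg) = LinearMap.id ∧
    bigTh t (th K dg) ∘ₗ bigD d = -(bigD d ∘ₗ bigTh t (th K dg)) ∧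
    bigTh t (th K dg) ∘ₗ bigA a dE k = bigA a dE k ∘ₗ th K dg ∧
    th K dg ∘ₗ bigB b e dE = bigB b e dE ∘ₗ bigTh t (th K dg) ∧
    bigTh t (th K dg) ∘ₗ bigH0 η a b e dE k = -(bigH0 η a b e dE k ∘ₗ bigTh t (th K dg)) ∧
    GMap (bigG dg G) (bigG dg G) (bigD d) 1 ∧
    GMap (bigG dg G) (bigG dg G) (bigTh t (th K dg)) 0 ∧
    GMap (gr K dg) (bigG dg G) (bigA a dE k) 0 ∧
    GMap (bigG dg G) (gr K dg) (bigB b e dE) 0 ∧
    GMap (bigG dg G) (bigG dg G) (bigH0 η a b e dE k) (-1)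

/-- **BIG** (big space, conclusion, 150 lines; uses BGA).  `P = 1 - A B` is idempotent
(`B A = e`, `A e = A`), commutes with `D`, `P A = 0`, `B P = 0`, and `h1 = P h0 P` satisfies
`D h1 + h1 D = P (A B - 1) P = - P`, `P h1 = h1 = h1 P`.  `h = - h1 D h1`:
`D h1 = - P - h1 D` gives `(D h1)(D h1) = - P D h1 = - D h1` (as `h1 D D = 0`) and
`(h1 D)(h1 D) = - h1 D P - 0 = - h1 D`, so `D h + h D = - D h1 D h1 - h1 D h1 D = D h1 + h1 D = - P`;
`h h = h1 D h1 h1 D h1` and `D h1 h1 D = (- P - h1 D) h1 D = - h1 D + h1 D = 0`. -/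
def SpecBIG : Prop :=
  ∀ (K S κ : Type) [CommRing K] [AddCommGroup S] [Module K S] [Finite κ] (dg : κ → ℤ)
    (G : ℤ → Submodule K S) (d t : S →ₗ[K] S) (η : S →ₗ[K] S) (e dE k : (κ → K) →ₗ[K] (κ → K))
    (a : (κ → K) →ₗ[K] S) (b : S →ₗ[K] (κ → K)),
    RetOk dg G d t η e dE k a b → (GMap G G t 0) →
    SdrOk dg (bigG dg G) (bigD d) (bigTh t (th K dg)) e dE (bigA a dE k) (bigB b e dE)
      (bigH d η a b e dE k)

/-- **TRF** (transfer, 250 lines).  `G_w = t h_w`, `Y = Yc a G`, `R = trR dE θ a b G`.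
`d G_w - G_w d = t - t a_w b_w` (from `ab`, `t d = - d t`), `G_w t = - t G_w`, `b_w t = θ b_w`,
`t a_w = a_w θ`.  Induction on the list gives (for `u :: l` of `k + 1` points, `w_0 = u`)
`d Y(w_0..w_k) = Σ_(0≤j≤k) (-1)^(k-j) Y(w_0..w_j) R(w_j..w_k) + t Σ_(0≤j<k) (-1)^j Y(w_0..w_j omitted..w_k)`.
Applying `b_w . θ` on both sides (and `b d = dE b`) gives `θ fc R + cv R R = 0` on lists of length
`≥ 2`; length `0` is `dE dE = 0`, length `1` is `dE b a θ + b a θ dE = b d a θ - b a dE θ = 0`.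
Degrees: `Y (w_0..w_k)` has degree `- k`, `R (w_0..w_k)` degree `1 - k`.  Unit: `R(w,w) = b_w a_w θ = e θ`;
repetitions: `b_w G_w = θ b_w h_w = 0`-type, `G_w G_w = 0`, `G_w a_w = 0`. -/
def SpecTRF : Prop :=
  ∀ (K M κ W : Type) [CommRing K] [AddCommGroup M] [Module K M] [Finite κ] (dg : κ → ℤ)
    (G : ℤ → Submodule K M) (d t : M →ₗ[K] M) (e dE : W → (κ → K) →ₗ[K] (κ → K))
    (a : W → (κ → K) →ₗ[K] M) (b : W → M →ₗ[K] (κ → K)) (h : W → M →ₗ[K] M),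
    (∀ w, SdrOk dg G d t (e w) (dE w) (a w) (b w) (h w)) →
    SRuth dg e (trR dE (th K dg) a b (fun w => t ∘ₗ h w)) ∧
    (∀ w l, GMap (gr K dg) G (Yc a (fun w => t ∘ₗ h w) w l) (-l.length)) ∧
    (∀ w l, Yc a (fun w => t ∘ₗ h w) w l ∘ₗ e (lst w l) = Yc a (fun w => t ∘ₗ h w) w l) ∧
    (∀ w l, d ∘ₗ (((-1 : ℤ) ^ l.length) • Yc a (fun w => t ∘ₗ h w) w l) =
      cv (fun w l => ((-1 : ℤ) ^ l.length) • Yc a (fun w => t ∘ₗ h w) w l)
        (trR dE (th K dg) a b (fun w => t ∘ₗ h w)) w l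
      - t ∘ₗ fc (fun w l => ((-1 : ℤ) ^ l.length) • Yc a (fun w => t ∘ₗ h w) w l) w l
      - t ∘ₗ (match l with
          | [] => 0
          | u :: l => ((-1 : ℤ) ^ l.length) • Yc a (fun w => t ∘ₗ h w) u l))

/-- **PSI** (the morphism, 200 lines; uses LEI, TRF).  `Ψ0 = cv EV Yε` with
`Yε (v_0..v_k) = (-1)^k Y(p v_0 .. p v_k)`.  Using `EV d = cv R EV + θ fcl EV`,
`EV t = θ (eps EV)`, and the formula for `d Yε` in TRF (pulled back along `p`):
`cv R Ψ0 = cv (EV d) Yε - θ cv (fcl EV) Yε`,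
`cv (EV d) Yε = cv EV (cv Yε R_E) - θ cv (eps EV) (fc Yε + first face)`,
`θ fc Ψ0 = θ cv (fc EV) Yε + θ cv (eps EV) (fc Yε)`; the sum `θ fc Ψ0 + cv R Ψ0 - cv Ψ0 R_E` is
`- θ [cv (eps EV) (first face of Yε) + cv (fcl EV - fc EV) Yε]`, and
`(fcl EV - fc EV)(v_0..v_j) = (-1)^j EV (v_0..v_(j-1))` (`j ≥ 1`), so the bracket is
`Σ_(j<k) (-1)^j EV(v_0..v_j) Yε(v_(j+1)..v_k) + Σ_(1≤j≤k) (-1)^j EV(v_0..v_(j-1)) Yε(v_j..v_k) = 0`.
Finally multiply by `e (v_0)`: `e` commutes with `θ`, `e(v_0) fc A = fc (e A)`, and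
`cv R (e A) = cv R A = e (v_0) cv R A` (`R e = R = e R`). -/
def SpecPSI : Prop :=
  ∀ (K M κ ι V W : Type) [CommRing K] [AddCommGroup M] [Module K M] [Finite κ] [Finite ι] (dg : κ → ℤ) (deg : ι → ℤ)
    (G : ℤ → Submodule K M) (d t : M →ₗ[K] M) (e dE : W → (κ → K) →ₗ[K] (κ → K))
    (a : W → (κ → K) →ₗ[K] M) (b : W → M →ₗ[K] (κ → K)) (h : W → M →ₗ[K] M) (p : V → W)
    (eV : V → (ι → K) →ₗ[K] (ι → K)) (R : V → List V → ((ι → K) →ₗ[K] (ι → K)))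
    (Ev : V → List V → (M →ₗ[K] (ι → K))),
    (∀ w, SdrOk dg G d t (e w) (dE w) (a w) (b w) (h w)) → SRuth deg eV R →
    (∀ v l, GMap G (gr K deg) (Ev v l) (-l.length)) →
    (∀ v l, Ev v l ∘ₗ d = cv R Ev v l + th K deg ∘ₗ fcl Ev v l) →
    (∀ v l, Ev v l ∘ₗ t = ((-1 : ℤ) ^ l.length) • (th K deg ∘ₗ Ev v l)) →
    IsCo dg deg 0 (fun v => e (p v)) eV
      (fun v l => eV v ∘ₗ cv Ev (fun v l => ((-1 : ℤ) ^ l.length) •
        Yc a (fun w => t ∘ₗ h w) (p v) (l.map p)) v l) ∧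
    (∀ v l, DD deg 0 (pb p (trR dE (th K dg) a b (fun w => t ∘ₗ h w))) R
      (fun v l => eV v ∘ₗ cv Ev (fun v l => ((-1 : ℤ) ^ l.length) •
        Yc a (fun w => t ∘ₗ h w) (p v) (l.map p)) v l) v l = 0)

/-- Chain homotopy equivalence between the finite rank complexes `(e₁, d₁)` and `(e₂, d₂)`. -/
def HoEq {K ι κ : Type} [CommRing K] (e₁ d₁ : (κ → K) →ₗ[K] (κ → K))
    (e₂ d₂ : (ι → K) →ₗ[K] (ι → K)) (F : (κ → K) →ₗ[K] (ι → K)) : Prop :=
  ∃ (B : (ι → K) →ₗ[K] (κ → K)) (h : (ι → K) →ₗ[K] (ι → K)) (k : (κ → K) →ₗ[K] (κ → K)),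
    e₁ ∘ₗ B = B ∧ B ∘ₗ e₂ = B ∧ B ∘ₗ d₂ = d₁ ∘ₗ B ∧
    F ∘ₗ B = e₂ + d₂ ∘ₗ h + h ∘ₗ d₂ ∧ B ∘ₗ F = e₁ + d₁ ∘ₗ k + k ∘ₗ d₁

/-- **OUT** (set level construction, conclusion, 200 lines; uses CXS, DOM, TEL, BIG, TRF, PSI).
The last statement: `F = e ev a` (`ev = evU v`, `a = oA`, `b = oB` at `w = p v`), `B = b s`
(`s = sU v`; `s e = s` since `R e = R`): `F B = e ev a b s = e ev (1 + d η + η d) s
= e ev s + R(v) (e ev η s) + (e ev η s) R(v)` with `ev s = e` (`R(v,v) θ = e`), and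
`B F = b s e ev a = b (1 + d H + H d) a = b a + dE (b H a) + (b H a) dE` (`e s = s`.. use
`s e ev = s ev`). -/
def SpecOUT : Prop :=
  ∀ (K V W C ι : Type) [CommRing K] [Fintype C] [DecidableEq C] [Fintype ι] [DecidableEq ι]
    (D : Cov K V W C) (deg : ι → ℤ) (lo : ℤ) (n : ℕ)
    (e : V → (ι → K) →ₗ[K] (ι → K)) (R : V → List V → ((ι → K) →ₗ[K] (ι → K))),
    D.Ok → SRuth deg e R → (∀ i, lo ≤ deg i) → (∀ i, deg i ≤ lo + n) →
    SRuth (dgO n C deg) (oE D deg lo n R) (oR D deg lo n R) ∧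
    IsCo (dgO n C deg) deg 0 (fun v => oE D deg lo n R (D.p v)) e (oPsi D deg lo n R e) ∧
    (∀ v l, DD deg 0 (pb D.p (oR D deg lo n R)) R (oPsi D deg lo n R e) v l = 0) ∧
    (∀ v, HoEq (oE D deg lo n R (D.p v)) (oR D deg lo n R (D.p v) []) (e v) (R v [])
      (oPsi D deg lo n R e v []))

/-- Naturality of a linear map along a ring homomorphism. -/
def LNat {K K' : Type} [CommRing K] [CommRing K'] (φ : K →+* K') {ι κ : Type}
    (F : (ι → K) →ₗ[K] (κ → K)) (F' : (ι → K') →ₗ[K'] (κ → K')) : Prop :=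
  ∀ z : ι → K, F' (fun i => φ (z i)) = fun j => φ (F z j)

/-- Naturality of cochains along a ring homomorphism and a map of sets. -/
def CoNat {K K' V V' : Type} [CommRing K] [CommRing K'] (φ : K →+* K') (α : V → V') {ι κ : Type}
    (A : V → List V → ((ι → K) →ₗ[K] (κ → K))) (A' : V' → List V' → ((ι → K') →ₗ[K'] (κ → K'))) :
    Prop :=
  ∀ v l, LNat φ (A v l) (A' (α v) (l.map α))

/-- Maps of covering data. -/
structure Cov.Map {K K' V V' W W' C : Type} [CommRing K] [CommRing K'] (φ : K →+* K')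
    (α : V → V') (β : W → W') (D : Cov K V W C) (D' : Cov K' V' W' C) : Prop where
  p : ∀ v, D'.p (α v) = β (D.p v)
  col : ∀ c w, (D.l c w = 0 ∧ D.tau c w = 0 ∧ D'.l c (β w) = 0 ∧ D'.tau c (β w) = 0) ∨
    (D'.lift c (β w) = α (D.lift c w) ∧ D'.l c (β w) = φ (D.l c w) ∧
      D'.tau c (β w) = φ (D.tau c w))

/-- **NAT** (naturality of the construction, 350 lines; independent of the other modules).
For `F : X → Y`, `F' : X' → Y'` and relations `rX`, `rY` say that `F, F'` preserve the relations if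
`rX x x' → rY (F x) (F' x')`.  Relations: on `ι → K`: `z' = φ ∘ z`; on `Fn`:
`f' (α v) (l.map α) = φ ∘ f v l`; on products: componentwise.  Every operator of `Out.lean` preserves
them: `dS` (by `ac`, `fcl`), `evU u / evU (α u)`, `sU`, `hU`, `thS`, `th`, then `uW, vW, etaW, dP` at
`w / β w` (by the two cases of `Cov.Map.col`), powers of `η`, `pj`, `blk`, `prj`, `slot`, `ins0`,
`telPi, telD, telK, telE, ..`, the big operators, `Yc`, `trR`, `EV`. -/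
def SpecNAT : Prop :=
  ∀ (K K' V V' W W' C ι : Type) [CommRing K] [CommRing K'] [Fintype C] (φ : K →+* K') (α : V → V')
    (β : W → W') (D : Cov K V W C) (D' : Cov K' V' W' C) (deg : ι → ℤ) (lo : ℤ) (n : ℕ)
    (e : V → (ι → K) →ₗ[K] (ι → K)) (R : V → List V → ((ι → K) →ₗ[K] (ι → K)))
    (e' : V' → (ι → K') →ₗ[K'] (ι → K')) (R' : V' → List V' → ((ι → K') →ₗ[K'] (ι → K'))),
    Cov.Map φ α β D D' → CoNat φ α R R' → (∀ v, LNat φ (e v) (e' (α v))) →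
    (∀ w, LNat φ (oE D deg lo n R w) (oE D' deg lo n R' (β w))) ∧
    CoNat φ β (oR D deg lo n R) (oR D' deg lo n R') ∧
    CoNat φ α (oPsi D deg lo n R e) (oPsi D' deg lo n R' e')

/-- **NTA** (naturality of averages, 80 lines; independent).  Induction on the list. -/
def SpecNTA : Prop :=
  ∀ (K K' V V' W W' C ι κ : Type) [CommRing K] [CommRing K'] [Fintype C] (φ : K →+* K')
    (α : V → V') (β : W → W') (D : Cov K V W C) (D' : Cov K' V' W' C)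
    (A : V → List V → ((ι → K) →ₗ[K] (κ → K))) (A' : V' → List V' → ((ι → K') →ₗ[K'] (κ → K'))),
    Cov.Map φ α β D D' → CoNat φ α A A' →
    CoNat φ β (av D A) (av D' A') ∧ CoNat φ α (hr D A) (hr D' A')

/-- **AVG** (averages, 150 lines; independent).  All by induction on the list, using
`Σ_c l_c(w)^2 = 1` and `p (lift_c w) = w`:
(1) `av (fc A) = fc (av A)`; (2) `av (cv (pb B) A) = cv B (av A)`; (3) `av (cv A (pb B)) = cv (av A) B`;
(4) `av (pb B) = B`; (5) `av` preserves `IsCo`; (6) `av (F ∘ A) = F ∘ av A`. -/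
def SpecAVG : Prop :=
  ∀ (K V W C : Type) [CommRing K] [Fintype C] (D : Cov K V W C), D.Ok →
    (∀ (M N : Type) [AddCommGroup M] [Module K M] [AddCommGroup N] [Module K N]
      (A : V → List V → (M →ₗ[K] N)) w l, av D (fc A) w l = fc (av D A) w l) ∧
    (∀ (M N P : Type) [AddCommGroup M] [Module K M] [AddCommGroup N] [Module K N]
      [AddCommGroup P] [Module K P] (B : W → List W → (N →ₗ[K] P)) (A : V → List V → (M →ₗ[K] N))
      w l, av D (cv (pb D.p B) A) w l = cv B (av D A) w l) ∧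
    (∀ (M N P : Type) [AddCommGroup M] [Module K M] [AddCommGroup N] [Module K N]
      [AddCommGroup P] [Module K P] (A : V → List V → (N →ₗ[K] P)) (B : W → List W → (M →ₗ[K] N))
      w l, av D (cv A (pb D.p B)) w l = cv (av D A) B w l) ∧
    (∀ (M N : Type) [AddCommGroup M] [Module K M] [AddCommGroup N] [Module K N]
      (B : W → List W → (M →ₗ[K] N)) w l, av D (pb D.p B) w l = B w l) ∧
    (∀ (ι κ : Type) (deg : ι → ℤ) (deg' : κ → ℤ) (t : ℤ) (eE : W → (ι → K) →ₗ[K] (ι → K))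
      (eF : W → (κ → K) →ₗ[K] (κ → K)) (A : V → List V → ((ι → K) →ₗ[K] (κ → K))),
      IsCo deg deg' t (fun v => eE (D.p v)) (fun v => eF (D.p v)) A →
      IsCo deg deg' t eE eF (av D A)) ∧
    (∀ (M N P : Type) [AddCommGroup M] [Module K M] [AddCommGroup N] [Module K N]
      [AddCommGroup P] [Module K P] (F : N →ₗ[K] P) (A : V → List V → (M →ₗ[K] N)) w l,
      av D (fun v l => F ∘ₗ A v l) w l = F ∘ₗ av D A w l)

/-- **HRA** (the homotopy formula, 300 lines; uses LEI, AVG).  `RE`, `RF` unital on `W`, `A` of total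
degree `t` on `V`, `H = θ hr A` (total degree `t - 1`).  Claim:
`DD (t-1) H + θ hr (DD t A) = pb (av A) - A` (for the pulled back `RE`, `RF`).
Write `⟨⟩` for averages, `w_i = p v_i`, and `ṽ` for lifts;
`hr A (v_0..v_k) = Σ_j (-1)^j ⟨A(v_0..v_j, ṽ_j..ṽ_k)⟩`.
* `fc (hr A) + hr (fc A) = 0`: omitting `v_i` (`0<i<j`) or `ṽ_m` (`j<m<k`) occurs in both with opposite
  signs; in `hr (fc A)` there remain `+ ⟨A(v_0..v_(j-1), ṽ_j..ṽ_k)⟩` (`1≤j≤k`, omitting `v_j`) and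
  `- ⟨A(v_0..v_j, ṽ_(j+1)..ṽ_k)⟩` (`0≤j<k`, omitting `ṽ_j`), which cancel.
* `cv RF (θ hr A) + θ hr (cv RF A) = pb (av A)`: the list `(w_0..w_j, w_j..w_k)` has a repetition, so the
  terms of `hr (cv RF A)` with splitting point in the `ṽ` part vanish except `j = 0`, splitting point
  `ṽ_0`: `θ RF(w_0,w_0) ⟨A(ṽ_0..ṽ_k)⟩ = eF ⟨A⟩ = av A`; those with splitting point `v_i`, `i ≤ j`,
  cancel `cv RF (θ hr A)` because `θ RF_i = (-1)^(1-i) RF_i θ`.
* `(-1)^t θ [cv (hr A) RE - hr (cv A RE)] = - A`: terms of `hr (cv A RE)` with splitting point `ṽ_i` give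
  `cv (hr A) RE`; those with splitting point `v_i`, `i ≤ j`, vanish except `i = j = k`:
  `(-1)^k A(v_0..v_k) RE(w_k,w_k) = (-1)^k A θ`; and `θ A θ = (-1)^(t-k) A`.
By induction on the list it is best to prove recursive versions of the three items
(with `sh`). -/
def SpecHRA : Prop :=
  ∀ (K V W C ι κ : Type) [CommRing K] [Fintype C] [Finite ι] [Finite κ] (D : Cov K V W C) (deg : ι → ℤ) (deg' : κ → ℤ)
    (t : ℤ) (eE : W → (ι → K) →ₗ[K] (ι → K)) (eF : W → (κ → K) →ₗ[K] (κ → K))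
    (RE : W → List W → ((ι → K) →ₗ[K] (ι → K))) (RF : W → List W → ((κ → K) →ₗ[K] (κ → K)))
    (A : V → List V → ((ι → K) →ₗ[K] (κ → K))),
    D.Ok → SRuth deg eE RE → SRuth deg' eF RF →
    IsCo deg deg' t (fun v => eE (D.p v)) (fun v => eF (D.p v)) A →
    IsCo deg deg' (t - 1) (fun v => eE (D.p v)) (fun v => eF (D.p v))
      (fun v l => th K deg' ∘ₗ hr D A v l) ∧
    ∀ v l, DD deg' (t - 1) (pb D.p RE) (pb D.p RF) (fun v l => th K deg' ∘ₗ hr D A v l) v l +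
      th K deg' ∘ₗ hr D (DD deg' t (pb D.p RE) (pb D.p RF) A) v l =
      pb D.p (av D A) v l - A v l

/-- Powers of a cochain. -/
def cvPow {K V M : Type} [CommRing K] [AddCommGroup M] [Module K M]
    (u : V → List V → (M →ₗ[K] M)) (A : V → List V → (M →ₗ[K] M)) :
    ℕ → V → List V → (M →ₗ[K] M)
  | 0 => u
  | n + 1 => cv A (cvPow u A n)

/-- The cochain `ν = D h - e` for a cochain `h` supported on one point lists, if
`R(v) h + h R(v) = e`: `ν (v_0..v_k) = h(v_0) R(v_0..v_k) + R(v_0..v_k) h(v_k)` for `k ≥ 1`, and `0` on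
one point lists. -/
def nuC {K V M : Type} [CommRing K] [AddCommGroup M] [Module K M] (h : V → (M →ₗ[K] M))
    (R : V → List V → (M →ₗ[K] M)) : V → List V → (M →ₗ[K] M)
  | _, [] => 0
  | v, u :: l => h v ∘ₗ R v (u :: l) + R v (u :: l) ∘ₗ h (lst v (u :: l))

/-- The contraction `h (1 + ν)⁻¹` of an acyclic representation up to homotopy. -/
def conC {K V ι : Type} [CommRing K] (e h : V → ((ι → K) →ₗ[K] (ι → K)))
    (R : V → List V → ((ι → K) →ₗ[K] (ι → K))) : V → List V → ((ι → K) →ₗ[K] (ι → K)) :=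
  fun v l => h v ∘ₗ ∑ n ∈ Finset.range (l.length + 1),
    ((-1 : ℤ) ^ n) • cvPow (unt e) (nuC h R) n v l

/-- **CON** (contraction, 250 lines; uses LEI).  `ν = DD (-1) hc - unt e` where `hc` is `h` on one
point lists and `0` else; `ν^n` vanishes on lists of `≤ n` points (i.e. `l.length < n`), so
`X = Σ_n (-1)^n ν^n` is well defined and
`X + ν X = unt e = X + X ν`; `DD ν = 0` (`DD DD = 0`, `DD (unt e) = 0`) and the Leibniz rule give
`DD X = 0`, so `DD (hc X) = (DD hc) X = (unt e + ν) X = unt e`.  Here `DD` is taken with `R` on both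
sides; `DD DD = 0` and Leibniz follow from LEI and the equation of `R`. -/
def SpecCON : Prop :=
  ∀ (K V ι : Type) [CommRing K] [Finite ι] (deg : ι → ℤ) (e h : V → (ι → K) →ₗ[K] (ι → K))
    (R : V → List V → ((ι → K) →ₗ[K] (ι → K))),
    PreRuth deg e R → (∀ v, e v ∘ₗ h v = h v) → (∀ v, h v ∘ₗ e v = h v) →
    (∀ v, Deg deg deg (h v) (-1)) → (∀ v, R v [] ∘ₗ h v + h v ∘ₗ R v [] = e v) →
    IsCo deg deg (-1) e e (conC e h R) ∧
    ∀ v l, DD deg (-1) R R (conC e h R) v l = unt e v l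

end Pool.Agent.Lib.MP_9b987c_gt.HC
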