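import Pool.Agent.Lib.MP_9b987c_gt.HC.Gpd
import Pool.Agent.Lib.MP_9b987c_gt.HC.SpecA

/-!
# Frames: functors from pair groupoids to a Lie groupoid

A frame on a set `V` is a functor from the pair groupoid of `V` to `G`.  Cochains on `G` are the same
as natural families of cochains on all frames.
-/

namespace Pool.Agent.Lib.MP_9b987c_gt.HC

open scoped Manifold ContDiff BigOperators

/-- A frame: a functor from the pair groupoid of `V` to `G`; `c v u` is an arrow from `b u` to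
`b v`. -/
structure Frame (G : LieGpd) (V : Type) where
  b : V → G.Ob
  c : V → V → G.Ar
  src_c : ∀ v u, G.src (c v u) = b u
  tgt_c : ∀ v u, G.tgt (c v u) = b v
  c_one : ∀ v, c v v = G.one (b v)
  c_mul : ∀ v u w, G.mul (c v u) (c u w) = c v w

namespace Frame

variable {G : LieGpd} {V V' : Type}

/-- The chain of arrows of a list of points. -/
def arr (F : Frame G V) : V → List V → List G.Ar
  | _, [] => []
  | v, u :: l => F.c v u :: arr F u l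

/-- Pullback of a family on `G` to the frame. -/
def hom (F : Frame G V) {X : Type*} (A : G.Ob → List G.Ar → X) : V → List V → X :=
  fun v l => A (F.b v) (F.arr v l)

/-- Maps of frames. -/
structure Map (F : Frame G V) (F' : Frame G V') (α : V → V') : Prop where
  b : ∀ v, F'.b (α v) = F.b v
  c : ∀ v u, F'.c (α v) (α u) = F.c v u

end Frame

/-- The frame of all arrows starting at `x`: `b g = tgt g`, `c g h = g h⁻¹`. -/
def wf (G : LieGpd) (x : G.Ob) : Frame G {g : G.Ar // G.src g = x} where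
  b g := G.tgt g.1
  c g h := G.mul g.1 (G.inv h.1)
  src_c g h := by
    rw [G.src_mul _ _ (by rw [G.tgt_inv, g.2, h.2]), G.src_inv]
  tgt_c g h := by rw [G.tgt_mul _ _ (by rw [G.tgt_inv, g.2, h.2])]
  c_one g := G.mul_inv g.1
  c_mul g h k := by
    have h1 : G.src g.1 = G.tgt (G.inv h.1) := by rw [G.tgt_inv, g.2, h.2]
    have h2 : G.src h.1 = G.tgt (G.inv k.1) := by rw [G.tgt_inv, h.2, k.2]
    have h3 : G.src (G.inv h.1) = G.tgt (G.mul h.1 (G.inv k.1)) := by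
      rw [G.src_inv, G.tgt_mul _ _ h2]
    rw [G.mul_assoc _ _ _ h1 h3, ← G.mul_assoc _ _ _ (G.src_inv _) h2, G.inv_mul, h.2]
    congr 1
    have h4 := G.one_mul (G.inv k.1)
    rw [G.tgt_inv, k.2] at h4
    exact h4

/-- The base point of `wf G x`. -/
def wf0 (G : LieGpd) (x : G.Ob) : {g : G.Ar // G.src g = x} := ⟨G.one x, G.src_one x⟩

section Hyper

variable {G' G : LieGpd} (φ : Hypercover G' G)

/-- A frame of `G'` gives a frame of `G`. -/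
def Frame.push {V : Type} (F : Frame G' V) : Frame G V where
  b v := φ.ob (F.b v)
  c v u := φ.ar (F.c v u)
  src_c v u := by rw [φ.src_ar, F.src_c]
  tgt_c v u := by rw [φ.tgt_ar, F.tgt_c]
  c_one v := by rw [F.c_one, φ.ar_one]
  c_mul v u w := by
    rw [← F.c_mul v u w, φ.ar_mul _ _ (by rw [F.src_c, F.tgt_c])]

open Classical in
/-- The arrow of `G'` from `x'` to `y'` over `g`. -/
noncomputable def upA (y' : G'.Ob) (g : G.Ar) (x' : G'.Ob) : G'.Ar :=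
  if h : φ.ob y' = G.tgt g ∧ φ.ob x' = G.src g then (φ.cart y' g x' h.1 h.2).choose
  else G'.one y'

lemma upA_spec {y' : G'.Ob} {g : G.Ar} {x' : G'.Ob} (h : φ.ob y' = G.tgt g)
    (h' : φ.ob x' = G.src g) :
    G'.tgt (upA φ y' g x') = y' ∧ G'.src (upA φ y' g x') = x' ∧ φ.ar (upA φ y' g x') = g := by
  have hh : φ.ob y' = G.tgt g ∧ φ.ob x' = G.src g := ⟨h, h'⟩
  rw [upA, dif_pos hh]
  exact (φ.cart y' g x' h h').choose_spec.1

lemma up_unique {g₁ g₂ : G'.Ar} (h1 : G'.tgt g₁ = G'.tgt g₂) (h2 : G'.src g₁ = G'.src g₂)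
    (h3 : φ.ar g₁ = φ.ar g₂) : g₁ = g₂ := by
  obtain ⟨g, -, hg⟩ := φ.cart (G'.tgt g₂) (φ.ar g₂) (G'.src g₂) (φ.tgt_ar g₂).symm
    (φ.src_ar g₂).symm
  rw [hg g₁ ⟨h1, h2, h3⟩, hg g₂ ⟨rfl, rfl, rfl⟩]

/-- Pairs of an object of `G'` and a point of a frame of `G` over the same object of `G`. -/
abbrev VV {W : Type} (F : Frame G W) : Type := {q : G'.Ob × W // φ.ob q.1 = F.b q.2}

/-- The induced frame of `G'` on the pairs. -/
noncomputable def upF {W : Type} (F : Frame G W) : Frame G' (VV φ F) where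
  b q := q.1.1
  c q r := upA φ q.1.1 (F.c q.1.2 r.1.2) r.1.1
  src_c q r := (upA_spec φ (by rw [q.2, F.tgt_c]) (by rw [r.2, F.src_c])).2.1
  tgt_c q r := (upA_spec φ (by rw [q.2, F.tgt_c]) (by rw [r.2, F.src_c])).1
  c_one q := by
    have h := upA_spec φ (y' := q.1.1) (g := F.c q.1.2 q.1.2) (x' := q.1.1)
      (by rw [q.2, F.tgt_c]) (by rw [q.2, F.src_c])
    apply up_unique φ
    · rw [h.1, G'.tgt_one]
    · rw [h.2.1, G'.src_one]
    · rw [h.2.2, φ.ar_one, F.c_one, q.2]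
  c_mul q r s := by
    have h1 := upA_spec φ (y' := q.1.1) (g := F.c q.1.2 r.1.2) (x' := r.1.1)
      (by rw [q.2, F.tgt_c]) (by rw [r.2, F.src_c])
    have h2 := upA_spec φ (y' := r.1.1) (g := F.c r.1.2 s.1.2) (x' := s.1.1)
      (by rw [r.2, F.tgt_c]) (by rw [s.2, F.src_c])
    have h3 := upA_spec φ (y' := q.1.1) (g := F.c q.1.2 s.1.2) (x' := s.1.1)
      (by rw [q.2, F.tgt_c]) (by rw [s.2, F.src_c])
    have h : G'.src (upA φ q.1.1 (F.c q.1.2 r.1.2) r.1.1) =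
        G'.tgt (upA φ r.1.1 (F.c r.1.2 s.1.2) s.1.1) := by rw [h1.2.1, h2.1]
    apply up_unique φ
    · rw [G'.tgt_mul _ _ h, h1.1, h3.1]
    · rw [G'.src_mul _ _ h, h2.2.1, h3.2.1]
    · rw [φ.ar_mul _ _ h, h1.2.2, h2.2.2, h3.2.2, F.c_mul]

/-- The embedding of a frame of `G'` in the induced frame of its push forward. -/
def jF {V : Type} (F : Frame G' V) : V → VV φ (F.push φ) := fun v => ⟨(F.b v, v), rfl⟩

lemma jF_map {V : Type} (F : Frame G' V) : Frame.Map F (upF φ (F.push φ)) (jF φ F) where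
  b v := rfl
  c v u := by
    have h := upA_spec φ (y' := F.b v) (g := φ.ar (F.c v u)) (x' := F.b u)
      (by rw [φ.tgt_ar, F.tgt_c]) (by rw [φ.src_ar, F.src_c])
    apply up_unique φ
    · exact h.1.trans (F.tgt_c v u).symm
    · exact h.2.1.trans (F.src_c v u).symm
    · exact h.2.2

/-- Topological data for a hypercover: a finite open cover of `G.Ob` with smooth local sections of
`φ.ob` (extended to set theoretic sections), weights `l` with `Σ l^2 = 1` and cut-offs `tau` with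
support in the open sets, `tau = 1` on the support of `l`. -/
structure TopData (φ : Hypercover G' G) where
  N : ℕ
  U : Fin N → Set G.Ob
  σ : Fin N → G.Ob → G'.Ob
  l : Fin N → G.Ob → ℝ
  tau : Fin N → G.Ob → ℝ
  isOpen : ∀ c, IsOpen (U c)
  sec : ∀ c x, φ.ob (σ c x) = x
  smooth_σ : ∀ c, ContMDiffOn (𝓡 G.m) (𝓡 G'.m) ∞ (σ c) (U c)
  smooth_l : ∀ c, ContMDiff (𝓡 G.m) 𝓘(ℝ, ℝ) ∞ (l c)
  smooth_tau : ∀ c, ContMDiff (𝓡 G.m) 𝓘(ℝ, ℝ) ∞ (tau c)
  supp : ∀ c, tsupport (tau c) ⊆ U c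
  sum_sq : ∀ x, ∑ c, l c x ^ 2 = 1
  tau_l : ∀ c x, tau c x * l c x = l c x

/-- The covering data of a frame of `G`. -/
noncomputable def cvF {φ : Hypercover G' G} (T : TopData φ) {W : Type} (F : Frame G W) :
    Cov ℝ (VV φ F) W (Fin T.N) where
  p q := q.1.2
  lift c w := ⟨(T.σ c (F.b w), w), T.sec c _⟩
  l c w := T.l c (F.b w)
  tau c w := T.tau c (F.b w)

end Hyper

section Hat

variable {G : LieGpd} {ι κ : Type}

/-- `(-1)^(k (k-1) / 2)`. -/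
def cK (k : ℕ) : ℝ := (-1) ^ (k * (k - 1) / 2)

/-- The twist between the Arias Abad - Crainic convention and the hat convention:
`(tw A)_k = (-1)^(k(k-1)/2) A_k θ^k`. -/
def tw (deg : ι → ℤ) (A : G.Ob → List G.Ar → (ι → ℝ) →ₗ[ℝ] (κ → ℝ)) :
    G.Ob → List G.Ar → (ι → ℝ) →ₗ[ℝ] (κ → ℝ) :=
  fun x l => cK l.length •
    (A x l ∘ₗ ((th ℝ deg ^ l.length : Module.End ℝ (ι → ℝ)) : (ι → ℝ) →ₗ[ℝ] (ι → ℝ)))

/-- Smooth dependence of a family of linear maps on an object. -/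
def SmoothE (G : LieGpd) {ι κ : Type} [DecidableEq ι] (e : G.Ob → (ι → ℝ) →ₗ[ℝ] (κ → ℝ)) : Prop :=
  ∀ i j, ContMDiff (𝓡 G.m) 𝓘(ℝ, ℝ) ∞ (fun x => e x (Pi.single j 1) i)

/-- Representations up to homotopy in the hat form. -/
structure HRuth (G : LieGpd) {ι : Type} [Fintype ι] [DecidableEq ι] (deg : ι → ℤ)
    (e : G.Ob → (ι → ℝ) →ₗ[ℝ] (ι → ℝ)) (R : G.Ob → List G.Ar → (ι → ℝ) →ₗ[ℝ] (ι → ℝ)) : Prop where
  e_smooth : SmoothE G e
  zero : ∀ x l, ¬ G.Chain x l → R x l = 0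
  smooth : G.Smooth R
  sr : ∀ (V : Type) (F : Frame G V), SRuth deg (fun v => e (F.b v)) (F.hom R)

/-- Smooth cochains of total degree `t` in the hat form. -/
structure HCo (G : LieGpd) {ι κ : Type} [Fintype ι] [DecidableEq ι] [Fintype κ] [DecidableEq κ]
    (deg : ι → ℤ) (deg' : κ → ℤ) (t : ℤ) (e : G.Ob → (ι → ℝ) →ₗ[ℝ] (ι → ℝ))
    (e' : G.Ob → (κ → ℝ) →ₗ[ℝ] (κ → ℝ)) (A : G.Ob → List G.Ar → (ι → ℝ) →ₗ[ℝ] (κ → ℝ)) :
    Prop where
  zero : ∀ x l, ¬ G.Chain x l → A x l = 0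
  smooth : G.Smooth A
  co : ∀ (V : Type) (F : Frame G V),
    IsCo deg deg' t (fun v => e (F.b v)) (fun v => e' (F.b v)) (F.hom A)

/-- Closed cochains of total degree `0` in the hat form. -/
def HCl (G : LieGpd) {ι κ : Type} (deg' : κ → ℤ) (R : G.Ob → List G.Ar → (ι → ℝ) →ₗ[ℝ] (ι → ℝ))
    (R' : G.Ob → List G.Ar → (κ → ℝ) →ₗ[ℝ] (κ → ℝ))
    (A : G.Ob → List G.Ar → (ι → ℝ) →ₗ[ℝ] (κ → ℝ)) : Prop :=
  ∀ (V : Type) (F : Frame G V) v l, DD deg' 0 (F.hom R) (F.hom R') (F.hom A) v l = 0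

/-- Homotopy of cochains of total degree `0` in the hat form. -/
def Htp (G : LieGpd) {ι κ : Type} [Fintype ι] [DecidableEq ι] [Fintype κ] [DecidableEq κ]
    (deg : ι → ℤ) (e : G.Ob → (ι → ℝ) →ₗ[ℝ] (ι → ℝ)) (R : G.Ob → List G.Ar → (ι → ℝ) →ₗ[ℝ] (ι → ℝ))
    (deg' : κ → ℤ) (e' : G.Ob → (κ → ℝ) →ₗ[ℝ] (κ → ℝ))
    (R' : G.Ob → List G.Ar → (κ → ℝ) →ₗ[ℝ] (κ → ℝ))
    (F₁ F₂ : G.Ob → List G.Ar → (ι → ℝ) →ₗ[ℝ] (κ → ℝ)) : Prop :=
  ∃ H, HCo G deg deg' (-1) e e' H ∧ ∀ (V : Type) (F : Frame G V) v l,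
    F.hom F₁ v l - F.hom F₂ v l = DD deg' (-1) (F.hom R) (F.hom R') (F.hom H) v l

end Hat

section Blocks

variable {K : Type*} [CommRing K] {ι₁ ι₂ κ₁ κ₂ : Type}

/-- First projection. -/
def pL (K : Type*) [CommRing K] (ι₁ ι₂ : Type) : (ι₁ ⊕ ι₂ → K) →ₗ[K] (ι₁ → K) :=
  LinearMap.funLeft K K Sum.inl
/-- Second projection. -/
def pR (K : Type*) [CommRing K] (ι₁ ι₂ : Type) : (ι₁ ⊕ ι₂ → K) →ₗ[K] (ι₂ → K) :=
  LinearMap.funLeft K K Sum.inr
/-- First injection. -/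
def iL (K : Type*) [CommRing K] (ι₁ ι₂ : Type) : (ι₁ → K) →ₗ[K] (ι₁ ⊕ ι₂ → K) where
  toFun z := Sum.elim z 0
  map_add' x y := by funext i; cases i <;> simp
  map_smul' c x := by funext i; cases i <;> simp
/-- Second injection. -/
def iR (K : Type*) [CommRing K] (ι₁ ι₂ : Type) : (ι₂ → K) →ₗ[K] (ι₁ ⊕ ι₂ → K) where
  toFun z := Sum.elim 0 z
  map_add' x y := by funext i; cases i <;> simp
  map_smul' c x := by funext i; cases i <;> simp

/-- The block operator with rows `(A, B)` and `(C, D)`. -/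
def mat2 (A : (ι₁ → K) →ₗ[K] (κ₁ → K)) (B : (ι₂ → K) →ₗ[K] (κ₁ → K))
    (C : (ι₁ → K) →ₗ[K] (κ₂ → K)) (D : (ι₂ → K) →ₗ[K] (κ₂ → K)) :
    (ι₁ ⊕ ι₂ → K) →ₗ[K] (κ₁ ⊕ κ₂ → K) :=
  iL K κ₁ κ₂ ∘ₗ (A ∘ₗ pL K ι₁ ι₂ + B ∘ₗ pR K ι₁ ι₂) +
    iR K κ₁ κ₂ ∘ₗ (C ∘ₗ pL K ι₁ ι₂ + D ∘ₗ pR K ι₁ ι₂)

end Blocks

end Pool.Agent.Lib.MP_9b987c_gt.HC
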