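import Mathlib

/-!
# Lie groupoids and hypercovers: public definitions
-/

namespace Pool.Agent.Lib.MP_9b987c_gt.HC

open scoped Manifold ContDiff BigOperators

/-- Euclidean space `ℝ^d`. -/
abbrev Eu (d : ℕ) := EuclideanSpace ℝ (Fin d)

/-- An atlas of charts with values in `ℝ^n` on the topological space `M`. -/
abbrev Charts (n : ℕ) (M : Type) [TopologicalSpace M] := ChartedSpace (Eu n) M

/-- `M` is a smooth manifold of dimension `n`. -/
abbrev Mfd (n : ℕ) (M : Type) [TopologicalSpace M] [Charts n M] : Prop := IsManifold (𝓡 n) ∞ M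

/-- The map `f` between manifolds of dimension `m`, `n` is smooth. -/
abbrev SmMap (m n : ℕ) {M N : Type} [TopologicalSpace M] [Charts m M] [TopologicalSpace N]
    [Charts n N] (f : M → N) : Prop := ContMDiff (𝓡 m) (𝓡 n) ∞ f

/-- The map `f` between manifolds of dimension `m`, `n` is a smooth submersion. -/
abbrev Subm (m n : ℕ) {M N : Type} [TopologicalSpace M] [Charts m M] [TopologicalSpace N]
    [Charts n N] (f : M → N) : Prop := Manifold.IsSubmersion (𝓡 m) (𝓡 n) ∞ f

/-- The subset `U` of `ℝ^d` is open. -/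
abbrev OpenIn (d : ℕ) (U : Set (Eu d)) : Prop := IsOpen U

/-- `f` is a smooth map on `U ⊆ ℝ^d` with values in the manifold `M` of dimension `n`. -/
abbrev SmOn (d n : ℕ) {M : Type} [TopologicalSpace M] [Charts n M] (U : Set (Eu d))
    (f : Eu d → M) : Prop := ContMDiffOn (𝓡 d) (𝓡 n) ∞ f U

/-- A Lie groupoid: `Ob` is a Hausdorff second countable smooth manifold of dimension `m`, `Ar` is a
smooth manifold of dimension `n` (not necessarily Hausdorff), source and target are surjective
submersions, and unit, inverse and multiplication are smooth.  `mul g h` (first `h`, then `g`) is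
only meaningful when `src g = tgt h`.  Smoothness of the multiplication is expressed with smooth maps
`a, b` from open subsets of Euclidean spaces to `Ar` such that `src (a u) = tgt (b u)`: this is
smoothness on the manifold of composable pairs. -/
structure LieGpd where
  m : ℕ
  n : ℕ
  Ob : Type
  Ar : Type
  [topOb : TopologicalSpace Ob]
  [chOb : Charts m Ob]
  [manOb : Mfd m Ob]
  [t2Ob : T2Space Ob]
  [scOb : SecondCountableTopology Ob]
  [topAr : TopologicalSpace Ar]
  [chAr : Charts n Ar]
  [manAr : Mfd n Ar]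
  src : Ar → Ob
  tgt : Ar → Ob
  one : Ob → Ar
  inv : Ar → Ar
  mul : Ar → Ar → Ar
  src_surj : Function.Surjective src
  tgt_surj : Function.Surjective tgt
  src_subm : Subm n m src
  tgt_subm : Subm n m tgt
  one_smooth : SmMap m n one
  inv_smooth : SmMap n n inv
  mul_smooth : ∀ (d : ℕ) (U : Set (Eu d)) (a b : Eu d → Ar), OpenIn d U → SmOn d n U a →
    SmOn d n U b → (∀ u ∈ U, src (a u) = tgt (b u)) → SmOn d n U (fun u => mul (a u) (b u))
  src_one : ∀ x, src (one x) = x
  tgt_one : ∀ x, tgt (one x) = x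
  src_inv : ∀ g, src (inv g) = tgt g
  tgt_inv : ∀ g, tgt (inv g) = src g
  src_mul : ∀ g h, src g = tgt h → src (mul g h) = src h
  tgt_mul : ∀ g h, src g = tgt h → tgt (mul g h) = tgt g
  mul_assoc : ∀ g h k, src g = tgt h → src h = tgt k → mul (mul g h) k = mul g (mul h k)
  one_mul : ∀ g, mul (one (tgt g)) g = g
  mul_one : ∀ g, mul g (one (src g)) = g
  inv_mul : ∀ g, mul (inv g) g = one (src g)
  mul_inv : ∀ g, mul g (inv g) = one (tgt g)

attribute [instance] LieGpd.topOb LieGpd.chOb LieGpd.manOb LieGpd.t2Ob LieGpd.scOb LieGpd.topAr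
  LieGpd.chAr LieGpd.manAr

namespace LieGpd

variable (G : LieGpd)

/-- `G.Chain x [g_1, .., g_k]`: a chain of composable arrows `x ← x_1 ← .. ← x_k`, that is
`tgt g_1 = x` and `src g_i = tgt g_(i+1)`; these are the elements of `G_k`. -/
def Chain : G.Ob → List G.Ar → Prop
  | _, [] => True
  | x, g :: l => G.tgt g = x ∧ Chain (G.src g) l

/-- The last object `x_k` of a chain. -/
def fin : G.Ob → List G.Ar → G.Ob
  | x, [] => x
  | _, g :: l => fin (G.src g) l

/-- Multiply the entries number `j` and `j + 1` (counting from `0`) of a list of arrows. -/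
def face : ℕ → List G.Ar → List G.Ar
  | _, [] => []
  | _, [_] => []
  | 0, g :: h :: l => G.mul g h :: l
  | j + 1, g :: h :: l => g :: face j (h :: l)

end LieGpd

/-- A hypercover `G' → G` of Lie groupoids: a smooth functor `(ob, ar)`, `ob` a surjective submersion,
such that `G'_1` is the fibre product `G_1 ×_(G_0 × G_0) (G'_0 × G'_0)`: for objects `y'`, `x'` of `G'`
and an arrow `g : ob x' → ob y'` of `G` there is exactly one arrow of `G'` from `x'` to `y'` over `g`,
and it depends smoothly on `(y', g, x')` (along smooth maps from open subsets of Euclidean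
spaces). -/
structure Hypercover (G' G : LieGpd) where
  ob : G'.Ob → G.Ob
  ar : G'.Ar → G.Ar
  ob_subm : Subm G'.m G.m ob
  ob_surj : Function.Surjective ob
  ar_smooth : SmMap G'.n G.n ar
  src_ar : ∀ g, G.src (ar g) = ob (G'.src g)
  tgt_ar : ∀ g, G.tgt (ar g) = ob (G'.tgt g)
  ar_one : ∀ x, ar (G'.one x) = G.one (ob x)
  ar_mul : ∀ g h, G'.src g = G'.tgt h → ar (G'.mul g h) = G.mul (ar g) (ar h)
  cart : ∀ (y' : G'.Ob) (g : G.Ar) (x' : G'.Ob), ob y' = G.tgt g → ob x' = G.src g →
    ∃! g' : G'.Ar, G'.tgt g' = y' ∧ G'.src g' = x' ∧ ar g' = g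
  cart_smooth : ∀ (d : ℕ) (U : Set (Eu d)) (g' : Eu d → G'.Ar), OpenIn d U →
    SmOn d G'.m U (fun u => G'.tgt (g' u)) → SmOn d G'.m U (fun u => G'.src (g' u)) →
    SmOn d G.n U (fun u => ar (g' u)) → SmOn d G'.n U g'

end Pool.Agent.Lib.MP_9b987c_gt.HC
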