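import Pool.Agent.Lib.MP_9b987c_gt.HC.Base
import Pool.Agent.Lib.MP_9b987c_gt.HC.Gpd0

/-!
# Representations up to homotopy: working definitions
-/

namespace Pool.Agent.Lib.MP_9b987c_gt.HC

open scoped Manifold ContDiff BigOperators

namespace LieGpd

variable (G : LieGpd)

/-- A family of linear maps `A x [g_1, .., g_k]` depends smoothly on `(x, g_1, .., g_k) ∈ G_k`, for
every `k`: its matrix entries are smooth along all smooth maps from open subsets of Euclidean spaces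
to `G_k` (given by smooth maps `x`, `g_i` forming a chain at each point). -/
def Smooth {ι κ : Type} [DecidableEq ι]
    (A : G.Ob → List G.Ar → ((ι → ℝ) →ₗ[ℝ] (κ → ℝ))) : Prop :=
  ∀ (d k : ℕ) (U : Set (Eu d)) (x : Eu d → G.Ob) (g : Fin k → Eu d → G.Ar), IsOpen U →
    ContMDiffOn (𝓡 d) (𝓡 G.m) ∞ x U → (∀ a, ContMDiffOn (𝓡 d) (𝓡 G.n) ∞ (g a) U) →
    (∀ u ∈ U, G.Chain (x u) (List.ofFn (fun a => g a u))) →
    ∀ i j, ContDiffOn ℝ ∞ (fun u => A (x u) (List.ofFn (fun a => g a u)) (Pi.single j 1) i) U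

end LieGpd

/-- The data `(deg, e, R)` are a unital representation up to homotopy of `G`.  The bounded graded
vector bundle `E` is given as the image of a smooth idempotent `e` of degree zero of the trivial
graded bundle `ι → ℝ` with degrees `deg` (by Serre-Swan every bounded graded vector bundle of bounded
rank over the second countable Hausdorff manifold `Ob` is of this form).  `R x [g_1, .., g_k]` is the
structure operator `R_k (g_1, .., g_k) : E_(src g_k) → E_(tgt g_1)`, `x = tgt g_1`, of degree `1 - k`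
(for `k = 0` the differential of `E_x`), extended by `0` to the complement of `E` and to lists that
are not chains.  The equations are those of Arias Abad and Crainic:
`Σ_{0<j<k} (-1)^j R_{k-1}(.., g_j g_{j+1}, ..) = Σ_{0≤j≤k} (-1)^j R_j(g_1..g_j) R_{k-j}(g_{j+1}..g_k)`,
and it is unital: `R_1 (1) = id`, and `R_k`, `k ≥ 2`, vanishes if one of the arrows is a unit. -/
structure IsRuth (G : LieGpd) {ι : Type} [Fintype ι] [DecidableEq ι] (deg : ι → ℤ)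
    (e : G.Ob → (ι → ℝ) →ₗ[ℝ] (ι → ℝ)) (R : G.Ob → List G.Ar → (ι → ℝ) →ₗ[ℝ] (ι → ℝ)) : Prop where
  e_smooth : ∀ i j, ContMDiff (𝓡 G.m) 𝓘(ℝ, ℝ) ∞ (fun x => e x (Pi.single j 1) i)
  e_idem : ∀ x, e x ∘ₗ e x = e x
  e_deg : ∀ x, Deg deg deg (e x) 0
  R_zero : ∀ x l, ¬ G.Chain x l → R x l = 0
  R_smooth : G.Smooth R
  R_deg : ∀ x l, Deg deg deg (R x l) (1 - l.length)
  R_left : ∀ x l, e x ∘ₗ R x l = R x l
  R_right : ∀ x l, R x l ∘ₗ e (G.fin x l) = R x l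
  eqn : ∀ x l, G.Chain x l →
    ∑ j ∈ Finset.range (l.length - 1), ((-1 : ℝ) ^ (j + 1)) • R x (G.face j l) =
      ∑ j ∈ Finset.range (l.length + 1),
        ((-1 : ℝ) ^ j) • (R x (l.take j) ∘ₗ R (G.fin x (l.take j)) (l.drop j))
  unit_one : ∀ x, R x [G.one x] = e x
  unit_mem : ∀ x l, 2 ≤ l.length → (∃ y, G.one y ∈ l) → R x l = 0

/-- `F` is a morphism from `(deg, e, R)` to `(deg', e', R')`: `F x [g_1, .., g_k]` is the component
`F_k (g_1, .., g_k) : E_(src g_k) → E'_(tgt g_1)` of degree `- k`, with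
`Σ_{0≤j≤k} (-1)^j F_j(g_1..g_j) R_{k-j}(g_{j+1}..g_k) = Σ_{0≤j≤k} R'_j(g_1..g_j) F_{k-j}(g_{j+1}..g_k)
+ Σ_{0<j<k} (-1)^j F_{k-1}(.., g_j g_{j+1}, ..)`. -/
structure IsHom (G : LieGpd) {ι κ : Type} [Fintype ι] [DecidableEq ι] [Fintype κ] [DecidableEq κ]
    (deg : ι → ℤ) (e : G.Ob → (ι → ℝ) →ₗ[ℝ] (ι → ℝ)) (R : G.Ob → List G.Ar → (ι → ℝ) →ₗ[ℝ] (ι → ℝ))
    (deg' : κ → ℤ) (e' : G.Ob → (κ → ℝ) →ₗ[ℝ] (κ → ℝ))
    (R' : G.Ob → List G.Ar → (κ → ℝ) →ₗ[ℝ] (κ → ℝ))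
    (F : G.Ob → List G.Ar → (ι → ℝ) →ₗ[ℝ] (κ → ℝ)) : Prop where
  F_zero : ∀ x l, ¬ G.Chain x l → F x l = 0
  F_smooth : G.Smooth F
  F_deg : ∀ x l, Deg deg deg' (F x l) (-l.length)
  F_left : ∀ x l, e' x ∘ₗ F x l = F x l
  F_right : ∀ x l, F x l ∘ₗ e (G.fin x l) = F x l
  eqn : ∀ x l, G.Chain x l →
    ∑ j ∈ Finset.range (l.length + 1),
        ((-1 : ℝ) ^ j) • (F x (l.take j) ∘ₗ R (G.fin x (l.take j)) (l.drop j)) =
      ∑ j ∈ Finset.range (l.length + 1), R' x (l.take j) ∘ₗ F (G.fin x (l.take j)) (l.drop j) +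
      ∑ j ∈ Finset.range (l.length - 1), ((-1 : ℝ) ^ (j + 1)) • F x (G.face j l)

/-- The composition `(F' F)_k (g_1, .., g_k) = Σ_j F'_j (g_1..g_j) F_{k-j} (g_{j+1}..g_k)` of families
of linear maps. -/
def starG (G : LieGpd) {ι κ μ : Type} (A : G.Ob → List G.Ar → (κ → ℝ) →ₗ[ℝ] (μ → ℝ))
    (B : G.Ob → List G.Ar → (ι → ℝ) →ₗ[ℝ] (κ → ℝ)) :
    G.Ob → List G.Ar → (ι → ℝ) →ₗ[ℝ] (μ → ℝ) :=
  fun x l => ∑ j ∈ Finset.range (l.length + 1), A x (l.take j) ∘ₗ B (G.fin x (l.take j)) (l.drop j)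

/-- The identity family: `e x` on the empty chain at `x`, and `0` on nonempty lists. -/
def unitG (G : LieGpd) {ι : Type} (e : G.Ob → (ι → ℝ) →ₗ[ℝ] (ι → ℝ)) :
    G.Ob → List G.Ar → (ι → ℝ) →ₗ[ℝ] (ι → ℝ)
  | x, [] => e x
  | _, _ :: _ => 0

/-- A chain map `F` between the complexes `(image of e, d)` and `(image of e', d')` of finite
dimensional real vector spaces is a quasi-isomorphism: it induces an injective and surjective map on
cohomology. -/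
def QisAt {ι κ : Type} (e d : (ι → ℝ) →ₗ[ℝ] (ι → ℝ)) (e' d' : (κ → ℝ) →ₗ[ℝ] (κ → ℝ))
    (F : (ι → ℝ) →ₗ[ℝ] (κ → ℝ)) : Prop :=
  (∀ z, e z = z → d z = 0 → (∃ y, F z = d' y) → ∃ y, z = d y) ∧
  (∀ z', e' z' = z' → d' z' = 0 → ∃ z y, e z = z ∧ d z = 0 ∧ z' = F z + d' y)

open Classical in
/-- The pullback of a family of linear maps along a hypercover. -/
noncomputable def pullG {G' G : LieGpd} (φ : Hypercover G' G) {ι κ : Type}
    (A : G.Ob → List G.Ar → (ι → ℝ) →ₗ[ℝ] (κ → ℝ)) :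
    G'.Ob → List G'.Ar → (ι → ℝ) →ₗ[ℝ] (κ → ℝ) :=
  fun x l => if G'.Chain x l then A (φ.ob x) (l.map φ.ar) else 0

end Pool.Agent.Lib.MP_9b987c_gt.HC
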