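import Pool.Agent.Lib.MP_9b987c_gt.HC.Frames

/-!
# Topology Specs: a finite cover with sections
-/

namespace Pool.Agent.Lib.MP_9b987c_gt.HC

open scoped Manifold ContDiff BigOperators

/-- **LSC** (local sections of a surjective submersion, 150 lines).  `φ.ob` is a submersion in the
sense of Mathlib (`Manifold.IsSubmersion`): at `x'` over `x` there are charts `domChart`, `codChart` in
which it is `(a, b) ↦ a` (`IsSubmersionAt.writtenInCharts` ..).  With
`equiv (domChart x') = (codChart x, b₀)` put `σ y = domChart⁻¹ (equiv⁻¹ (codChart y, b₀))`, defined and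
smooth near `x` (charts of the maximal atlas are smooth), `φ.ob (σ y) = y`.  The charts there are
`OpenPartialHomeomorph`s to `Eu m'`, `Eu m` (model with corners `𝓡`, `extend` is the chart itself). -/
def SpecLSC : Prop :=
  ∀ (G' G : LieGpd) (φ : Hypercover G' G) (x : G.Ob), ∃ (U : Set G.Ob) (σ : G.Ob → G'.Ob),
    IsOpen U ∧ x ∈ U ∧ ContMDiffOn (𝓡 G.m) (𝓡 G'.m) ∞ σ U ∧ ∀ y ∈ U, φ.ob (σ y) = y

/-- **NUL** (a null set, 200 lines).  `M = G.Ob` has dimension `m`, `ρ_0, .., ρ_(m+1)` smooth functions.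
The set of `c ∈ ℝ^(m+2)` such that for some `x ∈ M` all `ρ_i x > 0` and all `c_i ρ_i x` are equal has
measure zero: it is contained in the image of `{(x, t) | ρ_i x > 0 for all i} ⊆ M × ℝ` under
`(x, t) ↦ (t / ρ_i x)_i`; cover `M` by countably many charts, so that this is a countable union of
images of `C^1` maps from open subsets of `ℝ^m × ℝ` to `ℝ^(m+2)`.  Such an image is null, e.g. by
`MeasureTheory.addHaar_image_eq_zero_of_det_fderiv_eq_zero` applied to the composition with a linear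
projection `ℝ^(m+2) → ℝ^m × ℝ` (the derivative has a nonzero kernel), or by `dimH`. -/
def SpecNUL : Prop :=
  ∀ (G : LieGpd) (ρ : Fin (G.m + 2) → G.Ob → ℝ), (∀ i, ContMDiff (𝓡 G.m) 𝓘(ℝ, ℝ) ∞ (ρ i)) →
    MeasureTheory.volume {c : Fin (G.m + 2) → ℝ | ∃ x, (∀ i, 0 < ρ i x) ∧
      ∀ i j, c i * ρ i x = c j * ρ j x} = 0

/-- **GEN** (generic constants, 150 lines; uses NUL).  Take the product probability measure
(`MeasureTheory.Measure.infinitePi`) of the uniform measures on `[1, 2]` on `ℕ → ℝ`; for each of the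
countably many injections `s : Fin (m+2) → ℕ` the set of bad `c` is the preimage under
`c ↦ c ∘ s` of the null set of NUL (the marginal is a product measure, absolutely continuous with
respect to `volume`), so the union of the bad sets is null and a good `c` exists. -/
def SpecGEN : Prop :=
  ∀ (G : LieGpd) (ρ : ℕ → G.Ob → ℝ), (∀ i, ContMDiff (𝓡 G.m) 𝓘(ℝ, ℝ) ∞ (ρ i)) →
    ∃ c : ℕ → ℝ, (∀ i, 1 ≤ c i ∧ c i ≤ 2) ∧
      ∀ s : Fin (G.m + 2) → ℕ, Function.Injective s → ∀ x, (∀ i, 0 < ρ (s i) x) →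
        ¬ ∀ i j, c (s i) * ρ (s i) x = c (s j) * ρ (s j) x

/-- **OST** (finitely many colours, 250 lines; uses GEN).  `P` a property of open sets.  Choose a
countable cover `U_n` by open sets with `P` (Lindelof) and a smooth partition of unity `ρ_n ≥ 0`
subordinate to it (locally finite, `ρ_n x > 0` implies `x ∈ U_n`, index `ℕ`), `f_n = c_n ρ_n` with
GEN.  For a finite nonempty `S ⊆ ℕ` let `W_S = {x | f_i x > f_j x for all i ∈ S, j ∉ S}`.  As there is
some `j ∉ S` and `f_j ≥ 0`, `f_i x > 0` on `W_S` for `i ∈ S`, so `W_S ⊆ U_i`; `W_S` is open (near `x`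
only finitely many `f_j` are nonzero); `W_S ∩ W_S' = ∅` if `S ≠ S'` have the same number of elements.
For `x` let `S` be the (finite, nonempty) set of indices where `f_i x` is maximal: `x ∈ W_S` and by
GEN `S` has at most `m + 1` elements.  Colour `c : Fin (m + 1)`: the sets with `c + 1` elements. -/
def SpecOST : Prop :=
  ∀ (G : LieGpd) (P : Set G.Ob → Prop), (∀ x, ∃ U, IsOpen U ∧ x ∈ U ∧ P U) →
    (∀ U V, P U → V ⊆ U → IsOpen V → P V) →
    ∃ W : Fin (G.m + 1) → Finset ℕ → Set G.Ob,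
      (∀ c S, IsOpen (W c S)) ∧ (∀ c S, P (W c S) ∨ W c S = ∅) ∧
      (∀ c S S', S ≠ S' → Disjoint (W c S) (W c S')) ∧ ∀ x, ∃ c S, x ∈ W c S

/-- **PUN** (weights and cut-offs, 200 lines).  Smooth partition of unity `χ_c` subordinate to the
finite open cover, `l_c = χ_c / √(Σ χ^2)` (`Σ χ^2 > 0`), `tsupport l_c ⊆ tsupport χ_c ⊆ U c`;
`tau_c = 1` on `tsupport l_c` with `tsupport tau_c ⊆ U c` (smooth Urysohn between the closed sets
`tsupport l_c` and the complement of an open set `O` with `tsupport l_c ⊆ O ⊆ closure O ⊆ U c`;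
`G.Ob` is normal). -/
def SpecPUN : Prop :=
  ∀ (G : LieGpd) (N : ℕ) (U : Fin N → Set G.Ob), (∀ c, IsOpen (U c)) → (∀ x, ∃ c, x ∈ U c) →
    ∃ l tau : Fin N → G.Ob → ℝ, (∀ c, ContMDiff (𝓡 G.m) 𝓘(ℝ, ℝ) ∞ (l c)) ∧
      (∀ c, ContMDiff (𝓡 G.m) 𝓘(ℝ, ℝ) ∞ (tau c)) ∧ (∀ c, tsupport (tau c) ⊆ U c) ∧
      (∀ x, ∑ c, l c x ^ 2 = 1) ∧ ∀ c x, tau c x * l c x = l c x

/-- **TOP** (assembly, 150 lines; uses LSC, OST, PUN).  `P U`: there is a section `σ` smooth on `U`
with `φ.ob (σ y) = y` on `U`.  On `U c = ⋃_S W c S` (disjoint open sets) define `σ c` by the section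
of the unique `W c S` containing the point, and by any preimage elsewhere; it is smooth on `U c`
because this is local. -/
def SpecTOP : Prop :=
  ∀ (G' G : LieGpd) (φ : Hypercover G' G), Nonempty (TopData φ)

end Pool.Agent.Lib.MP_9b987c_gt.HC
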